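import Pool.Agent.Lib.MP_a17342_co.RT.Far

/-!
# Blowing up the contracted vertex
-/

set_option autoImplicit false

namespace MP_a17342_co.RT

variable {V : Type}

private def Blow_perp (a b c d : P) : Prop :=
  (b.1 - a.1) * (d.1 - c.1) + (b.2 - a.2) * (d.2 - c.2) = 0

private theorem Blow_perp1 {a b c d : P} (h : Blow_perp a b c d) : Blow_perp b a c d := by
  unfold Blow_perp at *
  linear_combination -h

private theorem Blow_perp2 {a b c d : P} (h : Blow_perp a b c d) : Blow_perp a b d c := by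
  unfold Blow_perp at *
  linear_combination -h

private theorem Blow_perp3 {a b c d : P} (h : Blow_perp a b c d) : Blow_perp c d a b := by
  unfold Blow_perp at *
  linear_combination h

/-- the condition on a pair of edges -/
private def Blow_K (Q : V → P) (a b c d : V) : Prop :=
  (segment ℝ (Q a) (Q b) ∩ segment ℝ (Q c) (Q d)).Nonempty → Blow_perp (Q a) (Q b) (Q c) (Q d)

private theorem Blow_K1 {Q : V → P} {a b c d : V} (h : Blow_K Q a b c d) : Blow_K Q b a c d := by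
  intro h'
  rw [segment_symm] at h'
  exact Blow_perp1 (h h')

private theorem Blow_K3 {Q : V → P} {a b c d : V} (h : Blow_K Q a b c d) : Blow_K Q c d a b := by
  intro h'
  rw [Set.inter_comm] at h'
  exact Blow_perp3 (h h')

private theorem Blow_K2 {Q : V → P} {a b c d : V} (h : Blow_K Q a b c d) : Blow_K Q a b d c :=
  Blow_K3 (Blow_K1 (Blow_K3 h))

theorem blow [Finite V] {G : SimpleGraph V} {W : Set V} {w : V} (hw : w ∈ W)
    (huniq : ∀ x ∈ W, ∀ x' ∈ W, ∀ y, y ∉ W → G.Adj x y → G.Adj x' y → x = x')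
    {p : V → P} (hp : Draws (ctr G W w) (fun x => p x.1)) (γ : V → P)
    (h1 : ∀ x ∈ W, ∀ x' ∈ W, γ x = γ x' → x = x')
    (h2 : ∀ x ∈ W, ∀ y, y ∉ W → G.Adj x y → ∃ t : ℝ, 0 ≤ t ∧ γ x = t • (p y - p w))
    (h3 : ∀ a ∈ W, ∀ b ∈ W, ∀ c ∈ W, G.Adj a b → c ≠ a → c ≠ b → γ c ∉ segment ℝ (γ a) (γ b))
    (h4 : ∀ x ∈ W, ∀ y, y ∉ W → ∀ c ∈ W, G.Adj x y → c ≠ x → ∀ s : ℝ, 0 ≤ s →
      γ c ≠ γ x + s • (p y - p w))
    (h5 : ∀ a ∈ W, ∀ b ∈ W, ∀ c ∈ W, ∀ d ∈ W, G.Adj a b → G.Adj c d → a ≠ c → a ≠ d → b ≠ c →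
      b ≠ d → (segment ℝ (γ a) (γ b) ∩ segment ℝ (γ c) (γ d)).Nonempty →
      ip (γ b - γ a) (γ d - γ c) = 0)
    (h6 : ∀ a ∈ W, ∀ b ∈ W, ∀ x ∈ W, ∀ y, y ∉ W → G.Adj a b → G.Adj x y → x ≠ a → x ≠ b →
      ∀ s : ℝ, 0 ≤ s → γ x + s • (p y - p w) ∉ segment ℝ (γ a) (γ b))
    (h7 : ∀ x ∈ W, ∀ x' ∈ W, ∀ y, y ∉ W → ∀ y', y' ∉ W → G.Adj x y → G.Adj x' y' → x ≠ x' →
      y ≠ y' → ∀ s s' : ℝ, 0 ≤ s → 0 ≤ s' → γ x + s • (p y - p w) ≠ γ x' + s' • (p y' - p w)) :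
    RAC G := by
  classical
  obtain ⟨r, hr, F1, F2⟩ := far hw hp
  obtain ⟨M, hM⟩ := (Set.finite_range (fun x => ‖γ x‖)).bddAbove
  have hM' : ∀ x, ‖γ x‖ ≤ M := fun x => hM ⟨x, rfl⟩
  have hM0 : 0 < |M| + 1 := by positivity
  obtain ⟨ε, hε0, hεγ⟩ : ∃ ε : ℝ, 0 < ε ∧ ∀ x, ε * ‖γ x‖ < r := by
    refine ⟨r / (|M| + 1), div_pos hr hM0, fun x => ?_⟩
    have h : ‖γ x‖ < |M| + 1 := (hM' x).trans_lt (by linarith [le_abs_self M])
    calc r / (|M| + 1) * ‖γ x‖ < r / (|M| + 1) * (|M| + 1) := mul_lt_mul_of_pos_left h (div_pos hr hM0)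
      _ = r := div_mul_cancel₀ r hM0.ne'
  obtain ⟨Q, QW, QO⟩ : ∃ Q : V → P, (∀ x ∈ W, Q x = p w + ε • γ x) ∧ ∀ x, x ∉ W → Q x = p x :=
    ⟨fun x => if x ∈ W then p w + ε • γ x else p x, fun x hx => if_pos hx, fun x hx => if_neg hx⟩
  have hball : ∀ x ∈ W, Q x ∈ Metric.ball (p w) r := by
    intro x hx
    rw [QW x hx, Metric.mem_ball, dist_eq_norm, add_sub_cancel_left, norm_smul, Real.norm_eq_abs,
      abs_of_pos hε0]
    exact hεγ x
  have canc : ∀ u v : P, p w + ε • u = p w + ε • v → u = v := fun u v h =>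
    smul_right_injective P hε0.ne' (add_left_cancel h)
  have segWW : ∀ a ∈ W, ∀ b ∈ W, segment ℝ (Q a) (Q b) ⊆ Metric.ball (p w) r := fun a ha b hb =>
    (convex_ball (p w) r).segment_subset (hball a ha) (hball b hb)
  have segWW' : ∀ a ∈ W, ∀ b ∈ W, ∀ z ∈ segment ℝ (Q a) (Q b),
      ∃ u ∈ segment ℝ (γ a) (γ b), z = p w + ε • u := by
    rintro a ha b hb z ⟨s, t, hs, ht, hst, rfl⟩
    refine ⟨s • γ a + t • γ b, ⟨s, t, hs, ht, hst, rfl⟩, ?_⟩
    rw [QW a ha, QW b hb]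
    have e : p w = (s + t) • p w := by rw [hst, one_smul]
    calc s • (p w + ε • γ a) + t • (p w + ε • γ b) = (s + t) • p w + ε • (s • γ a + t • γ b) := by module
      _ = _ := by rw [← e]
  have tt : ∀ x ∈ W, ∀ y, y ∉ W → G.Adj x y → ∃ t : ℝ, 0 ≤ t ∧ t < 1 ∧ ε • γ x = t • (p y - p w) := by
    intro x hx y hy hxy
    obtain ⟨t, ht, hxt⟩ := h2 x hx y hy hxy
    refine ⟨ε * t, mul_nonneg hε0.le ht, ?_, by rw [hxt, smul_smul]⟩
    have h := hεγ x
    rw [hxt, norm_smul, Real.norm_eq_abs, abs_of_nonneg ht] at h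
    have hy' := F1 y hy
    rw [Metric.mem_ball, dist_eq_norm, not_lt] at hy'
    by_contra hc
    push Not at hc
    have h' : 1 * r ≤ ε * t * ‖p y - p w‖ := mul_le_mul hc hy' hr.le (mul_nonneg hε0.le ht)
    linarith
  have segWO : ∀ x ∈ W, ∀ y, y ∉ W → G.Adj x y → segment ℝ (Q x) (Q y) ⊆ segment ℝ (p w) (p y) := by
    intro x hx y hy hxy
    obtain ⟨t, ht, ht1, e⟩ := tt x hx y hy hxy
    rw [QO y hy]
    refine (convex_segment (p w) (p y)).segment_subset ?_ (right_mem_segment ℝ _ _)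
    rw [QW x hx, e]
    refine ⟨1 - t, t, by linarith, ht, by ring, ?_⟩
    module
  have segWO' : ∀ x ∈ W, ∀ y, y ∉ W → G.Adj x y → ∀ z ∈ segment ℝ (Q x) (Q y),
      ∃ s : ℝ, 0 ≤ s ∧ z = p w + ε • (γ x + s • (p y - p w)) := by
    rintro x hx y hy hxy z ⟨s', s, hs', hs, hss, rfl⟩
    obtain ⟨t, ht, ht1, e⟩ := tt x hx y hy hxy
    refine ⟨ε⁻¹ * (s * (1 - t)), mul_nonneg (inv_nonneg.2 hε0.le) (mul_nonneg hs (by linarith)), ?_⟩
    have e2 : ε • (γ x + (ε⁻¹ * (s * (1 - t))) • (p y - p w)) = ε • γ x + (s * (1 - t)) • (p y - p w) := by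
      rw [smul_add, smul_smul, ← mul_assoc, mul_inv_cancel₀ hε0.ne', one_mul]
    rw [e2, QW x hx, QO y hy, e]
    obtain rfl : s' = 1 - s := by linarith
    module
  have wne : ∀ c, c ∉ W → c ≠ w := by
    rintro c hc rfl
    exact hc hw
  -- the conditions of the drawing of the contraction
  have A1 : ∀ x, x ∉ W → ∀ y, y ∉ W → p x = p y → x = y := fun x hx y hy h =>
    congrArg Subtype.val (@hp.1 ⟨x, Or.inl hx⟩ ⟨y, Or.inl hy⟩ h)
  have B1 : ∀ a b c, a ∉ W → b ∉ W → c ∉ W → G.Adj a b → c ≠ a → c ≠ b →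
      p c ∉ segment ℝ (p a) (p b) := fun a b c ha hb hc hab h h' =>
    hp.2.1 ⟨a, Or.inl ha⟩ ⟨b, Or.inl hb⟩ ⟨c, Or.inl hc⟩ (ctr_adj' ha hb hab)
      (fun e => h (congrArg Subtype.val e)) (fun e => h' (congrArg Subtype.val e))
  have B2 : ∀ x y c, x ∈ W → y ∉ W → c ∉ W → G.Adj x y → c ≠ y → p c ∉ segment ℝ (p w) (p y) :=
    fun x y c hx hy hc hxy h =>
    hp.2.1 ⟨w, Or.inr rfl⟩ ⟨y, Or.inl hy⟩ ⟨c, Or.inl hc⟩ (ctr_adj hw hx hy hxy)
      (fun e => wne c hc (congrArg Subtype.val e)) (fun e => h (congrArg Subtype.val e))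
  have k1 : ∀ a b c d, a ∉ W → b ∉ W → c ∉ W → d ∉ W → G.Adj a b → G.Adj c d → a ≠ c → a ≠ d →
      b ≠ c → b ≠ d → Blow_K Q a b c d := by
    intro a b c d ha hb hc hd hab hcd n1 n2 n3 n4 hne
    rw [QO a ha, QO b hb, QO c hc, QO d hd] at hne ⊢
    exact hp.2.2 ⟨a, Or.inl ha⟩ ⟨b, Or.inl hb⟩ ⟨c, Or.inl hc⟩ ⟨d, Or.inl hd⟩ (ctr_adj' ha hb hab)
      (ctr_adj' hc hd hcd) (fun e => n1 (congrArg Subtype.val e)) (fun e => n2 (congrArg Subtype.val e))
      (fun e => n3 (congrArg Subtype.val e)) (fun e => n4 (congrArg Subtype.val e)) hne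
  have k2 : ∀ a b c d, a ∈ W → b ∉ W → c ∉ W → d ∉ W → G.Adj a b → G.Adj c d → b ≠ c → b ≠ d →
      Blow_K Q a b c d := by
    intro a b c d ha hb hc hd hab hcd n3 n4 hne
    have hne' : (segment ℝ (p w) (p b) ∩ segment ℝ (p c) (p d)).Nonempty := by
      rw [QO c hc, QO d hd] at hne
      obtain ⟨z, hz, hz'⟩ := hne
      exact ⟨z, segWO a ha b hb hab hz, hz'⟩
    have h := hp.2.2 ⟨w, Or.inr rfl⟩ ⟨b, Or.inl hb⟩ ⟨c, Or.inl hc⟩ ⟨d, Or.inl hd⟩ (ctr_adj hw ha hb hab)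
      (ctr_adj' hc hd hcd) (fun e => wne c hc (congrArg Subtype.val e).symm)
      (fun e => wne d hd (congrArg Subtype.val e).symm)
      (fun e => n3 (congrArg Subtype.val e)) (fun e => n4 (congrArg Subtype.val e)) hne'
    obtain ⟨t, ht, ht1, e⟩ := tt a ha b hb hab
    unfold Blow_perp
    rw [QW a ha, e, QO b hb, QO c hc, QO d hd]
    simp only [Prod.fst_add, Prod.snd_add, Prod.smul_fst, Prod.smul_snd, Prod.fst_sub, Prod.snd_sub,
      smul_eq_mul]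
    simp only at h
    linear_combination (1 - t) * h
  have k3 : ∀ a b c d, a ∈ W → b ∈ W → c ∉ W → d ∉ W → G.Adj c d → Blow_K Q a b c d := by
    intro a b c d ha hb hc hd hcd hne
    rw [QO c hc, QO d hd] at hne
    obtain ⟨z, hz, hz'⟩ := hne
    exact ((F2 c d hc hd hcd).le_bot ⟨hz', segWW a ha b hb hz⟩).elim
  have k4 : ∀ a b c d, a ∈ W → b ∉ W → c ∈ W → d ∉ W → G.Adj a b → G.Adj c d → a ≠ c → b ≠ d →
      Blow_K Q a b c d := by
    rintro a b c d ha hb hc hd hab hcd n1 n4 ⟨z, hz, hz'⟩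
    obtain ⟨s, hs, e⟩ := segWO' a ha b hb hab z hz
    obtain ⟨s', hs', e'⟩ := segWO' c hc d hd hcd z hz'
    exact (h7 a ha c hc b hb d hd hab hcd n1 n4 s s' hs hs' (canc _ _ (e.symm.trans e'))).elim
  have k5 : ∀ a b c d, a ∈ W → b ∈ W → c ∈ W → d ∉ W → G.Adj a b → G.Adj c d → a ≠ c → b ≠ c →
      Blow_K Q a b c d := by
    rintro a b c d ha hb hc hd hab hcd n1 n3 ⟨z, hz, hz'⟩
    obtain ⟨u, hu, e⟩ := segWW' a ha b hb z hz
    obtain ⟨s, hs, e'⟩ := segWO' c hc d hd hcd z hz'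
    have h := canc _ _ (e.symm.trans e')
    rw [h] at hu
    exact (h6 a ha b hb c hc d hd hab hcd n1.symm n3.symm s hs hu).elim
  have k6 : ∀ a b c d, a ∈ W → b ∈ W → c ∈ W → d ∈ W → G.Adj a b → G.Adj c d → a ≠ c → a ≠ d →
      b ≠ c → b ≠ d → Blow_K Q a b c d := by
    rintro a b c d ha hb hc hd hab hcd n1 n2 n3 n4 ⟨z, hz, hz'⟩
    obtain ⟨u, hu, e⟩ := segWW' a ha b hb z hz
    obtain ⟨u', hu', e'⟩ := segWW' c hc d hd z hz'
    have h := canc _ _ (e.symm.trans e')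
    have h' := h5 a ha b hb c hc d hd hab hcd n1 n2 n3 n4 ⟨u, hu, h ▸ hu'⟩
    unfold Blow_perp
    unfold ip at h'
    rw [QW a ha, QW b hb, QW c hc, QW d hd]
    simp only [Prod.fst_add, Prod.snd_add, Prod.smul_fst, Prod.smul_snd, Prod.fst_sub, Prod.snd_sub,
      smul_eq_mul] at h' ⊢
    linear_combination ε ^ 2 * h'
  have c2 : ∀ a b c, (a ∈ W ∨ b ∉ W) → G.Adj a b → c ≠ a → c ≠ b → Q c ∉ segment ℝ (Q a) (Q b) := by
    intro a b c hor hab n1 n2 hc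
    by_cases ha : a ∈ W
    · by_cases hb : b ∈ W
      · by_cases hcW : c ∈ W
        · obtain ⟨u, hu, e⟩ := segWW' a ha b hb _ hc
          rw [QW c hcW] at e
          have h := canc _ _ e
          rw [← h] at hu
          exact h3 a ha b hb c hcW hab n1 n2 hu
        · have h := segWW a ha b hb hc
          rw [QO c hcW] at h
          exact F1 c hcW h
      · by_cases hcW : c ∈ W
        · obtain ⟨s, hs, e⟩ := segWO' a ha b hb hab _ hc
          rw [QW c hcW] at e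
          exact h4 a ha b hb c hcW hab n1 s hs (canc _ _ e)
        · have h := segWO a ha b hb hab hc
          rw [QO c hcW] at h
          exact B2 a b c ha hb hcW hab n2 h
    · have hb : b ∉ W := hor.resolve_left ha
      rw [QO a ha, QO b hb] at hc
      by_cases hcW : c ∈ W
      · exact (F2 a b ha hb hab).le_bot ⟨hc, hball c hcW⟩
      · rw [QO c hcW] at hc
        exact B1 a b c ha hb hcW hab n1 n2 hc
  refine ⟨Q, ?_, ?_, ?_⟩
  · intro x y hxy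
    by_cases hx : x ∈ W
    · by_cases hy : y ∈ W
      · rw [QW x hx, QW y hy] at hxy
        exact h1 x hx y hy (canc _ _ hxy)
      · have h := hball x hx
        rw [hxy, QO y hy] at h
        exact (F1 y hy h).elim
    · by_cases hy : y ∈ W
      · have h := hball y hy
        rw [← hxy, QO x hx] at h
        exact (F1 x hx h).elim
      · rw [QO x hx, QO y hy] at hxy
        exact A1 x hx y hy hxy
  · intro a b c hab n1 n2
    by_cases ha : a ∈ W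
    · exact c2 a b c (Or.inl ha) hab n1 n2
    · by_cases hb : b ∈ W
      · rw [segment_symm]
        exact c2 b a c (Or.inl hb) hab.symm n2 n1
      · exact c2 a b c (Or.inr hb) hab n1 n2
  · intro a b c d hab hcd n1 n2 n3 n4
    show Blow_K Q a b c d
    by_cases ha : a ∈ W <;> by_cases hb : b ∈ W <;> by_cases hc : c ∈ W <;> by_cases hd : d ∈ W
    · exact k6 a b c d ha hb hc hd hab hcd n1 n2 n3 n4
    · exact k5 a b c d ha hb hc hd hab hcd n1 n3
    · exact Blow_K2 (k5 a b d c ha hb hd hc hab hcd.symm n2 n4)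
    · exact k3 a b c d ha hb hc hd hcd
    · exact Blow_K3 (k5 c d a b hc hd ha hb hcd hab n1.symm n2.symm)
    · exact k4 a b c d ha hb hc hd hab hcd n1 n4
    · exact Blow_K2 (k4 a b d c ha hb hd hc hab hcd.symm n2 n3)
    · exact k2 a b c d ha hb hc hd hab hcd n3 n4
    · exact Blow_K3 (Blow_K2 (k5 c d b a hc hd hb ha hcd hab.symm n3.symm n4.symm))
    · exact Blow_K1 (k4 b a c d hb ha hc hd hab.symm hcd n3 n2)
    · exact Blow_K1 (Blow_K2 (k4 b a d c hb ha hd hc hab.symm hcd.symm n4 n1))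
    · exact Blow_K1 (k2 b a c d hb ha hc hd hab.symm hcd n1 n2)
    · exact Blow_K3 (k3 c d a b hc hd ha hb hab)
    · exact Blow_K3 (k2 c d a b hc hd ha hb hcd hab n2.symm n4.symm)
    · exact Blow_K3 (Blow_K1 (k2 d c a b hd hc ha hb hcd.symm hab n1.symm n3.symm))
    · exact k1 a b c d ha hb hc hd hab hcd n1 n2 n3 n4

end MP_a17342_co.RT
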