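import Pool.Agent.Lib.MP_a17342_co.RT.Dir

/-!
# Points on the unit circle
Plan: circ_seg: for c = u a + v b, u + v = 1, u, v ≥ 0: ip c c = 1 - u v ip (a - b) (a - b). ray_ge: un D + s • D = (1 + s / t) • un D with
un D = t • D. sides: n = rotation of d - c by 90 degrees, normed; a = n, b = -n lie strictly on different sides of the line cd
(ip n c = ip n d < 1 since c ≠ d, and > -1); the linear function L x = ip n (x - c) vanishes at c and d, is > 0 at a, < 0 at b.
-/

set_option autoImplicit false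

namespace MP_a17342_co.RT

private theorem Circ_zero {x y : P} (h : ip (x - y) (x - y) = 0) : x = y := by
  by_contra hne
  have h1 := ip_self_pos (sub_ne_zero.2 hne)
  linarith

private theorem Circ_two {x y : P} (hx : ip x x = 1) (hy : ip y y = 1) :
    ip (x - y) (x - y) = 2 - 2 * ip x y := by
  simp only [ip, Prod.fst_sub, Prod.snd_sub] at *
  linear_combination hx + hy

private theorem Circ_le {x y : P} (hx : ip x x = 1) (hy : ip y y = 1) : ip x y ≤ 1 := by
  have h1 := Circ_two hx hy
  have h2 : 0 ≤ ip (x - y) (x - y) := by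
    simp only [ip]
    nlinarith [sq_nonneg (x - y).1, sq_nonneg (x - y).2]
  linarith

private theorem Circ_lt {x y : P} (hx : ip x x = 1) (hy : ip y y = 1) (hne : x ≠ y) : ip x y < 1 := by
  refine lt_of_le_of_ne (Circ_le hx hy) fun h => hne (Circ_zero ?_)
  rw [Circ_two hx hy, h]
  norm_num

private theorem Circ_neg {x : P} : ip (-x) (-x) = ip x x := by
  simp only [ip, Prod.fst_neg, Prod.snd_neg]
  ring

theorem circ_seg {a b c : P} (ha : ip a a = 1) (hb : ip b b = 1) (hc : 1 ≤ ip c c)
    (h : c ∈ segment ℝ a b) : c = a ∨ c = b := by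
  obtain ⟨u, v, hu, hv, huv, rfl⟩ := h
  have h1 : ip (u • a + v • b) (u • a + v • b) = 1 - 2 * (u * v * (1 - ip a b)) := by
    have hv' : v = 1 - u := by linarith
    subst hv'
    simp only [ip, Prod.fst_add, Prod.snd_add, Prod.smul_fst, Prod.smul_snd, smul_eq_mul] at *
    linear_combination u ^ 2 * ha + (1 - u) ^ 2 * hb
  rw [h1] at hc
  by_cases hab : a = b
  · left
    rw [← hab, ← add_smul, huv, one_smul]
  · have h2 : 0 < 1 - ip a b := by linarith [Circ_lt ha hb hab]
    have h3 : u * v = 0 := by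
      have h4 : 0 ≤ u * v := mul_nonneg hu hv
      by_contra hne
      have h5 : 0 < u * v := lt_of_le_of_ne h4 (Ne.symm hne)
      have := mul_pos h5 h2
      linarith
    rcases mul_eq_zero.1 h3 with h | h
    · right
      have : v = 1 := by linarith
      rw [h, this, zero_smul, one_smul, zero_add]
    · left
      have : u = 1 := by linarith
      rw [h, this, zero_smul, one_smul, add_zero]

/-- the points of the ray -/
private theorem Circ_ray {D : P} (hD : D ≠ 0) {s : ℝ} (hs : 0 ≤ s) :
    ∃ r : ℝ, 0 ≤ r ∧ (r = 0 → s = 0) ∧ un D + s • D = (1 + r) • un D := by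
  obtain ⟨t, ht, h⟩ := un_eq_smul hD
  refine ⟨s / t, by positivity, fun h0 => ?_, ?_⟩
  · rcases div_eq_zero_iff.1 h0 with h1 | h1
    · exact h1
    · exact absurd h1 ht.ne'
  · have h1 : (s / t) • un D = s • D := by
      rw [h, smul_smul, div_mul_cancel₀ _ ht.ne']
    rw [add_smul, one_smul, h1]

private theorem Circ_ip_smul {x : P} (r : ℝ) : ip (r • x) (r • x) = r ^ 2 * ip x x := by
  simp only [ip, Prod.smul_fst, Prod.smul_snd, smul_eq_mul]
  ring

theorem ray_ge {D : P} (hD : D ≠ 0) {s : ℝ} (hs : 0 ≤ s) :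
    1 ≤ ip (un D + s • D) (un D + s • D) := by
  obtain ⟨r, hr, _, h⟩ := Circ_ray hD hs
  rw [h, Circ_ip_smul, ip_un hD]
  nlinarith

theorem ray_eq {D : P} (hD : D ≠ 0) {s : ℝ} (hs : 0 ≤ s)
    (h : ip (un D + s • D) (un D + s • D) = 1) : s = 0 := by
  obtain ⟨r, hr, hr0, h'⟩ := Circ_ray hD hs
  rw [h', Circ_ip_smul, ip_un hD] at h
  refine hr0 ?_
  nlinarith

theorem ray_ray {D D' : P} (hD : D ≠ 0) (hD' : D' ≠ 0) {s s' : ℝ} (hs : 0 ≤ s) (hs' : 0 ≤ s')
    (h : un D + s • D = un D' + s' • D') : un D = un D' := by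
  obtain ⟨r, hr, _, h1⟩ := Circ_ray hD hs
  obtain ⟨r', hr', _, h2⟩ := Circ_ray hD' hs'
  rw [h1, h2] at h
  have h3 := congrArg un h
  rw [un_smul (by linarith), un_smul (by linarith), un_self (ip_un hD), un_self (ip_un hD')] at h3
  exact h3

private theorem Circ_disj {n a b c d : P} {k : ℝ} (ha : k < ip n a) (hb : ip n b < k)
    (hc : ip n c = k) (hd : ip n d = k) (hcd : c ≠ d) :
    Disjoint (segment ℝ a c) (segment ℝ b d) := by
  rw [Set.disjoint_left]
  rintro x ⟨u, v, hu, hv, huv, h1⟩ ⟨u', v', hu', hv', huv', h2⟩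
  have e : ∀ (y z : P) (p q : ℝ), ip n (p • y + q • z) = p * ip n y + q * ip n z := by
    intro y z p q
    simp only [ip, Prod.fst_add, Prod.snd_add, Prod.smul_fst, Prod.smul_snd, smul_eq_mul]
    ring
  have e1 := e a c u v
  have e2 := e b d u' v'
  rw [h1, hc] at e1
  rw [h2, hd] at e2
  have hu0 : u = 0 := by
    by_contra hne
    have hpos : 0 < u := lt_of_le_of_ne hu (Ne.symm hne)
    have h3 : k < ip n x := by
      rw [e1]
      have : v = 1 - u := by linarith
      subst this
      nlinarith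
    have h4 : ip n x ≤ k := by
      rw [e2]
      have : v' = 1 - u' := by linarith
      subst this
      nlinarith
    linarith
  have hu0' : u' = 0 := by
    by_contra hne
    have hpos : 0 < u' := lt_of_le_of_ne hu' (Ne.symm hne)
    have h3 : k ≤ ip n x := by
      rw [e1, hu0]
      have : v = 1 := by linarith
      rw [this]
      linarith
    have h4 : ip n x < k := by
      rw [e2]
      have : v' = 1 - u' := by linarith
      subst this
      nlinarith
    linarith
  have hv1 : v = 1 := by linarith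
  have hv1' : v' = 1 := by linarith
  rw [hu0, hv1, zero_smul, one_smul, zero_add] at h1
  rw [hu0', hv1', zero_smul, one_smul, zero_add] at h2
  exact hcd (h1.trans h2.symm)

theorem sides {c d : P} (hc : ip c c = 1) (hd : ip d d = 1) (hcd : c ≠ d) :
    ∃ a b : P, ip a a = 1 ∧ ip b b = 1 ∧ a ≠ b ∧ a ≠ c ∧ a ≠ d ∧ b ≠ c ∧ b ≠ d ∧
      Disjoint (segment ℝ a c) (segment ℝ b d) ∧ Disjoint (segment ℝ a d) (segment ℝ b c) := by
  set m : P := (-(d - c).2, (d - c).1) with hm
  have hm0 : m ≠ 0 := by
    intro h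
    have h1 := congrArg Prod.fst h
    have h2 := congrArg Prod.snd h
    simp only [hm, Prod.fst_zero, Prod.snd_zero] at h1 h2
    have h3 : d - c = 0 := Prod.ext h2 (by
      rw [Prod.snd_zero]
      linarith)
    exact hcd (sub_eq_zero.1 h3).symm
  obtain ⟨t, ht, hn⟩ := un_eq_smul hm0
  set n : P := un m with hndef
  have hnn : ip n n = 1 := ip_un hm0
  have hk : ip n d = ip n c := by
    rw [hn]
    simp only [ip, hm, Prod.smul_fst, Prod.smul_snd, smul_eq_mul, Prod.fst_sub, Prod.snd_sub]
    ring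
  have hnn' : ip (-n) (-n) = 1 := by rw [Circ_neg, hnn]
  have hneg : ∀ x : P, ip (-n) x = - ip n x := by
    intro x
    simp only [ip, Prod.fst_neg, Prod.snd_neg]
    ring
  -- `k < 1`
  have hk1 : ip n c < 1 := by
    by_cases h : n = c
    · have h2 : n ≠ d := fun h3 => hcd (h.symm.trans h3)
      rw [← hk]
      exact Circ_lt hnn hd h2
    · exact Circ_lt hnn hc h
  have hk2 : -1 < ip n c := by
    by_cases h : -n = c
    · have h2 : -n ≠ d := fun h3 => hcd (h.symm.trans h3)
      have h3 := Circ_lt hnn' hd h2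
      rw [hneg, hk] at h3
      linarith
    · have h3 := Circ_lt hnn' hc h
      rw [hneg] at h3
      linarith
  have hnb : ip n (-n) = -1 := by
    have : ip n (-n) = - ip n n := by
      simp only [ip, Prod.fst_neg, Prod.snd_neg]
      ring
    rw [this, hnn]
  refine ⟨n, -n, hnn, hnn', ?_, ?_, ?_, ?_, ?_, ?_, ?_⟩
  · intro h
    have h1 : ip n n = ip n (-n) := congrArg (ip n) h
    rw [hnn, hnb] at h1
    norm_num at h1
  · intro h
    rw [← h, hnn] at hk1
    exact lt_irrefl _ hk1
  · intro h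
    rw [← hk, ← h, hnn] at hk1
    exact lt_irrefl _ hk1
  · intro h
    rw [← h, hnb] at hk2
    exact lt_irrefl _ hk2
  · intro h
    rw [← hk, ← h, hnb] at hk2
    exact lt_irrefl _ hk2
  · exact Circ_disj (n := n) (k := ip n c) (by rw [hnn]; exact hk1) (by rw [hnb]; exact hk2) rfl hk hcd
  · exact Circ_disj (n := n) (k := ip n c) (by rw [hnn]; exact hk1) (by rw [hnb]; exact hk2) hk rfl hcd.symm

end MP_a17342_co.RT
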