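import Pool.Agent.Lib.MP_a17342_co.RT.Blow
import Pool.Agent.Lib.MP_a17342_co.RT.Circ

/-!
# Blowing up to points on a circle
-/

set_option autoImplicit false

namespace MP_a17342_co.RT

variable {V : Type}

theorem blow_circ [Finite V] {G : SimpleGraph V} {W : Set V} {w : V} (hw : w ∈ W)
    (huniq : ∀ x ∈ W, ∀ x' ∈ W, ∀ y, y ∉ W → G.Adj x y → G.Adj x' y → x = x')
    {p : V → P} (hp : Draws (ctr G W w) (fun x => p x.1)) (γ : V → P)
    (hu : ∀ x ∈ W, ip (γ x) (γ x) = 1) (hinj : ∀ x ∈ W, ∀ x' ∈ W, γ x = γ x' → x = x')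
    (hout : ∀ x ∈ W, ∀ y, y ∉ W → G.Adj x y → γ x = un (p y - p w))
    (hc : ∀ a ∈ W, ∀ b ∈ W, ∀ c ∈ W, ∀ d ∈ W, G.Adj a b → G.Adj c d → a ≠ c → a ≠ d → b ≠ c →
      b ≠ d → (segment ℝ (γ a) (γ b) ∩ segment ℝ (γ c) (γ d)).Nonempty →
      ip (γ b - γ a) (γ d - γ c) = 0) : RAC G := by
  have hD : ∀ y, y ∉ W → p y - p w ≠ 0 := by
    intro y hy h
    have h1 := @hp.1 ⟨y, Or.inl hy⟩ ⟨w, Or.inr rfl⟩ (sub_eq_zero.1 h)
    have h2 : y = w := congrArg Subtype.val h1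
    exact hy (h2 ▸ hw)
  refine blow hw huniq hp γ hinj ?_ ?_ ?_ hc ?_ ?_
  · intro x hx y hy hxy
    obtain ⟨t, ht, e⟩ := un_eq_smul (hD y hy)
    exact ⟨t, ht.le, (hout x hx y hy hxy).trans e⟩
  · intro a ha b hb c hcW _ n1 n2 h
    rcases circ_seg (hu a ha) (hu b hb) (hu c hcW).ge h with h | h
    · exact n1 (hinj c hcW a ha h)
    · exact n2 (hinj c hcW b hb h)
  · intro x hx y hy c hcW hxy n1 s hs h
    have h1 := hu c hcW
    rw [h, hout x hx y hy hxy] at h1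
    have h2 := ray_eq (hD y hy) hs h1
    rw [h2, zero_smul, add_zero] at h
    exact n1 (hinj c hcW x hx h)
  · intro a ha b hb x hx y hy _ hxy n1 n2 s hs h
    have h0 := ray_ge (hD y hy) hs
    rw [← hout x hx y hy hxy] at h0
    have key : ∀ c ∈ W, x ≠ c → γ x + s • (p y - p w) = γ c → False := by
      intro c hcW n h'
      have h1 := hu c hcW
      rw [← h', hout x hx y hy hxy] at h1
      have h2 := ray_eq (hD y hy) hs h1
      rw [h2, zero_smul, add_zero] at h'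
      exact n (hinj x hx c hcW h')
    rcases circ_seg (hu a ha) (hu b hb) h0 h with h | h
    · exact key a ha n1 h
    · exact key b hb n2 h
  · intro x hx x' hx' y hy y' hy' hxy hxy' n1 _ s s' hs hs' h
    rw [hout x hx y hy hxy, hout x' hx' y' hy' hxy'] at h
    have h1 := ray_ray (hD y hy) (hD y' hy') hs hs' h
    rw [← hout x hx y hy hxy, ← hout x' hx' y' hy' hxy'] at h1
    exact n1 (hinj x hx x' hx' h1)

end MP_a17342_co.RT
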