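import Pool.Agent.Lib.MP_a17342_co.RT.Good

/-!
# Blowing up several clusters
The points `p x + ε • γ x` for a small `ε > 0` form a drawing.
-/

set_option autoImplicit false

namespace MP_a17342_co.RT

variable {V : Type}

open Filter Topology

private theorem BlowG_ip_comm (x y : P) : ip x y = ip y x := by
  simp only [ip]; ring

private theorem BlowG_ip_smul (x y : P) (l m : ℝ) : ip (l • x) (m • y) = l * m * ip x y := by
  simp only [ip, Prod.smul_fst, Prod.smul_snd, smul_eq_mul]; ring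

private theorem BlowG_ip_neg (x y : P) : ip x (-y) = -ip x y := by
  simp only [ip, Prod.fst_neg, Prod.snd_neg]; ring

/-- the condition on two edges -/
private def BlowG_C (Q : V → P) (a b c d : V) : Prop :=
  ∀ z, z ∈ segment ℝ (Q a) (Q b) → z ∈ segment ℝ (Q c) (Q d) → ip (Q b - Q a) (Q d - Q c) = 0

private theorem BlowG_C_right {Q : V → P} {a b c d : V} (h : BlowG_C Q a b d c) :
    BlowG_C Q a b c d := by
  intro z h1 h2
  rw [segment_symm ℝ (Q c)] at h2
  have h3 := h z h1 h2
  rw [← neg_sub (Q c) (Q d), BlowG_ip_neg, h3, neg_zero]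

private theorem BlowG_C_swap {Q : V → P} {a b c d : V} (h : BlowG_C Q c d a b) :
    BlowG_C Q a b c d := by
  intro z h1 h2
  rw [BlowG_ip_comm]
  exact h z h2 h1

private theorem BlowG_C_left {Q : V → P} {a b c d : V} (h : BlowG_C Q b a c d) :
    BlowG_C Q a b c d :=
  BlowG_C_swap (BlowG_C_right (BlowG_C_swap h))

private theorem BlowG_compact (A B : P) : IsCompact (segment ℝ A B) := by
  rw [← convexHull_pair]
  exact (Set.toFinite {A, B}).isCompact_convexHull ℝ

/-- disjoint segments stay disjoint -/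
private theorem BlowG_pert (A B C D α β γ δ : P)
    (h : Disjoint (segment ℝ A B) (segment ℝ C D)) :
    ∀ᶠ ε in 𝓝[>] (0 : ℝ), Disjoint (segment ℝ (A + ε • α) (B + ε • β))
      (segment ℝ (C + ε • γ) (D + ε • δ)) := by
  obtain ⟨r, hr, hd⟩ := Metric.exists_pos_forall_lt_edist (BlowG_compact A B)
    (BlowG_compact C D).isClosed h
  have hr' : (0 : ℝ) < r := hr
  obtain ⟨M, hM⟩ : ∃ M : ℝ, M = ‖α‖ + ‖β‖ + ‖γ‖ + ‖δ‖ + 1 := ⟨_, rfl⟩
  have nα := norm_nonneg α
  have nβ := norm_nonneg β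
  have nγ := norm_nonneg γ
  have nδ := norm_nonneg δ
  have hM0 : 0 < M := by rw [hM]; linarith
  refine mem_of_superset (Ioo_mem_nhdsGT (div_pos hr' hM0)) fun ε hε => ?_
  obtain ⟨hε0, hε1⟩ := hε
  rw [lt_div_iff₀ hM0] at hε1
  show Disjoint _ _
  rw [Set.disjoint_left]
  rintro z ⟨u, v, hu, hv, huv, hz⟩ ⟨u', v', hu', hv', huv', hz'⟩
  have h1 := hd _ ⟨u, v, hu, hv, huv, rfl⟩ _ ⟨u', v', hu', hv', huv', rfl⟩
  have h2 : (r : ℝ) < dist (u • A + v • B) (u' • C + v' • D) := by
    rw [edist_dist, ← ENNReal.ofReal_coe_nnreal] at h1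
    exact (ENNReal.ofReal_lt_ofReal_iff_of_nonneg hr'.le).mp h1
  have h3 : (u • A + v • B) - (u' • C + v' • D) = ε • (u' • γ + v' • δ - (u • α + v • β)) := by
    have h4 : u • (A + ε • α) + v • (B + ε • β) = u' • (C + ε • γ) + v' • (D + ε • δ) := by
      rw [hz, hz']
    have h5 : (u • A + v • B) - (u' • C + v' • D) - ε • (u' • γ + v' • δ - (u • α + v • β)) =
        (u • (A + ε • α) + v • (B + ε • β)) - (u' • (C + ε • γ) + v' • (D + ε • δ)) := by
      module
    rw [h4, sub_self] at h5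
    exact sub_eq_zero.mp h5
  have hb : ∀ (s : ℝ) (x : P), 0 ≤ s → s ≤ 1 → ‖s • x‖ ≤ ‖x‖ := by
    intro s x h0 h1
    rw [norm_smul, Real.norm_of_nonneg h0]
    have := mul_le_mul_of_nonneg_right h1 (norm_nonneg x)
    linarith
  have h6 : ‖u' • γ + v' • δ - (u • α + v • β)‖ ≤ M := by
    have e1 := norm_sub_le (u' • γ + v' • δ) (u • α + v • β)
    have e2 := norm_add_le (u' • γ) (v' • δ)
    have e3 := norm_add_le (u • α) (v • β)
    have e4 := hb u α hu (by linarith)
    have e5 := hb v β hv (by linarith)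
    have e6 := hb u' γ hu' (by linarith)
    have e7 := hb v' δ hv' (by linarith)
    rw [hM]
    linarith
  rw [dist_eq_norm, h3, norm_smul, Real.norm_of_nonneg hε0.le] at h2
  have h7 := mul_le_mul_of_nonneg_left h6 hε0.le
  linarith

/-- the direction of an edge between two clusters -/
private theorem BlowG_dir {x y g g' : P} {t : ℝ} (h : g' - g = t • (y - x)) :
    ∀ᶠ ε in 𝓝[>] (0 : ℝ), ∃ l : ℝ, 0 < l ∧ (y + ε • g') - (x + ε • g) = l • (y - x) := by
  have h0 : 0 < |t| + 1 := by have := abs_nonneg t; linarith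
  refine mem_of_superset (Ioo_mem_nhdsGT (div_pos one_pos h0)) fun ε hε => ?_
  obtain ⟨hε0, hε1⟩ := hε
  rw [lt_div_iff₀ h0] at hε1
  refine ⟨1 + ε * t, ?_, ?_⟩
  · have h1 : -|t| ≤ t := neg_abs_le t
    have h2 := mul_le_mul_of_nonneg_left h1 hε0.le
    nlinarith
  · have h3 : (y + ε • g') - (x + ε • g) = (y - x) + ε • (g' - g) := by module
    rw [h3, h]
    module

private theorem BlowG_cancel {q x y : P} {ε : ℝ} (hε : 0 < ε) (h : q + ε • x = q + ε • y) :
    x = y :=
  smul_right_injective P hε.ne' (add_left_cancel h)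

/-- the points of the segment of an inner edge -/
private theorem BlowG_inner {q g g' z : P} {ε : ℝ}
    (hz : z ∈ segment ℝ (q + ε • g) (q + ε • g')) :
    ∃ z' ∈ segment ℝ g g', z = q + ε • z' := by
  obtain ⟨u, v, hu, hv, huv, hz⟩ := hz
  refine ⟨u • g + v • g', ⟨u, v, hu, hv, huv, rfl⟩, ?_⟩
  have h6 : u = 1 - v := by linarith
  rw [← hz, h6]
  module

/-- the points of the segment of an edge between two clusters -/
private theorem BlowG_mixed {x y g z w : P} {ε l : ℝ} (hε : 0 < ε) (hl : 0 < l)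
    (h : w - (x + ε • g) = l • (y - x)) (hz : z ∈ segment ℝ (x + ε • g) w) :
    ∃ s : ℝ, 0 ≤ s ∧ z = x + ε • (g + s • (y - x)) := by
  obtain ⟨u, v, hu, hv, huv, hz⟩ := hz
  refine ⟨v * l / ε, div_nonneg (mul_nonneg hv hl.le) hε.le, ?_⟩
  have h5 : z = x + ε • g + v • (w - (x + ε • g)) := by
    have h6 : u = 1 - v := by linarith
    rw [← hz, h6]
    module
  rw [h5, h, smul_add, smul_smul, smul_smul, mul_div_cancel₀ _ hε.ne', add_assoc]

theorem blow_g [Finite V] {G : SimpleGraph V} {p : V → P} (hp : Coll G p) (γ : V → P)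
    (hdir : ∀ a b, G.Adj a b → p a ≠ p b → ∃ t : ℝ, γ b - γ a = t • (p b - p a))
    (hgood : ∀ a, Good G p γ (p a)) : RAC G := by
  have hA : ∀ᶠ ε in 𝓝[>] (0 : ℝ), ∀ a b c d : V,
      Disjoint (segment ℝ (p a) (p b)) (segment ℝ (p c) (p d)) →
      Disjoint (segment ℝ (p a + ε • γ a) (p b + ε • γ b))
        (segment ℝ (p c + ε • γ c) (p d + ε • γ d)) := by
    rw [eventually_all]
    intro a
    rw [eventually_all]
    intro b
    rw [eventually_all]
    intro c
    rw [eventually_all]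
    intro d
    by_cases h : Disjoint (segment ℝ (p a) (p b)) (segment ℝ (p c) (p d))
    · exact (BlowG_pert _ _ _ _ _ _ _ _ h).mono fun ε hε _ => hε
    · exact Eventually.of_forall fun ε h' => absurd h' h
  have hB : ∀ᶠ ε in 𝓝[>] (0 : ℝ), ∀ a b : V, G.Adj a b → p a ≠ p b →
      ∃ l : ℝ, 0 < l ∧ (p b + ε • γ b) - (p a + ε • γ a) = l • (p b - p a) := by
    rw [eventually_all]
    intro a
    rw [eventually_all]
    intro b
    by_cases h : G.Adj a b ∧ p a ≠ p b
    · obtain ⟨t, ht⟩ := hdir a b h.1 h.2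
      exact (BlowG_dir ht).mono fun ε hε _ _ => hε
    · exact Eventually.of_forall fun ε h1 h2 => absurd ⟨h1, h2⟩ h
  obtain ⟨ε, ⟨hA, hB⟩, hε⟩ := ((hA.and hB).and (self_mem_nhdsWithin)).exists
  have hε : 0 < ε := hε
  obtain ⟨Q, hQ⟩ : ∃ Q : V → P, ∀ x, Q x = p x + ε • γ x := ⟨_, fun x => rfl⟩
  have hA' : ∀ (a b c d : V) (z : P), z ∈ segment ℝ (Q a) (Q b) → z ∈ segment ℝ (Q c) (Q d) →
      ¬ Disjoint (segment ℝ (p a) (p b)) (segment ℝ (p c) (p d)) := by
    intro a b c d z h1 h2 h3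
    rw [hQ, hQ] at h1 h2
    exact Set.disjoint_left.mp (hA a b c d h3) h1 h2
  have hone : ∀ (a b : V) (q : P), p a = p b → q ≠ p a →
      Disjoint (segment ℝ (p a) (p b)) (segment ℝ q q) := by
    intro a b q h1 h2
    rw [← h1, segment_same, segment_same, Set.disjoint_singleton]
    exact h2.symm
  have hinn : ∀ a b : V, p a = p b → ∀ z ∈ segment ℝ (Q a) (Q b),
      ∃ z' ∈ segment ℝ (γ a) (γ b), z = p a + ε • z' := by
    intro a b hab z hz
    rw [hQ, hQ, ← hab] at hz
    exact BlowG_inner hz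
  have hmix : ∀ a b : V, G.Adj a b → p a ≠ p b → ∀ z ∈ segment ℝ (Q a) (Q b),
      ∃ s : ℝ, 0 ≤ s ∧ z = p a + ε • (γ a + s • (p b - p a)) := by
    intro a b hab hne z hz
    obtain ⟨l, hl, e⟩ := hB a b hab hne
    rw [hQ, hQ] at hz
    exact BlowG_mixed hε hl e hz
  have hmd : ∀ a b : V, G.Adj a b → p a ≠ p b → ∃ l : ℝ, Q b - Q a = l • (p b - p a) := by
    intro a b hab hne
    obtain ⟨l, -, e⟩ := hB a b hab hne
    exact ⟨l, by rw [hQ, hQ]; exact e⟩
  have hid : ∀ a b : V, p a = p b → Q b - Q a = ε • (γ b - γ a) := by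
    intro a b hab
    rw [hQ, hQ, hab]
    module
  -- the points are different
  have hinj : Function.Injective Q := by
    intro x y hxy
    by_cases h : p x = p y
    · have h1 : γ x = γ y := by
        rw [hQ, hQ, ← h] at hxy
        exact BlowG_cancel hε hxy
      exact (hgood x).l1 x y rfl h.symm h1
    · exfalso
      refine hA' x x y y (Q x) (left_mem_segment ℝ _ _) ?_ ?_
      · rw [hxy]
        exact left_mem_segment ℝ _ _
      · exact hone x x (p y) rfl (fun e => h e.symm)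
  -- vertices on edges
  have hv0 : ∀ a b c : V, G.Adj a b → p a ≠ p b → p c = p a → c ≠ a →
      Q c ∉ segment ℝ (Q a) (Q b) := by
    intro a b c hab hne hc hca hz
    obtain ⟨s, hs, e⟩ := hmix a b hab hne _ hz
    rw [hQ, hc] at e
    exact (hgood a).l4 a b c hab rfl hne.symm hc hca s hs (BlowG_cancel hε e)
  have hvert : ∀ a b c : V, G.Adj a b → c ≠ a → c ≠ b → Q c ∉ segment ℝ (Q a) (Q b) := by
    intro a b c hab hca hcb hz
    by_cases h : p a = p b
    · by_cases hc : p c = p a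
      · obtain ⟨z', hz', e⟩ := hinn a b h _ hz
        rw [hQ, hc] at e
        rw [← BlowG_cancel hε e] at hz'
        exact (hgood a).l3 a b c hab rfl h.symm hc hca hcb hz'
      · exact hA' a b c c (Q c) hz (left_mem_segment ℝ _ _) (hone a b (p c) h hc)
    · by_cases hc : p c = p a
      · exact hv0 a b c hab h hc hca hz
      · by_cases hc' : p c = p b
        · rw [segment_symm] at hz
          exact hv0 b a c hab.symm (fun e => h e.symm) hc' hcb hz
        · refine hA' a b c c (Q c) hz (left_mem_segment ℝ _ _) ?_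
          rw [segment_same, Set.disjoint_singleton_right]
          exact hp.c1 a b c hab h hc hc'
  -- crossings
  have hII : ∀ a b c d : V, G.Adj a b → G.Adj c d → a ≠ c → a ≠ d → b ≠ c → b ≠ d →
      p a = p b → p c = p d → BlowG_C Q a b c d := by
    intro a b c d hab hcd hac had hbc hbd h h' z hz1 hz2
    by_cases hc : p c = p a
    · obtain ⟨z1, k1, e1⟩ := hinn a b h _ hz1
      obtain ⟨z2, k2, e2⟩ := hinn c d h' _ hz2
      rw [hc, e1] at e2
      rw [← BlowG_cancel hε e2] at k2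
      have h5 := (hgood a).l5 a b c d hab hcd rfl h.symm hc (h'.symm.trans hc) hac had hbc hbd
        ⟨z1, k1, k2⟩
      rw [hid a b h, hid c d h', BlowG_ip_smul, h5, mul_zero]
    · refine absurd ?_ (hA' a b c d z hz1 hz2)
      rw [← h']
      exact hone a b (p c) h hc
  have hIM0 : ∀ a b c d : V, G.Adj a b → G.Adj c d → a ≠ c → b ≠ c →
      p a = p b → p c ≠ p d → p c = p a → BlowG_C Q a b c d := by
    intro a b c d hab hcd hac hbc h h' hc z hz1 hz2
    obtain ⟨z1, k1, e1⟩ := hinn a b h _ hz1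
    obtain ⟨s, hs, e2⟩ := hmix c d hcd h' _ hz2
    rw [hc, e1] at e2
    rw [BlowG_cancel hε e2] at k1
    have h6 := (hgood a).l6 a b c d hab hcd rfl h.symm hc (fun e => h' (hc.trans e.symm))
      hac.symm hbc.symm s hs k1
    obtain ⟨l, hl⟩ := hmd c d hcd h'
    rw [hid a b h, hl, BlowG_ip_smul, hc, h6, mul_zero]
  have hIM : ∀ a b c d : V, G.Adj a b → G.Adj c d → a ≠ c → a ≠ d → b ≠ c → b ≠ d →
      p a = p b → p c ≠ p d → BlowG_C Q a b c d := by
    intro a b c d hab hcd hac had hbc hbd h h'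
    by_cases hc : p c = p a
    · exact hIM0 a b c d hab hcd hac hbc h h' hc
    · by_cases hd : p d = p a
      · exact BlowG_C_right (hIM0 a b d c hab hcd.symm had hbd h (fun e => h' e.symm) hd)
      · intro z hz1 hz2
        refine absurd ?_ (hA' a b c d z hz1 hz2)
        rw [← h, segment_same, Set.disjoint_singleton_left]
        exact hp.c1 c d a hcd h' (fun e => hc e.symm) (fun e => hd e.symm)
  have hMM0 : ∀ a b c d : V, G.Adj a b → G.Adj c d → a ≠ c → b ≠ d →
      p a ≠ p b → p c ≠ p d → p c = p a → BlowG_C Q a b c d := by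
    intro a b c d hab hcd hac hbd h h' hc z hz1 hz2
    obtain ⟨s, hs, e1⟩ := hmix a b hab h _ hz1
    obtain ⟨s', hs', e2⟩ := hmix c d hcd h' _ hz2
    rw [hc, e1] at e2
    exact absurd (BlowG_cancel hε e2) ((hgood a).l7 a b c d hab hcd rfl (fun e => h e.symm) hc
      (fun e => h' (hc.trans e.symm)) hac hbd s s' hs hs')
  have hMM : ∀ a b c d : V, G.Adj a b → G.Adj c d → a ≠ c → a ≠ d → b ≠ c → b ≠ d →
      p a ≠ p b → p c ≠ p d → BlowG_C Q a b c d := by
    intro a b c d hab hcd hac had hbc hbd h h'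
    by_cases h1 : p c = p a
    · exact hMM0 a b c d hab hcd hac hbd h h' h1
    by_cases h2 : p d = p a
    · exact BlowG_C_right (hMM0 a b d c hab hcd.symm had hbc h (fun e => h' e.symm) h2)
    by_cases h3 : p c = p b
    · exact BlowG_C_left (hMM0 b a c d hab.symm hcd hbc had (fun e => h e.symm) h' h3)
    by_cases h4 : p d = p b
    · exact BlowG_C_left (BlowG_C_right (hMM0 b a d c hab.symm hcd.symm hbd hac
        (fun e => h e.symm) (fun e => h' e.symm) h4))
    intro z hz1 hz2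
    have h5 := Set.not_disjoint_iff_nonempty_inter.mp (hA' a b c d z hz1 hz2)
    have h6 := hp.c2 a b c d hab hcd h h' (fun e => h1 e.symm) (fun e => h2 e.symm)
      (fun e => h3 e.symm) (fun e => h4 e.symm) h5
    obtain ⟨l, hl⟩ := hmd a b hab h
    obtain ⟨m, hm⟩ := hmd c d hcd h'
    rw [hl, hm, BlowG_ip_smul, h6, mul_zero]
  have hall : ∀ a b c d : V, G.Adj a b → G.Adj c d → a ≠ c → a ≠ d → b ≠ c → b ≠ d →
      BlowG_C Q a b c d := by
    intro a b c d hab hcd hac had hbc hbd
    by_cases h : p a = p b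
    · by_cases h' : p c = p d
      · exact hII a b c d hab hcd hac had hbc hbd h h'
      · exact hIM a b c d hab hcd hac had hbc hbd h h'
    · by_cases h' : p c = p d
      · exact BlowG_C_swap (hIM c d a b hcd hab hac.symm hbc.symm had.symm hbd.symm h' h)
      · exact hMM a b c d hab hcd hac had hbc hbd h h'
  refine ⟨Q, hinj, hvert, ?_⟩
  rintro a b c d hab hcd hac had hbc hbd ⟨z, hz1, hz2⟩
  exact hall a b c d hab hcd hac had hbc hbd z hz1 hz2

end MP_a17342_co.RT
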