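import Pool.Agent.Lib.MP_a17342_co.RT.Conf

/-!
# Local drawing CL1 of the 4-cycle
Plan (indices 0 = a1, 1 = b1, 2 = a2, 3 = b2; rays: da from a1, db from b1, (1, 0) from a2 and b2): c = xb / yb, X = |c| + 1: a1 = (0, 0), b1 = (c, 1), a2 = (X, 0), b2 = (X, 1). No crossing at all. The da ray is at heights ≤ 0 or (ya > 0) left of the db line; the db ray is
{(c h, h) : h ≥ 1}.
-/

set_option autoImplicit false

namespace MP_a17342_co.RT

private lemma CL1_seg {x y z : P} (h : z ∈ segment ℝ x y) :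
    ∃ t : ℝ, 0 ≤ t ∧ t ≤ 1 ∧ z.1 = (1 - t) * x.1 + t * y.1 ∧ z.2 = (1 - t) * x.2 + t * y.2 := by
  obtain ⟨a, b, ha, hb, hab, rfl⟩ := h
  refine ⟨b, hb, by linarith, ?_, ?_⟩
  · simp only [Prod.fst_add, Prod.smul_fst, smul_eq_mul]
    rw [show a = 1 - b by linarith]
  · simp only [Prod.snd_add, Prod.smul_snd, smul_eq_mul]
    rw [show a = 1 - b by linarith]

private lemma CL1_loc {xa ya xb yb c X : ℝ} (hb : 0 < yb) (hc : c * yb = xb) (hX : 0 < X)
    (hcX : c < X)
    (F1 : ∀ s : ℝ, 0 ≤ s → s * ya = 0 → s * xa ≤ 0)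
    (F2 : ∀ s : ℝ, 0 ≤ s → 0 < s * ya → s * xa < c * (s * ya))
    {g : Fin 4 → P} (g0 : g 0 = (0, 0)) (g1 : g 1 = (c, 1)) (g2 : g 2 = (X, 0))
    (g3 : g 3 = (X, 1)) : Loc adj4 g (dirs (xa, ya) (xb, yb)) := by
  have hint : ∀ t : ℝ, 0 ≤ t → t ≤ 1 → t * c < X := by
    intro t h0 h1
    rcases le_or_gt c 0 with hc0 | hc0
    · nlinarith
    · nlinarith
  have hint2 : ∀ t : ℝ, 0 ≤ t → t ≤ 1 → (1 - t) * c < X := fun t h0 h1 =>
    hint (1 - t) (by linarith) (by linarith)
  have r0 : ∀ d, d ∈ dirs (xa, ya) (xb, yb) 0 ↔ d = (xa, ya) := fun d => Iff.rfl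
  have r1 : ∀ d, d ∈ dirs (xa, ya) (xb, yb) 1 ↔ d = (xb, yb) := fun d => Iff.rfl
  have r2 : ∀ d, d ∈ dirs (xa, ya) (xb, yb) 2 ↔ d = ((1 : ℝ), (0 : ℝ)) := fun d => Iff.rfl
  have r3 : ∀ d, d ∈ dirs (xa, ya) (xb, yb) 3 ↔ d = ((1 : ℝ), (0 : ℝ)) := fun d => Iff.rfl
  -- the point at parameter `s` of the ray of `da`
  have F0 : ∀ s x y : ℝ, 0 ≤ s → x = s * xa → y = s * ya → 0 < x → 0 < y ∧ x < c * y ∨ y < 0 := by
    intro s x y hs hx hy h
    rcases lt_trichotomy y 0 with h1 | h1 | h1
    · exact Or.inr h1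
    · have := F1 s hs (by rw [← hy]; exact h1)
      linarith
    · left
      refine ⟨h1, ?_⟩
      rw [hx, hy]
      exact F2 s hs (by rw [← hy]; exact h1)
  have F3 : ∀ s x y : ℝ, 0 ≤ s → x = s * xa → y = s * ya → 0 < y → x < c * y := by
    intro s x y hs hx hy h
    rw [hx, hy]
    exact F2 s hs (by rw [← hy]; exact h)
  constructor
  · -- inj
    intro i j hij
    fin_cases i <;> fin_cases j <;> first
      | rfl
      | (exfalso
         simp only [Fin.zero_eta, Fin.mk_one, Fin.reduceFinMk, g0, g1, g2, g3, Prod.mk.injEq] at hij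
         obtain ⟨h1, h2⟩ := hij
         linarith)
  · -- c3
    intro i j k hij hk1 hk2 hm
    obtain ⟨t, ht0, ht1, e1, e2⟩ := CL1_seg hm
    have h1 := hint t ht0 ht1
    have h2 := hint2 t ht0 ht1
    rcases hij with ⟨rfl, rfl⟩ | ⟨rfl, rfl⟩ | ⟨rfl, rfl⟩ | ⟨rfl, rfl⟩ | ⟨rfl, rfl⟩ | ⟨rfl, rfl⟩ |
      ⟨rfl, rfl⟩ | ⟨rfl, rfl⟩ <;> fin_cases k <;> first
      | exact hk1 rfl
      | exact hk2 rfl
      | (simp only [Fin.zero_eta, Fin.mk_one, Fin.reduceFinMk, g0, g1, g2, g3] at e1 e2
         first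
           | linarith
           | nlinarith)
  · -- c4
    intro i k d hd hk s hs e
    have e1 := congrArg Prod.fst e
    have e2 := congrArg Prod.snd e
    fin_cases i <;> simp only [Fin.zero_eta, Fin.mk_one, Fin.reduceFinMk, r0, r1, r2, r3] at hd <;>
      subst hd <;> fin_cases k <;> first
      | exact hk rfl
      | (simp only [Fin.zero_eta, Fin.mk_one, Fin.reduceFinMk, g0, g1, g2, g3, Prod.fst_add,
           Prod.snd_add, Prod.smul_fst, Prod.smul_snd, smul_eq_mul] at e1 e2
         first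
           | linarith
           | (have := F3 s c 1 hs (by linarith) (by linarith) one_pos
              linarith)
           | (have := F1 s hs (by linarith)
              linarith)
           | (have := F3 s X 1 hs (by linarith) (by linarith) one_pos
              linarith)
           | nlinarith)
  · -- c5
    rintro i j k l hij hkl h1 h2 h3 h4 ⟨z, hz1, hz2⟩
    exfalso
    obtain ⟨t, ht0, ht1, e1, e2⟩ := CL1_seg hz1
    obtain ⟨u, hu0, hu1, f1, f2⟩ := CL1_seg hz2
    have k1 := hint t ht0 ht1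
    have k2 := hint2 t ht0 ht1
    have k3 := hint u hu0 hu1
    have k4 := hint2 u hu0 hu1
    rcases hij with ⟨rfl, rfl⟩ | ⟨rfl, rfl⟩ | ⟨rfl, rfl⟩ | ⟨rfl, rfl⟩ | ⟨rfl, rfl⟩ | ⟨rfl, rfl⟩ |
      ⟨rfl, rfl⟩ | ⟨rfl, rfl⟩ <;> rcases hkl with ⟨rfl, rfl⟩ | ⟨rfl, rfl⟩ | ⟨rfl, rfl⟩ | ⟨rfl, rfl⟩ |
      ⟨rfl, rfl⟩ | ⟨rfl, rfl⟩ | ⟨rfl, rfl⟩ | ⟨rfl, rfl⟩ <;> first
      | exact h1 rfl
      | exact h2 rfl
      | exact h3 rfl
      | exact h4 rfl
      | (simp only [g0, g1, g2, g3] at e1 e2 f1 f2
         linarith)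
  · -- c6
    intro i j k hij d hd hk1 hk2 s hs hm
    exfalso
    obtain ⟨t, ht0, ht1, e1, e2⟩ := CL1_seg hm
    have h1 := hint t ht0 ht1
    have h2 := hint2 t ht0 ht1
    fin_cases k <;> simp only [Fin.zero_eta, Fin.mk_one, Fin.reduceFinMk, r0, r1, r2, r3] at hd <;>
      subst hd <;> rcases hij with ⟨rfl, rfl⟩ | ⟨rfl, rfl⟩ | ⟨rfl, rfl⟩ | ⟨rfl, rfl⟩ | ⟨rfl, rfl⟩ |
      ⟨rfl, rfl⟩ | ⟨rfl, rfl⟩ | ⟨rfl, rfl⟩ <;> first
      | exact hk1 rfl
      | exact hk2 rfl
      | (simp only [Fin.zero_eta, Fin.mk_one, Fin.reduceFinMk, g0, g1, g2, g3, Prod.fst_add,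
           Prod.snd_add, Prod.smul_fst, Prod.smul_snd, smul_eq_mul] at e1 e2
         first
           | linarith
           | (have h3 := F3 s (s * xa) 1 hs rfl (by linarith) one_pos
              nlinarith)
           | (rcases F0 s X (s * ya) hs (by linarith) rfl hX with ⟨h3, h4⟩ | h3
              · have h5 := hint (s * ya) h3.le (by linarith)
                linarith
              · linarith)
           | (have hs0 : s * yb ≤ 0 := by linarith
              have hs1 : s = 0 := by
                by_contra hne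
                have : 0 < s * yb := mul_pos (lt_of_le_of_ne hs (Ne.symm hne)) hb
                linarith
              subst hs1
              linarith))
  · -- c7
    intro i j hij d hd d' hd' s s' hs hs' e
    have e1 := congrArg Prod.fst e
    have e2 := congrArg Prod.snd e
    have p1 : 0 ≤ s * yb := mul_nonneg hs hb.le
    have p2 : 0 ≤ s' * yb := mul_nonneg hs' hb.le
    have q1 : c * (1 + s * yb) = c + s * xb := by rw [← hc]; ring
    have q2 : c * (1 + s' * yb) = c + s' * xb := by rw [← hc]; ring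
    fin_cases i <;> simp only [Fin.zero_eta, Fin.mk_one, Fin.reduceFinMk, r0, r1, r2, r3] at hd <;>
      subst hd <;> fin_cases j <;>
      simp only [Fin.zero_eta, Fin.mk_one, Fin.reduceFinMk, r0, r1, r2, r3] at hd' <;>
      subst hd' <;> first
      | exact hij rfl
      | (simp only [Fin.zero_eta, Fin.mk_one, Fin.reduceFinMk, g0, g1, g2, g3, Prod.fst_add,
           Prod.snd_add, Prod.smul_fst, Prod.smul_snd, smul_eq_mul] at e1 e2
         first
           | linarith
           | (have h3 := F3 s (c + s' * xb) (1 + s' * yb) hs (by linarith) (by linarith)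
                (by linarith)
              linarith)
           | (have h3 := F3 s' (c + s * xb) (1 + s * yb) hs' (by linarith) (by linarith)
                (by linarith)
              linarith)
           | (have h3 := F1 s hs (by linarith)
              linarith)
           | (have h3 := F1 s' hs' (by linarith)
              linarith)
           | (have h3 := F3 s (X + s' * 1) 1 hs (by linarith) (by linarith) one_pos
              linarith)
           | (have h3 := F3 s' (X + s * 1) 1 hs' (by linarith) (by linarith) one_pos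
              linarith)
           | (have hs1 : s = 0 := by
                by_contra hne
                have : 0 < s * yb := mul_pos (lt_of_le_of_ne hs (Ne.symm hne)) hb
                linarith
              subst hs1
              linarith)
           | (have hs1 : s' = 0 := by
                by_contra hne
                have : 0 < s' * yb := mul_pos (lt_of_le_of_ne hs' (Ne.symm hne)) hb
                linarith
              subst hs1
              linarith))

theorem conf_L1 {xa ya xb yb : ℝ} (hb : 0 < yb) (h : ya ≤ 0 ∨ xa * yb < xb * ya)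
    (ha : ya ≠ 0 ∨ xa < 0) : ∃ g, Conf (xa, ya) (xb, yb) g := by
  have hc : xb / yb * yb = xb := div_mul_cancel₀ xb hb.ne'
  have hcX : xb / yb < |xb / yb| + 1 := by
    have := le_abs_self (xb / yb)
    linarith
  have hX : 0 < |xb / yb| + 1 := by positivity
  refine ⟨![((0 : ℝ), (0 : ℝ)), (xb / yb, 1), (|xb / yb| + 1, 0), (|xb / yb| + 1, 1)],
    CL1_loc hb hc hX hcX ?_ ?_ rfl rfl rfl rfl, ⟨0, ?_⟩, ⟨1 / yb, ?_⟩, rfl, rfl⟩
  · intro s hs h0
    rcases mul_eq_zero.1 h0 with rfl | h1
    · simp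
    · rcases ha with h2 | h2
      · exact absurd h1 h2
      · nlinarith
  · intro s hs h0
    have hya : 0 < ya := by
      by_contra hn
      have : s * ya ≤ 0 := mul_nonpos_of_nonneg_of_nonpos hs (not_lt.1 hn)
      linarith
    have hs0 : 0 < s := by
      by_contra hn
      have : s = 0 := le_antisymm (not_lt.1 hn) hs
      subst this
      simp at h0
    have h1 : xa * yb < xb * ya := by
      rcases h with h2 | h2
      · linarith
      · exact h2
    have h2 : xa < xb / yb * ya := by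
      rw [div_mul_eq_mul_div, lt_div_iff₀ hb]
      exact h1
    calc s * xa < s * (xb / yb * ya) := mul_lt_mul_of_pos_left h2 hs0
      _ = xb / yb * (s * ya) := by ring
  · simp
  · apply Prod.ext
    · simp [div_eq_mul_inv, mul_comm]
    · simp [hb.ne']

end MP_a17342_co.RT
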