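import Pool.Agent.Lib.MP_a17342_co.RT.Conf

/-!
# Local drawing CL2 of the 4-cycle
Plan (indices 0 = a1, 1 = b1, 2 = a2, 3 = b2; rays: da from a1, db from b1, (1, 0) from a2 and b2): c = xb / yb, k = xa / ya, c > k, X = |c| + |k| + 1: a1 = (-k, -1), b1 = (c, 1), a2 = (X, 0), b2 = (X, 1). No crossing at all. The db ray is {(c h, h) : h ≤ 1}, the da ray is
{(k h, h) : h ≤ -1}; on [a1, a2] (heights h in [-1, 0]) the first coordinate is > c h (linear in h, check h = -1 and h = 0).
-/

set_option autoImplicit false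

namespace MP_a17342_co.RT

private lemma CL2_fin (k : Fin 4) : k = 0 ∨ k = 1 ∨ k = 2 ∨ k = 3 := by
  fin_cases k <;> simp

private lemma CL2_symm {i j : Fin 4} (h : adj4 i j) : adj4 j i := by
  unfold adj4 at h ⊢
  tauto

private lemma CL2_ne {i j : Fin 4} (h : adj4 i j) : i ≠ j := by
  rintro rfl
  revert h
  unfold adj4
  rcases CL2_fin i with rfl | rfl | rfl | rfl <;> decide

private lemma CL2_adj {i j : Fin 4} (h : adj4 i j) (hlt : i < j) :
    (i = 0 ∧ j = 1) ∨ (i = 0 ∧ j = 2) ∨ (i = 1 ∧ j = 3) ∨ (i = 2 ∧ j = 3) := by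
  rcases h with h | ⟨rfl, rfl⟩ | h | ⟨rfl, rfl⟩ | h | ⟨rfl, rfl⟩ | h | ⟨rfl, rfl⟩
  · exact Or.inl h
  · exact absurd hlt (by decide)
  · exact Or.inr (Or.inl h)
  · exact absurd hlt (by decide)
  · exact Or.inr (Or.inr (Or.inl h))
  · exact absurd hlt (by decide)
  · exact Or.inr (Or.inr (Or.inr h))
  · exact absurd hlt (by decide)

private lemma CL2_seg {x1 y1 x2 y2 zx zy : ℝ} (h : ((zx, zy) : P) ∈ segment ℝ (x1, y1) (x2, y2)) :
    ∃ a b : ℝ, 0 ≤ a ∧ 0 ≤ b ∧ a + b = 1 ∧ a * x1 + b * x2 = zx ∧ a * y1 + b * y2 = zy := by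
  obtain ⟨a, b, ha, hb, hab, he⟩ := h
  refine ⟨a, b, ha, hb, hab, ?_, ?_⟩
  · have := congrArg Prod.fst he
    simpa using this
  · have := congrArg Prod.snd he
    simpa using this

theorem conf_L2 {xa ya xb yb : ℝ} (hb : yb < 0) (ha : ya < 0) (h : xa * yb < xb * ya) :
    ∃ g, Conf (xa, ya) (xb, yb) g := by
  obtain ⟨c, hc⟩ : ∃ c, c = xb / yb := ⟨_, rfl⟩
  obtain ⟨k, hk⟩ : ∃ k, k = xa / ya := ⟨_, rfl⟩
  obtain ⟨X, hX⟩ : ∃ X, X = |c| + |k| + 1 := ⟨_, rfl⟩
  have hxb : xb = c * yb := by rw [hc, div_mul_cancel₀ _ hb.ne]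
  have hxa : xa = k * ya := by rw [hk, div_mul_cancel₀ _ ha.ne]
  have hp : 0 < ya * yb := mul_pos_of_neg_of_neg ha hb
  have hkc : k < c := by
    rw [hxa, hxb] at h
    by_contra hn
    push Not at hn
    nlinarith [mul_nonneg (sub_nonneg.2 hn) hp.le]
  have e1 : 0 ≤ X - 1 + k := by
    have := neg_abs_le k
    have := abs_nonneg c
    linarith
  have e2 : 0 ≤ X - 1 - c := by
    have := le_abs_self c
    have := abs_nonneg k
    linarith
  have hX1 : 1 ≤ X := by
    have := abs_nonneg c
    have := abs_nonneg k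
    linarith
  -- the ray of a1
  have ray0 : ∀ s : ℝ, 0 ≤ s → ((-k, -1) : P) + s • ((xa, ya) : P) = (-k + s * xa, -1 + s * ya) := by
    intro s _; simp
  have ray1 : ∀ s : ℝ, 0 ≤ s → ((c, 1) : P) + s • ((xb, yb) : P) =
      (c * (1 + s * yb), 1 + s * yb) := by
    intro s _
    rw [hxb]
    ext
    · simp; ring
    · simp
  have ray2 : ∀ s : ℝ, 0 ≤ s → ((X, 0) : P) + s • ((1, 0) : P) = (X + s, 0) := by
    intro s _; simp
  have ray3 : ∀ s : ℝ, 0 ≤ s → ((X, 1) : P) + s • ((1, 0) : P) = (X + s, 1) := by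
    intro s _; simp
  have hy0 : ∀ s : ℝ, 0 ≤ s → -1 + s * ya ≤ -1 := by
    intro s hs
    nlinarith
  -- segments
  have S01 : ∀ z w : ℝ, ((z, w) : P) ∈ segment ℝ (-k, -1) (c, 1) → z ≤ X - 1 := by
    intro z w hz
    obtain ⟨a, b, ha', hb', hab, h1, h2⟩ := CL2_seg hz
    nlinarith [mul_nonneg ha' e1, mul_nonneg hb' e2]
  have S02 : ∀ z w : ℝ, ((z, w) : P) ∈ segment ℝ (-k, -1) (X, 0) → w ≤ 0 ∧ c * w < z := by
    intro z w hz
    obtain ⟨a, b, ha', hb', hab, h1, h2⟩ := CL2_seg hz
    refine ⟨by linarith, ?_⟩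
    have hw : w = -a := by linarith
    have h3 : 0 < b * X + a * (c - k) := by
      rcases ha'.eq_or_lt with h0 | h0
      · have : b = 1 := by linarith
        rw [← h0, this]; linarith
      · have := mul_pos h0 (sub_pos.2 hkc)
        have := mul_nonneg hb' (by linarith : (0 : ℝ) ≤ X)
        linarith
    rw [hw]
    nlinarith
  have S13 : ∀ z w : ℝ, ((z, w) : P) ∈ segment ℝ (c, 1) (X, 1) → w = 1 := by
    intro z w hz
    obtain ⟨a, b, ha', hb', hab, h1, h2⟩ := CL2_seg hz
    linarith
  have S23 : ∀ z w : ℝ, ((z, w) : P) ∈ segment ℝ (X, 0) (X, 1) → z = X ∧ 0 ≤ w ∧ w ≤ 1 := by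
    intro z w hz
    obtain ⟨a, b, ha', hb', hab, h1, h2⟩ := CL2_seg hz
    refine ⟨?_, by linarith, by linarith⟩
    rw [← h1, ← add_mul, hab, one_mul]
  refine ⟨![(-k, -1), (c, 1), (X, 0), (X, 1)], ⟨?_, ?_, ?_, ?_, ?_, ?_⟩, ⟨-1 / ya, ?_⟩,
    ⟨1 / yb, ?_⟩, rfl, rfl⟩
  · -- injectivity
    intro i j hij
    have h1 := congrArg Prod.fst hij
    have h2 := congrArg Prod.snd hij
    rcases CL2_fin i with rfl | rfl | rfl | rfl <;> rcases CL2_fin j with rfl | rfl | rfl | rfl
    · rfl
    · change (-1 : ℝ) = 1 at h2; norm_num at h2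
    · change (-1 : ℝ) = 0 at h2; norm_num at h2
    · change (-1 : ℝ) = 1 at h2; norm_num at h2
    · change (1 : ℝ) = -1 at h2; norm_num at h2
    · rfl
    · change (1 : ℝ) = 0 at h2; norm_num at h2
    · change c = X at h1; linarith
    · change (0 : ℝ) = -1 at h2; norm_num at h2
    · change (0 : ℝ) = 1 at h2; norm_num at h2
    · rfl
    · change (0 : ℝ) = 1 at h2; norm_num at h2
    · change (1 : ℝ) = -1 at h2; norm_num at h2
    · change X = c at h1; linarith
    · change (1 : ℝ) = 0 at h2; norm_num at h2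
    · rfl
  · -- c3
    have key : ∀ i j l : Fin 4, adj4 i j → i < j → l ≠ i → l ≠ j →
        (![(-k, -1), (c, 1), (X, 0), (X, 1)] : Fin 4 → P) l ∉
          segment ℝ ((![(-k, -1), (c, 1), (X, 0), (X, 1)] : Fin 4 → P) i)
            ((![(-k, -1), (c, 1), (X, 0), (X, 1)] : Fin 4 → P) j) := by
      intro i j l hij hlt h1 h2 hm
      rcases CL2_adj hij hlt with ⟨rfl, rfl⟩ | ⟨rfl, rfl⟩ | ⟨rfl, rfl⟩ | ⟨rfl, rfl⟩
      · rcases CL2_fin l with rfl | rfl | rfl | rfl
        · exact h1 rfl
        · exact h2 rfl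
        · have := S01 X 0 hm; linarith
        · have := S01 X 1 hm; linarith
      · rcases CL2_fin l with rfl | rfl | rfl | rfl
        · exact h1 rfl
        · have := (S02 c 1 hm).1; linarith
        · exact h2 rfl
        · have := (S02 X 1 hm).1; linarith
      · rcases CL2_fin l with rfl | rfl | rfl | rfl
        · have := S13 (-k) (-1) hm; linarith
        · exact h1 rfl
        · have := S13 X 0 hm; linarith
        · exact h2 rfl
      · rcases CL2_fin l with rfl | rfl | rfl | rfl
        · have := (S23 (-k) (-1) hm).2.1; linarith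
        · have := (S23 c 1 hm).1; linarith
        · exact h1 rfl
        · exact h2 rfl
    intro i j l hij h1 h2
    rcases lt_or_gt_of_ne (CL2_ne hij) with hlt | hgt
    · exact key i j l hij hlt h1 h2
    · rw [segment_symm]
      exact key j i l (CL2_symm hij) hgt h2 h1
  · -- c4
    intro i l d hd hli s hs
    rcases CL2_fin i with rfl | rfl | rfl | rfl
    · have hd' : d = (xa, ya) := hd
      rw [hd']
      change _ ≠ ((-k, -1) : P) + s • ((xa, ya) : P)
      rw [ray0 s hs]
      have hy := hy0 s hs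
      intro he
      have h2 := congrArg Prod.snd he
      rcases CL2_fin l with rfl | rfl | rfl | rfl
      · exact hli rfl
      all_goals (simp at h2; linarith)
    · have hd' : d = (xb, yb) := hd
      rw [hd']
      change _ ≠ ((c, 1) : P) + s • ((xb, yb) : P)
      rw [ray1 s hs]
      intro he
      have h1 := congrArg Prod.fst he
      have h2 := congrArg Prod.snd he
      rcases CL2_fin l with rfl | rfl | rfl | rfl
      · change -k = c * (1 + s * yb) at h1
        change (-1 : ℝ) = 1 + s * yb at h2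
        rw [← h2] at h1
        linarith
      · exact hli rfl
      · change X = c * (1 + s * yb) at h1
        change (0 : ℝ) = 1 + s * yb at h2
        rw [← h2] at h1
        linarith
      · change X = c * (1 + s * yb) at h1
        change (1 : ℝ) = 1 + s * yb at h2
        rw [← h2] at h1
        linarith
    · have hd' : d = (1, 0) := hd
      rw [hd']
      change _ ≠ ((X, 0) : P) + s • ((1, 0) : P)
      rw [ray2 s hs]
      intro he
      have h2 := congrArg Prod.snd he
      rcases CL2_fin l with rfl | rfl | rfl | rfl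
      · simp at h2
      · simp at h2
      · exact hli rfl
      · simp at h2
    · have hd' : d = (1, 0) := hd
      rw [hd']
      change _ ≠ ((X, 1) : P) + s • ((1, 0) : P)
      rw [ray3 s hs]
      intro he
      have h1 := congrArg Prod.fst he
      have h2 := congrArg Prod.snd he
      rcases CL2_fin l with rfl | rfl | rfl | rfl
      · change (-1 : ℝ) = 1 at h2; norm_num at h2
      · change c = X + s at h1; linarith
      · change (0 : ℝ) = 1 at h2; norm_num at h2
      · exact hli rfl
  · -- c5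
    have D1 : ∀ q : P, q ∈ segment ℝ ((-k, -1) : P) (c, 1) → q ∈ segment ℝ ((X, 0) : P) (X, 1) →
        False := by
      rintro ⟨z, w⟩ h1 h2
      have a1 := S01 z w h1
      have a2 := (S23 z w h2).1
      linarith
    have D2 : ∀ q : P, q ∈ segment ℝ ((-k, -1) : P) (X, 0) → q ∈ segment ℝ ((c, 1) : P) (X, 1) →
        False := by
      rintro ⟨z, w⟩ h1 h2
      have a1 := (S02 z w h1).1
      have a2 := S13 z w h2
      linarith
    have key : ∀ i j l m : Fin 4, adj4 i j → adj4 l m → i < j → l < m → i < l → i ≠ l → i ≠ m →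
        j ≠ l → j ≠ m → ∀ q : P,
        q ∈ segment ℝ ((![(-k, -1), (c, 1), (X, 0), (X, 1)] : Fin 4 → P) i)
            ((![(-k, -1), (c, 1), (X, 0), (X, 1)] : Fin 4 → P) j) →
        q ∈ segment ℝ ((![(-k, -1), (c, 1), (X, 0), (X, 1)] : Fin 4 → P) l)
            ((![(-k, -1), (c, 1), (X, 0), (X, 1)] : Fin 4 → P) m) → False := by
      intro i j l m hij hlm o1 o2 o3 h1 h2 h3 h4 q hq1 hq2
      rcases CL2_adj hij o1 with ⟨rfl, rfl⟩ | ⟨rfl, rfl⟩ | ⟨rfl, rfl⟩ | ⟨rfl, rfl⟩
      · rcases CL2_adj hlm o2 with ⟨rfl, rfl⟩ | ⟨rfl, rfl⟩ | ⟨rfl, rfl⟩ | ⟨rfl, rfl⟩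
        · exact h1 rfl
        · exact h1 rfl
        · exact h3 rfl
        · exact D1 q hq1 hq2
      · rcases CL2_adj hlm o2 with ⟨rfl, rfl⟩ | ⟨rfl, rfl⟩ | ⟨rfl, rfl⟩ | ⟨rfl, rfl⟩
        · exact h1 rfl
        · exact h1 rfl
        · exact D2 q hq1 hq2
        · exact h3 rfl
      · rcases CL2_adj hlm o2 with ⟨rfl, rfl⟩ | ⟨rfl, rfl⟩ | ⟨rfl, rfl⟩ | ⟨rfl, rfl⟩
        · exact h2 rfl
        · exact absurd o3 (by decide)
        · exact h1 rfl
        · exact h4 rfl
      · rcases CL2_adj hlm o2 with ⟨rfl, rfl⟩ | ⟨rfl, rfl⟩ | ⟨rfl, rfl⟩ | ⟨rfl, rfl⟩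
        · exact absurd o3 (by decide)
        · exact absurd o3 (by decide)
        · exact absurd o3 (by decide)
        · exact h1 rfl
    have key2 : ∀ i j l m : Fin 4, adj4 i j → adj4 l m → i < j → l < m → i ≠ l → i ≠ m →
        j ≠ l → j ≠ m → ∀ q : P,
        q ∈ segment ℝ ((![(-k, -1), (c, 1), (X, 0), (X, 1)] : Fin 4 → P) i)
            ((![(-k, -1), (c, 1), (X, 0), (X, 1)] : Fin 4 → P) j) →
        q ∈ segment ℝ ((![(-k, -1), (c, 1), (X, 0), (X, 1)] : Fin 4 → P) l)
            ((![(-k, -1), (c, 1), (X, 0), (X, 1)] : Fin 4 → P) m) → False := by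
      intro i j l m hij hlm o1 o2 h1 h2 h3 h4 q hq1 hq2
      rcases lt_or_gt_of_ne h1 with o3 | o3
      · exact key i j l m hij hlm o1 o2 o3 h1 h2 h3 h4 q hq1 hq2
      · exact key l m i j hlm hij o2 o1 o3 h1.symm h3.symm h2.symm h4.symm q hq2 hq1
    rintro i j l m hij hlm h1 h2 h3 h4 ⟨q, hq1, hq2⟩
    exfalso
    rcases lt_or_gt_of_ne (CL2_ne hij) with o1 | o1 <;>
      rcases lt_or_gt_of_ne (CL2_ne hlm) with o2 | o2
    · exact key2 i j l m hij hlm o1 o2 h1 h2 h3 h4 q hq1 hq2
    · rw [segment_symm] at hq2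
      exact key2 i j m l hij (CL2_symm hlm) o1 o2 h2 h1 h4 h3 q hq1 hq2
    · rw [segment_symm] at hq1
      exact key2 j i l m (CL2_symm hij) hlm o1 o2 h3 h4 h1 h2 q hq1 hq2
    · rw [segment_symm] at hq1 hq2
      exact key2 j i m l (CL2_symm hij) (CL2_symm hlm) o1 o2 h4 h3 h2 h1 q hq1 hq2
  · -- c6
    have key : ∀ i j l : Fin 4, adj4 i j → i < j → ∀ d ∈ dirs (xa, ya) (xb, yb) l, l ≠ i → l ≠ j →
        ∀ s : ℝ, 0 ≤ s →
        (![(-k, -1), (c, 1), (X, 0), (X, 1)] : Fin 4 → P) l + s • d ∉
          segment ℝ ((![(-k, -1), (c, 1), (X, 0), (X, 1)] : Fin 4 → P) i)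
            ((![(-k, -1), (c, 1), (X, 0), (X, 1)] : Fin 4 → P) j) := by
      intro i j l hij hlt d hd h1 h2 s hs hm
      have hy := hy0 s hs
      rcases CL2_adj hij hlt with ⟨rfl, rfl⟩ | ⟨rfl, rfl⟩ | ⟨rfl, rfl⟩ | ⟨rfl, rfl⟩
      · rcases CL2_fin l with rfl | rfl | rfl | rfl
        · exact h1 rfl
        · exact h2 rfl
        · have hd' : d = (1, 0) := hd
          rw [hd'] at hm
          change ((X, 0) : P) + s • ((1, 0) : P) ∈ segment ℝ ((-k, -1) : P) (c, 1) at hm
          rw [ray2 s hs] at hm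
          have := S01 _ _ hm; linarith
        · have hd' : d = (1, 0) := hd
          rw [hd'] at hm
          change ((X, 1) : P) + s • ((1, 0) : P) ∈ segment ℝ ((-k, -1) : P) (c, 1) at hm
          rw [ray3 s hs] at hm
          have := S01 _ _ hm; linarith
      · rcases CL2_fin l with rfl | rfl | rfl | rfl
        · exact h1 rfl
        · have hd' : d = (xb, yb) := hd
          rw [hd'] at hm
          change ((c, 1) : P) + s • ((xb, yb) : P) ∈ segment ℝ ((-k, -1) : P) (X, 0) at hm
          rw [ray1 s hs] at hm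
          have := (S02 _ _ hm).2
          exact lt_irrefl _ this
        · exact h2 rfl
        · have hd' : d = (1, 0) := hd
          rw [hd'] at hm
          change ((X, 1) : P) + s • ((1, 0) : P) ∈ segment ℝ ((-k, -1) : P) (X, 0) at hm
          rw [ray3 s hs] at hm
          have := (S02 _ _ hm).1; linarith
      · rcases CL2_fin l with rfl | rfl | rfl | rfl
        · have hd' : d = (xa, ya) := hd
          rw [hd'] at hm
          change ((-k, -1) : P) + s • ((xa, ya) : P) ∈ segment ℝ ((c, 1) : P) (X, 1) at hm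
          rw [ray0 s hs] at hm
          have := S13 _ _ hm; linarith
        · exact h1 rfl
        · have hd' : d = (1, 0) := hd
          rw [hd'] at hm
          change ((X, 0) : P) + s • ((1, 0) : P) ∈ segment ℝ ((c, 1) : P) (X, 1) at hm
          rw [ray2 s hs] at hm
          have := S13 _ _ hm; linarith
        · exact h2 rfl
      · rcases CL2_fin l with rfl | rfl | rfl | rfl
        · have hd' : d = (xa, ya) := hd
          rw [hd'] at hm
          change ((-k, -1) : P) + s • ((xa, ya) : P) ∈ segment ℝ ((X, 0) : P) (X, 1) at hm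
          rw [ray0 s hs] at hm
          have := (S23 _ _ hm).2.1; linarith
        · have hd' : d = (xb, yb) := hd
          rw [hd'] at hm
          change ((c, 1) : P) + s • ((xb, yb) : P) ∈ segment ℝ ((X, 0) : P) (X, 1) at hm
          rw [ray1 s hs] at hm
          obtain ⟨k1, k2, k3⟩ := S23 _ _ hm
          nlinarith [mul_nonneg k2 e2, mul_nonneg k2 (by linarith : (0 : ℝ) ≤ X - 1)]
        · exact h1 rfl
        · exact h2 rfl
    intro i j l hij d hd h1 h2 s hs hm
    exfalso
    rcases lt_or_gt_of_ne (CL2_ne hij) with hlt | hgt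
    · exact key i j l hij hlt d hd h1 h2 s hs hm
    · rw [segment_symm] at hm
      exact key j i l (CL2_symm hij) hgt d hd h2 h1 s hs hm
  · -- c7
    have key : ∀ i j : Fin 4, i < j → ∀ d ∈ dirs (xa, ya) (xb, yb) i,
        ∀ d' ∈ dirs (xa, ya) (xb, yb) j, ∀ s s' : ℝ, 0 ≤ s → 0 ≤ s' →
        (![(-k, -1), (c, 1), (X, 0), (X, 1)] : Fin 4 → P) i + s • d ≠
          (![(-k, -1), (c, 1), (X, 0), (X, 1)] : Fin 4 → P) j + s' • d' := by
      intro i j hlt d hd d' hd' s s' hs hs' he
      have hy := hy0 s hs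
      rcases CL2_fin i with rfl | rfl | rfl | rfl
      · have e0 : d = (xa, ya) := hd
        rw [e0] at he
        rcases CL2_fin j with rfl | rfl | rfl | rfl
        · exact absurd hlt (by decide)
        · have e0' : d' = (xb, yb) := hd'
          rw [e0'] at he
          change ((-k, -1) : P) + s • ((xa, ya) : P) = ((c, 1) : P) + s' • ((xb, yb) : P) at he
          rw [ray0 s hs, ray1 s' hs'] at he
          have h1 := congrArg Prod.fst he
          have h2 := congrArg Prod.snd he
          change -k + s * xa = c * (1 + s' * yb) at h1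
          change -1 + s * ya = 1 + s' * yb at h2
          rw [← h2, hxa] at h1
          have h3 : (c - k) * (-1 + s * ya) = 0 := by linarith
          rcases mul_eq_zero.1 h3 with h4 | h4 <;> linarith
        · have e0' : d' = (1, 0) := hd'
          rw [e0'] at he
          change ((-k, -1) : P) + s • ((xa, ya) : P) = ((X, 0) : P) + s' • ((1, 0) : P) at he
          rw [ray0 s hs, ray2 s' hs'] at he
          have h2 := congrArg Prod.snd he
          change -1 + s * ya = 0 at h2
          linarith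
        · have e0' : d' = (1, 0) := hd'
          rw [e0'] at he
          change ((-k, -1) : P) + s • ((xa, ya) : P) = ((X, 1) : P) + s' • ((1, 0) : P) at he
          rw [ray0 s hs, ray3 s' hs'] at he
          have h2 := congrArg Prod.snd he
          change -1 + s * ya = 1 at h2
          linarith
      · have e0 : d = (xb, yb) := hd
        rw [e0] at he
        rcases CL2_fin j with rfl | rfl | rfl | rfl
        · exact absurd hlt (by decide)
        · exact absurd hlt (by decide)
        · have e0' : d' = (1, 0) := hd'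
          rw [e0'] at he
          change ((c, 1) : P) + s • ((xb, yb) : P) = ((X, 0) : P) + s' • ((1, 0) : P) at he
          rw [ray1 s hs, ray2 s' hs'] at he
          have h1 := congrArg Prod.fst he
          have h2 := congrArg Prod.snd he
          change c * (1 + s * yb) = X + s' at h1
          change 1 + s * yb = 0 at h2
          rw [h2] at h1
          linarith
        · have e0' : d' = (1, 0) := hd'
          rw [e0'] at he
          change ((c, 1) : P) + s • ((xb, yb) : P) = ((X, 1) : P) + s' • ((1, 0) : P) at he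
          rw [ray1 s hs, ray3 s' hs'] at he
          have h1 := congrArg Prod.fst he
          have h2 := congrArg Prod.snd he
          change c * (1 + s * yb) = X + s' at h1
          change 1 + s * yb = 1 at h2
          rw [h2] at h1
          linarith
      · have e0 : d = (1, 0) := hd
        rw [e0] at he
        rcases CL2_fin j with rfl | rfl | rfl | rfl
        · exact absurd hlt (by decide)
        · exact absurd hlt (by decide)
        · exact absurd hlt (by decide)
        · have e0' : d' = (1, 0) := hd'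
          rw [e0'] at he
          change ((X, 0) : P) + s • ((1, 0) : P) = ((X, 1) : P) + s' • ((1, 0) : P) at he
          rw [ray2 s hs, ray3 s' hs'] at he
          have h2 := congrArg Prod.snd he
          change (0 : ℝ) = 1 at h2
          norm_num at h2
      · rcases CL2_fin j with rfl | rfl | rfl | rfl <;> exact absurd hlt (by decide)
    intro i j hij d hd d' hd' s s' hs hs'
    rcases lt_or_gt_of_ne hij with hlt | hgt
    · exact key i j hlt d hd d' hd' s s' hs hs'
    · exact (key j i hgt d' hd' d hd s' s hs' hs).symm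
  · -- a1 on the line
    change ((-k, -1) : P) = (-1 / ya) • ((xa, ya) : P)
    ext
    · simp only [Prod.smul_mk, smul_eq_mul]
      have hya := ha.ne
      rw [hxa]; field_simp
    · simp only [Prod.smul_mk, smul_eq_mul]
      rw [div_mul_cancel₀ _ ha.ne]
  · change ((c, 1) : P) = (1 / yb) • ((xb, yb) : P)
    ext
    · simp only [Prod.smul_mk, smul_eq_mul]
      have hyb := hb.ne
      rw [hxb]; field_simp
    · simp only [Prod.smul_mk, smul_eq_mul]
      rw [div_mul_cancel₀ _ hb.ne]

end MP_a17342_co.RT
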