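import Pool.Agent.Lib.MP_a17342_co.RT.Conf

/-!
# Local drawing CL3 of the 4-cycle
Indices 0 = a1, 1 = b1, 2 = a2, 3 = b2; rays: da from a1, db from b1, (1, 0) from a2 and b2:
a1 = (0, 0), b1 = (-1, 0), a2 = (1, 0), b2 = (1, 1). No crossing at all; the db ray goes west, the
da ray down.
-/

set_option autoImplicit false

namespace MP_a17342_co.RT

/-- the points -/
private def CL3_g : Fin 4 → P := ![(0, 0), (-1, 0), (1, 0), (1, 1)]

private theorem CL3_g0 : CL3_g 0 = (0, 0) := rfl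
private theorem CL3_g1 : CL3_g 1 = (-1, 0) := rfl
private theorem CL3_g2 : CL3_g 2 = (1, 0) := rfl
private theorem CL3_g3 : CL3_g 3 = (1, 1) := rfl

private theorem CL3_d0 (da db : P) : dirs da db 0 = {da} := rfl
private theorem CL3_d1 (da db : P) : dirs da db 1 = {db} := rfl
private theorem CL3_d2 (da db : P) : dirs da db 2 = {((1 : ℝ), (0 : ℝ))} := rfl
private theorem CL3_d3 (da db : P) : dirs da db 3 = {((1 : ℝ), (0 : ℝ))} := rfl

private theorem CL3_z {s y : ℝ} (hy : y < 0) (h : s * y = 0) : s = 0 :=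
  (mul_eq_zero.1 h).resolve_right hy.ne

theorem conf_L3 {xa ya xb : ℝ} (ha : ya < 0) (hb : xb < 0) : ∃ g, Conf (xa, ya) (xb, 0) g := by
  have key : ∀ k : Fin 4, k = 0 ∨ k = 1 ∨ k = 2 ∨ k = 3 := by decide
  refine ⟨CL3_g, ⟨?_, ?_, ?_, ?_, ?_, ?_⟩, ⟨0, ?_⟩, ⟨-1 / xb, ?_⟩, ?_, ?_⟩
  · intro i j h
    rcases key i with rfl | rfl | rfl | rfl <;> rcases key j with rfl | rfl | rfl | rfl <;>
      simp only [CL3_g0, CL3_g1, CL3_g2, CL3_g3, Prod.mk.injEq] at h ⊢ <;> norm_num at h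
  · intro i j k hij hki hkj hmem
    obtain ⟨u, v, hu, hv, huv, h⟩ := hmem
    rcases hij with ⟨rfl, rfl⟩ | ⟨rfl, rfl⟩ | ⟨rfl, rfl⟩ | ⟨rfl, rfl⟩ | ⟨rfl, rfl⟩ | ⟨rfl, rfl⟩ |
      ⟨rfl, rfl⟩ | ⟨rfl, rfl⟩ <;> rcases key k with rfl | rfl | rfl | rfl <;>
      first
      | exact absurd rfl hki
      | exact absurd rfl hkj
      | (simp only [CL3_g0, CL3_g1, CL3_g2, CL3_g3, Prod.smul_mk, Prod.mk_add_mk, smul_eq_mul,
          Prod.mk.injEq] at h
         obtain ⟨h1, h2⟩ := h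
         linarith)
  · intro i k d hd hki s hs h
    rcases key i with rfl | rfl | rfl | rfl <;> rcases key k with rfl | rfl | rfl | rfl <;>
      first
      | exact absurd rfl hki
      | (simp only [CL3_d0, CL3_d1, CL3_d2, CL3_d3, Set.mem_singleton_iff] at hd
         subst hd
         simp only [CL3_g0, CL3_g1, CL3_g2, CL3_g3, Prod.smul_mk, Prod.mk_add_mk, smul_eq_mul,
          Prod.mk.injEq] at h
         obtain ⟨h1, h2⟩ := h
         first
         | nlinarith
         | (have hs0 : s = 0 := CL3_z ha (by linarith)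
            subst hs0
            nlinarith)
         | (have hs0 : s' = 0 := CL3_z ha (by linarith)
            subst hs0
            nlinarith))
  · intro i j k l hij hkl h1 h2 h3 h4 ⟨x, ⟨u, v, hu, hv, huv, e1⟩, ⟨u', v', hu', hv', huv', e2⟩⟩
    exfalso
    rw [← e2] at e1
    rcases hij with ⟨rfl, rfl⟩ | ⟨rfl, rfl⟩ | ⟨rfl, rfl⟩ | ⟨rfl, rfl⟩ | ⟨rfl, rfl⟩ | ⟨rfl, rfl⟩ |
      ⟨rfl, rfl⟩ | ⟨rfl, rfl⟩ <;>
    rcases hkl with ⟨rfl, rfl⟩ | ⟨rfl, rfl⟩ | ⟨rfl, rfl⟩ | ⟨rfl, rfl⟩ | ⟨rfl, rfl⟩ | ⟨rfl, rfl⟩ |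
      ⟨rfl, rfl⟩ | ⟨rfl, rfl⟩ <;>
      first
      | exact absurd rfl h1
      | exact absurd rfl h2
      | exact absurd rfl h3
      | exact absurd rfl h4
      | (simp only [CL3_g0, CL3_g1, CL3_g2, CL3_g3, Prod.smul_mk, Prod.mk_add_mk, smul_eq_mul,
          Prod.mk.injEq] at e1
         obtain ⟨g1, g2⟩ := e1
         linarith)
  · intro i j k hij d hd hki hkj s hs hmem
    exfalso
    obtain ⟨u, v, hu, hv, huv, h⟩ := hmem
    rcases hij with ⟨rfl, rfl⟩ | ⟨rfl, rfl⟩ | ⟨rfl, rfl⟩ | ⟨rfl, rfl⟩ | ⟨rfl, rfl⟩ | ⟨rfl, rfl⟩ |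
      ⟨rfl, rfl⟩ | ⟨rfl, rfl⟩ <;> rcases key k with rfl | rfl | rfl | rfl <;>
      first
      | exact absurd rfl hki
      | exact absurd rfl hkj
      | (simp only [CL3_d0, CL3_d1, CL3_d2, CL3_d3, Set.mem_singleton_iff] at hd
         subst hd
         simp only [CL3_g0, CL3_g1, CL3_g2, CL3_g3, Prod.smul_mk, Prod.mk_add_mk, smul_eq_mul,
          Prod.mk.injEq] at h
         obtain ⟨h1, h2⟩ := h
         first
         | nlinarith
         | (have hs0 : s = 0 := CL3_z ha (by linarith)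
            subst hs0
            nlinarith)
         | (have hp : s * ya ≤ 0 := mul_nonpos_of_nonneg_of_nonpos hs ha.le
            have hs0 : s = 0 := CL3_z ha (by linarith)
            subst hs0
            linarith))
  · intro i j hij d hd d' hd' s s' hs hs' h
    rcases key i with rfl | rfl | rfl | rfl <;> rcases key j with rfl | rfl | rfl | rfl <;>
      first
      | exact absurd rfl hij
      | (simp only [CL3_d0, CL3_d1, CL3_d2, CL3_d3, Set.mem_singleton_iff] at hd hd'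
         subst hd
         subst hd'
         simp only [CL3_g0, CL3_g1, CL3_g2, CL3_g3, Prod.smul_mk, Prod.mk_add_mk, smul_eq_mul,
          Prod.mk.injEq] at h
         obtain ⟨h1, h2⟩ := h
         first
         | nlinarith
         | (have hs0 : s = 0 := CL3_z ha (by linarith)
            subst hs0
            nlinarith)
         | (have hs0 : s' = 0 := CL3_z ha (by linarith)
            subst hs0
            nlinarith))
  · rw [CL3_g0]; simp
  · rw [CL3_g1]
    have : xb ≠ 0 := hb.ne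
    ext <;> simp [this]
  · rfl
  · rfl

end MP_a17342_co.RT
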