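import Pool.Agent.Lib.MP_a17342_co.RT.Conf

/-!
# Local drawing CS of the 4-cycle
Indices 0 = a1, 1 = b1, 2 = a2, 3 = b2; rays: da from a1, db from b1, (1, 0) from a2 and b2: a1 = (0, 2), a2 = (2, 0), b1 = (0, -1), b2 = (2, 1): the edges a1 a2 and b1 b2 cross at (3/2, 1/2), perpendicularly; no other crossing. The da ray goes up from (0, 2), the db ray down from (0, -1).
-/

set_option autoImplicit false

namespace MP_a17342_co.RT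

private theorem CS_seg {x y z : P} (h : z ∈ segment ℝ x y) :
    ∃ t : ℝ, 0 ≤ t ∧ t ≤ 1 ∧ z.1 = x.1 + t * (y.1 - x.1) ∧ z.2 = x.2 + t * (y.2 - x.2) := by
  obtain ⟨a, b, ha, hb, hab, rfl⟩ := h
  refine ⟨b, hb, by linarith, ?_, ?_⟩
  · simp only [Prod.fst_add, Prod.smul_fst, smul_eq_mul]
    have : a = 1 - b := by linarith
    rw [this]
    ring
  · simp only [Prod.snd_add, Prod.smul_snd, smul_eq_mul]
    have : a = 1 - b := by linarith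
    rw [this]
    ring

private theorem CS_four (k : Fin 4) : k = 0 ∨ k = 1 ∨ k = 2 ∨ k = 3 := by
  fin_cases k <;> simp

private def CS_g : Fin 4 → P := ![(0, 2), (0, -1), (2, 0), (2, 1)]

private theorem CS_g0 : CS_g 0 = ((0 : ℝ), (2 : ℝ)) := rfl
private theorem CS_g1 : CS_g 1 = ((0 : ℝ), (-1 : ℝ)) := rfl
private theorem CS_g2 : CS_g 2 = ((2 : ℝ), (0 : ℝ)) := rfl
private theorem CS_g3 : CS_g 3 = ((2 : ℝ), (1 : ℝ)) := rfl

private theorem CS_d (ya yb : ℝ) (k : Fin 4) (d : P) (h : d ∈ dirs (0, ya) (0, yb) k) :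
    (k = 0 ∧ d = (0, ya)) ∨ (k = 1 ∧ d = (0, yb)) ∨ (k = 2 ∧ d = (1, 0)) ∨
      (k = 3 ∧ d = (1, 0)) := by
  rcases CS_four k with rfl | rfl | rfl | rfl
  · exact Or.inl ⟨rfl, h⟩
  · exact Or.inr (Or.inl ⟨rfl, h⟩)
  · exact Or.inr (Or.inr (Or.inl ⟨rfl, h⟩))
  · exact Or.inr (Or.inr (Or.inr ⟨rfl, h⟩))

theorem conf_S {ya yb : ℝ} (ha : 0 < ya) (hb : yb < 0) : ∃ g, Conf (0, ya) (0, yb) g := by
  refine ⟨CS_g, ⟨?_, ?_, ?_, ?_, ?_, ?_⟩, ⟨2 / ya, ?_⟩, ⟨-1 / yb, ?_⟩, rfl, rfl⟩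
  · intro i j h
    rcases CS_four i with rfl | rfl | rfl | rfl <;> rcases CS_four j with rfl | rfl | rfl | rfl <;>
      first
      | rfl
      | (exfalso
         simp only [CS_g0, CS_g1, CS_g2, CS_g3, Prod.mk.injEq] at h
         obtain ⟨h1, h2⟩ := h
         linarith)
  · intro i j k hij hki hkj hz
    obtain ⟨t, t0, t1, e1, e2⟩ := CS_seg hz
    rcases hij with ⟨rfl, rfl⟩ | ⟨rfl, rfl⟩ | ⟨rfl, rfl⟩ | ⟨rfl, rfl⟩ | ⟨rfl, rfl⟩ | ⟨rfl, rfl⟩ |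
      ⟨rfl, rfl⟩ | ⟨rfl, rfl⟩ <;> rcases CS_four k with rfl | rfl | rfl | rfl <;>
      first
      | exact hki rfl
      | exact hkj rfl
      | (simp only [CS_g0, CS_g1, CS_g2, CS_g3] at e1 e2
         linarith)
  · intro i k d hd hki s hs he
    have e1 := congrArg Prod.fst he
    have e2 := congrArg Prod.snd he
    simp only [Prod.fst_add, Prod.snd_add, Prod.smul_fst, Prod.smul_snd, smul_eq_mul] at e1 e2
    have p1 : 0 ≤ s * ya := mul_nonneg hs ha.le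
    have p2 : s * yb ≤ 0 := mul_nonpos_of_nonneg_of_nonpos hs hb.le
    rcases CS_d ya yb i d hd with ⟨rfl, rfl⟩ | ⟨rfl, rfl⟩ | ⟨rfl, rfl⟩ | ⟨rfl, rfl⟩ <;>
      rcases CS_four k with rfl | rfl | rfl | rfl <;>
      first
      | exact hki rfl
      | (simp only [CS_g0, CS_g1, CS_g2, CS_g3] at e1 e2
         linarith)
  · intro i j k l hij hkl h1 h2 h3 h4 hne
    obtain ⟨z, hz1, hz2⟩ := hne
    obtain ⟨t, t0, t1, e1, e2⟩ := CS_seg hz1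
    obtain ⟨s, s0, s1, f1, f2⟩ := CS_seg hz2
    rcases hij with ⟨rfl, rfl⟩ | ⟨rfl, rfl⟩ | ⟨rfl, rfl⟩ | ⟨rfl, rfl⟩ | ⟨rfl, rfl⟩ | ⟨rfl, rfl⟩ |
      ⟨rfl, rfl⟩ | ⟨rfl, rfl⟩ <;>
    rcases hkl with ⟨rfl, rfl⟩ | ⟨rfl, rfl⟩ | ⟨rfl, rfl⟩ | ⟨rfl, rfl⟩ | ⟨rfl, rfl⟩ | ⟨rfl, rfl⟩ |
      ⟨rfl, rfl⟩ | ⟨rfl, rfl⟩ <;>
      first
      | exact absurd rfl h1
      | exact absurd rfl h2
      | exact absurd rfl h3
      | exact absurd rfl h4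
      | (simp only [CS_g0, CS_g1, CS_g2, CS_g3] at e1 e2 f1 f2
         exfalso
         linarith)
      | (simp only [CS_g0, CS_g1, CS_g2, CS_g3, ip, Prod.fst_sub, Prod.snd_sub]
         norm_num)
  · intro i j k hij d hd hki hkj s hs hz
    obtain ⟨t, t0, t1, e1, e2⟩ := CS_seg hz
    simp only [Prod.fst_add, Prod.snd_add, Prod.smul_fst, Prod.smul_snd, smul_eq_mul] at e1 e2
    have p1 : 0 ≤ s * ya := mul_nonneg hs ha.le
    have p2 : s * yb ≤ 0 := mul_nonpos_of_nonneg_of_nonpos hs hb.le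
    rcases hij with ⟨rfl, rfl⟩ | ⟨rfl, rfl⟩ | ⟨rfl, rfl⟩ | ⟨rfl, rfl⟩ | ⟨rfl, rfl⟩ | ⟨rfl, rfl⟩ |
      ⟨rfl, rfl⟩ | ⟨rfl, rfl⟩ <;>
    rcases CS_d ya yb k d hd with ⟨rfl, rfl⟩ | ⟨rfl, rfl⟩ | ⟨rfl, rfl⟩ | ⟨rfl, rfl⟩ <;>
      first
      | exact absurd rfl hki
      | exact absurd rfl hkj
      | (simp only [CS_g0, CS_g1, CS_g2, CS_g3] at e1 e2
         exfalso
         linarith)
  · intro i j hij d hd d' hd' s s' hs hs' he
    have e1 := congrArg Prod.fst he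
    have e2 := congrArg Prod.snd he
    simp only [Prod.fst_add, Prod.snd_add, Prod.smul_fst, Prod.smul_snd, smul_eq_mul] at e1 e2
    have p1 : 0 ≤ s * ya := mul_nonneg hs ha.le
    have p2 : s * yb ≤ 0 := mul_nonpos_of_nonneg_of_nonpos hs hb.le
    have p3 : 0 ≤ s' * ya := mul_nonneg hs' ha.le
    have p4 : s' * yb ≤ 0 := mul_nonpos_of_nonneg_of_nonpos hs' hb.le
    rcases CS_d ya yb i d hd with ⟨rfl, rfl⟩ | ⟨rfl, rfl⟩ | ⟨rfl, rfl⟩ | ⟨rfl, rfl⟩ <;>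
    rcases CS_d ya yb j d' hd' with ⟨rfl, rfl⟩ | ⟨rfl, rfl⟩ | ⟨rfl, rfl⟩ | ⟨rfl, rfl⟩ <;>
      first
      | exact absurd rfl hij
      | (simp only [CS_g0, CS_g1, CS_g2, CS_g3] at e1 e2
         linarith)
  · rw [CS_g0, Prod.smul_mk, smul_zero, smul_eq_mul, div_mul_cancel₀ _ ha.ne']
  · rw [CS_g1, Prod.smul_mk, smul_zero, smul_eq_mul, div_mul_cancel₀ _ hb.ne]

end MP_a17342_co.RT
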