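import Pool.Agent.Lib.MP_a17342_co.RT.Conf

/-!
# Local drawing CTb of the 4-cycle
-/

set_option autoImplicit false

namespace MP_a17342_co.RT

private theorem CTb_pos {a b A B : ℝ} (ha : 0 ≤ a) (hb : 0 ≤ b) (hab : a + b = 1) (hA : 0 < A)
    (hB : 0 < B) : 0 < a * A + b * B := by
  rcases ha.eq_or_lt with h | h
  · have : b = 1 := by linarith
    rw [← h, this]
    linarith
  · have h1 := mul_pos h hA
    have h2 := mul_nonneg hb hB.le
    linarith

private theorem CTb_loc {x0 y0 x1 y1 x' xa ya xb yb : ℝ} (h0 : 2 ≤ y0) (h1 : y1 ≤ 0)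
    (h2 : x1 < x0) (h3 : x' < x0) (h4 : 0 < (x' - x1) * (y0 - y1) - (1 - y1) * (x0 - x1))
    (hya : 0 < ya)
    (hr : ∀ s : ℝ, 0 ≤ s → y1 + s * yb ≤ 0 ∧ (y1 + s * yb = 0 → x1 + s * xb < x0))
    {g : Fin 4 → P} (G0 : g 0 = (x0, y0)) (G1 : g 1 = (x1, y1)) (G2 : g 2 = (x0, 0))
    (G3 : g 3 = (x', 1)) : Loc adj4 g (dirs (xa, ya) (xb, yb)) := by
  have f4 : ∀ k : Fin 4, k = 0 ∨ k = 1 ∨ k = 2 ∨ k = 3 := by decide
  have h5 : 0 < (x0 - x1) * y0 := mul_pos (by linarith) (by linarith)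
  have S01 : ∀ z ∈ segment ℝ (g 0) (g 1), (z.1 - x1) * (y0 - y1) - (z.2 - y1) * (x0 - x1) = 0 := by
    rintro z ⟨a, b, ha, hb, hab, rfl⟩
    rw [G0, G1]
    show ((a * x0 + b * x1) - x1) * (y0 - y1) - ((a * y0 + b * y1) - y1) * (x0 - x1) = 0
    have e : a = 1 - b := by linarith
    rw [e]
    ring
  have S02 : ∀ z ∈ segment ℝ (g 0) (g 2), z.1 = x0 ∧ 0 ≤ z.2 := by
    rintro z ⟨a, b, ha, hb, hab, rfl⟩
    rw [G0, G2]
    have e : a = 1 - b := by linarith
    constructor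
    · show a * x0 + b * x0 = x0
      rw [e]
      ring
    · show 0 ≤ a * y0 + b * 0
      have := mul_nonneg ha (show 0 ≤ y0 by linarith)
      linarith
  have S13 : ∀ z ∈ segment ℝ (g 1) (g 3), z.1 < x0 ∧ z.2 ≤ 1 := by
    rintro z ⟨a, b, ha, hb, hab, rfl⟩
    rw [G1, G3]
    constructor
    · show a * x1 + b * x' < x0
      have k1 := CTb_pos ha hb hab (sub_pos.2 h2) (sub_pos.2 h3)
      have k2 : a * (x0 - x1) + b * (x0 - x') = x0 - (a * x1 + b * x') := by
        have e : a = 1 - b := by linarith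
        rw [e]
        ring
      linarith
    · show a * y1 + b * 1 ≤ 1
      have := mul_nonneg ha (show 0 ≤ -y1 by linarith)
      linarith
  have S23 : ∀ z ∈ segment ℝ (g 2) (g 3),
      0 < (z.1 - x1) * (y0 - y1) - (z.2 - y1) * (x0 - x1) ∧ z.2 ≤ 1 ∧ (z.2 ≤ 0 → z.1 = x0) := by
    rintro z ⟨a, b, ha, hb, hab, rfl⟩
    rw [G2, G3]
    have e : a = 1 - b := by linarith
    refine ⟨?_, ?_, ?_⟩
    · show 0 < ((a * x0 + b * x') - x1) * (y0 - y1) - ((a * 0 + b * 1) - y1) * (x0 - x1)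
      have k1 := CTb_pos ha hb hab h5 h4
      have k2 : a * ((x0 - x1) * y0) + b * ((x' - x1) * (y0 - y1) - (1 - y1) * (x0 - x1)) =
          ((a * x0 + b * x') - x1) * (y0 - y1) - ((a * 0 + b * 1) - y1) * (x0 - x1) := by
        rw [e]
        ring
      linarith
    · show a * 0 + b * 1 ≤ 1
      linarith
    · show a * 0 + b * 1 ≤ 0 → a * x0 + b * x' = x0
      intro k
      have k1 : b = 0 := by linarith
      rw [e, k1]
      ring
  have g01 : (g 0).1 = x0 := by rw [G0]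
  have g02 : (g 0).2 = y0 := by rw [G0]
  have g11 : (g 1).1 = x1 := by rw [G1]
  have g12 : (g 1).2 = y1 := by rw [G1]
  have g21 : (g 2).1 = x0 := by rw [G2]
  have g22 : (g 2).2 = 0 := by rw [G2]
  have g31 : (g 3).1 = x' := by rw [G3]
  have g32 : (g 3).2 = 1 := by rw [G3]
  have ex : ∀ (k : Fin 4) (s : ℝ) (d : P), (g k + s • d).1 = (g k).1 + s * d.1 := fun _ _ _ => rfl
  have ey : ∀ (k : Fin 4) (s : ℝ) (d : P), (g k + s • d).2 = (g k).2 + s * d.2 := fun _ _ _ => rfl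
  -- rays
  have R0 : ∀ s : ℝ, 0 ≤ s → 2 ≤ (g 0 + s • ((xa, ya) : P)).2 := by
    intro s hs
    rw [ey, g02]
    show 2 ≤ y0 + s * ya
    have := mul_nonneg hs hya.le
    linarith
  have R1 : ∀ s : ℝ, 0 ≤ s → (g 1 + s • ((xb, yb) : P)).2 ≤ 0 ∧
      ((g 1 + s • ((xb, yb) : P)).2 = 0 → (g 1 + s • ((xb, yb) : P)).1 < x0) := by
    intro s hs
    rw [ey, ex, g12, g11]
    exact hr s hs
  have R2 : ∀ s : ℝ, 0 ≤ s → (g 2 + s • (((1 : ℝ), (0 : ℝ)) : P)).2 = 0 ∧
      x0 ≤ (g 2 + s • (((1 : ℝ), (0 : ℝ)) : P)).1 ∧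
      0 < ((g 2 + s • (((1 : ℝ), (0 : ℝ)) : P)).1 - x1) * (y0 - y1) -
        ((g 2 + s • (((1 : ℝ), (0 : ℝ)) : P)).2 - y1) * (x0 - x1) := by
    intro s hs
    rw [ey, ex, g22, g21]
    refine ⟨?_, ?_, ?_⟩
    · show 0 + s * 0 = 0
      ring
    · show x0 ≤ x0 + s * 1
      linarith
    · show 0 < (x0 + s * 1 - x1) * (y0 - y1) - (0 + s * 0 - y1) * (x0 - x1)
      have := mul_nonneg hs (show 0 ≤ y0 - y1 by linarith)
      linarith
  have R3 : ∀ s : ℝ, 0 ≤ s → (g 3 + s • (((1 : ℝ), (0 : ℝ)) : P)).2 = 1 ∧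
      0 < ((g 3 + s • (((1 : ℝ), (0 : ℝ)) : P)).1 - x1) * (y0 - y1) -
        ((g 3 + s • (((1 : ℝ), (0 : ℝ)) : P)).2 - y1) * (x0 - x1) := by
    intro s hs
    rw [ey, ex, g32, g31]
    refine ⟨?_, ?_⟩
    · show 1 + s * 0 = 1
      ring
    · show 0 < (x' + s * 1 - x1) * (y0 - y1) - (1 + s * 0 - y1) * (x0 - x1)
      have := mul_nonneg hs (show 0 ≤ y0 - y1 by linarith)
      linarith
  -- points and edges
  have t012 : g 2 ∉ segment ℝ (g 0) (g 1) := by
    intro h
    have := S01 _ h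
    rw [g21, g22] at this
    linarith
  have t013 : g 3 ∉ segment ℝ (g 0) (g 1) := by
    intro h
    have := S01 _ h
    rw [g31, g32] at this
    linarith
  have t021 : g 1 ∉ segment ℝ (g 0) (g 2) := by
    intro h
    have := (S02 _ h).1
    rw [g11] at this
    linarith
  have t023 : g 3 ∉ segment ℝ (g 0) (g 2) := by
    intro h
    have := (S02 _ h).1
    rw [g31] at this
    linarith
  have t130 : g 0 ∉ segment ℝ (g 1) (g 3) := by
    intro h
    have := (S13 _ h).2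
    rw [g02] at this
    linarith
  have t132 : g 2 ∉ segment ℝ (g 1) (g 3) := by
    intro h
    have := (S13 _ h).1
    rw [g21] at this
    linarith
  have t230 : g 0 ∉ segment ℝ (g 2) (g 3) := by
    intro h
    have := (S23 _ h).2.1
    rw [g02] at this
    linarith
  have t231 : g 1 ∉ segment ℝ (g 2) (g 3) := by
    intro h
    have := (S23 _ h).1
    rw [g11, g12] at this
    linarith
  -- rays and edges
  have u012 : ∀ s : ℝ, 0 ≤ s → g 2 + s • (((1 : ℝ), (0 : ℝ)) : P) ∉ segment ℝ (g 0) (g 1) := by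
    intro s hs h
    have k1 := S01 _ h
    have k2 := (R2 s hs).2.2
    linarith
  have u013 : ∀ s : ℝ, 0 ≤ s → g 3 + s • (((1 : ℝ), (0 : ℝ)) : P) ∉ segment ℝ (g 0) (g 1) := by
    intro s hs h
    have k1 := S01 _ h
    have k2 := (R3 s hs).2
    linarith
  have u021 : ∀ s : ℝ, 0 ≤ s → g 1 + s • ((xb, yb) : P) ∉ segment ℝ (g 0) (g 2) := by
    intro s hs h
    have k1 := S02 _ h
    have k2 := R1 s hs
    have k3 := k2.2 (le_antisymm k2.1 k1.2)
    linarith [k1.1]
  have u130 : ∀ s : ℝ, 0 ≤ s → g 0 + s • ((xa, ya) : P) ∉ segment ℝ (g 1) (g 3) := by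
    intro s hs h
    have k1 := (S13 _ h).2
    have k2 := R0 s hs
    linarith
  have u132 : ∀ s : ℝ, 0 ≤ s → g 2 + s • (((1 : ℝ), (0 : ℝ)) : P) ∉ segment ℝ (g 1) (g 3) := by
    intro s hs h
    have k1 := (S13 _ h).1
    have k2 := (R2 s hs).2.1
    linarith
  have u230 : ∀ s : ℝ, 0 ≤ s → g 0 + s • ((xa, ya) : P) ∉ segment ℝ (g 2) (g 3) := by
    intro s hs h
    have k1 := (S23 _ h).2.1
    have k2 := R0 s hs
    linarith
  have u231 : ∀ s : ℝ, 0 ≤ s → g 1 + s • ((xb, yb) : P) ∉ segment ℝ (g 2) (g 3) := by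
    rintro s hs h
    have k2 := R1 s hs
    have k1 := (S23 _ h).2.2 k2.1
    obtain ⟨a, b, ha, hb, hab, e⟩ := h
    have e2 : a * (g 2).2 + b * (g 3).2 = (g 1 + s • ((xb, yb) : P)).2 := congrArg Prod.snd e
    rw [g22, g32] at e2
    have k3 : (g 1 + s • ((xb, yb) : P)).2 = 0 := by linarith [k2.1]
    linarith [k2.2 k3]
  -- rays and rays
  have q01 : ∀ s s' : ℝ, 0 ≤ s → 0 ≤ s' →
      g 0 + s • ((xa, ya) : P) ≠ g 1 + s' • ((xb, yb) : P) := by
    intro s s' hs hs' e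
    have k1 := R0 s hs
    rw [e] at k1
    linarith [(R1 s' hs').1]
  have q02 : ∀ s s' : ℝ, 0 ≤ s → 0 ≤ s' →
      g 0 + s • ((xa, ya) : P) ≠ g 2 + s' • (((1 : ℝ), (0 : ℝ)) : P) := by
    intro s s' hs hs' e
    have k1 := R0 s hs
    rw [e] at k1
    linarith [(R2 s' hs').1]
  have q03 : ∀ s s' : ℝ, 0 ≤ s → 0 ≤ s' →
      g 0 + s • ((xa, ya) : P) ≠ g 3 + s' • (((1 : ℝ), (0 : ℝ)) : P) := by
    intro s s' hs hs' e
    have k1 := R0 s hs
    rw [e] at k1
    linarith [(R3 s' hs').1]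
  have q12 : ∀ s s' : ℝ, 0 ≤ s → 0 ≤ s' →
      g 1 + s • ((xb, yb) : P) ≠ g 2 + s' • (((1 : ℝ), (0 : ℝ)) : P) := by
    intro s s' hs hs' e
    have k1 := R1 s hs
    rw [e] at k1
    have k2 := R2 s' hs'
    linarith [k1.2 k2.1, k2.2.1]
  have q13 : ∀ s s' : ℝ, 0 ≤ s → 0 ≤ s' →
      g 1 + s • ((xb, yb) : P) ≠ g 3 + s' • (((1 : ℝ), (0 : ℝ)) : P) := by
    intro s s' hs hs' e
    have k1 := (R1 s hs).1
    rw [e] at k1
    linarith [(R3 s' hs').1]
  have q23 : ∀ s s' : ℝ, 0 ≤ s → 0 ≤ s' →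
      g 2 + s • (((1 : ℝ), (0 : ℝ)) : P) ≠ g 3 + s' • (((1 : ℝ), (0 : ℝ)) : P) := by
    intro s s' hs hs' e
    have k1 := (R2 s hs).1
    rw [e] at k1
    linarith [(R3 s' hs').1]
  have z0 : ∀ k : Fin 4, ∀ d : P, g k = g k + (0 : ℝ) • d := by
    intro k d
    rw [zero_smul, add_zero]
  refine ⟨?_, ?_, ?_, ?_, ?_, ?_⟩
  · intro i j e
    have e1 : (g i).1 = (g j).1 := by rw [e]
    have e2 : (g i).2 = (g j).2 := by rw [e]
    rcases f4 i with rfl | rfl | rfl | rfl <;> rcases f4 j with rfl | rfl | rfl | rfl <;>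
      first
      | rfl
      | (exfalso; linarith)
  · intro i j k hij hki hkj hz
    rcases hij with ⟨rfl, rfl⟩ | ⟨rfl, rfl⟩ | ⟨rfl, rfl⟩ | ⟨rfl, rfl⟩ | ⟨rfl, rfl⟩ | ⟨rfl, rfl⟩ |
      ⟨rfl, rfl⟩ | ⟨rfl, rfl⟩ <;> rcases f4 k with rfl | rfl | rfl | rfl <;>
      first
      | exact hki rfl
      | exact hkj rfl
      | exact t012 hz
      | exact t013 hz
      | exact t021 hz
      | exact t023 hz
      | exact t130 hz
      | exact t132 hz
      | exact t230 hz
      | exact t231 hz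
      | (rw [segment_symm] at hz
         first
         | exact t012 hz
         | exact t013 hz
         | exact t021 hz
         | exact t023 hz
         | exact t130 hz
         | exact t132 hz
         | exact t230 hz
         | exact t231 hz)
  · intro i k d hd hki s hs e
    rcases f4 i with rfl | rfl | rfl | rfl
    · have hd' : d = (xa, ya) := hd
      rw [hd'] at e
      have k1 := R0 s hs
      rw [← e] at k1
      rcases f4 k with rfl | rfl | rfl | rfl
      · exact hki rfl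
      all_goals linarith
    · have hd' : d = (xb, yb) := hd
      rw [hd'] at e
      have k1 := R1 s hs
      rw [← e] at k1
      rcases f4 k with rfl | rfl | rfl | rfl
      · linarith [k1.1]
      · exact hki rfl
      · linarith [k1.2 g22]
      · linarith [k1.1]
    · have hd' : d = ((1 : ℝ), (0 : ℝ)) := hd
      rw [hd'] at e
      have k1 := R2 s hs
      rw [← e] at k1
      rcases f4 k with rfl | rfl | rfl | rfl
      · linarith [k1.1]
      · linarith [k1.2.1]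
      · exact hki rfl
      · linarith [k1.1]
    · have hd' : d = ((1 : ℝ), (0 : ℝ)) := hd
      rw [hd'] at e
      have k1 := (R3 s hs).1
      rw [← e] at k1
      rcases f4 k with rfl | rfl | rfl | rfl
      · linarith
      · linarith
      · linarith
      · exact hki rfl
  · intro i j k l hij hkl hik hil hjk hjl hne
    exfalso
    obtain ⟨z, hz1, hz2⟩ := hne
    have A : z ∈ segment ℝ (g 0) (g 1) → z ∈ segment ℝ (g 2) (g 3) → False := by
      intro a1 a2
      linarith [S01 z a1, (S23 z a2).1]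
    have B : z ∈ segment ℝ (g 0) (g 2) → z ∈ segment ℝ (g 1) (g 3) → False := by
      intro a1 a2
      linarith [(S02 z a1).1, (S13 z a2).1]
    have s10 : segment ℝ (g 1) (g 0) = segment ℝ (g 0) (g 1) := segment_symm ℝ _ _
    have s20 : segment ℝ (g 2) (g 0) = segment ℝ (g 0) (g 2) := segment_symm ℝ _ _
    have s31 : segment ℝ (g 3) (g 1) = segment ℝ (g 1) (g 3) := segment_symm ℝ _ _
    have s32 : segment ℝ (g 3) (g 2) = segment ℝ (g 2) (g 3) := segment_symm ℝ _ _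
    rcases hij with ⟨rfl, rfl⟩ | ⟨rfl, rfl⟩ | ⟨rfl, rfl⟩ | ⟨rfl, rfl⟩ | ⟨rfl, rfl⟩ | ⟨rfl, rfl⟩ |
      ⟨rfl, rfl⟩ | ⟨rfl, rfl⟩ <;>
    rcases hkl with ⟨rfl, rfl⟩ | ⟨rfl, rfl⟩ | ⟨rfl, rfl⟩ | ⟨rfl, rfl⟩ | ⟨rfl, rfl⟩ | ⟨rfl, rfl⟩ |
      ⟨rfl, rfl⟩ | ⟨rfl, rfl⟩ <;>
      first
      | exact hik rfl
      | exact hil rfl
      | exact hjk rfl
      | exact hjl rfl
      | (try rw [s10] at hz1
         try rw [s20] at hz1
         try rw [s31] at hz1
         try rw [s32] at hz1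
         try rw [s10] at hz2
         try rw [s20] at hz2
         try rw [s31] at hz2
         try rw [s32] at hz2
         first
         | exact A hz1 hz2
         | exact A hz2 hz1
         | exact B hz1 hz2
         | exact B hz2 hz1)
  · intro i j k hij d hd hki hkj s hs hz
    have v02 : ip (g 2 - g 0) (((1 : ℝ), (0 : ℝ)) : P) = 0 := by
      rw [G0, G2]
      show (x0 - x0) * 1 + (0 - y0) * 0 = 0
      ring
    have v20 : ip (g 0 - g 2) (((1 : ℝ), (0 : ℝ)) : P) = 0 := by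
      rw [G0, G2]
      show (x0 - x0) * 1 + (y0 - 0) * 0 = 0
      ring
    have hd0 : k = 0 → d = (xa, ya) := by
      rintro rfl
      exact hd
    have hd1 : k = 1 → d = (xb, yb) := by
      rintro rfl
      exact hd
    have hd2 : k = 2 → d = ((1 : ℝ), (0 : ℝ)) := by
      rintro rfl
      exact hd
    have hd3 : k = 3 → d = ((1 : ℝ), (0 : ℝ)) := by
      rintro rfl
      exact hd
    rcases hij with ⟨rfl, rfl⟩ | ⟨rfl, rfl⟩ | ⟨rfl, rfl⟩ | ⟨rfl, rfl⟩ | ⟨rfl, rfl⟩ | ⟨rfl, rfl⟩ |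
      ⟨rfl, rfl⟩ | ⟨rfl, rfl⟩ <;> rcases f4 k with rfl | rfl | rfl | rfl <;>
      first
      | exact absurd rfl hki
      | exact absurd rfl hkj
      | (rw [hd3 rfl]; exact v02)
      | (rw [hd3 rfl]; exact v20)
      | (exfalso
         first
         | rw [hd0 rfl] at hz
         | rw [hd1 rfl] at hz
         | rw [hd2 rfl] at hz
         | rw [hd3 rfl] at hz
         first
         | exact u012 s hs hz
         | exact u013 s hs hz
         | exact u021 s hs hz
         | exact u130 s hs hz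
         | exact u132 s hs hz
         | exact u230 s hs hz
         | exact u231 s hs hz
         | (rw [segment_symm] at hz
            first
            | exact u012 s hs hz
            | exact u013 s hs hz
            | exact u021 s hs hz
            | exact u130 s hs hz
            | exact u132 s hs hz
            | exact u230 s hs hz
            | exact u231 s hs hz))
  · intro i j hij d hd d' hd' s s' hs hs' e
    rcases f4 i with rfl | rfl | rfl | rfl <;> rcases f4 j with rfl | rfl | rfl | rfl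
    · exact hij rfl
    · rw [show d = (xa, ya) from hd, show d' = (xb, yb) from hd'] at e
      exact q01 s s' hs hs' e
    · rw [show d = (xa, ya) from hd, show d' = ((1 : ℝ), (0 : ℝ)) from hd'] at e
      exact q02 s s' hs hs' e
    · rw [show d = (xa, ya) from hd, show d' = ((1 : ℝ), (0 : ℝ)) from hd'] at e
      exact q03 s s' hs hs' e
    · rw [show d = (xb, yb) from hd, show d' = (xa, ya) from hd'] at e
      exact q01 s' s hs' hs e.symm
    · exact hij rfl
    · rw [show d = (xb, yb) from hd, show d' = ((1 : ℝ), (0 : ℝ)) from hd'] at e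
      exact q12 s s' hs hs' e
    · rw [show d = (xb, yb) from hd, show d' = ((1 : ℝ), (0 : ℝ)) from hd'] at e
      exact q13 s s' hs hs' e
    · rw [show d = ((1 : ℝ), (0 : ℝ)) from hd, show d' = (xa, ya) from hd'] at e
      exact q02 s' s hs' hs e.symm
    · rw [show d = ((1 : ℝ), (0 : ℝ)) from hd, show d' = (xb, yb) from hd'] at e
      exact q12 s' s hs' hs e.symm
    · exact hij rfl
    · rw [show d = ((1 : ℝ), (0 : ℝ)) from hd, show d' = ((1 : ℝ), (0 : ℝ)) from hd'] at e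
      exact q23 s s' hs hs' e
    · rw [show d = ((1 : ℝ), (0 : ℝ)) from hd, show d' = (xa, ya) from hd'] at e
      exact q03 s' s hs' hs e.symm
    · rw [show d = ((1 : ℝ), (0 : ℝ)) from hd, show d' = (xb, yb) from hd'] at e
      exact q13 s' s hs' hs e.symm
    · rw [show d = ((1 : ℝ), (0 : ℝ)) from hd, show d' = ((1 : ℝ), (0 : ℝ)) from hd'] at e
      exact q23 s' s hs' hs e.symm
    · exact hij rfl

private theorem CTb_scale {xa ya xb : ℝ} (ha : 0 < ya) (h : 0 < xa ∨ xb < 0) :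
    ∃ σ τ : ℝ, 0 < σ ∧ 0 < τ ∧ 2 ≤ σ * ya ∧ τ * xb < σ * xa := by
  rcases h with h | h
  · refine ⟨2 / ya + (|xb| + 1) / xa, 1, by positivity, one_pos, ?_, ?_⟩
    · have e : (2 / ya + (|xb| + 1) / xa) * ya = 2 + (|xb| + 1) / xa * ya := by
        field_simp
      rw [e]
      have : 0 ≤ (|xb| + 1) / xa * ya := by positivity
      linarith
    · have e : (2 / ya + (|xb| + 1) / xa) * xa = 2 / ya * xa + (|xb| + 1) := by
        field_simp
      rw [e]
      have h1 : 0 ≤ 2 / ya * xa := by positivity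
      have h2 := le_abs_self xb
      linarith
  · refine ⟨2 / ya, (|2 / ya * xa| + 1) / (-xb), by positivity,
      div_pos (by positivity) (by linarith), ?_, ?_⟩
    · have e : 2 / ya * ya = 2 := by field_simp
      rw [e]
    · have hx : -xb ≠ 0 := by linarith
      have e : (|2 / ya * xa| + 1) / (-xb) * xb = -(|2 / ya * xa| + 1) := by
        have : xb = -(-xb) := by ring
        rw [div_mul_eq_mul_div, div_eq_iff hx]
        ring
      rw [e]
      have := neg_abs_le (2 / ya * xa)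
      linarith

theorem conf_Tb {xa ya xb yb : ℝ} (ha : 0 < ya) (hb : yb ≤ 0) (hb' : yb ≠ 0 ∨ xb < 0)
    (h : 0 < xa ∨ xb < 0) : ∃ g, Conf (xa, ya) (xb, yb) g := by
  obtain ⟨σ, τ, hσ, hτ, hy, hx⟩ := CTb_scale ha h
  obtain ⟨x0, hx0⟩ : ∃ x0, x0 = σ * xa := ⟨_, rfl⟩
  obtain ⟨y0, hy0⟩ : ∃ y0, y0 = σ * ya := ⟨_, rfl⟩
  obtain ⟨x1, hx1⟩ : ∃ x1, x1 = τ * xb := ⟨_, rfl⟩
  obtain ⟨y1, hy1⟩ : ∃ y1, y1 = τ * yb := ⟨_, rfl⟩
  have k1 : y1 ≤ 0 := by
    rw [hy1]
    exact mul_nonpos_of_nonneg_of_nonpos hτ.le hb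
  have k2 : x1 < x0 := by rw [hx0, hx1]; exact hx
  have k3 : 2 ≤ y0 := by rw [hy0]; exact hy
  have kD : 0 < y0 - y1 := by linarith
  obtain ⟨xl, hxl⟩ : ∃ xl, xl = x1 + (1 - y1) * (x0 - x1) / (y0 - y1) := ⟨_, rfl⟩
  have e1 : (xl - x1) * (y0 - y1) = (1 - y1) * (x0 - x1) := by
    rw [hxl]
    field_simp
    ring
  have k4 : xl < x0 := by
    by_contra hcon
    push Not at hcon
    have h1 : (x0 - x1) * (y0 - y1) ≤ (xl - x1) * (y0 - y1) :=
      mul_le_mul_of_nonneg_right (by linarith) kD.le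
    rw [e1] at h1
    have h2 : 0 < (x0 - x1) * (y0 - 1) := mul_pos (by linarith) (by linarith)
    linarith
  have k5 : 0 < ((x0 + xl) / 2 - x1) * (y0 - y1) - (1 - y1) * (x0 - x1) := by
    rw [← e1]
    have h1 : 0 < (x0 - xl) * (y0 - y1) := mul_pos (by linarith) kD
    linarith
  refine ⟨![(x0, y0), (x1, y1), (x0, 0), ((x0 + xl) / 2, 1)],
    CTb_loc k3 k1 k2 (by linarith) k5 ha ?_ rfl rfl rfl rfl, ⟨σ, ?_⟩, ⟨τ, ?_⟩, rfl, rfl⟩
  · intro s hs
    have h1 : y1 + s * yb = (τ + s) * yb := by rw [hy1]; ring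
    have h2 : 0 < τ + s := by linarith
    rw [h1]
    refine ⟨mul_nonpos_of_nonneg_of_nonpos h2.le hb, fun h3 => ?_⟩
    have h4 : yb = 0 := by
      rcases mul_eq_zero.1 h3 with h5 | h5
      · linarith
      · exact h5
    have h5 : xb < 0 := by
      rcases hb' with h6 | h6
      · exact absurd h4 h6
      · exact h6
    have h6 := mul_nonneg hs (show 0 ≤ -xb by linarith)
    linarith
  · show (x0, y0) = σ • ((xa, ya) : P)
    rw [hx0, hy0]
    rfl
  · show (x1, y1) = τ • ((xb, yb) : P)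
    rw [hx1, hy1]
    rfl

end MP_a17342_co.RT
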