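import Pool.Agent.Lib.MP_a17342_co.RT.Conf

/-!
# Local drawing CTc of the 4-cycle
Plan (indices 0 = a1, 1 = b1, 2 = a2, 3 = b2; rays: da from a1, db from b1, (1, 0) from a2 and b2): ka = xa / ya > kb = xb / yb: a1 = (-ka, -1), b1 = (-kb, -1), a2 = (-ka, 0), b2 = (-kb, 1). Only the ray of a2 (height 0) crosses the vertical edge b1 b2, perpendicularly. The da ray is
{(ka h, h) : h ≤ -1}, the db ray {(kb h, h) : h ≤ -1}.
-/

set_option autoImplicit false

namespace MP_a17342_co.RT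

private lemma CTc_seg {x y z : P} (h : z ∈ segment ℝ x y) :
    ∃ t : ℝ, 0 ≤ t ∧ t ≤ 1 ∧ z.1 = (1 - t) * x.1 + t * y.1 ∧ z.2 = (1 - t) * x.2 + t * y.2 := by
  obtain ⟨a, b, ha, hb, hab, rfl⟩ := h
  refine ⟨b, hb, by linarith, ?_, ?_⟩
  · simp only [Prod.fst_add, Prod.smul_fst, smul_eq_mul]
    rw [show a = 1 - b by linarith]
  · simp only [Prod.snd_add, Prod.smul_snd, smul_eq_mul]
    rw [show a = 1 - b by linarith]

private lemma CTc_loc {xa ya xb yb u v : ℝ} (ha : ya < 0) (hb : yb < 0) (hu : u * ya = - xa)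
    (hv : v * yb = - xb) (huv : u < v)
    {g : Fin 4 → P} (g0 : g 0 = (u, -1)) (g1 : g 1 = (v, -1)) (g2 : g 2 = (u, 0))
    (g3 : g 3 = (v, 1)) : Loc adj4 g (dirs (xa, ya) (xb, yb)) := by
  have r0 : ∀ d, d ∈ dirs (xa, ya) (xb, yb) 0 ↔ d = (xa, ya) := fun d => Iff.rfl
  have r1 : ∀ d, d ∈ dirs (xa, ya) (xb, yb) 1 ↔ d = (xb, yb) := fun d => Iff.rfl
  have r2 : ∀ d, d ∈ dirs (xa, ya) (xb, yb) 2 ↔ d = ((1 : ℝ), (0 : ℝ)) := fun d => Iff.rfl
  have r3 : ∀ d, d ∈ dirs (xa, ya) (xb, yb) 3 ↔ d = ((1 : ℝ), (0 : ℝ)) := fun d => Iff.rfl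
  have za : ∀ s : ℝ, 0 ≤ s → 0 ≤ s * ya → s = 0 := by
    intro s hs h
    by_contra hne
    have : s * ya < 0 := mul_neg_of_pos_of_neg (lt_of_le_of_ne hs (Ne.symm hne)) ha
    linarith
  have zb : ∀ s : ℝ, 0 ≤ s → 0 ≤ s * yb → s = 0 := by
    intro s hs h
    by_contra hne
    have : s * yb < 0 := mul_neg_of_pos_of_neg (lt_of_le_of_ne hs (Ne.symm hne)) hb
    linarith
  have pa : ∀ s : ℝ, 0 ≤ s → s * ya ≤ 0 := fun s hs => mul_nonpos_of_nonneg_of_nonpos hs ha.le
  have pb : ∀ s : ℝ, 0 ≤ s → s * yb ≤ 0 := fun s hs => mul_nonpos_of_nonneg_of_nonpos hs hb.le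
  have nx : ∀ s s' : ℝ, 0 ≤ s → 0 ≤ s' → u + s * xa = v + s' * xb → -1 + s * ya = -1 + s' * yb →
      False := by
    intro s s' hs hs' e1 e2
    have h1 : u * (-1 + s * ya) = -(u + s * xa) := by
      have : u * (s * ya) = s * (- xa) := by rw [← hu]; ring
      linarith
    have h2 : v * (-1 + s' * yb) = -(v + s' * xb) := by
      have : v * (s' * yb) = s' * (- xb) := by rw [← hv]; ring
      linarith
    have h3 : u * (-1 + s * ya) = v * (-1 + s * ya) := by rw [h1, e1, ← h2, e2]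
    have h4 : -1 + s * ya < 0 := by linarith [pa s hs]
    have h5 := mul_right_cancel₀ h4.ne h3
    linarith
  constructor
  · -- inj
    intro i j hij
    fin_cases i <;> fin_cases j <;> first
      | rfl
      | (exfalso
         simp only [Fin.zero_eta, Fin.mk_one, Fin.reduceFinMk, g0, g1, g2, g3, Prod.mk.injEq] at hij
         obtain ⟨h1, h2⟩ := hij
         linarith)
  · -- c3
    intro i j k hij hk1 hk2 hm
    obtain ⟨t, ht0, ht1, e1, e2⟩ := CTc_seg hm
    rcases hij with ⟨rfl, rfl⟩ | ⟨rfl, rfl⟩ | ⟨rfl, rfl⟩ | ⟨rfl, rfl⟩ | ⟨rfl, rfl⟩ | ⟨rfl, rfl⟩ |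
      ⟨rfl, rfl⟩ | ⟨rfl, rfl⟩ <;> fin_cases k <;> first
      | exact hk1 rfl
      | exact hk2 rfl
      | (simp only [Fin.zero_eta, Fin.mk_one, Fin.reduceFinMk, g0, g1, g2, g3] at e1 e2
         linarith)
  · -- c4
    intro i k d hd hk s hs e
    have e1 := congrArg Prod.fst e
    have e2 := congrArg Prod.snd e
    have p1 := pa s hs
    have p2 := pb s hs
    fin_cases i <;> simp only [Fin.zero_eta, Fin.mk_one, Fin.reduceFinMk, r0, r1, r2, r3] at hd <;>
      subst hd <;> fin_cases k <;> first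
      | exact hk rfl
      | (simp only [Fin.zero_eta, Fin.mk_one, Fin.reduceFinMk, g0, g1, g2, g3, Prod.fst_add,
           Prod.snd_add, Prod.smul_fst, Prod.smul_snd, smul_eq_mul] at e1 e2
         first
           | linarith
           | (have := za s hs (by linarith)
              subst this
              linarith)
           | (have := zb s hs (by linarith)
              subst this
              linarith))
  · -- c5
    rintro i j k l hij hkl h1 h2 h3 h4 ⟨z, hz1, hz2⟩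
    exfalso
    obtain ⟨t, ht0, ht1, e1, e2⟩ := CTc_seg hz1
    obtain ⟨w, hw0, hw1, f1, f2⟩ := CTc_seg hz2
    rcases hij with ⟨rfl, rfl⟩ | ⟨rfl, rfl⟩ | ⟨rfl, rfl⟩ | ⟨rfl, rfl⟩ | ⟨rfl, rfl⟩ | ⟨rfl, rfl⟩ |
      ⟨rfl, rfl⟩ | ⟨rfl, rfl⟩ <;> rcases hkl with ⟨rfl, rfl⟩ | ⟨rfl, rfl⟩ | ⟨rfl, rfl⟩ | ⟨rfl, rfl⟩ |
      ⟨rfl, rfl⟩ | ⟨rfl, rfl⟩ | ⟨rfl, rfl⟩ | ⟨rfl, rfl⟩ <;> first
      | exact h1 rfl
      | exact h2 rfl
      | exact h3 rfl
      | exact h4 rfl
      | (simp only [g0, g1, g2, g3] at e1 e2 f1 f2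
         linarith)
  · -- c6
    intro i j k hij d hd hk1 hk2 s hs hm
    obtain ⟨t, ht0, ht1, e1, e2⟩ := CTc_seg hm
    have p1 := pa s hs
    have p2 := pb s hs
    fin_cases k <;> simp only [Fin.zero_eta, Fin.mk_one, Fin.reduceFinMk, r0, r1, r2, r3] at hd <;>
      subst hd <;> rcases hij with ⟨rfl, rfl⟩ | ⟨rfl, rfl⟩ | ⟨rfl, rfl⟩ | ⟨rfl, rfl⟩ | ⟨rfl, rfl⟩ |
      ⟨rfl, rfl⟩ | ⟨rfl, rfl⟩ | ⟨rfl, rfl⟩ <;> first
      | exact (hk1 rfl).elim
      | exact (hk2 rfl).elim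
      | (rw [g1, g3]
         simp [ip]
         done)
      | (rw [g3, g1]
         simp [ip]
         done)
      | (exfalso
         simp only [Fin.zero_eta, Fin.mk_one, Fin.reduceFinMk, g0, g1, g2, g3, Prod.fst_add,
           Prod.snd_add, Prod.smul_fst, Prod.smul_snd, smul_eq_mul] at e1 e2
         first
           | linarith
           | (have := za s hs (by linarith)
              subst this
              linarith)
           | (have := zb s hs (by linarith)
              subst this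
              linarith))
  · -- c7
    intro i j hij d hd d' hd' s s' hs hs' e
    have e1 := congrArg Prod.fst e
    have e2 := congrArg Prod.snd e
    have p1 := pa s hs
    have p2 := pb s hs
    have p3 := pa s' hs'
    have p4 := pb s' hs'
    fin_cases i <;> simp only [Fin.zero_eta, Fin.mk_one, Fin.reduceFinMk, r0, r1, r2, r3] at hd <;>
      subst hd <;> fin_cases j <;>
      simp only [Fin.zero_eta, Fin.mk_one, Fin.reduceFinMk, r0, r1, r2, r3] at hd' <;>
      subst hd' <;> first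
      | exact hij rfl
      | (simp only [Fin.zero_eta, Fin.mk_one, Fin.reduceFinMk, g0, g1, g2, g3, Prod.fst_add,
           Prod.snd_add, Prod.smul_fst, Prod.smul_snd, smul_eq_mul] at e1 e2
         first
           | linarith
           | exact nx s s' hs hs' e1 e2
           | exact nx s' s hs' hs e1.symm e2.symm)

theorem conf_Tc {xa ya xb yb : ℝ} (ha : ya < 0) (hb : yb < 0) (h : xb * ya < xa * yb) :
    ∃ g, Conf (xa, ya) (xb, yb) g := by
  have huv : -(xa / ya) < -(xb / yb) := by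
    have : xb / yb < xa / ya := by
      rw [← neg_div_neg_eq xb yb, ← neg_div_neg_eq xa ya,
        div_lt_div_iff₀ (neg_pos.2 hb) (neg_pos.2 ha)]
      linarith
    linarith
  have ha' := ha.ne
  have hb' := hb.ne
  refine ⟨![(-(xa / ya), (-1 : ℝ)), (-(xb / yb), -1), (-(xa / ya), 0), (-(xb / yb), 1)],
    CTc_loc ha hb ?_ ?_ huv rfl rfl rfl rfl, ⟨-1 / ya, ?_⟩, ⟨-1 / yb, ?_⟩, rfl, rfl⟩
  · field_simp
  · field_simp
  · apply Prod.ext
    · simp only [Prod.smul_fst, smul_eq_mul, Matrix.cons_val_zero]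
      ring
    · simp only [Prod.smul_snd, smul_eq_mul, Matrix.cons_val_zero]
      field_simp
  · apply Prod.ext
    · simp only [Prod.smul_fst, smul_eq_mul, Matrix.cons_val_one, Matrix.cons_val_zero]
      ring
    · simp only [Prod.smul_snd, smul_eq_mul, Matrix.cons_val_one, Matrix.cons_val_zero]
      field_simp

end MP_a17342_co.RT
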