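import Pool.Agent.Lib.MP_a17342_co.RT.Conf

/-!
# Local drawing CTd of the 4-cycle
Plan (indices 0 = a1, 1 = b1, 2 = a2, 3 = b2; rays: da from a1, db from b1, (1, 0) from a2 and b2): choose σ, τ > 0 with y0 = τ yb ≤ -1, y2 = σ ya ≥ 2 (if ya > 0; y2 = 0 if ya = 0), x2 = σ xa < x0 = τ xb (xb > 0: τ large; xa < 0: σ large): a1 = (x2, y2), b1 = (x0, y0), b2 = (x0, 1), a2 = (x', 0), where x' is
the middle between x0 and the point xl < x0 of height 0 of the line a1 b1. Only the ray of a2 crosses the vertical edge b1 b2, perpendicularly. l(x, y) = (x - x2) (y2 - y0) - (y2 - y) (x0 - x2) is 0 on the edge a1 b1, > 0 at a2 and b2.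
The db ray has heights ≤ y0 < 0, the da ray heights ≥ 2 (or, ya = 0, it goes west at height 0).
-/

set_option autoImplicit false

namespace MP_a17342_co.RT

private theorem CTd_core {xa ya xb yb x2 y2 x0 y0 x' : ℝ} (hb : yb < 0) (hy0 : y0 < 0)
    (hy2 : (2 ≤ y2 ∧ 0 ≤ ya) ∨ (y2 = 0 ∧ ya = 0 ∧ xa < 0)) (h1 : x2 < x') (h2 : x' < x0)
    (hL : 0 < (x' - x2) * (y2 - y0) - y2 * (x0 - x2)) (t0 : ∃ t : ℝ, (x2, y2) = t • ((xa, ya) : P))
    (t1 : ∃ t : ℝ, (x0, y0) = t • ((xb, yb) : P)) :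
    ∃ g, Conf (xa, ya) (xb, yb) g := by
  have hy2' : 0 ≤ y2 := by
    rcases hy2 with h | h
    · linarith [h.1]
    · exact h.1.ge
  have h3 : x2 < x0 := h1.trans h2
  obtain ⟨L, hLd⟩ : ∃ L : P → ℝ, ∀ p : P, L p = (p.1 - x2) * (y2 - y0) - (y2 - p.2) * (x0 - x2) :=
    ⟨_, fun _ => rfl⟩
  -- the points
  have L0 : L (x2, y2) = 0 := by rw [hLd]; ring
  have L1 : L (x0, y0) = 0 := by rw [hLd]; ring
  have L2 : 0 < L (x', 0) := by
    rw [hLd]
    have : (((x', 0) : P).1 - x2) * (y2 - y0) - (y2 - ((x', 0) : P).2) * (x0 - x2) =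
      (x' - x2) * (y2 - y0) - y2 * (x0 - x2) := by simp
    rw [this]
    exact hL
  have L3 : 0 < L (x0, 1) := by
    rw [hLd]
    have : (((x0, 1) : P).1 - x2) * (y2 - y0) - (y2 - ((x0, 1) : P).2) * (x0 - x2) =
      (x0 - x2) * (1 - y0) := by simp only; ring
    rw [this]
    exact mul_pos (by linarith) (by linarith)
  -- the edges
  have s01 : ∀ p ∈ segment ℝ ((x2, y2) : P) (x0, y0), L p = 0 := by
    rintro p ⟨u, v, hu, hv, huv, rfl⟩
    rw [hLd] at L0 L1 ⊢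
    have e : u = 1 - v := by linarith
    subst e
    simp only [Prod.smul_mk, smul_eq_mul, Prod.mk_add_mk]
    ring
  have s02 : ∀ p ∈ segment ℝ ((x2, y2) : P) (x', 0), p.1 < x0 ∧ 0 ≤ p.2 := by
    rintro p ⟨u, v, hu, hv, huv, rfl⟩
    simp only [Prod.smul_mk, smul_eq_mul, Prod.mk_add_mk]
    have e : v = 1 - u := by linarith
    subst e
    constructor
    · nlinarith [mul_nonneg hu (sub_nonneg.2 h1.le), mul_nonneg hv (sub_nonneg.2 h1.le)]
    · have := mul_nonneg hu hy2'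
      linarith
  have s13 : ∀ p ∈ segment ℝ ((x0, y0) : P) (x0, 1), p.1 = x0 ∧ p.2 ≤ 1 := by
    rintro p ⟨u, v, hu, hv, huv, rfl⟩
    simp only [Prod.smul_mk, smul_eq_mul, Prod.mk_add_mk]
    have e : v = 1 - u := by linarith
    subst e
    constructor
    · ring
    · nlinarith [mul_nonneg hu (neg_nonneg.2 hy0.le)]
  have s23 : ∀ p ∈ segment ℝ ((x', 0) : P) (x0, 1), 0 < L p ∧ 0 ≤ p.2 ∧ p.2 ≤ 1 ∧ x2 < p.1 := by
    rintro p ⟨u, v, hu, hv, huv, rfl⟩
    have e : u = 1 - v := by linarith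
    have hl : L (u • ((x', 0) : P) + v • (x0, 1)) = u * L (x', 0) + v * L (x0, 1) := by
      subst e
      rw [hLd, hLd, hLd]
      simp only [Prod.smul_mk, smul_eq_mul, Prod.mk_add_mk]
      ring
    refine ⟨?_, ?_, ?_, ?_⟩
    · rw [hl]
      rcases hu.eq_or_lt with h | h
      · have hv1 : v = 1 := by linarith
        rw [← h, hv1]
        linarith
      · have a1 := mul_pos h L2
        have a2 := mul_nonneg hv L3.le
        linarith
    · simp only [Prod.smul_mk, smul_eq_mul, Prod.mk_add_mk]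
      linarith
    · simp only [Prod.smul_mk, smul_eq_mul, Prod.mk_add_mk]
      linarith
    · simp only [Prod.smul_mk, smul_eq_mul, Prod.mk_add_mk]
      subst e
      nlinarith [mul_nonneg hv (sub_nonneg.2 h2.le)]
  -- the rays
  have r0 : ∀ s : ℝ, 0 ≤ s → 2 ≤ (((x2, y2) : P) + s • ((xa, ya) : P)).2 ∨
      ((((x2, y2) : P) + s • ((xa, ya) : P)).2 = 0 ∧
        (((x2, y2) : P) + s • ((xa, ya) : P)).1 ≤ x2) := by
    intro s hs
    simp only [Prod.smul_mk, smul_eq_mul, Prod.mk_add_mk]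
    rcases hy2 with ⟨h, h'⟩ | ⟨h, h', h''⟩
    · left
      have := mul_nonneg hs h'
      linarith
    · right
      rw [h, h']
      have := mul_nonneg hs (neg_nonneg.2 h''.le)
      constructor
      · ring
      · linarith
  have r1 : ∀ s : ℝ, 0 ≤ s → (((x0, y0) : P) + s • ((xb, yb) : P)).2 < 0 := by
    intro s hs
    simp only [Prod.smul_mk, smul_eq_mul, Prod.mk_add_mk]
    have := mul_nonneg hs (neg_nonneg.2 hb.le)
    linarith
  have r2 : ∀ s : ℝ, 0 ≤ s → (((x', 0) : P) + s • (((1 : ℝ), (0 : ℝ)) : P)).2 = 0 ∧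
      x' ≤ (((x', 0) : P) + s • (((1 : ℝ), (0 : ℝ)) : P)).1 ∧
      0 < L (((x', 0) : P) + s • (((1 : ℝ), (0 : ℝ)) : P)) := by
    intro s hs
    rw [hLd] at L2 ⊢
    simp only [Prod.smul_mk, smul_eq_mul, Prod.mk_add_mk] at L2 ⊢
    have := mul_nonneg hs (show 0 ≤ y2 - y0 by linarith)
    refine ⟨by ring, by linarith, ?_⟩
    nlinarith
  have r3 : ∀ s : ℝ, 0 ≤ s → (((x0, 1) : P) + s • (((1 : ℝ), (0 : ℝ)) : P)).2 = 1 ∧
      x0 ≤ (((x0, 1) : P) + s • (((1 : ℝ), (0 : ℝ)) : P)).1 ∧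
      0 < L (((x0, 1) : P) + s • (((1 : ℝ), (0 : ℝ)) : P)) := by
    intro s hs
    rw [hLd] at L3 ⊢
    simp only [Prod.smul_mk, smul_eq_mul, Prod.mk_add_mk] at L3 ⊢
    have := mul_nonneg hs (show 0 ≤ y2 - y0 by linarith)
    refine ⟨by ring, by linarith, ?_⟩
    nlinarith
  obtain ⟨g, hg⟩ : ∃ g : Fin 4 → P, g = ![(x2, y2), (x0, y0), (x', 0), (x0, 1)] := ⟨_, rfl⟩
  have g0 : g 0 = (x2, y2) := by rw [hg]; rfl
  have g1 : g 1 = (x0, y0) := by rw [hg]; rfl
  have g2 : g 2 = (x', 0) := by rw [hg]; rfl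
  have g3 : g 3 = (x0, 1) := by rw [hg]; rfl
  have d0 : ∀ d ∈ dirs (xa, ya) (xb, yb) 0, d = (xa, ya) := fun d hd => hd
  have d1 : ∀ d ∈ dirs (xa, ya) (xb, yb) 1, d = (xb, yb) := fun d hd => hd
  have d2 : ∀ d ∈ dirs (xa, ya) (xb, yb) 2, d = ((1 : ℝ), (0 : ℝ)) := fun d hd => hd
  have d3 : ∀ d ∈ dirs (xa, ya) (xb, yb) 3, d = ((1 : ℝ), (0 : ℝ)) := fun d hd => hd
  -- facts about the points
  have p02 : ((x2, y2) : P) ≠ (x', 0) := fun h => h1.ne (congrArg Prod.fst h)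
  -- edge facts for both orientations
  have e01 : ∀ p ∈ segment ℝ (g 0) (g 1), L p = 0 := by rw [g0, g1]; exact s01
  have e10 : ∀ p ∈ segment ℝ (g 1) (g 0), L p = 0 := by rw [segment_symm]; exact e01
  have e02 : ∀ p ∈ segment ℝ (g 0) (g 2), p.1 < x0 ∧ 0 ≤ p.2 := by rw [g0, g2]; exact s02
  have e20 : ∀ p ∈ segment ℝ (g 2) (g 0), p.1 < x0 ∧ 0 ≤ p.2 := by rw [segment_symm]; exact e02
  have e13 : ∀ p ∈ segment ℝ (g 1) (g 3), p.1 = x0 ∧ p.2 ≤ 1 := by rw [g1, g3]; exact s13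
  have e31 : ∀ p ∈ segment ℝ (g 3) (g 1), p.1 = x0 ∧ p.2 ≤ 1 := by rw [segment_symm]; exact e13
  have e23 : ∀ p ∈ segment ℝ (g 2) (g 3), 0 < L p ∧ 0 ≤ p.2 ∧ p.2 ≤ 1 ∧ x2 < p.1 := by
    rw [g2, g3]; exact s23
  have e32 : ∀ p ∈ segment ℝ (g 3) (g 2), 0 < L p ∧ 0 ≤ p.2 ∧ p.2 ≤ 1 ∧ x2 < p.1 := by
    rw [segment_symm]; exact e23
  -- point facts
  have q0 : L (g 0) = 0 ∧ (g 0).1 < x0 ∧ (g 0).1 = x2 ∧ (2 ≤ (g 0).2 ∨ (g 0).2 = 0) := by
    rw [g0]
    refine ⟨L0, h3, rfl, ?_⟩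
    rcases hy2 with h | h
    · exact Or.inl h.1
    · exact Or.inr h.1
  have q1 : L (g 1) = 0 ∧ (g 1).1 = x0 ∧ (g 1).2 < 0 := by rw [g1]; exact ⟨L1, rfl, hy0⟩
  have q2 : 0 < L (g 2) ∧ (g 2).1 < x0 ∧ (g 2).1 = x' ∧ (g 2).2 = 0 := by
    rw [g2]; exact ⟨L2, h2, rfl, rfl⟩
  have q3 : 0 < L (g 3) ∧ (g 3).1 = x0 ∧ (g 3).2 = 1 := by rw [g3]; exact ⟨L3, rfl, rfl⟩
  -- ray facts
  have k0 : ∀ d ∈ dirs (xa, ya) (xb, yb) 0, ∀ s : ℝ, 0 ≤ s → 2 ≤ (g 0 + s • d).2 ∨
      ((g 0 + s • d).2 = 0 ∧ (g 0 + s • d).1 ≤ x2) := by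
    intro d hd s hs
    rw [d0 d hd, g0]
    exact r0 s hs
  have k1 : ∀ d ∈ dirs (xa, ya) (xb, yb) 1, ∀ s : ℝ, 0 ≤ s → (g 1 + s • d).2 < 0 := by
    intro d hd s hs
    rw [d1 d hd, g1]
    exact r1 s hs
  have k2 : ∀ d ∈ dirs (xa, ya) (xb, yb) 2, ∀ s : ℝ, 0 ≤ s → (g 2 + s • d).2 = 0 ∧
      x' ≤ (g 2 + s • d).1 ∧ 0 < L (g 2 + s • d) := by
    intro d hd s hs
    rw [d2 d hd, g2]
    exact r2 s hs
  have k3 : ∀ d ∈ dirs (xa, ya) (xb, yb) 3, ∀ s : ℝ, 0 ≤ s → (g 3 + s • d).2 = 1 ∧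
      x0 ≤ (g 3 + s • d).1 ∧ 0 < L (g 3 + s • d) := by
    intro d hd s hs
    rw [d3 d hd, g3]
    exact r3 s hs
  have perp13 : ∀ d ∈ dirs (xa, ya) (xb, yb) 2, ip (g 3 - g 1) d = 0 ∧ ip (g 1 - g 3) d = 0 := by
    intro d hd
    rw [d2 d hd, g1, g3]
    simp only [ip, Prod.mk_sub_mk]
    constructor <;> ring
  refine ⟨g, ⟨?_, ?_, ?_, ?_, ?_, ?_⟩, ?_, ?_, ?_, ?_⟩
  · -- injective
    have key : ∀ i j : Fin 4, i < j → g i ≠ g j := by
      intro i j hij h
      have hx := congrArg Prod.fst h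
      have hy := congrArg Prod.snd h
      fin_cases i <;> fin_cases j <;> simp at hij <;>
        simp only [Fin.zero_eta, Fin.mk_one, Fin.reduceFinMk] at hx hy
      · have := q0.2.1; have := q1.2.1; linarith
      · have := q0.2.2.1; have := q2.2.2.1; linarith
      · have := q0.2.1; have := q3.2.1; linarith
      · have := q1.2.2; have := q2.2.2.2; linarith
      · have := q1.2.2; have := q3.2.2; linarith
      · have := q2.2.2.2; have := q3.2.2; linarith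
    intro i j h
    by_contra hne
    rcases lt_or_gt_of_ne hne with h' | h'
    · exact key i j h' h
    · exact key j i h' h.symm
  · -- c3
    intro i j k hij hki hkj hp
    rcases hij with ⟨rfl, rfl⟩ | ⟨rfl, rfl⟩ | ⟨rfl, rfl⟩ | ⟨rfl, rfl⟩ | ⟨rfl, rfl⟩ | ⟨rfl, rfl⟩ |
      ⟨rfl, rfl⟩ | ⟨rfl, rfl⟩ <;> fin_cases k <;>
      simp only [Fin.zero_eta, Fin.mk_one, Fin.reduceFinMk, ne_eq, not_true_eq_false] at hki hkj hp
    · have := e01 _ hp; linarith [q2.1]
    · have := e01 _ hp; linarith [q3.1]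
    · have := e10 _ hp; linarith [q2.1]
    · have := e10 _ hp; linarith [q3.1]
    · have := e02 _ hp; linarith [q1.2.1, this.1]
    · have := e02 _ hp; linarith [q3.2.1, this.1]
    · have := e20 _ hp; linarith [q1.2.1, this.1]
    · have := e20 _ hp; linarith [q3.2.1, this.1]
    · have := e13 _ hp; linarith [q0.2.1, this.1]
    · have := e13 _ hp; linarith [q2.2.1, this.1]
    · have := e31 _ hp; linarith [q0.2.1, this.1]
    · have := e31 _ hp; linarith [q2.2.1, this.1]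
    · have := e23 _ hp; linarith [q0.1, this.1]
    · have := e23 _ hp; linarith [q1.1, this.1]
    · have := e32 _ hp; linarith [q0.1, this.1]
    · have := e32 _ hp; linarith [q1.1, this.1]
  · -- c4
    intro i k d hd hki s hs h
    have hx := congrArg Prod.fst h
    have hy := congrArg Prod.snd h
    fin_cases i <;> fin_cases k <;>
      simp only [Fin.zero_eta, Fin.mk_one, Fin.reduceFinMk, ne_eq, not_true_eq_false] at hd hki hx hy
    · have := k0 d hd s hs; have := q1.2.2; rcases k0 d hd s hs with h' | h' <;> linarith [h']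
    · rcases k0 d hd s hs with h' | h'
      · linarith [q2.2.2.2]
      · linarith [q2.2.2.1, h'.2]
    · rcases k0 d hd s hs with h' | h'
      · linarith [q3.2.2]
      · linarith [q3.2.2, h'.1]
    · have h' := k1 d hd s hs
      rcases q0.2.2.2 with h'' | h'' <;> linarith
    · have h' := k1 d hd s hs; linarith [q2.2.2.2]
    · have h' := k1 d hd s hs; linarith [q3.2.2]
    · have h' := k2 d hd s hs; linarith [q0.2.2.1, h'.2.1]
    · have h' := k2 d hd s hs; linarith [q1.2.2, h'.1]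
    · have h' := k2 d hd s hs; linarith [q3.2.2, h'.1]
    · have h' := k3 d hd s hs
      rcases q0.2.2.2 with h'' | h'' <;> linarith [h'.1]
    · have h' := k3 d hd s hs; linarith [q1.2.2, h'.1]
    · have h' := k3 d hd s hs; linarith [q2.2.2.2, h'.1]
  · -- c5
    intro i j k l hij hkl hik hil hjk hjl hne
    exfalso
    obtain ⟨p, hp1, hp2⟩ := hne
    rcases hij with ⟨rfl, rfl⟩ | ⟨rfl, rfl⟩ | ⟨rfl, rfl⟩ | ⟨rfl, rfl⟩ | ⟨rfl, rfl⟩ | ⟨rfl, rfl⟩ |
      ⟨rfl, rfl⟩ | ⟨rfl, rfl⟩ <;>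
    rcases hkl with ⟨rfl, rfl⟩ | ⟨rfl, rfl⟩ | ⟨rfl, rfl⟩ | ⟨rfl, rfl⟩ | ⟨rfl, rfl⟩ | ⟨rfl, rfl⟩ |
      ⟨rfl, rfl⟩ | ⟨rfl, rfl⟩ <;> simp at hik hil hjk hjl
    · have := e01 _ hp1; have := (e23 _ hp2).1; linarith
    · have := e01 _ hp1; have := (e32 _ hp2).1; linarith
    · have := e10 _ hp1; have := (e23 _ hp2).1; linarith
    · have := e10 _ hp1; have := (e32 _ hp2).1; linarith
    · have := (e02 _ hp1).1; have := (e13 _ hp2).1; linarith
    · have := (e02 _ hp1).1; have := (e31 _ hp2).1; linarith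
    · have := (e20 _ hp1).1; have := (e13 _ hp2).1; linarith
    · have := (e20 _ hp1).1; have := (e31 _ hp2).1; linarith
    · have := (e13 _ hp1).1; have := (e02 _ hp2).1; linarith
    · have := (e13 _ hp1).1; have := (e20 _ hp2).1; linarith
    · have := (e31 _ hp1).1; have := (e02 _ hp2).1; linarith
    · have := (e31 _ hp1).1; have := (e20 _ hp2).1; linarith
    · have := (e23 _ hp1).1; have := e01 _ hp2; linarith
    · have := (e23 _ hp1).1; have := e10 _ hp2; linarith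
    · have := (e32 _ hp1).1; have := e01 _ hp2; linarith
    · have := (e32 _ hp1).1; have := e10 _ hp2; linarith
  · -- c6
    intro i j k hij d hd hki hkj s hs hp
    rcases hij with ⟨rfl, rfl⟩ | ⟨rfl, rfl⟩ | ⟨rfl, rfl⟩ | ⟨rfl, rfl⟩ | ⟨rfl, rfl⟩ | ⟨rfl, rfl⟩ |
      ⟨rfl, rfl⟩ | ⟨rfl, rfl⟩ <;> fin_cases k <;>
      simp only [Fin.zero_eta, Fin.mk_one, Fin.reduceFinMk, ne_eq, not_true_eq_false] at hki hkj hp hd
    · exfalso; have := e01 _ hp; linarith [(k2 d hd s hs).2.2]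
    · exfalso; have := e01 _ hp; linarith [(k3 d hd s hs).2.2]
    · exfalso; have := e10 _ hp; linarith [(k2 d hd s hs).2.2]
    · exfalso; have := e10 _ hp; linarith [(k3 d hd s hs).2.2]
    · exfalso; have := (e02 _ hp).2; linarith [k1 d hd s hs]
    · exfalso; have := (e02 _ hp).1; linarith [(k3 d hd s hs).2.1]
    · exfalso; have := (e20 _ hp).2; linarith [k1 d hd s hs]
    · exfalso; have := (e20 _ hp).1; linarith [(k3 d hd s hs).2.1]
    · exfalso
      have h' := e13 _ hp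
      rcases k0 d hd s hs with h'' | h'' <;> linarith [h'.1, h'.2]
    · exact (perp13 d hd).1
    · exfalso
      have h' := e31 _ hp
      rcases k0 d hd s hs with h'' | h'' <;> linarith [h'.1, h'.2]
    · exact (perp13 d hd).2
    · exfalso
      have h' := e23 _ hp
      rcases k0 d hd s hs with h'' | h''
      · linarith [h'.2.2.1]
      · linarith [h'.2.2.2, h''.2]
    · exfalso; have h' := e23 _ hp; linarith [k1 d hd s hs, h'.2.1]
    · exfalso
      have h' := e32 _ hp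
      rcases k0 d hd s hs with h'' | h''
      · linarith [h'.2.2.1]
      · linarith [h'.2.2.2, h''.2]
    · exfalso; have h' := e32 _ hp; linarith [k1 d hd s hs, h'.2.1]
  · -- c7
    intro i j hij d hd d' hd' s s' hs hs' h
    have hx := congrArg Prod.fst h
    have hy := congrArg Prod.snd h
    fin_cases i <;> fin_cases j <;>
      simp only [Fin.zero_eta, Fin.mk_one, Fin.reduceFinMk, ne_eq, not_true_eq_false] at hd hd' hij hx hy
    · rcases k0 d hd s hs with h' | h' <;> linarith [k1 d' hd' s' hs', h']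
    · rcases k0 d hd s hs with h' | h'
      · linarith [(k2 d' hd' s' hs').1]
      · linarith [(k2 d' hd' s' hs').2.1, h'.2]
    · rcases k0 d hd s hs with h' | h'
      · linarith [(k3 d' hd' s' hs').1]
      · linarith [(k3 d' hd' s' hs').1, h'.1]
    · rcases k0 d' hd' s' hs' with h' | h' <;> linarith [k1 d hd s hs, h']
    · linarith [k1 d hd s hs, (k2 d' hd' s' hs').1]
    · linarith [k1 d hd s hs, (k3 d' hd' s' hs').1]
    · rcases k0 d' hd' s' hs' with h' | h'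
      · linarith [(k2 d hd s hs).1]
      · linarith [(k2 d hd s hs).2.1, h'.2]
    · linarith [k1 d' hd' s' hs', (k2 d hd s hs).1]
    · linarith [(k2 d hd s hs).1, (k3 d' hd' s' hs').1]
    · rcases k0 d' hd' s' hs' with h' | h'
      · linarith [(k3 d hd s hs).1]
      · linarith [(k3 d hd s hs).1, h'.1]
    · linarith [k1 d' hd' s' hs', (k3 d hd s hs).1]
    · linarith [(k3 d hd s hs).1, (k2 d' hd' s' hs').1]
  · rw [g0]; exact t0
  · rw [g1]; exact t1
  · exact q2.2.2.2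
  · exact q3.2.2

theorem conf_Td {xa ya xb yb : ℝ} (hb : yb < 0) (ha : 0 ≤ ya) (ha' : ya ≠ 0 ∨ xa < 0)
    (h : 0 < xb ∨ xa < 0) : ∃ g, Conf (xa, ya) (xb, yb) g := by
  -- choice of σ and τ
  obtain ⟨σ, τ, hσ, h0, h2⟩ : ∃ σ τ : ℝ, ((2 ≤ σ * ya ∧ 0 ≤ ya) ∨ (σ * ya = 0 ∧ ya = 0 ∧ xa < 0)) ∧
      τ * yb < 0 ∧ σ * xa < τ * xb := by
    rcases h with h | h
    · obtain ⟨σ, hσ⟩ : ∃ σ : ℝ, (2 ≤ σ * ya ∧ 0 ≤ ya) ∨ (σ * ya = 0 ∧ ya = 0 ∧ xa < 0) := by
        rcases ha.eq_or_lt with hy | hy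
        · exact ⟨1, Or.inr ⟨by rw [← hy]; ring, hy.symm, ha'.resolve_left (fun hn => hn hy.symm)⟩⟩
        · exact ⟨2 / ya, Or.inl ⟨by rw [div_mul_cancel₀ _ hy.ne'], ha⟩⟩
      have hτ : σ * xa < (|σ * xa| / xb + 1) * xb := by
        rw [add_mul, div_mul_cancel₀ _ h.ne']
        have := le_abs_self (σ * xa)
        linarith
      refine ⟨σ, |σ * xa| / xb + 1, hσ, ?_, hτ⟩
      exact mul_neg_of_pos_of_neg (by positivity) hb
    · rcases ha.eq_or_lt with hy | hy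
      · -- height 0
        refine ⟨(|xb| + 1) / (-xa), 1, Or.inr ⟨by rw [← hy]; ring, hy.symm, h⟩, by linarith, ?_⟩
        have e : (|xb| + 1) / (-xa) * xa = -(|xb| + 1) := by
          rw [div_mul_eq_mul_div, div_eq_iff (by linarith)]
          ring
        rw [e]
        have := neg_abs_le xb
        linarith
      · refine ⟨(|xb| + 1) / (-xa) + 2 / ya, 1, Or.inl ⟨?_, ha⟩, by linarith, ?_⟩
        · rw [add_mul, div_mul_cancel₀ _ hy.ne']
          have : 0 ≤ (|xb| + 1) / (-xa) * ya :=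
            mul_nonneg (div_nonneg (by positivity) (by linarith)) ha
          linarith
        · have e : (|xb| + 1) / (-xa) * xa = -(|xb| + 1) := by
            rw [div_mul_eq_mul_div, div_eq_iff (by linarith)]
            ring
          rw [add_mul, e]
          have h3 := neg_abs_le xb
          have h4 : 2 / ya * xa ≤ 0 := by
            have : 0 ≤ 2 / ya := by positivity
            nlinarith
          linarith
  have hy2 : 0 ≤ σ * ya := by
    rcases hσ with h | h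
    · linarith [h.1]
    · exact h.1.ge
  have hD : 0 < σ * ya - τ * yb := by linarith
  -- the point of height 0 of the line a1 b1
  obtain ⟨xl, hxl⟩ : ∃ xl : ℝ, (xl - σ * xa) * (σ * ya - τ * yb) = σ * ya * (τ * xb - σ * xa) :=
    ⟨σ * xa + σ * ya * (τ * xb - σ * xa) / (σ * ya - τ * yb), by
      rw [add_sub_cancel_left, div_mul_cancel₀ _ hD.ne']⟩
  have hw : 0 < τ * xb - σ * xa := by linarith
  have hl1 : σ * xa ≤ xl := by
    by_contra hc
    push Not at hc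
    have h5 : (xl - σ * xa) * (σ * ya - τ * yb) < 0 :=
      mul_neg_of_neg_of_pos (by linarith) hD
    have h6 : 0 ≤ σ * ya * (τ * xb - σ * xa) := mul_nonneg hy2 hw.le
    linarith
  have hl2 : xl < τ * xb := by
    by_contra hc
    push Not at hc
    have h5 : (τ * xb - σ * xa) * (σ * ya - τ * yb) ≤ (xl - σ * xa) * (σ * ya - τ * yb) :=
      mul_le_mul_of_nonneg_right (by linarith) hD.le
    have h6 : 0 < (τ * xb - σ * xa) * (-(τ * yb)) := mul_pos hw (by linarith)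
    nlinarith
  refine CTd_core (x2 := σ * xa) (y2 := σ * ya) (x0 := τ * xb) (y0 := τ * yb)
    (x' := (xl + τ * xb) / 2) hb h0 hσ (by linarith) (by linarith) ?_ ⟨σ, rfl⟩ ⟨τ, rfl⟩
  have h7 : ((xl + τ * xb) / 2 - σ * xa) * (σ * ya - τ * yb) - σ * ya * (τ * xb - σ * xa) =
      ((xl - σ * xa) * (σ * ya - τ * yb) - σ * ya * (τ * xb - σ * xa)) / 2 +
      (τ * xb - σ * xa) * (-(τ * yb)) / 2 := by ring
  rw [h7, hxl, sub_self, zero_div, zero_add]
  exact div_pos (mul_pos hw (by linarith)) two_pos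

end MP_a17342_co.RT
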