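import Pool.Agent.Lib.MP_a17342_co.RT.Defs

/-!
# The contraction of a set of vertices
-/

set_option autoImplicit false

namespace MP_a17342_co.RT

variable {V : Type}

theorem ctr_card [Finite V] {W : Set V} {w v : V} (hw : w ∈ W) (hv : v ∈ W) (hvw : v ≠ w) :
    Nat.card {x : V // x ∉ W ∨ x = w} < Nat.card V :=
  Finite.card_subtype_lt (x := v) (by
    rintro (h | h)
    · exact h hv
    · exact hvw h)

theorem ctr_sub [Finite V] {G : SimpleGraph V} (hG : Sub G) {W : Set V} {w : V} (hw : w ∈ W)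
    (hW : {y : V | y ∉ W ∧ ∃ x ∈ W, G.Adj x y}.ncard ≤ 3) : Sub (ctr G W w) := by
  classical
  intro x
  by_cases hx : x.1 = w
  · refine (Set.ncard_le_ncard_of_injOn Subtype.val ?_ Subtype.val_injective.injOn (Set.toFinite _)).trans hW
    rintro y ⟨hne, a, b, hab, ha, hb⟩
    have hy : y.1 ≠ w := fun h => hne (Subtype.ext (hx.trans h.symm))
    have hyW : y.1 ∉ W := y.2.resolve_right hy
    have hb' : b = y.1 := hb.resolve_right fun h => hy h.1
    have ha' : a ∈ W := by
      rcases ha with h | h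
      · rw [h, hx]
        exact hw
      · exact h.2
    exact ⟨hyW, a, ha', hb' ▸ hab⟩
  · have hxW : x.1 ∉ W := x.2.resolve_right hx
    have key : ∀ y : {x : V // x ∉ W ∨ x = w}, ∃ b : V, (ctr G W w).Adj x y →
        G.Adj x.1 b ∧ (b = y.1 ∨ (y.1 = w ∧ b ∈ W)) := by
      intro y
      by_cases h : (ctr G W w).Adj x y
      · obtain ⟨hne, a, b, hab, ha, hb⟩ := h
        have ha' : a = x.1 := ha.resolve_right fun h => hx h.1
        exact ⟨b, fun _ => ⟨ha' ▸ hab, hb⟩⟩
      · exact ⟨w, fun h' => (h h').elim⟩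
    choose f hf using key
    refine (Set.ncard_le_ncard_of_injOn f (t := G.neighborSet x.1) ?_ ?_ (Set.toFinite _)).trans (hG x.1)
    · intro y hy
      exact (hf y hy).1
    · intro y hy y' hy' h
      apply Subtype.ext
      have h1 := (hf y hy).2
      have h2 := (hf y' hy').2
      rw [← h] at h2
      rcases h1 with h1 | h1 <;> rcases h2 with h2 | h2
      · exact h1.symm.trans h2
      · have h3 : y.1 = w := y.2.resolve_left fun h4 => h4 (h1 ▸ h2.2)
        exact h3.trans h2.1.symm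
      · have h3 : y'.1 = w := y'.2.resolve_left fun h4 => h4 (h2 ▸ h1.2)
        exact h1.1.trans h3.symm
      · exact h1.1.trans h2.1.symm

theorem ctr_adj {G : SimpleGraph V} {W : Set V} {w x y : V} (hw : w ∈ W) (hx : x ∈ W)
    (hy : y ∉ W) (h : G.Adj x y) :
    (ctr G W w).Adj ⟨w, Or.inr rfl⟩ ⟨y, Or.inl hy⟩ := by
  refine ⟨fun e => hy ?_, x, y, h, Or.inr ⟨rfl, hx⟩, Or.inl rfl⟩
  have h1 : w = y := congrArg Subtype.val e
  exact h1 ▸ hw

theorem ctr_adj' {G : SimpleGraph V} {W : Set V} {w x y : V} (hx : x ∉ W)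
    (hy : y ∉ W) (h : G.Adj x y) :
    (ctr G W w).Adj ⟨x, Or.inl hx⟩ ⟨y, Or.inl hy⟩ :=
  ⟨fun e => h.ne (congrArg Subtype.val e), x, y, h, Or.inl rfl, Or.inl rfl⟩

end MP_a17342_co.RT
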