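import Pool.Agent.Lib.MP_a17342_co.RT.Circ
import Pool.Agent.Lib.MP_a17342_co.RT.Ctr

/-!
# The choice of points on the circle
Plan: U ⊆ W is the set of the vertices to be placed. If x ∈ U has an outside neighbour y (unique by hone), γ x = un (p y - p w); different x have different y (huniq), so
different values (dir_ne for the drawing of ctr G W w, ctr_adj). The other elements of U get different unit vectors outside the finite set
of these values: the unit vectors are infinite (exists_un), so the finite set U embeds in them (Set.Infinite.exists_subset_card_eq or induction).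
-/

set_option autoImplicit false

namespace MP_a17342_co.RT

variable {V : Type}

theorem choose_units [Finite V] {G : SimpleGraph V} {W : Set V} {w : V} (hw : w ∈ W)
    (huniq : ∀ x ∈ W, ∀ x' ∈ W, ∀ y, y ∉ W → G.Adj x y → G.Adj x' y → x = x')
    (hone : ∀ x ∈ W, ∀ y, y ∉ W → ∀ y', y' ∉ W → G.Adj x y → G.Adj x y' → y = y')
    {p : V → P} (hp : Draws (ctr G W w) (fun x => p x.1)) :
    ∃ γ : V → P, (∀ x ∈ W, ip (γ x) (γ x) = 1) ∧ (∀ x ∈ W, ∀ x' ∈ W, γ x = γ x' → x = x') ∧
      ∀ x ∈ W, ∀ y, y ∉ W → G.Adj x y → γ x = un (p y - p w) := by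
  classical
  have hy0 : ∀ x : V, ∃ y : V, x ∈ {x : V | x ∈ W ∧ ∃ y, y ∉ W ∧ G.Adj x y} →
      y ∉ W ∧ G.Adj x y := by
    intro x
    by_cases hx : x ∈ {x : V | x ∈ W ∧ ∃ y, y ∉ W ∧ G.Adj x y}
    · obtain ⟨-, y, h1, h2⟩ := hx
      exact ⟨y, fun _ => ⟨h1, h2⟩⟩
    · exact ⟨x, fun h => absurd h hx⟩
  choose Y hY using hy0
  set A : Set V := {x : V | x ∈ W ∧ ∃ y, y ∉ W ∧ G.Adj x y} with hA
  set g : V → P := fun x => un (p (Y x) - p w) with hg
  have hne : ∀ y, y ∉ W → p y - p w ≠ 0 := by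
    intro y hyW h0
    have h1 : p y = p w := sub_eq_zero.1 h0
    have h2 : (⟨y, Or.inl hyW⟩ : {x : V // x ∉ W ∨ x = w}) = ⟨w, Or.inr rfl⟩ := hp.1 h1
    have h3 : y = w := congrArg Subtype.val h2
    exact hyW (h3 ▸ hw)
  have hinf : Infinite {e : P // ip e e = 1 ∧ e ∉ g '' A} := by
    rw [← not_finite_iff_infinite]
    intro hfin
    have hf : {e : P | ip e e = 1 ∧ e ∉ g '' A}.Finite := Set.finite_coe_iff.1 hfin
    obtain ⟨e, he1, he2⟩ := exists_un ((g '' A) ∪ {e : P | ip e e = 1 ∧ e ∉ g '' A})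
      ((Set.toFinite (g '' A)).union hf)
    rw [Set.mem_union, not_or] at he2
    exact he2.2 ⟨he1, he2.1⟩
  obtain ⟨n, ⟨eqv⟩⟩ := Finite.exists_equiv_fin V
  let emb : V → {e : P // ip e e = 1 ∧ e ∉ g '' A} :=
    fun x => (Infinite.natEmbedding _) ((eqv x : Fin n) : ℕ)
  have hemb : Function.Injective emb := by
    intro x x' h
    have h1 := (Infinite.natEmbedding {e : P // ip e e = 1 ∧ e ∉ g '' A}).injective h
    exact eqv.injective (Fin.val_injective h1)
  refine ⟨fun x => if x ∈ A then g x else (emb x).1, ?_, ?_, ?_⟩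
  · intro x _
    by_cases hx : x ∈ A
    · simp only [if_pos hx]
      exact ip_un (hne _ (hY x hx).1)
    · simp only [if_neg hx]
      exact (emb x).2.1
  · intro x hxW x' hxW' h
    by_cases hx : x ∈ A
    · by_cases hx' : x' ∈ A
      · simp only [if_pos hx, if_pos hx'] at h
        by_contra hxx
        have hYY : Y x ≠ Y x' := by
          intro hYe
          exact hxx (huniq x hxW x' hxW' (Y x) (hY x hx).1 (hY x hx).2 (hYe ▸ (hY x' hx').2))
        have hsub : (⟨Y x, Or.inl (hY x hx).1⟩ : {x : V // x ∉ W ∨ x = w}) ≠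
            ⟨Y x', Or.inl (hY x' hx').1⟩ := fun h => hYY (congrArg Subtype.val h)
        exact dir_ne hp (ctr_adj hw hxW (hY x hx).1 (hY x hx).2)
          (ctr_adj hw hxW' (hY x' hx').1 (hY x' hx').2) hsub h
      · simp only [if_pos hx, if_neg hx'] at h
        exact absurd ⟨x, hx, h⟩ (emb x').2.2
    · by_cases hx' : x' ∈ A
      · simp only [if_neg hx, if_pos hx'] at h
        exact absurd ⟨x', hx', h.symm⟩ (emb x).2.2
      · simp only [if_neg hx, if_neg hx'] at h
        exact hemb (Subtype.ext h)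
  · intro x hxW y hyW hxy
    have hx : x ∈ A := ⟨hxW, y, hyW, hxy⟩
    simp only [if_pos hx]
    have : Y x = y := hone x hxW (Y x) (hY x hx).1 y hyW (hY x hx).2 hxy
    rw [hg]
    simp only [this]

end MP_a17342_co.RT
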