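import Pool.Agent.Lib.MP_a17342_co.RT.BlowC
import Pool.Agent.Lib.MP_a17342_co.RT.Cho

/-!
# A diamond whose outside neighbours are distinct
Plan: W = {a, b, c, d}, w = c. a and b have no outside neighbours, c and d at most one each (degree ≤ 3), different by h. ctr_card, ctr_sub, hV, choose_units
for the directions γ' c, γ' d; sides gives the points for a and b. blow_circ: the only pairs of edges of W without a common end are (ac, bd) and (ad, bc)
(c, d are not adjacent), whose segments are disjoint.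
-/

set_option autoImplicit false

namespace MP_a17342_co.RT

variable {V : Type}

private theorem Dia_nbr [Finite V] {G : SimpleGraph V} (hG : Sub G) {x p q r y : V}
    (hp : G.Adj x p) (hq : G.Adj x q) (hr : G.Adj x r) (hpq : p ≠ q) (hpr : p ≠ r) (hqr : q ≠ r)
    (hy : G.Adj x y) : y = p ∨ y = q ∨ y = r := by
  by_contra hcon
  push Not at hcon
  obtain ⟨h1, h2, h3⟩ := hcon
  have hsub : ({y, p, q, r} : Set V) ⊆ G.neighborSet x := by
    rintro z (rfl | rfl | rfl | rfl) <;> (show G.Adj x _) <;> assumption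
  have h4 : ({y, p, q, r} : Set V).ncard = 4 := by
    rw [Set.ncard_insert_of_notMem, Set.ncard_insert_of_notMem, Set.ncard_pair hqr]
    · simp [hpq, hpr]
    · simp [h1, h2, h3]
  have h5 := Set.ncard_le_ncard hsub (Set.toFinite _)
  have h6 := hG x
  omega

theorem dia [Finite V] (hV : IH V) {G : SimpleGraph V} (hG : Sub G) {a b c d : V}
    (hab : G.Adj a b) (hac : G.Adj a c) (hbc : G.Adj b c) (had : G.Adj a d) (hbd : G.Adj b d)
    (hcd : c ≠ d) (hn : ¬ G.Adj c d)
    (h : ∀ y, y ≠ a → y ≠ b → ¬ (G.Adj c y ∧ G.Adj d y)) : RAC G := by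
  classical
  have nab := hab.ne
  have nac := hac.ne
  have nbc := hbc.ne
  have nad := had.ne
  have nbd := hbd.ne
  obtain ⟨W, hWdef⟩ : ∃ W : Set V, W = {a, b, c, d} := ⟨_, rfl⟩
  have hmem : ∀ x, x ∈ W ↔ x = a ∨ x = b ∨ x = c ∨ x = d := by
    intro x
    rw [hWdef]
    simp
  have haW : a ∈ W := (hmem a).2 (Or.inl rfl)
  have hbW : b ∈ W := (hmem b).2 (Or.inr (Or.inl rfl))
  have hcW : c ∈ W := (hmem c).2 (Or.inr (Or.inr (Or.inl rfl)))
  have hdW : d ∈ W := (hmem d).2 (Or.inr (Or.inr (Or.inr rfl)))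
  -- the outside neighbours
  have hna : ∀ y, y ∉ W → ¬ G.Adj a y := by
    intro y hy hay
    rcases Dia_nbr hG hab hac had nbc nbd hcd hay with h1 | h1 | h1 <;>
      exact hy (by rw [hmem, h1]; simp)
  have hnb : ∀ y, y ∉ W → ¬ G.Adj b y := by
    intro y hy hby
    rcases Dia_nbr hG hab.symm hbc hbd nac nad hcd hby with h1 | h1 | h1 <;>
      exact hy (by rw [hmem, h1]; simp)
  have hnc : ∀ y, y ∉ W → ∀ y', y' ∉ W → G.Adj c y → G.Adj c y' → y = y' := by
    intro y hy y' hy' hcy hcy'
    have hya : a ≠ y := fun e => hy (e ▸ haW)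
    have hyb : b ≠ y := fun e => hy (e ▸ hbW)
    rcases Dia_nbr hG hac.symm hbc.symm hcy nab hya hyb hcy' with h1 | h1 | h1
    · exact absurd haW (h1 ▸ hy')
    · exact absurd hbW (h1 ▸ hy')
    · exact h1.symm
  have hnd : ∀ y, y ∉ W → ∀ y', y' ∉ W → G.Adj d y → G.Adj d y' → y = y' := by
    intro y hy y' hy' hcy hcy'
    have hya : a ≠ y := fun e => hy (e ▸ haW)
    have hyb : b ≠ y := fun e => hy (e ▸ hbW)
    rcases Dia_nbr hG had.symm hbd.symm hcy nab hya hyb hcy' with h1 | h1 | h1
    · exact absurd haW (h1 ▸ hy')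
    · exact absurd hbW (h1 ▸ hy')
    · exact h1.symm
  have hcdy : ∀ y, y ∉ W → G.Adj c y → G.Adj d y → False := by
    intro y hy hcy hdy
    exact h y (fun e => hy (e ▸ haW)) (fun e => hy (e ▸ hbW)) ⟨hcy, hdy⟩
  have huniq : ∀ x ∈ W, ∀ x' ∈ W, ∀ y, y ∉ W → G.Adj x y → G.Adj x' y → x = x' := by
    intro x hx x' hx' y hy hxy hxy'
    rcases (hmem x).1 hx with e | e | e | e
    · exact absurd (e ▸ hxy) (hna y hy)
    · exact absurd (e ▸ hxy) (hnb y hy)
    · rcases (hmem x').1 hx' with e' | e' | e' | e'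
      · exact absurd (e' ▸ hxy') (hna y hy)
      · exact absurd (e' ▸ hxy') (hnb y hy)
      · rw [e, e']
      · exact (hcdy y hy (e ▸ hxy) (e' ▸ hxy')).elim
    · rcases (hmem x').1 hx' with e' | e' | e' | e'
      · exact absurd (e' ▸ hxy') (hna y hy)
      · exact absurd (e' ▸ hxy') (hnb y hy)
      · exact (hcdy y hy (e' ▸ hxy') (e ▸ hxy)).elim
      · rw [e, e']
  have hone : ∀ x ∈ W, ∀ y, y ∉ W → ∀ y', y' ∉ W → G.Adj x y → G.Adj x y' → y = y' := by
    intro x hx y hy y' hy' hxy hxy'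
    rcases (hmem x).1 hx with e | e | e | e
    · exact absurd (e ▸ hxy) (hna y hy)
    · exact absurd (e ▸ hxy) (hnb y hy)
    · exact hnc y hy y' hy' (e ▸ hxy) (e ▸ hxy')
    · exact hnd y hy y' hy' (e ▸ hxy) (e ▸ hxy')
  have hW : {y : V | y ∉ W ∧ ∃ x ∈ W, G.Adj x y}.ncard ≤ 3 := by
    have hsub : {y : V | y ∉ W ∧ ∃ x ∈ W, G.Adj x y} ⊆
        {y : V | y ∉ W ∧ G.Adj c y} ∪ {y : V | y ∉ W ∧ G.Adj d y} := by
      rintro y ⟨hy, x, hx, hxy⟩
      rcases (hmem x).1 hx with e | e | e | e
      · exact absurd (e ▸ hxy) (hna y hy)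
      · exact absurd (e ▸ hxy) (hnb y hy)
      · exact Or.inl ⟨hy, e ▸ hxy⟩
      · exact Or.inr ⟨hy, e ▸ hxy⟩
    have h1 : {y : V | y ∉ W ∧ G.Adj c y}.ncard ≤ 1 := by
      rw [Set.ncard_le_one (Set.toFinite _)]
      rintro y ⟨hy, hcy⟩ y' ⟨hy', hcy'⟩
      exact hnc y hy y' hy' hcy hcy'
    have h2 : {y : V | y ∉ W ∧ G.Adj d y}.ncard ≤ 1 := by
      rw [Set.ncard_le_one (Set.toFinite _)]
      rintro y ⟨hy, hcy⟩ y' ⟨hy', hcy'⟩
      exact hnd y hy y' hy' hcy hcy'
    have h3 := Set.ncard_le_ncard hsub (Set.toFinite _)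
    have h4 := Set.ncard_union_le {y : V | y ∉ W ∧ G.Adj c y} {y : V | y ∉ W ∧ G.Adj d y}
    omega
  -- the drawing of the contracted graph
  obtain ⟨q, hq⟩ := hV _ (ctr G W c) (ctr_card hcW haW nac) (ctr_sub hG hcW hW)
  obtain ⟨p, hpq⟩ : ∃ p : V → P, (fun x : {x : V // x ∉ W ∨ x = c} => p x.1) = q := by
    refine ⟨fun x => if hx : x ∉ W ∨ x = c then q ⟨x, hx⟩ else 0, ?_⟩
    funext x
    simp only [dif_pos x.2]
  rw [← hpq] at hq
  obtain ⟨γ, hγu, hγi, hγo⟩ := choose_units hcW huniq hone hq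
  obtain ⟨A, B, hA, hB, hAB, hAc, hAd, hBc, hBd, D1, D2⟩ :=
    sides (hγu c hcW) (hγu d hdW) (fun e => hcd (hγi c hcW d hdW e))
  obtain ⟨δ, hδ⟩ : ∃ δ : V → P, δ = fun x => if x = a then A else if x = b then B else γ x :=
    ⟨_, rfl⟩
  have da : δ a = A := by rw [hδ]; simp
  have db : δ b = B := by rw [hδ]; simp [nab.symm]
  have dc : δ c = γ c := by rw [hδ]; simp [nac.symm, nbc.symm]
  have dd : δ d = γ d := by rw [hδ]; simp [nad.symm, nbd.symm]
  refine blow_circ hcW huniq hq δ ?_ ?_ ?_ ?_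
  · intro x hx
    rcases (hmem x).1 hx with e | e | e | e
    · rw [e, da]; exact hA
    · rw [e, db]; exact hB
    · rw [e, dc]; exact hγu c hcW
    · rw [e, dd]; exact hγu d hdW
  · have hcd' : γ c ≠ γ d := fun e => hcd (hγi c hcW d hdW e)
    intro x hx x' hx' hxx
    rcases (hmem x).1 hx with e | e | e | e <;> rcases (hmem x').1 hx' with e' | e' | e' | e' <;>
      rw [e, e'] at hxx ⊢ <;> simp only [da, db, dc, dd] at hxx
    · exact absurd hxx hAB
    · exact absurd hxx hAc
    · exact absurd hxx hAd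
    · exact absurd hxx.symm hAB
    · exact absurd hxx hBc
    · exact absurd hxx hBd
    · exact absurd hxx.symm hAc
    · exact absurd hxx.symm hBc
    · exact absurd hxx hcd'
    · exact absurd hxx.symm hAd
    · exact absurd hxx.symm hBd
    · exact absurd hxx.symm hcd'
  · intro x hx y hy hxy
    rcases (hmem x).1 hx with e | e | e | e
    · exact absurd (e ▸ hxy) (hna y hy)
    · exact absurd (e ▸ hxy) (hnb y hy)
    · rw [e, dc]; exact hγo c hcW y hy (e ▸ hxy)
    · rw [e, dd]; exact hγo d hdW y hy (e ▸ hxy)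
  · have hnd' : ¬ G.Adj d c := fun e => hn e.symm
    have key : ∀ x ∈ W, ∀ y ∈ W, ∀ z ∈ W, ∀ u ∈ W, G.Adj x y → G.Adj z u → x ≠ z → x ≠ u →
        y ≠ z → y ≠ u → Disjoint (segment ℝ (δ x) (δ y)) (segment ℝ (δ z) (δ u)) := by
      have sw1 : ∀ x y z u : V, Disjoint (segment ℝ (δ x) (δ y)) (segment ℝ (δ z) (δ u)) →
          Disjoint (segment ℝ (δ y) (δ x)) (segment ℝ (δ z) (δ u)) := by
        intro x y z u hh
        rwa [segment_symm ℝ (δ y) (δ x)]
      have sw2 : ∀ x y z u : V, Disjoint (segment ℝ (δ x) (δ y)) (segment ℝ (δ z) (δ u)) →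
          Disjoint (segment ℝ (δ x) (δ y)) (segment ℝ (δ u) (δ z)) := by
        intro x y z u hh
        rwa [segment_symm ℝ (δ u) (δ z)]
      have E1 : Disjoint (segment ℝ (δ a) (δ c)) (segment ℝ (δ b) (δ d)) := by
        rw [da, db, dc, dd]; exact D1
      have E2 : Disjoint (segment ℝ (δ a) (δ d)) (segment ℝ (δ b) (δ c)) := by
        rw [da, db, dc, dd]; exact D2
      have E1a := sw1 _ _ _ _ E1
      have E1b := sw2 _ _ _ _ E1
      have E1c := sw2 _ _ _ _ E1a
      have E2a := sw1 _ _ _ _ E2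
      have E2b := sw2 _ _ _ _ E2
      have E2c := sw2 _ _ _ _ E2a
      intro x hx y hy z hz u hu hxy hzu h1 h2 h3 h4
      rw [hmem] at hx hy hz hu
      rcases hx with e1 | e1 | e1 | e1 <;> rcases hy with e2 | e2 | e2 | e2 <;>
        (rw [e1, e2] at hxy) <;>
        first
        | exact absurd rfl hxy.ne
        | exact absurd hxy hn
        | exact absurd hxy hnd'
        | (rw [e1] at h1 h2 ⊢
           rw [e2] at h3 h4 ⊢
           rcases hz with e3 | e3 | e3 | e3 <;> rcases hu with e4 | e4 | e4 | e4 <;>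
             (rw [e3, e4] at hzu) <;>
             first
             | exact absurd rfl hzu.ne
             | exact absurd hzu hn
             | exact absurd hzu hnd'
             | (rw [e3] at h1 h3 ⊢
                rw [e4] at h2 h4 ⊢
                first
                | exact absurd rfl h1
                | exact absurd rfl h2
                | exact absurd rfl h3
                | exact absurd rfl h4
                | exact E1
                | exact E1a
                | exact E1b
                | exact E1c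
                | exact E2
                | exact E2a
                | exact E2b
                | exact E2c
                | exact E1.symm
                | exact E1a.symm
                | exact E1b.symm
                | exact E1c.symm
                | exact E2.symm
                | exact E2a.symm
                | exact E2b.symm
                | exact E2c.symm))
    intro x hx y hy z hz u hu hxy hzu h1 h2 h3 h4 hne
    exact absurd (key x hx y hy z hz u hu hxy hzu h1 h2 h3 h4)
      (Set.not_disjoint_iff_nonempty_inter.2 hne)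

end MP_a17342_co.RT
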