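import Pool.Agent.Lib.MP_a17342_co.RT.Defs

/-!
# Four mutually adjacent vertices in a connected graph; one vertex
Plan: k4: a, b, c, d have no other neighbours (degree ≤ 3), so {a, b, c, d} is everything (connectedness). Positions (0,0), (3,0), (0,3), (1,1): no point on the segment of
two others, the three pairs of opposite edges are disjoint. small: a graph without edges: any injection V → P (finite V).
-/

set_option autoImplicit false

namespace MP_a17342_co.RT

variable {V : Type}

private def KFour_det (a b c : P) : ℝ := (b.1 - a.1) * (c.2 - a.2) - (b.2 - a.2) * (c.1 - a.1)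

private theorem KFour_comb {a b c d z : P} {u v : ℝ} (huv : u + v = 1) (hz : z = u • c + v • d) :
    KFour_det a b z = u * KFour_det a b c + v * KFour_det a b d := by
  have hv : v = 1 - u := by linarith
  rw [hz, hv]
  simp only [KFour_det, Prod.fst_add, Prod.snd_add, Prod.smul_fst, Prod.smul_snd, smul_eq_mul]
  ring

private theorem KFour_seg {a b c : P} (h : c ∈ segment ℝ a b) : KFour_det a b c = 0 := by
  obtain ⟨u, v, _, _, huv, hz⟩ := h
  rw [KFour_comb huv hz.symm]
  simp only [KFour_det]
  ring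

private theorem KFour_pos {a b c d z : P} (hc : 0 < KFour_det a b c) (hd : 0 < KFour_det a b d)
    (h1 : z ∈ segment ℝ a b) (h2 : z ∈ segment ℝ c d) : False := by
  have h3 := KFour_seg h1
  obtain ⟨u, v, hu, hv, huv, hz⟩ := h2
  rw [KFour_comb huv hz.symm] at h3
  rcases hu.eq_or_lt with h4 | h4
  · have h5 : v = 1 := by linarith
    rw [← h4, h5] at h3
    linarith
  · have h5 := mul_pos h4 hc
    have h6 := mul_nonneg hv hd.le
    linarith

private theorem KFour_neg {a b c d z : P} (hc : KFour_det a b c < 0) (hd : KFour_det a b d < 0)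
    (h1 : z ∈ segment ℝ a b) (h2 : z ∈ segment ℝ c d) : False := by
  have h3 := KFour_seg h1
  obtain ⟨u, v, hu, hv, huv, hz⟩ := h2
  rw [KFour_comb huv hz.symm] at h3
  rcases hu.eq_or_lt with h4 | h4
  · have h5 : v = 1 := by linarith
    rw [← h4, h5] at h3
    linarith
  · have h5 := mul_pos h4 (neg_pos.mpr hc)
    have h6 := mul_nonneg hv (neg_pos.mpr hd).le
    linarith

/-- the four points, integer coordinates -/
private def KFour_X : Fin 4 → ℤ := ![0, 3, 0, 1]

private def KFour_Y : Fin 4 → ℤ := ![0, 0, 3, 1]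

private def KFour_D (i j k : Fin 4) : ℤ :=
  (KFour_X j - KFour_X i) * (KFour_Y k - KFour_Y i) - (KFour_Y j - KFour_Y i) * (KFour_X k - KFour_X i)

private theorem KFour_inj : ∀ i j : Fin 4, KFour_X i = KFour_X j → KFour_Y i = KFour_Y j → i = j := by
  decide

private theorem KFour_D_ne : ∀ i j k : Fin 4, i ≠ j → k ≠ i → k ≠ j → KFour_D i j k ≠ 0 := by
  decide

private theorem KFour_D_sides : ∀ i j k l : Fin 4, i ≠ j → k ≠ l → i ≠ k → i ≠ l → j ≠ k → j ≠ l →
    (0 < KFour_D i j k ∧ 0 < KFour_D i j l) ∨ (KFour_D i j k < 0 ∧ KFour_D i j l < 0) ∨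
    (0 < KFour_D k l i ∧ 0 < KFour_D k l j) ∨ (KFour_D k l i < 0 ∧ KFour_D k l j < 0) := by
  decide

private noncomputable def KFour_q (i : Fin 4) : P := ((KFour_X i : ℝ), (KFour_Y i : ℝ))

private theorem KFour_det_q (i j k : Fin 4) :
    KFour_det (KFour_q i) (KFour_q j) (KFour_q k) = (KFour_D i j k : ℝ) := by
  simp only [KFour_det, KFour_q, KFour_D]
  push_cast
  ring

/-- a graph whose vertices inject into four points -/
private theorem KFour_draw {G : SimpleGraph V} (f : V → Fin 4) (hf : Function.Injective f) : RAC G := by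
  refine ⟨fun x => KFour_q (f x), ?_, ?_, ?_⟩
  · intro x y hxy
    have h1 : ((KFour_X (f x) : ℝ), (KFour_Y (f x) : ℝ)) = ((KFour_X (f y) : ℝ), (KFour_Y (f y) : ℝ)) := hxy
    rw [Prod.mk.injEq] at h1
    exact hf (KFour_inj _ _ (by exact_mod_cast h1.1) (by exact_mod_cast h1.2))
  · intro a b c hab hca hcb h
    have h1 := KFour_seg h
    rw [KFour_det_q] at h1
    exact KFour_D_ne (f a) (f b) (f c) (fun h => hab.ne (hf h)) (fun h => hca (hf h))
      (fun h => hcb (hf h)) (by exact_mod_cast h1)
  · rintro a b c d hab hcd hac had hbc hbd ⟨z, hz1, hz2⟩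
    exfalso
    rcases KFour_D_sides (f a) (f b) (f c) (f d) (fun h => hab.ne (hf h)) (fun h => hcd.ne (hf h))
      (fun h => hac (hf h)) (fun h => had (hf h)) (fun h => hbc (hf h)) (fun h => hbd (hf h))
      with h | h | h | h
    · exact KFour_pos (by rw [KFour_det_q]; exact_mod_cast h.1) (by rw [KFour_det_q]; exact_mod_cast h.2) hz1 hz2
    · exact KFour_neg (by rw [KFour_det_q]; exact_mod_cast h.1) (by rw [KFour_det_q]; exact_mod_cast h.2) hz1 hz2
    · exact KFour_pos (by rw [KFour_det_q]; exact_mod_cast h.1) (by rw [KFour_det_q]; exact_mod_cast h.2) hz2 hz1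
    · exact KFour_neg (by rw [KFour_det_q]; exact_mod_cast h.1) (by rw [KFour_det_q]; exact_mod_cast h.2) hz2 hz1

/-- the neighbours of a vertex with three given neighbours -/
private theorem KFour_nb [Finite V] {G : SimpleGraph V} (hG : Sub G) {x y z w : V} (hy : G.Adj x y)
    (hz : G.Adj x z) (hw : G.Adj x w) (hyz : y ≠ z) (hyw : y ≠ w) (hzw : z ≠ w) {t : V}
    (ht : G.Adj x t) : t = y ∨ t = z ∨ t = w := by
  have h1 : ({y, z, w} : Set V) ⊆ G.neighborSet x := by
    intro s hs
    rw [Set.mem_insert_iff, Set.mem_insert_iff, Set.mem_singleton_iff] at hs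
    rcases hs with rfl | rfl | rfl
    · exact hy
    · exact hz
    · exact hw
  have h2 : ({y, z, w} : Set V).ncard = 3 := Set.ncard_eq_three.mpr ⟨y, z, w, hyz, hyw, hzw, rfl⟩
  have h3 := Set.eq_of_subset_of_ncard_le h1 (by rw [h2]; exact hG x) (Set.toFinite _)
  have h4 : t ∈ ({y, z, w} : Set V) := by rw [h3]; exact ht
  rwa [Set.mem_insert_iff, Set.mem_insert_iff, Set.mem_singleton_iff] at h4

theorem k4 [Finite V] {G : SimpleGraph V} (hG : Sub G) (hc : G.Connected) {a b c d : V}
    (hab : G.Adj a b) (hac : G.Adj a c) (hbc : G.Adj b c) (had : G.Adj a d) (hbd : G.Adj b d)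
    (hcd : G.Adj c d) : RAC G := by
  classical
  have hcl : ∀ x y : V, G.Adj x y → (x = a ∨ x = b ∨ x = c ∨ x = d) → (y = a ∨ y = b ∨ y = c ∨ y = d) := by
    intro x y hxy hx
    rcases hx with h | h | h | h
    · rw [h] at hxy
      rcases KFour_nb hG hab hac had hbc.ne hbd.ne hcd.ne hxy with h | h | h
      · exact Or.inr (Or.inl h)
      · exact Or.inr (Or.inr (Or.inl h))
      · exact Or.inr (Or.inr (Or.inr h))
    · rw [h] at hxy
      rcases KFour_nb hG hab.symm hbc hbd hac.ne had.ne hcd.ne hxy with h | h | h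
      · exact Or.inl h
      · exact Or.inr (Or.inr (Or.inl h))
      · exact Or.inr (Or.inr (Or.inr h))
    · rw [h] at hxy
      rcases KFour_nb hG hac.symm hbc.symm hcd hab.ne had.ne hbd.ne hxy with h | h | h
      · exact Or.inl h
      · exact Or.inr (Or.inl h)
      · exact Or.inr (Or.inr (Or.inr h))
    · rw [h] at hxy
      rcases KFour_nb hG had.symm hbd.symm hcd.symm hab.ne hac.ne hbc.ne hxy with h | h | h
      · exact Or.inl h
      · exact Or.inr (Or.inl h)
      · exact Or.inr (Or.inr (Or.inl h))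
  have hwalk : ∀ {x y : V}, G.Walk x y → (x = a ∨ x = b ∨ x = c ∨ x = d) →
      (y = a ∨ y = b ∨ y = c ∨ y = d) := by
    intro x y w
    induction w with
    | nil => exact id
    | cons h _ ih => exact fun hx => ih (hcl _ _ h hx)
  have hall : ∀ x : V, x = a ∨ x = b ∨ x = c ∨ x = d := by
    intro x
    obtain ⟨w⟩ := hc.preconnected a x
    exact hwalk w (Or.inl rfl)
  refine KFour_draw (fun x => if x = a then 0 else if x = b then 1 else if x = c then 2 else 3) ?_
  intro x y hxy
  have h1 := hab.ne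
  have h2 := hac.ne
  have h3 := hbc.ne
  have h4 := had.ne
  have h5 := hbd.ne
  have h6 := hcd.ne
  have h1' := hab.ne'
  have h2' := hac.ne'
  have h3' := hbc.ne'
  have h4' := had.ne'
  have h5' := hbd.ne'
  have h6' := hcd.ne'
  clear hab hac hbc had hbd hcd hcl hwalk hG hc
  rcases hall x with h | h | h | h <;> rcases hall y with h' | h' | h' | h' <;>
    simp_all

theorem small [Finite V] {G : SimpleGraph V} (h : ∀ x y, ¬ G.Adj x y) : RAC G := by
  obtain ⟨n, ⟨f⟩⟩ := Finite.exists_equiv_fin V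
  refine ⟨fun x => (((f x : ℕ) : ℝ), 0), ?_, ?_, ?_⟩
  · intro x y hxy
    have h1 : ((((f x : ℕ) : ℝ), (0 : ℝ)) : P) = (((f y : ℕ) : ℝ), (0 : ℝ)) := hxy
    rw [Prod.mk.injEq] at h1
    have h2 : (f x : ℕ) = (f y : ℕ) := by exact_mod_cast h1.1
    exact f.injective (Fin.ext h2)
  · intro a b c hab
    exact absurd hab (h a b)
  · intro a b c d hab
    exact absurd hab (h a b)

end MP_a17342_co.RT
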