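import Pool.Agent.Lib.MP_a17342_co.RT.Defs

/-!
# Directions
Plan: ip x x = 0 iff x = 0. un_eq: un x = un y gives y = s • x with s = sqrt (ip y y) / sqrt (ip x x). dir_ne: if the directions
of y and y' from w agree, p y' - p w = s • (p y - p w), s > 0; if s ≤ 1, p y' is on the segment from p w to p y, if s ≥ 1, p y is on the
segment from p w to p y'. exists_un: infinitely many unit vectors, e.g. ((1 - t²)/(1 + t²), 2t/(1 + t²)), t = 0, 1, 2, ...
-/

set_option autoImplicit false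

namespace MP_a17342_co.RT

variable {V : Type}

theorem ip_self_pos {x : P} (hx : x ≠ 0) : 0 < ip x x := by
  unfold ip
  by_contra hcon
  push Not at hcon
  apply hx
  have h1 : x.1 * x.1 = 0 := by nlinarith [mul_self_nonneg x.1, mul_self_nonneg x.2]
  have h2 : x.2 * x.2 = 0 := by nlinarith [mul_self_nonneg x.1, mul_self_nonneg x.2]
  exact Prod.ext (mul_self_eq_zero.1 h1) (mul_self_eq_zero.1 h2)

private theorem Dir_ip_smul (s : ℝ) (x : P) : ip (s • x) (s • x) = s ^ 2 * ip x x := by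
  simp only [ip, Prod.smul_fst, Prod.smul_snd, smul_eq_mul]
  ring

theorem ip_un {x : P} (hx : x ≠ 0) : ip (un x) (un x) = 1 := by
  have h := ip_self_pos hx
  unfold un
  rw [Dir_ip_smul, inv_pow, Real.sq_sqrt h.le, inv_mul_cancel₀ h.ne']

theorem un_self {x : P} (hx : ip x x = 1) : un x = x := by
  unfold un
  rw [hx, Real.sqrt_one, inv_one, one_smul]

theorem un_smul {x : P} {s : ℝ} (hs : 0 < s) : un (s • x) = un x := by
  unfold un
  rw [Dir_ip_smul, Real.sqrt_mul (sq_nonneg s), Real.sqrt_sq hs.le, smul_smul, mul_inv]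
  congr 1
  field_simp

theorem un_eq_smul {x : P} (hx : x ≠ 0) : ∃ t : ℝ, 0 < t ∧ un x = t • x := by
  refine ⟨(Real.sqrt (ip x x))⁻¹, ?_, rfl⟩
  exact inv_pos.2 (Real.sqrt_pos.2 (ip_self_pos hx))

/-- a point `w + s • (y - w)`, `0 ≤ s ≤ 1`, is on the segment -/
private theorem Dir_seg {w y z : P} {s : ℝ} (h0 : 0 ≤ s) (h1 : s ≤ 1) (h : z - w = s • (y - w)) :
    z ∈ segment ℝ w y := by
  refine ⟨1 - s, s, by linarith, h0, by ring, ?_⟩
  have hz : z = w + s • (y - w) := by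
    rw [← h]; abel
  rw [hz, sub_smul, one_smul, smul_sub]
  abel

theorem dir_ne {G : SimpleGraph V} {p : V → P} (hp : Draws G p) {w y y' : V} (h : G.Adj w y)
    (h' : G.Adj w y') (hne : y ≠ y') : un (p y - p w) ≠ un (p y' - p w) := by
  obtain ⟨hinj, hseg, -⟩ := hp
  intro he
  have hx : p y - p w ≠ 0 := by
    rw [sub_ne_zero]
    exact fun e => h.ne' (hinj e)
  have hx' : p y' - p w ≠ 0 := by
    rw [sub_ne_zero]
    exact fun e => h'.ne' (hinj e)
  obtain ⟨t, ht, et⟩ := un_eq_smul hx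
  obtain ⟨t', ht', et'⟩ := un_eq_smul hx'
  rw [et, et'] at he
  have e1 : p y' - p w = (t'⁻¹ * t) • (p y - p w) := by
    rw [mul_smul, he, smul_smul, inv_mul_cancel₀ ht'.ne', one_smul]
  have e2 : p y - p w = (t⁻¹ * t') • (p y' - p w) := by
    rw [mul_smul, ← he, smul_smul, inv_mul_cancel₀ ht.ne', one_smul]
  rcases le_total t t' with hle | hle
  · refine hseg w y y' h h'.ne' hne.symm (Dir_seg (by positivity) ?_ e1)
    rw [inv_mul_le_iff₀ ht', mul_one]
    exact hle
  · refine hseg w y' y h' h.ne' hne (Dir_seg (by positivity) ?_ e2)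
    rw [inv_mul_le_iff₀ ht, mul_one]
    exact hle

theorem exists_un (S : Set P) (hS : S.Finite) : ∃ e : P, ip e e = 1 ∧ e ∉ S := by
  set f : ℕ → P := fun t => ((1 - (t : ℝ) ^ 2) / (1 + (t : ℝ) ^ 2), 2 * (t : ℝ) / (1 + (t : ℝ) ^ 2))
    with hf
  have hpos : ∀ t : ℕ, (0 : ℝ) < 1 + (t : ℝ) ^ 2 := fun t => by positivity
  have hinj : Function.Injective f := by
    intro s t hst
    have h1 : (1 - (s : ℝ) ^ 2) / (1 + (s : ℝ) ^ 2) = (1 - (t : ℝ) ^ 2) / (1 + (t : ℝ) ^ 2) :=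
      congrArg Prod.fst hst
    rw [div_eq_div_iff (hpos s).ne' (hpos t).ne'] at h1
    have h2 : (s : ℝ) ^ 2 = (t : ℝ) ^ 2 := by linarith
    have h3 : (s : ℝ) = (t : ℝ) := by
      have hs : (0 : ℝ) ≤ (s : ℝ) := Nat.cast_nonneg s
      have ht : (0 : ℝ) ≤ (t : ℝ) := Nat.cast_nonneg t
      exact (sq_eq_sq₀ hs ht).1 h2
    exact_mod_cast h3
  have hmem : ∀ t, f t ∈ {e : P | ip e e = 1} := by
    intro t
    show ip (f t) (f t) = 1
    simp only [hf, ip]
    have h1 := (hpos t).ne'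
    field_simp
    ring
  have hinf : {e : P | ip e e = 1}.Infinite := Set.infinite_of_injective_forall_mem hinj hmem
  obtain ⟨e, he, heS⟩ := hinf.exists_notMem_finite hS
  exact ⟨e, he, heS⟩

end MP_a17342_co.RT
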