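import Pool.Agent.Lib.MP_a17342_co.RT.Blow
import Pool.Agent.Lib.MP_a17342_co.RT.Dir

/-!
# A diamond attached at one vertex
`W = {a, b, c, d, e}`, contracted to `e`. By the degrees the edges inside `W` are ab, ac, bc, ad, bd, ce, de,
and only `e` has an outside neighbour (at most one, `f`). With `u = p f - p e` the new positions are, in the
coordinates of `u` and its rotation, (0,0), (-1,1), (-1,-1), (-2,0), (-3,0) for e, c, d, a, b.
-/

set_option autoImplicit false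

namespace MP_a17342_co.RT

variable {V : Type}

/-- In a subcubic graph three neighbours are all neighbours. -/
private theorem nb3 [Finite V] {G : SimpleGraph V} (hG : Sub G) {v x y z : V}
    (hx : G.Adj v x) (hy : G.Adj v y) (hz : G.Adj v z) (hxy : x ≠ y) (hxz : x ≠ z) (hyz : y ≠ z) :
    ∀ t, G.Adj v t → t = x ∨ t = y ∨ t = z := by
  intro t ht
  by_contra hcon
  push Not at hcon
  obtain ⟨h1, h2, h3⟩ := hcon
  have hsub : ({t, x, y, z} : Set V) ⊆ G.neighborSet v := by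
    intro s hs
    simp only [Set.mem_insert_iff, Set.mem_singleton_iff] at hs
    rcases hs with rfl | rfl | rfl | rfl <;> assumption
  have hcard : ({t, x, y, z} : Set V).ncard = 4 := by
    rw [Set.ncard_insert_of_notMem (by simp [h1, h2, h3]),
      Set.ncard_insert_of_notMem (by simp [hxy, hxz]), Set.ncard_pair hyz]
  have := Set.ncard_le_ncard hsub (Set.toFinite _)
  have := hG v
  omega

/-- The coordinates of `u` and its rotation determine the point. -/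
private theorem coord {u : P} (hu : u ≠ 0) {x y x' y' : ℝ}
    (h : ((x * u.1 - y * u.2, x * u.2 + y * u.1) : P)
      = (x' * u.1 - y' * u.2, x' * u.2 + y' * u.1)) : x = x' ∧ y = y' := by
  rw [Prod.mk.injEq] at h
  obtain ⟨h1, h2⟩ := h
  have hN : u.1 ^ 2 + u.2 ^ 2 ≠ 0 := by
    intro h0
    apply hu
    have e1 : u.1 = 0 := by nlinarith [sq_nonneg u.1, sq_nonneg u.2]
    have e2 : u.2 = 0 := by nlinarith [sq_nonneg u.1, sq_nonneg u.2]
    exact Prod.ext e1 e2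
  have e1 : (x - x') * (u.1 ^ 2 + u.2 ^ 2) = 0 := by linear_combination u.1 * h1 + u.2 * h2
  have e2 : (y - y') * (u.1 ^ 2 + u.2 ^ 2) = 0 := by linear_combination u.1 * h2 - u.2 * h1
  constructor
  · rcases mul_eq_zero.1 e1 with h | h
    · linarith
    · exact absurd h hN
  · rcases mul_eq_zero.1 e2 with h | h
    · linarith
    · exact absurd h hN

/-- A point of a segment between two points given by coordinates. -/
private theorem segc {u : P} {x y x' y' : ℝ} {z : P}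
    (h : z ∈ segment ℝ ((x * u.1 - y * u.2, x * u.2 + y * u.1) : P)
      (x' * u.1 - y' * u.2, x' * u.2 + y' * u.1)) :
    ∃ α β : ℝ, 0 ≤ α ∧ 0 ≤ β ∧ α + β = 1 ∧
      z = ((α * x + β * x') * u.1 - (α * y + β * y') * u.2,
        (α * x + β * x') * u.2 + (α * y + β * y') * u.1) := by
  obtain ⟨α, β, hα, hβ, hαβ, hz⟩ := h
  refine ⟨α, β, hα, hβ, hαβ, ?_⟩
  rw [← hz]
  refine Prod.ext ?_ ?_
  · simp only [Prod.fst_add, Prod.smul_fst, smul_eq_mul]; ring
  · simp only [Prod.snd_add, Prod.smul_snd, smul_eq_mul]; ring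

theorem pen [Finite V] (hV : IH V) {G : SimpleGraph V} (hG : Sub G) {a b c d e : V}
    (hab : G.Adj a b) (hac : G.Adj a c) (hbc : G.Adj b c) (had : G.Adj a d) (hbd : G.Adj b d)
    (hce : G.Adj c e) (hde : G.Adj d e) (hcd : c ≠ d) (hn : ¬ G.Adj c d) (hea : e ≠ a)
    (heb : e ≠ b) : RAC G := by
  classical
  have na := nb3 hG hab hac had hbc.ne hbd.ne hcd
  have nb := nb3 hG hab.symm hbc hbd hac.ne had.ne hcd
  have nc := nb3 hG hac.symm hbc.symm hce hab.ne hea.symm heb.symm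
  have nd := nb3 hG had.symm hbd.symm hde hab.ne hea.symm heb.symm
  obtain ⟨W, hW⟩ : ∃ W : Set V, W = {a, b, c, d, e} := ⟨_, rfl⟩
  have hmem : ∀ x, x ∈ W ↔ x = a ∨ x = b ∨ x = c ∨ x = d ∨ x = e := by
    intro x
    rw [hW]
    simp only [Set.mem_insert_iff, Set.mem_singleton_iff]
  have hWa : a ∈ W := (hmem a).2 (by simp)
  have hWb : b ∈ W := (hmem b).2 (by simp)
  have hWc : c ∈ W := (hmem c).2 (by simp)
  have hWd : d ∈ W := (hmem d).2 (by simp)
  have hWe : e ∈ W := (hmem e).2 (by simp)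
  -- only `e` has outside neighbours
  have hout : ∀ x ∈ W, ∀ y, y ∉ W → G.Adj x y → x = e := by
    intro x hx y hy hxy
    rcases (hmem x).1 hx with rfl | rfl | rfl | rfl | rfl
    · rcases na y hxy with rfl | rfl | rfl <;> exact absurd ‹_› hy
    · rcases nb y hxy with rfl | rfl | rfl <;> exact absurd ‹_› hy
    · rcases nc y hxy with rfl | rfl | rfl <;> exact absurd ‹_› hy
    · rcases nd y hxy with rfl | rfl | rfl <;> exact absurd ‹_› hy
    · rfl
  have hone : ∀ y, y ∉ W → G.Adj e y → ∀ y', y' ∉ W → G.Adj e y' → y' = y := by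
    intro y hy hey y' hy' hey'
    have h1 : c ≠ y := fun h => hy (h ▸ hWc)
    have h2 : d ≠ y := fun h => hy (h ▸ hWd)
    rcases nb3 hG hce.symm hde.symm hey hcd h1 h2 y' hey' with h | h | h
    · exact absurd (h ▸ hWc) hy'
    · exact absurd (h ▸ hWd) hy'
    · exact h
  have hsub : Sub (ctr G W e) := by
    refine ctr_sub hG hWe ?_
    have h1 : {y : V | y ∉ W ∧ ∃ x ∈ W, G.Adj x y}.Subsingleton := by
      rintro y ⟨hy, x, hx, hxy⟩ y' ⟨hy', x', hx', hxy'⟩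
      rw [hout x hx y hy hxy] at hxy
      rw [hout x' hx' y' hy' hxy'] at hxy'
      exact hone y' hy' hxy' y hy hxy
    have := Set.ncard_le_one_iff_subsingleton.2 h1
    omega
  have hcard := ctr_card hWe hWa hea.symm
  obtain ⟨q, hq⟩ := hV {x : V // x ∉ W ∨ x = e} (ctr G W e) hcard hsub
  obtain ⟨p, hp⟩ : ∃ p : V → P, p = fun x => if hx : x ∉ W ∨ x = e then q ⟨x, hx⟩ else 0 := ⟨_, rfl⟩
  have hpq : (fun x : {x : V // x ∉ W ∨ x = e} => p x.1) = q := by
    funext x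
    rw [hp]
    show (if hx : x.1 ∉ W ∨ x.1 = e then q ⟨x.1, hx⟩ else 0) = q x
    rw [dif_pos x.2]
  have hpd : Draws (ctr G W e) (fun x => p x.1) := by rw [hpq]; exact hq
  -- the direction of the outside neighbour
  obtain ⟨u, hu0, hu⟩ : ∃ u : P, u ≠ 0 ∧ ∀ y, y ∉ W → G.Adj e y → p y - p e = u := by
    by_cases h : ∃ f, f ∉ W ∧ G.Adj e f
    · obtain ⟨f, hf, hef⟩ := h
      refine ⟨p f - p e, ?_, ?_⟩
      · intro h0
        have h2 := @hpd.1 ⟨f, Or.inl hf⟩ ⟨e, Or.inr rfl⟩ (sub_eq_zero.1 h0)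
        have h3 : f = e := congrArg Subtype.val h2
        exact hf (h3 ▸ hWe)
      · intro y hy hey
        rw [hone f hf hef y hy hey]
    · refine ⟨(1, 0), ?_, ?_⟩
      · intro h0
        have := congrArg Prod.fst h0
        norm_num at this
      · intro y hy hey
        exact absurd ⟨y, hy, hey⟩ h
  -- the coordinates
  obtain ⟨X, hX⟩ : ∃ X : V → ℝ, X = fun x => if x = a then -2 else if x = b then -3 else
    if x = c then -1 else if x = d then -1 else 0 := ⟨_, rfl⟩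
  obtain ⟨Y, hY⟩ : ∃ Y : V → ℝ, Y = fun x => if x = c then 1 else if x = d then -1 else 0 := ⟨_, rfl⟩
  have Xa : X a = -2 := by rw [hX]; simp
  have Xb : X b = -3 := by rw [hX]; simp [hab.ne.symm]
  have Xc : X c = -1 := by rw [hX]; simp [hac.ne.symm, hbc.ne.symm]
  have Xd : X d = -1 := by rw [hX]; simp [had.ne.symm, hbd.ne.symm]
  have Xe : X e = 0 := by rw [hX]; simp [hea, heb, hce.ne.symm, hde.ne.symm]
  have Ya : Y a = 0 := by rw [hY]; simp [hac.ne, had.ne]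
  have Yb : Y b = 0 := by rw [hY]; simp [hbc.ne, hbd.ne]
  have Yc : Y c = 1 := by rw [hY]; simp
  have Yd : Y d = -1 := by rw [hY]; simp [hcd.symm]
  have Ye : Y e = 0 := by rw [hY]; simp [hce.ne.symm, hde.ne.symm]
  obtain ⟨γ, hγ⟩ : ∃ γ : V → P, ∀ x, γ x = (X x * u.1 - Y x * u.2, X x * u.2 + Y x * u.1) :=
    ⟨fun x => _, fun x => rfl⟩
  -- the edges inside `W`
  have hedge : ∀ x ∈ W, ∀ y ∈ W, G.Adj x y →
      (x = a ∧ y = b) ∨ (x = a ∧ y = c) ∨ (x = a ∧ y = d) ∨ (x = b ∧ y = a) ∨ (x = b ∧ y = c) ∨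
      (x = b ∧ y = d) ∨ (x = c ∧ y = a) ∨ (x = c ∧ y = b) ∨ (x = c ∧ y = e) ∨ (x = d ∧ y = a) ∨
      (x = d ∧ y = b) ∨ (x = d ∧ y = e) ∨ (x = e ∧ y = c) ∨ (x = e ∧ y = d) := by
    intro x hx y hy hxy
    rcases (hmem x).1 hx with h | h | h | h | h
    · rw [h] at hxy
      rcases na y hxy with h' | h' | h' <;> simp [h, h']
    · rw [h] at hxy
      rcases nb y hxy with h' | h' | h' <;> simp [h, h']
    · rw [h] at hxy
      rcases nc y hxy with h' | h' | h' <;> simp [h, h']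
    · rw [h] at hxy
      rcases nd y hxy with h' | h' | h' <;> simp [h, h']
    · rw [h] at hxy
      rcases (hmem y).1 hy with h' | h' | h' | h' | h'
      · rw [h'] at hxy
        rcases na e hxy.symm with h'' | h'' | h''
        · exact absurd h'' heb
        · exact absurd h'' hce.ne.symm
        · exact absurd h'' hde.ne.symm
      · rw [h'] at hxy
        rcases nb e hxy.symm with h'' | h'' | h''
        · exact absurd h'' hea
        · exact absurd h'' hce.ne.symm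
        · exact absurd h'' hde.ne.symm
      · simp [h, h']
      · simp [h, h']
      · rw [h'] at hxy
        exact absurd rfl hxy.ne
  have hray : ∀ y, y ∉ W → G.Adj e y → ∀ s : ℝ, γ e + s • (p y - p e)
      = (s * u.1 - 0 * u.2, s * u.2 + 0 * u.1) := by
    intro y hy hey s
    rw [hu y hy hey, hγ e, Xe, Ye]
    refine Prod.ext ?_ ?_
    · simp only [Prod.fst_add, Prod.smul_fst, smul_eq_mul]; ring
    · simp only [Prod.snd_add, Prod.smul_snd, smul_eq_mul]; ring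
  refine blow hWe ?_ hpd γ ?_ ?_ ?_ ?_ ?_ ?_ ?_
  · intro x hx x' hx' y hy hxy hxy'
    rw [hout x hx y hy hxy, hout x' hx' y hy hxy']
  · intro x hx x' hx' hxx
    rw [hγ, hγ] at hxx
    obtain ⟨h1, h2⟩ := coord hu0 hxx
    rcases (hmem x).1 hx with h | h | h | h | h <;>
      rcases (hmem x').1 hx' with h' | h' | h' | h' | h' <;>
      rw [h, h'] at h1 h2 ⊢ <;>
      first
      | (exfalso
         simp only [Xa, Xb, Xc, Xd, Xe] at h1
         norm_num at h1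
         done)
      | (exfalso
         simp only [Ya, Yb, Yc, Yd, Ye] at h2
         norm_num at h2
         done)
  · intro x hx y hy hxy
    refine ⟨0, le_rfl, ?_⟩
    rw [hout x hx y hy hxy, hγ, Xe, Ye, zero_smul]
    simp
  · intro x hx y hy z hz hxy hzx hzy hseg
    rw [hγ x, hγ y] at hseg
    obtain ⟨α, β, hα, hβ, hαβ, hz'⟩ := segc hseg
    rw [hγ z] at hz'
    obtain ⟨h1, h2⟩ := coord hu0 hz'
    rcases (hmem z).1 hz with h | h | h | h | h <;>
      rcases hedge x hx y hy hxy with ⟨k, k'⟩ | ⟨k, k'⟩ | ⟨k, k'⟩ | ⟨k, k'⟩ | ⟨k, k'⟩ | ⟨k, k'⟩ |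
        ⟨k, k'⟩ | ⟨k, k'⟩ | ⟨k, k'⟩ | ⟨k, k'⟩ | ⟨k, k'⟩ | ⟨k, k'⟩ | ⟨k, k'⟩ | ⟨k, k'⟩ <;>
      first
      | exact hzx (h.trans k.symm)
      | exact hzy (h.trans k'.symm)
      | (rw [h, k, k'] at h1 h2
         simp only [Xa, Xb, Xc, Xd, Xe, Ya, Yb, Yc, Yd, Ye] at h1 h2
         linarith)
  · intro x hx y hy z hz hxy hzx s hs hh
    have hxe := hout x hx y hy hxy
    rw [hxe] at hxy hzx hh
    rw [hray y hy hxy s, hγ z] at hh
    obtain ⟨h1, h2⟩ := coord hu0 hh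
    rcases (hmem z).1 hz with h | h | h | h | h
    · rw [h, Xa] at h1; linarith
    · rw [h, Xb] at h1; linarith
    · rw [h, Xc] at h1; linarith
    · rw [h, Xd] at h1; linarith
    · exact hzx h
  · intro x hx y hy z hz t ht hxy hzt hxz hxt hyz hyt hne
    exfalso
    obtain ⟨r, hr1, hr2⟩ := hne
    rw [hγ x, hγ y] at hr1
    rw [hγ z, hγ t] at hr2
    obtain ⟨α, β, hα, hβ, hαβ, hr⟩ := segc hr1
    obtain ⟨α', β', hα', hβ', hαβ', hr'⟩ := segc hr2
    rw [hr] at hr'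
    obtain ⟨h1, h2⟩ := coord hu0 hr'
    rcases hedge x hx y hy hxy with ⟨k, k'⟩ | ⟨k, k'⟩ | ⟨k, k'⟩ | ⟨k, k'⟩ | ⟨k, k'⟩ | ⟨k, k'⟩ |
        ⟨k, k'⟩ | ⟨k, k'⟩ | ⟨k, k'⟩ | ⟨k, k'⟩ | ⟨k, k'⟩ | ⟨k, k'⟩ | ⟨k, k'⟩ | ⟨k, k'⟩ <;>
      rcases hedge z hz t ht hzt with ⟨j, j'⟩ | ⟨j, j'⟩ | ⟨j, j'⟩ | ⟨j, j'⟩ | ⟨j, j'⟩ | ⟨j, j'⟩ |
        ⟨j, j'⟩ | ⟨j, j'⟩ | ⟨j, j'⟩ | ⟨j, j'⟩ | ⟨j, j'⟩ | ⟨j, j'⟩ | ⟨j, j'⟩ | ⟨j, j'⟩ <;>
      first
      | exact hxz (k.trans j.symm)
      | exact hxt (k.trans j'.symm)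
      | exact hyz (k'.trans j.symm)
      | exact hyt (k'.trans j'.symm)
      | (rw [k, k', j, j'] at h1 h2
         simp only [Xa, Xb, Xc, Xd, Xe, Ya, Yb, Yc, Yd, Ye] at h1 h2
         linarith)
  · intro x hx y hy z hz t ht hxy hzt hzx hzy s hs hseg
    have hze := hout z hz t ht hzt
    rw [hze] at hzt hzx hzy hseg
    rw [hray t ht hzt s, hγ x, hγ y] at hseg
    obtain ⟨α, β, hα, hβ, hαβ, hr⟩ := segc hseg
    obtain ⟨h1, h2⟩ := coord hu0 hr
    rcases hedge x hx y hy hxy with ⟨k, k'⟩ | ⟨k, k'⟩ | ⟨k, k'⟩ | ⟨k, k'⟩ | ⟨k, k'⟩ | ⟨k, k'⟩ |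
        ⟨k, k'⟩ | ⟨k, k'⟩ | ⟨k, k'⟩ | ⟨k, k'⟩ | ⟨k, k'⟩ | ⟨k, k'⟩ | ⟨k, k'⟩ | ⟨k, k'⟩ <;>
      first
      | exact hzx k.symm
      | exact hzy k'.symm
      | (rw [k, k'] at h1 h2
         simp only [Xa, Xb, Xc, Xd, Xe, Ya, Yb, Yc, Yd, Ye] at h1 h2
         linarith)
  · intro x hx x' hx' y hy y' hy' hxy hxy' hxx
    exact absurd ((hout x hx y hy hxy).trans (hout x' hx' y' hy' hxy').symm) hxx

end MP_a17342_co.RT
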