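import Pool.Agent.Lib.MP_a17342_co.RT.Tri
import Pool.Agent.Lib.MP_a17342_co.RT.Dia
import Pool.Agent.Lib.MP_a17342_co.RT.Pen
import Pool.Agent.Lib.MP_a17342_co.RT.KFour

/-!
# A triangle in a connected subcubic graph
Plan: if no vertex outside the triangle is adjacent to two of its vertices: tri. Otherwise (after renaming) d is adjacent to a and b: if c, d are adjacent: k4; if
some e other than a, b is adjacent to c and d: pen; otherwise: dia.
-/

set_option autoImplicit false

namespace MP_a17342_co.RT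

variable {V : Type}

private theorem Case_dcase [Finite V] (hV : IH V) {G : SimpleGraph V} (hG : Sub G)
    (hc : G.Connected) {a b c d : V} (hab : G.Adj a b) (hac : G.Adj a c) (hbc : G.Adj b c)
    (had : G.Adj a d) (hbd : G.Adj b d) (hcd : c ≠ d) : RAC G := by
  by_cases h1 : G.Adj c d
  · exact k4 hG hc hab hac hbc had hbd h1
  · by_cases h2 : ∃ e, e ≠ a ∧ e ≠ b ∧ G.Adj c e ∧ G.Adj d e
    · obtain ⟨e, hea, heb, hce, hde⟩ := h2
      exact pen hV hG hab hac hbc had hbd hce hde hcd h1 hea heb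
    · exact dia hV hG hab hac hbc had hbd hcd h1 fun y h3 h4 h5 => h2 ⟨y, h3, h4, h5.1, h5.2⟩

theorem triangle_case [Finite V] (hV : IH V) {G : SimpleGraph V} (hG : Sub G) (hc : G.Connected)
    {a b c : V} (hab : G.Adj a b) (hac : G.Adj a c) (hbc : G.Adj b c) : RAC G := by
  by_cases h : ∀ y, y ≠ a → y ≠ b → y ≠ c →
      ¬ (G.Adj a y ∧ G.Adj b y) ∧ ¬ (G.Adj a y ∧ G.Adj c y) ∧ ¬ (G.Adj b y ∧ G.Adj c y)
  · exact tri hV hG hab hac hbc h
  · push Not at h
    obtain ⟨y, ha, hb, hc', h⟩ := h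
    by_cases h1 : G.Adj a y ∧ G.Adj b y
    · exact Case_dcase hV hG hc hab hac hbc h1.1 h1.2 hc'.symm
    · by_cases h2 : G.Adj a y ∧ G.Adj c y
      · exact Case_dcase hV hG hc hac hab hbc.symm h2.1 h2.2 hb.symm
      · have h3 : G.Adj b y ∧ G.Adj c y := by
          by_contra h3
          exact h3 (h (fun h4 h5 => h1 ⟨h4, h5⟩) (fun h4 h5 => h2 ⟨h4, h5⟩))
        exact Case_dcase hV hG hc hbc hab.symm hac.symm h3.1 h3.2 ha.symm

end MP_a17342_co.RT
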