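import Pool.Agent.Lib.MP_a17342_co.RT.Defs

/-!
# K33 in a connected subcubic graph
The six vertices have no other neighbours (degree ≤ 3), so they are everything (connectedness). Positions: x = (-1, 1), y = (1, 1), u = (-1, -1), v = (1, -1), w = (-3, 2),
z = (-3, -2): the edges are those between {u, v, w} and {x, y, z}; the only crossing is that of x v and y u, perpendicular, at (0, 0).
-/

set_option autoImplicit false

namespace MP_a17342_co.RT

variable {V : Type}

private def KFull_det (a b c : P) : ℝ := (b.1 - a.1) * (c.2 - a.2) - (b.2 - a.2) * (c.1 - a.1)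

private theorem KFull_comb {a b c d z : P} {u v : ℝ} (huv : u + v = 1) (hz : z = u • c + v • d) :
    KFull_det a b z = u * KFull_det a b c + v * KFull_det a b d := by
  have hv : v = 1 - u := by linarith
  rw [hz, hv]
  simp only [KFull_det, Prod.fst_add, Prod.snd_add, Prod.smul_fst, Prod.smul_snd, smul_eq_mul]
  ring

private theorem KFull_seg {a b c : P} (h : c ∈ segment ℝ a b) : KFull_det a b c = 0 := by
  obtain ⟨u, v, _, _, huv, hz⟩ := h
  rw [KFull_comb huv hz.symm]
  simp only [KFull_det]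
  ring

private theorem KFull_pos {a b c d z : P} (hc : 0 < KFull_det a b c) (hd : 0 < KFull_det a b d)
    (h1 : z ∈ segment ℝ a b) (h2 : z ∈ segment ℝ c d) : False := by
  have h3 := KFull_seg h1
  obtain ⟨u, v, hu, hv, huv, hz⟩ := h2
  rw [KFull_comb huv hz.symm] at h3
  rcases hu.eq_or_lt with h4 | h4
  · have h5 : v = 1 := by linarith
    rw [← h4, h5] at h3
    linarith
  · have h5 := mul_pos h4 hc
    have h6 := mul_nonneg hv hd.le
    linarith

private theorem KFull_neg {a b c d z : P} (hc : KFull_det a b c < 0) (hd : KFull_det a b d < 0)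
    (h1 : z ∈ segment ℝ a b) (h2 : z ∈ segment ℝ c d) : False := by
  have h3 := KFull_seg h1
  obtain ⟨u, v, hu, hv, huv, hz⟩ := h2
  rw [KFull_comb huv hz.symm] at h3
  rcases hu.eq_or_lt with h4 | h4
  · have h5 : v = 1 := by linarith
    rw [← h4, h5] at h3
    linarith
  · have h5 := mul_pos h4 (neg_pos.mpr hc)
    have h6 := mul_nonneg hv (neg_pos.mpr hd).le
    linarith

/-- the six points u, v, w, x, y, z, integer coordinates -/
private def KFull_X : Fin 6 → ℤ := ![-1, 1, -3, -1, 1, -3]

private def KFull_Y : Fin 6 → ℤ := ![-1, -1, 2, 1, 1, -2]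

private def KFull_s : Fin 6 → Bool := ![true, true, true, false, false, false]

private def KFull_D (i j k : Fin 6) : ℤ :=
  (KFull_X j - KFull_X i) * (KFull_Y k - KFull_Y i) - (KFull_Y j - KFull_Y i) * (KFull_X k - KFull_X i)

private theorem KFull_inj : ∀ i j : Fin 6, KFull_X i = KFull_X j → KFull_Y i = KFull_Y j → i = j := by
  decide

private theorem KFull_D_ne : ∀ i j k : Fin 6, KFull_s i ≠ KFull_s j → k ≠ i → k ≠ j →
    KFull_D i j k ≠ 0 := by
  decide

private theorem KFull_D_sides : ∀ i j : Fin 6, KFull_s i ≠ KFull_s j → ∀ k l : Fin 6,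
    KFull_s k ≠ KFull_s l → i ≠ k → i ≠ l → j ≠ k → j ≠ l →
    (0 < KFull_D i j k ∧ 0 < KFull_D i j l) ∨ (KFull_D i j k < 0 ∧ KFull_D i j l < 0) ∨
    (0 < KFull_D k l i ∧ 0 < KFull_D k l j) ∨ (KFull_D k l i < 0 ∧ KFull_D k l j < 0) ∨
    (KFull_X j - KFull_X i) * (KFull_X l - KFull_X k) +
      (KFull_Y j - KFull_Y i) * (KFull_Y l - KFull_Y k) = 0 := by
  decide

private noncomputable def KFull_q (i : Fin 6) : P := ((KFull_X i : ℝ), (KFull_Y i : ℝ))

private theorem KFull_det_q (i j k : Fin 6) :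
    KFull_det (KFull_q i) (KFull_q j) (KFull_q k) = (KFull_D i j k : ℝ) := by
  simp only [KFull_det, KFull_q, KFull_D]
  push_cast
  ring

/-- a bipartite graph whose vertices inject into the six points -/
private theorem KFull_draw {G : SimpleGraph V} (f : V → Fin 6) (hf : Function.Injective f)
    (hs : ∀ a b, G.Adj a b → KFull_s (f a) ≠ KFull_s (f b)) : RAC G := by
  refine ⟨fun x => KFull_q (f x), ?_, ?_, ?_⟩
  · intro x y hxy
    have h1 : ((KFull_X (f x) : ℝ), (KFull_Y (f x) : ℝ)) = ((KFull_X (f y) : ℝ), (KFull_Y (f y) : ℝ)) := hxy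
    rw [Prod.mk.injEq] at h1
    exact hf (KFull_inj _ _ (by exact_mod_cast h1.1) (by exact_mod_cast h1.2))
  · intro a b c hab hca hcb h
    have h1 := KFull_seg h
    rw [KFull_det_q] at h1
    exact KFull_D_ne (f a) (f b) (f c) (hs a b hab) (fun h => hca (hf h))
      (fun h => hcb (hf h)) (by exact_mod_cast h1)
  · rintro a b c d hab hcd hac had hbc hbd ⟨z, hz1, hz2⟩
    rcases KFull_D_sides (f a) (f b) (hs a b hab) (f c) (f d) (hs c d hcd)
      (fun h => hac (hf h)) (fun h => had (hf h)) (fun h => hbc (hf h)) (fun h => hbd (hf h))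
      with h | h | h | h | h
    · exact (KFull_pos (by rw [KFull_det_q]; exact_mod_cast h.1) (by rw [KFull_det_q]; exact_mod_cast h.2) hz1 hz2).elim
    · exact (KFull_neg (by rw [KFull_det_q]; exact_mod_cast h.1) (by rw [KFull_det_q]; exact_mod_cast h.2) hz1 hz2).elim
    · exact (KFull_pos (by rw [KFull_det_q]; exact_mod_cast h.1) (by rw [KFull_det_q]; exact_mod_cast h.2) hz2 hz1).elim
    · exact (KFull_neg (by rw [KFull_det_q]; exact_mod_cast h.1) (by rw [KFull_det_q]; exact_mod_cast h.2) hz2 hz1).elim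
    · simp only [KFull_q]
      exact_mod_cast h

/-- the neighbours of a vertex with three given neighbours -/
private theorem KFull_nb [Finite V] {G : SimpleGraph V} (hG : Sub G) {x y z w : V} (hy : G.Adj x y)
    (hz : G.Adj x z) (hw : G.Adj x w) (hyz : y ≠ z) (hyw : y ≠ w) (hzw : z ≠ w) {t : V}
    (ht : G.Adj x t) : t = y ∨ t = z ∨ t = w := by
  have h1 : ({y, z, w} : Set V) ⊆ G.neighborSet x := by
    intro s hs
    rw [Set.mem_insert_iff, Set.mem_insert_iff, Set.mem_singleton_iff] at hs
    rcases hs with rfl | rfl | rfl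
    · exact hy
    · exact hz
    · exact hw
  have h2 : ({y, z, w} : Set V).ncard = 3 := Set.ncard_eq_three.mpr ⟨y, z, w, hyz, hyw, hzw, rfl⟩
  have h3 := Set.eq_of_subset_of_ncard_le h1 (by rw [h2]; exact hG x) (Set.toFinite _)
  have h4 : t ∈ ({y, z, w} : Set V) := by rw [h3]; exact ht
  rwa [Set.mem_insert_iff, Set.mem_insert_iff, Set.mem_singleton_iff] at h4

theorem k33 [Finite V] {G : SimpleGraph V} (hG : Sub G) (hc : G.Connected) {u v w x y z : V}
    (hux : G.Adj u x) (huy : G.Adj u y) (huz : G.Adj u z) (hvx : G.Adj v x) (hvy : G.Adj v y)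
    (hvz : G.Adj v z) (hwx : G.Adj w x) (hwy : G.Adj w y) (hwz : G.Adj w z) (huv : u ≠ v)
    (huw : u ≠ w) (hvw : v ≠ w) (hxy : x ≠ y) (hxz : x ≠ z) (hyz : y ≠ z) : RAC G := by
  classical
  -- the two sides
  have hA : ∀ s t : V, G.Adj s t → (s = u ∨ s = v ∨ s = w) → (t = x ∨ t = y ∨ t = z) := by
    intro s t hst hs
    rcases hs with h | h | h
    · rw [h] at hst
      exact KFull_nb hG hux huy huz hxy hxz hyz hst
    · rw [h] at hst
      exact KFull_nb hG hvx hvy hvz hxy hxz hyz hst
    · rw [h] at hst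
      exact KFull_nb hG hwx hwy hwz hxy hxz hyz hst
  have hB : ∀ s t : V, G.Adj s t → (s = x ∨ s = y ∨ s = z) → (t = u ∨ t = v ∨ t = w) := by
    intro s t hst hs
    rcases hs with h | h | h
    · rw [h] at hst
      exact KFull_nb hG hux.symm hvx.symm hwx.symm huv huw hvw hst
    · rw [h] at hst
      exact KFull_nb hG huy.symm hvy.symm hwy.symm huv huw hvw hst
    · rw [h] at hst
      exact KFull_nb hG huz.symm hvz.symm hwz.symm huv huw hvw hst
  have hwalk : ∀ {s t : V}, G.Walk s t → ((s = u ∨ s = v ∨ s = w) ∨ (s = x ∨ s = y ∨ s = z)) →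
      ((t = u ∨ t = v ∨ t = w) ∨ (t = x ∨ t = y ∨ t = z)) := by
    intro s t p
    induction p with
    | nil => exact id
    | cons h _ ih => exact fun hx => ih (hx.elim (fun h' => Or.inr (hA _ _ h h')) (fun h' => Or.inl (hB _ _ h h')))
  have hall : ∀ t : V, (t = u ∨ t = v ∨ t = w) ∨ (t = x ∨ t = y ∨ t = z) := by
    intro t
    obtain ⟨p⟩ := hc.preconnected u t
    exact hwalk p (Or.inl (Or.inl rfl))
  let f : V → Fin 6 := fun t => if t = u then 0 else if t = v then 1 else if t = w then 2 else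
    if t = x then 3 else if t = y then 4 else 5
  have n1 := hux.ne
  have n2 := huy.ne
  have n3 := huz.ne
  have n4 := hvx.ne
  have n5 := hvy.ne
  have n6 := hvz.ne
  have n7 := hwx.ne
  have n8 := hwy.ne
  have n9 := hwz.ne
  have fu : f u = 0 := by simp [f]
  have fv : f v = 1 := by simp [f, huv.symm]
  have fw : f w = 2 := by simp [f, huw.symm, hvw.symm]
  have fx : f x = 3 := by simp [f, n1.symm, n4.symm, n7.symm]
  have fy : f y = 4 := by simp [f, n2.symm, n5.symm, n8.symm, hxy.symm]
  have fz : f z = 5 := by simp [f, n3.symm, n6.symm, n9.symm, hxz.symm, hyz.symm]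
  have sA : ∀ t : V, (t = u ∨ t = v ∨ t = w) → KFull_s (f t) = true := by
    intro t ht
    rcases ht with h | h | h
    · rw [h, fu]; rfl
    · rw [h, fv]; rfl
    · rw [h, fw]; rfl
  have sB : ∀ t : V, (t = x ∨ t = y ∨ t = z) → KFull_s (f t) = false := by
    intro t ht
    rcases ht with h | h | h
    · rw [h, fx]; rfl
    · rw [h, fy]; rfl
    · rw [h, fz]; rfl
  refine KFull_draw f ?_ ?_
  · -- a left inverse
    let g : Fin 6 → V := ![u, v, w, x, y, z]
    have hg : ∀ t, g (f t) = t := by
      intro t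
      rcases hall t with (h | h | h) | (h | h | h)
      · rw [h, fu]; rfl
      · rw [h, fv]; rfl
      · rw [h, fw]; rfl
      · rw [h, fx]; rfl
      · rw [h, fy]; rfl
      · rw [h, fz]; rfl
    exact Function.LeftInverse.injective hg
  · intro s t hst
    rcases hall s with h | h
    · rw [sA s h, sB t (hA s t hst h)]
      decide
    · rw [sB s h, sA t (hB s t hst h)]
      decide

end MP_a17342_co.RT
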