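import Pool.Agent.Lib.MP_a17342_co.RT.Blow
import Pool.Agent.Lib.MP_a17342_co.RT.Dir

/-!
# K33 minus an edge attached at one vertex
W = {u, v, w, x, y, z, e}, contracted to e. By the degrees the edges inside W are u x, u y, u z, v x, v y, v z, w x, w y, w e, z e,
and only e has an outside neighbour f (at most one). k = un (p f - p e) if f exists, otherwise (1, 0); k' = (-k.2, k.1). In the
coordinates (ip q k, ip q k') put γ e = (0, 0), γ w = (-2, 2), γ z = (-2, -2), γ x = (-4, 1), γ y = (-6, 1), γ u = (-4, -1),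
γ v = (-6, -1): the only crossing is that of x v and y u at (-5, 0), perpendicular; everything is in the half plane of the points
with first coordinate ≤ 0; the ray of f is the positive first axis. blow: t = 0 for e.
-/

set_option autoImplicit false
set_option linter.unusedSimpArgs false

namespace MP_a17342_co.RT

variable {V : Type}

private def KPen_det (a b c : P) : ℝ := (b.1 - a.1) * (c.2 - a.2) - (b.2 - a.2) * (c.1 - a.1)

private theorem KPen_comb {a b c d z : P} {u v : ℝ} (huv : u + v = 1) (hz : z = u • c + v • d) :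
    KPen_det a b z = u * KPen_det a b c + v * KPen_det a b d := by
  have hv : v = 1 - u := by linarith
  rw [hz, hv]
  simp only [KPen_det, Prod.fst_add, Prod.snd_add, Prod.smul_fst, Prod.smul_snd, smul_eq_mul]
  ring

private theorem KPen_seg {a b c : P} (h : c ∈ segment ℝ a b) : KPen_det a b c = 0 := by
  obtain ⟨u, v, _, _, huv, hz⟩ := h
  rw [KPen_comb huv hz.symm]
  simp only [KPen_det]
  ring

private theorem KPen_pos {a b c d z : P} (hc : 0 < KPen_det a b c) (hd : 0 < KPen_det a b d)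
    (h1 : z ∈ segment ℝ a b) (h2 : z ∈ segment ℝ c d) : False := by
  have h3 := KPen_seg h1
  obtain ⟨u, v, hu, hv, huv, hz⟩ := h2
  rw [KPen_comb huv hz.symm] at h3
  rcases hu.eq_or_lt with h4 | h4
  · have h5 : v = 1 := by linarith
    rw [← h4, h5] at h3
    linarith
  · have h5 := mul_pos h4 hc
    have h6 := mul_nonneg hv hd.le
    linarith

private theorem KPen_neg {a b c d z : P} (hc : KPen_det a b c < 0) (hd : KPen_det a b d < 0)
    (h1 : z ∈ segment ℝ a b) (h2 : z ∈ segment ℝ c d) : False := by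
  have h3 := KPen_seg h1
  obtain ⟨u, v, hu, hv, huv, hz⟩ := h2
  rw [KPen_comb huv hz.symm] at h3
  rcases hu.eq_or_lt with h4 | h4
  · have h5 : v = 1 := by linarith
    rw [← h4, h5] at h3
    linarith
  · have h5 := mul_pos h4 (neg_pos.mpr hc)
    have h6 := mul_nonneg hv (neg_pos.mpr hd).le
    linarith

/-- the seven points u, v, w, x, y, z, e, integer coordinates -/
private def KPen_X : Fin 7 → ℤ := ![-4, -6, -2, -4, -6, -2, 0]

private def KPen_Y : Fin 7 → ℤ := ![-1, -1, 2, 1, 1, -2, 0]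

/-- the edges -/
private def KPen_E : Fin 7 → Fin 7 → Bool :=
  ![![false, false, false, true, true, true, false],
    ![false, false, false, true, true, true, false],
    ![false, false, false, true, true, false, true],
    ![true, true, true, false, false, false, false],
    ![true, true, true, false, false, false, false],
    ![true, true, false, false, false, false, true],
    ![false, false, true, false, false, true, false]]

private def KPen_D (i j k : Fin 7) : ℤ :=
  (KPen_X j - KPen_X i) * (KPen_Y k - KPen_Y i) - (KPen_Y j - KPen_Y i) * (KPen_X k - KPen_X i)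

private def KPen_I (i j k l : Fin 7) : ℤ :=
  (KPen_X j - KPen_X i) * (KPen_X l - KPen_X k) + (KPen_Y j - KPen_Y i) * (KPen_Y l - KPen_Y k)

private theorem KPen_inj : ∀ i j : Fin 7, KPen_X i = KPen_X j → KPen_Y i = KPen_Y j → i = j := by
  decide

private theorem KPen_Xneg : ∀ i : Fin 7, i ≠ 6 → KPen_X i < 0 := by
  decide

private theorem KPen_E_symm : ∀ i j : Fin 7, KPen_E i j = true → KPen_E j i = true := by
  decide

private theorem KPen_D_ne : ∀ i j k : Fin 7, KPen_E i j = true → k ≠ i → k ≠ j → KPen_D i j k ≠ 0 := by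
  decide

set_option maxRecDepth 100000 in
private theorem KPen_D_sides : ∀ i j k l : Fin 7, KPen_E i j = true → KPen_E k l = true →
    i ≠ k → i ≠ l → j ≠ k → j ≠ l →
    KPen_I i j k l = 0 ∨
    (0 < KPen_D i j k ∧ 0 < KPen_D i j l) ∨ (KPen_D i j k < 0 ∧ KPen_D i j l < 0) ∨
    (0 < KPen_D k l i ∧ 0 < KPen_D k l j) ∨ (KPen_D k l i < 0 ∧ KPen_D k l j < 0) := by
  decide

private noncomputable def KPen_q (k : P) (i : Fin 7) : P :=
  ((KPen_X i : ℝ) * k.1 - (KPen_Y i : ℝ) * k.2, (KPen_X i : ℝ) * k.2 + (KPen_Y i : ℝ) * k.1)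

private theorem KPen_det_q {k : P} (hk : ip k k = 1) (i j l : Fin 7) :
    KPen_det (KPen_q k i) (KPen_q k j) (KPen_q k l) = (KPen_D i j l : ℝ) := by
  have h1 : k.1 * k.1 + k.2 * k.2 = 1 := hk
  simp only [KPen_det, KPen_q, KPen_D]
  push_cast
  linear_combination (((KPen_X j : ℝ) - KPen_X i) * ((KPen_Y l : ℝ) - KPen_Y i) -
    ((KPen_Y j : ℝ) - KPen_Y i) * ((KPen_X l : ℝ) - KPen_X i)) * h1

private theorem KPen_ip_q {k : P} (hk : ip k k = 1) (i j l m : Fin 7) :
    ip (KPen_q k j - KPen_q k i) (KPen_q k m - KPen_q k l) = (KPen_I i j l m : ℝ) := by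
  have h1 : k.1 * k.1 + k.2 * k.2 = 1 := hk
  simp only [ip, KPen_q, KPen_I, Prod.fst_sub, Prod.snd_sub]
  push_cast
  linear_combination (((KPen_X j : ℝ) - KPen_X i) * ((KPen_X m : ℝ) - KPen_X l) +
    ((KPen_Y j : ℝ) - KPen_Y i) * ((KPen_Y m : ℝ) - KPen_Y l)) * h1

private theorem KPen_ip_k {k : P} (hk : ip k k = 1) (i : Fin 7) :
    ip (KPen_q k i) k = (KPen_X i : ℝ) := by
  have h1 : k.1 * k.1 + k.2 * k.2 = 1 := hk
  simp only [ip, KPen_q]
  linear_combination (KPen_X i : ℝ) * h1

private theorem KPen_ip_k' {k : P} (hk : ip k k = 1) (i : Fin 7) :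
    ip (KPen_q k i) (-k.2, k.1) = (KPen_Y i : ℝ) := by
  have h1 : k.1 * k.1 + k.2 * k.2 = 1 := hk
  simp only [ip, KPen_q]
  linear_combination (KPen_Y i : ℝ) * h1

private theorem KPen_ip_add (a b c : P) : ip (a + b) c = ip a c + ip b c := by
  simp only [ip, Prod.fst_add, Prod.snd_add]
  ring

private theorem KPen_ip_smul (s : ℝ) (a c : P) : ip (s • a) c = s * ip a c := by
  simp only [ip, Prod.smul_fst, Prod.smul_snd, smul_eq_mul]
  ring

/-- the neighbours of a vertex with three given neighbours -/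
private theorem KPen_nb [Finite V] {G : SimpleGraph V} (hG : Sub G) {x y z w : V} (hy : G.Adj x y)
    (hz : G.Adj x z) (hw : G.Adj x w) (hyz : y ≠ z) (hyw : y ≠ w) (hzw : z ≠ w) {t : V}
    (ht : G.Adj x t) : t = y ∨ t = z ∨ t = w := by
  have h1 : ({y, z, w} : Set V) ⊆ G.neighborSet x := by
    intro s hs
    rw [Set.mem_insert_iff, Set.mem_insert_iff, Set.mem_singleton_iff] at hs
    rcases hs with rfl | rfl | rfl
    · exact hy
    · exact hz
    · exact hw
  have h2 : ({y, z, w} : Set V).ncard = 3 := Set.ncard_eq_three.mpr ⟨y, z, w, hyz, hyw, hzw, rfl⟩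
  have h3 := Set.eq_of_subset_of_ncard_le h1 (by rw [h2]; exact hG x) (Set.toFinite _)
  have h4 : t ∈ ({y, z, w} : Set V) := by rw [h3]; exact ht
  rwa [Set.mem_insert_iff, Set.mem_insert_iff, Set.mem_singleton_iff] at h4

theorem kpen [Finite V] (hV : IH V) {G : SimpleGraph V} (hG : Sub G) {u v w x y z e : V}
    (hux : G.Adj u x) (huy : G.Adj u y) (huz : G.Adj u z) (hvx : G.Adj v x) (hvy : G.Adj v y)
    (hvz : G.Adj v z) (hwx : G.Adj w x) (hwy : G.Adj w y) (hwe : G.Adj w e) (hze : G.Adj z e)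
    (huv : u ≠ v) (huw : u ≠ w) (hvw : v ≠ w) (hxy : x ≠ y) (hxz : x ≠ z) (hyz : y ≠ z)
    (hwz : w ≠ z) (hex : e ≠ x) (hey : e ≠ y) (heu : e ≠ u) (hev : e ≠ v) : RAC G := by
  classical
  obtain ⟨W, hW⟩ : ∃ W : Set V, W = {u, v, w, x, y, z, e} := ⟨_, rfl⟩
  have hmem : ∀ t, t ∈ W ↔ t = u ∨ t = v ∨ t = w ∨ t = x ∨ t = y ∨ t = z ∨ t = e := by
    intro t
    rw [hW]
    simp only [Set.mem_insert_iff, Set.mem_singleton_iff]
  obtain ⟨f, hf⟩ : ∃ f : V → Fin 7, f = fun t => if t = u then 0 else if t = v then 1 else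
    if t = w then 2 else if t = x then 3 else if t = y then 4 else if t = z then 5 else 6 := ⟨_, rfl⟩
  have hfu : f u = 0 := by rw [hf]; simp
  have hfv : f v = 1 := by rw [hf]; simp [huv.symm]
  have hfw : f w = 2 := by rw [hf]; simp [huw.symm, hvw.symm]
  have hfx : f x = 3 := by rw [hf]; simp [hux.ne', hvx.ne', hwx.ne']
  have hfy : f y = 4 := by rw [hf]; simp [huy.ne', hvy.ne', hwy.ne', hxy.symm]
  have hfz : f z = 5 := by rw [hf]; simp [huz.ne', hvz.ne', hwz.symm, hxz.symm, hyz.symm]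
  have hfe : f e = 6 := by rw [hf]; simp [heu, hev, hwe.ne', hex, hey, hze.ne']
  have hfinj : ∀ s ∈ W, ∀ t ∈ W, f s = f t → s = t := by
    intro s hs t ht hst
    rcases (hmem s).mp hs with rfl | rfl | rfl | rfl | rfl | rfl | rfl <;>
      rcases (hmem t).mp ht with rfl | rfl | rfl | rfl | rfl | rfl | rfl <;>
      first
        | rfl
        | (exfalso
           simp only [hfu, hfv, hfw, hfx, hfy, hfz, hfe] at hst
           exact absurd hst (by decide))
  -- the neighbours of an element of `W` other than `e`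
  have hnb : ∀ s ∈ W, s ≠ e → ∀ t, G.Adj s t → t ∈ W ∧ KPen_E (f s) (f t) = true := by
    intro s hs hse t hst
    rcases (hmem s).mp hs with h | h | h | h | h | h | h
    · rw [h] at hst ⊢
      rcases KPen_nb hG hux huy huz hxy hxz hyz hst with h' | h' | h' <;> rw [h'] <;>
        refine ⟨(hmem _).mpr (by tauto), ?_⟩ <;> simp only [hfu, hfv, hfw, hfx, hfy, hfz, hfe] <;> decide
    · rw [h] at hst ⊢
      rcases KPen_nb hG hvx hvy hvz hxy hxz hyz hst with h' | h' | h' <;> rw [h'] <;>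
        refine ⟨(hmem _).mpr (by tauto), ?_⟩ <;> simp only [hfu, hfv, hfw, hfx, hfy, hfz, hfe] <;> decide
    · rw [h] at hst ⊢
      rcases KPen_nb hG hwx hwy hwe hxy hex.symm hey.symm hst with h' | h' | h' <;> rw [h'] <;>
        refine ⟨(hmem _).mpr (by tauto), ?_⟩ <;> simp only [hfu, hfv, hfw, hfx, hfy, hfz, hfe] <;> decide
    · rw [h] at hst ⊢
      rcases KPen_nb hG hux.symm hvx.symm hwx.symm huv huw hvw hst with h' | h' | h' <;> rw [h'] <;>
        refine ⟨(hmem _).mpr (by tauto), ?_⟩ <;> simp only [hfu, hfv, hfw, hfx, hfy, hfz, hfe] <;> decide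
    · rw [h] at hst ⊢
      rcases KPen_nb hG huy.symm hvy.symm hwy.symm huv huw hvw hst with h' | h' | h' <;> rw [h'] <;>
        refine ⟨(hmem _).mpr (by tauto), ?_⟩ <;> simp only [hfu, hfv, hfw, hfx, hfy, hfz, hfe] <;> decide
    · rw [h] at hst ⊢
      rcases KPen_nb hG huz.symm hvz.symm hze huv heu.symm hev.symm hst with h' | h' | h' <;> rw [h'] <;>
        refine ⟨(hmem _).mpr (by tauto), ?_⟩ <;> simp only [hfu, hfv, hfw, hfx, hfy, hfz, hfe] <;> decide
    · exact absurd h hse
  have hE : ∀ s ∈ W, ∀ t ∈ W, G.Adj s t → KPen_E (f s) (f t) = true := by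
    intro s hs t ht hst
    by_cases hse : s = e
    · refine KPen_E_symm _ _ (hnb t ht ?_ s hst.symm).2
      rw [← hse]
      exact hst.ne'
    · exact (hnb s hs hse t hst).2
  have heW : e ∈ W := (hmem e).mpr (by tauto)
  have hwW : w ∈ W := (hmem w).mpr (by tauto)
  have hzW : z ∈ W := (hmem z).mpr (by tauto)
  -- an element of `W` with an outside neighbour is `e`
  have hout : ∀ s ∈ W, ∀ t, t ∉ W → G.Adj s t → s = e := by
    intro s hs t ht hst
    by_contra hse
    exact ht (hnb s hs hse t hst).1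
  have houte : ∀ t t', t ∉ W → t' ∉ W → G.Adj e t → G.Adj e t' → t = t' := by
    intro t t' ht ht' het het'
    have h1 : w ≠ t := fun h => ht (h ▸ hwW)
    have h2 : z ≠ t := fun h => ht (h ▸ hzW)
    rcases KPen_nb hG hwe.symm hze.symm het hwz h1 h2 het' with h | h | h
    · exact absurd (h ▸ hwW) ht'
    · exact absurd (h ▸ hzW) ht'
    · exact h.symm
  have hcard := ctr_card heW hwW hwe.ne
  have hsub : Sub (ctr G W e) := by
    refine ctr_sub hG heW ?_
    refine (Set.ncard_le_ncard (t := G.neighborSet e) ?_ (Set.toFinite _)).trans (hG e)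
    rintro t ⟨ht, s, hs, hst⟩
    have h1 := hout s hs t ht hst
    rw [h1] at hst
    exact hst
  obtain ⟨q, hq⟩ := hV {t : V // t ∉ W ∨ t = e} (ctr G W e) hcard hsub
  obtain ⟨p, hp⟩ : ∃ p : V → P, p = fun t => if ht : t ∉ W ∨ t = e then q ⟨t, ht⟩ else 0 := ⟨_, rfl⟩
  have hpq : (fun t : {t : V // t ∉ W ∨ t = e} => p t.1) = q := by
    funext t
    rw [hp]
    show (if ht : t.1 ∉ W ∨ t.1 = e then q ⟨t.1, ht⟩ else 0) = q t
    rw [dif_pos t.2]
  have hpd : Draws (ctr G W e) (fun t => p t.1) := by rw [hpq]; exact hq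
  obtain ⟨k, hk, hkt⟩ : ∃ k : P, ip k k = 1 ∧ ∀ t, t ∉ W → G.Adj e t → ∃ c : ℝ, 0 < c ∧
      p t - p e = c • k := by
    by_cases hex1 : ∃ t, t ∉ W ∧ G.Adj e t
    · obtain ⟨t, ht, het⟩ := hex1
      have hne : p t - p e ≠ 0 := by
        intro h0
        have h2 := @hpd.1 ⟨t, Or.inl ht⟩ ⟨e, Or.inr rfl⟩ (sub_eq_zero.mp h0)
        exact het.ne' (congrArg Subtype.val h2)
      obtain ⟨c, hc, hc2⟩ := un_eq_smul hne
      refine ⟨un (p t - p e), ip_un hne, fun t' ht' het' => ⟨c⁻¹, inv_pos.mpr hc, ?_⟩⟩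
      rw [houte t' t ht' ht het' het, hc2, smul_smul, inv_mul_cancel₀ hc.ne', one_smul]
    · refine ⟨(1, 0), by simp [ip], fun t ht het => absurd ⟨t, ht, het⟩ hex1⟩
  obtain ⟨γ, hγ⟩ : ∃ γ : V → P, γ = fun t => KPen_q k (f t) := ⟨_, rfl⟩
  have hγt : ∀ t, γ t = KPen_q k (f t) := by intro t; rw [hγ]
  have hγe : γ e = 0 := by
    rw [hγt, hfe]
    have h1 : KPen_X 6 = 0 := by decide
    have h2 : KPen_Y 6 = 0 := by decide
    simp only [KPen_q, h1, h2]
    push_cast
    simp
  have hneg : ∀ t ∈ W, t ≠ e → ip (γ t) k < 0 := by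
    intro t ht hte
    rw [hγt, KPen_ip_k hk]
    have h1 : f t ≠ 6 := by
      intro h2
      exact hte (hfinj t ht e heW (h2.trans hfe.symm))
    exact_mod_cast KPen_Xneg (f t) h1
  have hray : ∀ t, t ∉ W → G.Adj e t → ∀ s : ℝ, 0 ≤ s → 0 ≤ ip (γ e + s • (p t - p e)) k := by
    intro t ht het s hs
    obtain ⟨c, hc, hc2⟩ := hkt t ht het
    rw [hγe, zero_add, hc2, KPen_ip_smul, KPen_ip_smul, hk, mul_one]
    exact mul_nonneg hs hc.le
  refine blow heW ?_ hpd γ ?_ ?_ ?_ ?_ ?_ ?_ ?_
  · intro s hs s' hs' t ht hst hst'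
    rw [hout s hs t ht hst, hout s' hs' t ht hst']
  · intro s hs t ht hst
    rw [hγt, hγt] at hst
    refine hfinj s hs t ht (KPen_inj _ _ ?_ ?_)
    · have h1 := congrArg (fun a => ip a k) hst
      simp only [KPen_ip_k hk] at h1
      exact_mod_cast h1
    · have h1 := congrArg (fun a => ip a (-k.2, k.1)) hst
      simp only [KPen_ip_k' hk] at h1
      exact_mod_cast h1
  · intro s hs t ht hst
    refine ⟨0, le_rfl, ?_⟩
    rw [hout s hs t ht hst, hγe, zero_smul]
  · intro a ha b hb c hc hab hca hcb h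
    have h1 := KPen_seg h
    rw [hγt, hγt, hγt, KPen_det_q hk] at h1
    exact KPen_D_ne (f a) (f b) (f c) (hE a ha b hb hab) (fun h => hca (hfinj c hc a ha h))
      (fun h => hcb (hfinj c hc b hb h)) (by exact_mod_cast h1)
  · intro s hs t ht c hc hst hcs r hr h
    have h1 := hout s hs t ht hst
    rw [h1] at hst hcs h
    have h2 := hray t ht hst r hr
    rw [← h] at h2
    exact absurd (hneg c hc hcs) (not_lt.mpr h2)
  · intro a ha b hb c hc d hd hab hcd hac had hbc hbd hne
    obtain ⟨t, ht1, ht2⟩ := hne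
    rw [hγt, hγt, hγt, hγt] at *
    rw [KPen_ip_q hk]
    rcases KPen_D_sides (f a) (f b) (f c) (f d) (hE a ha b hb hab) (hE c hc d hd hcd)
      (fun h => hac (hfinj a ha c hc h)) (fun h => had (hfinj a ha d hd h))
      (fun h => hbc (hfinj b hb c hc h)) (fun h => hbd (hfinj b hb d hd h))
      with h | h | h | h | h
    · rw [h]
      push_cast
      rfl
    · exact (KPen_pos (by rw [KPen_det_q hk]; exact_mod_cast h.1)
        (by rw [KPen_det_q hk]; exact_mod_cast h.2) ht1 ht2).elim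
    · exact (KPen_neg (by rw [KPen_det_q hk]; exact_mod_cast h.1)
        (by rw [KPen_det_q hk]; exact_mod_cast h.2) ht1 ht2).elim
    · exact (KPen_pos (by rw [KPen_det_q hk]; exact_mod_cast h.1)
        (by rw [KPen_det_q hk]; exact_mod_cast h.2) ht2 ht1).elim
    · exact (KPen_neg (by rw [KPen_det_q hk]; exact_mod_cast h.1)
        (by rw [KPen_det_q hk]; exact_mod_cast h.2) ht2 ht1).elim
  · intro a ha b hb s hs t ht hab hst hsa hsb r hr h
    have h1 := hout s hs t ht hst
    rw [h1] at hst hsa hsb h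
    have h2 := hray t ht hst r hr
    obtain ⟨c, d, hc, hd, hcd, hz⟩ := h
    rw [← hz, KPen_ip_add, KPen_ip_smul, KPen_ip_smul] at h2
    have ha1 := hneg a ha hsa.symm
    have hb1 := hneg b hb hsb.symm
    rcases hc.eq_or_lt with h4 | h4
    · have h5 : d = 1 := by linarith
      rw [← h4, h5] at h2
      linarith
    · have h5 := mul_pos h4 (neg_pos.mpr ha1)
      have h6 := mul_nonneg hd (neg_pos.mpr hb1).le
      linarith
  · intro s hs s' hs' t ht t' ht' hst hst' hss _ r r' hr hr'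
    exact absurd ((hout s hs t ht hst).trans (hout s' hs' t' ht' hst').symm) hss

end MP_a17342_co.RT
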