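import Pool.Agent.Lib.MP_a17342_co.RT.Dir

/-!
# Local drawing in the unit disc: K33 minus an edge
-/

set_option autoImplicit false

namespace MP_a17342_co.RT

private def SqPts_g (m a : P) (s t : ℝ) : P :=
  (m.1 + s * a.1 - t * a.2, m.2 + s * a.2 + t * a.1)

private theorem SqPts_disj {m a : P} (ha : 0 < ip a a) {s1 t1 s2 t2 s3 t3 s4 t4 : ℝ} (l u k : ℝ)
    (h1 : k < l * s1 + u * t1) (h2 : k < l * s2 + u * t2)
    (h3 : l * s3 + u * t3 ≤ k) (h4 : l * s4 + u * t4 ≤ k) :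
    Disjoint (segment ℝ (SqPts_g m a s1 t1) (SqPts_g m a s2 t2))
      (segment ℝ (SqPts_g m a s3 t3) (SqPts_g m a s4 t4)) := by
  rw [Set.disjoint_left]
  rintro q ⟨p, r, hp, hr, hpr, rfl⟩ ⟨p', r', hp', hr', hpr', he⟩
  have e1 := congrArg Prod.fst he
  have e2 := congrArg Prod.snd he
  simp only [SqPts_g, Prod.fst_add, Prod.snd_add, Prod.smul_fst, Prod.smul_snd, smul_eq_mul] at e1 e2
  have key : ip a a * (p' * (l * s3 + u * t3) + r' * (l * s4 + u * t4)) =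
      ip a a * (p * (l * s1 + u * t1) + r * (l * s2 + u * t2)) := by
    have hr1 : r = 1 - p := by linarith
    have hr2 : r' = 1 - p' := by linarith
    subst hr1 hr2
    simp only [ip]
    linear_combination (l * a.1 - u * a.2) * e1 + (l * a.2 + u * a.1) * e2
  have key2 := mul_left_cancel₀ ha.ne' key
  have b1 : p' * (l * s3 + u * t3) ≤ p' * k := mul_le_mul_of_nonneg_left h3 hp'
  have b2 : r' * (l * s4 + u * t4) ≤ r' * k := mul_le_mul_of_nonneg_left h4 hr'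
  have b3 : p' * k + r' * k = k := by rw [← add_mul, hpr', one_mul]
  have b4 : k < p * (l * s1 + u * t1) + r * (l * s2 + u * t2) := by
    have b5 : p * k + r * k = k := by rw [← add_mul, hpr, one_mul]
    rcases eq_or_lt_of_le hp with h0 | h0
    · have : r = 1 := by linarith
      rw [← h0, this]
      linarith
    · have b6 : p * k < p * (l * s1 + u * t1) := mul_lt_mul_of_pos_left h1 h0
      have b7 : r * k ≤ r * (l * s2 + u * t2) := mul_le_mul_of_nonneg_left h2.le hr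
      linarith
  linarith

private theorem SqPts_nm {m a : P} (ha : 0 < ip a a) {s1 t1 s2 t2 s3 t3 : ℝ} (l u : ℝ)
    (h1 : l * s3 + u * t3 < l * s1 + u * t1) (h2 : l * s3 + u * t3 < l * s2 + u * t2) :
    SqPts_g m a s3 t3 ∉ segment ℝ (SqPts_g m a s1 t1) (SqPts_g m a s2 t2) := by
  intro h
  exact Set.disjoint_left.1 (SqPts_disj (m := m) ha l u (l * s3 + u * t3) h1 h2 le_rfl le_rfl) h
    (left_mem_segment ℝ _ _)

private theorem SqPts_ne {m a : P} (ha : 0 < ip a a) {s1 t1 s3 t3 : ℝ} (l u : ℝ)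
    (h1 : l * s3 + u * t3 < l * s1 + u * t1) :
    SqPts_g m a s1 t1 ≠ SqPts_g m a s3 t3 := by
  intro h
  refine SqPts_nm (m := m) ha l u h1 h1 ?_
  rw [← h]
  exact left_mem_segment ℝ _ _

theorem sq_points {w z : P} (hw : ip w w = 1) (hz : ip z z = 1) (hwz : w ≠ z) :
    ∃ x y u v : P, (ip x x < 1 ∧ ip y y < 1 ∧ ip u u < 1 ∧ ip v v < 1) ∧
      (x ≠ y ∧ x ≠ u ∧ x ≠ v ∧ y ≠ u ∧ y ≠ v ∧ u ≠ v) ∧
      (y ∉ segment ℝ w x ∧ u ∉ segment ℝ w x ∧ v ∉ segment ℝ w x) ∧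
      (x ∉ segment ℝ w y ∧ u ∉ segment ℝ w y ∧ v ∉ segment ℝ w y) ∧
      (x ∉ segment ℝ z u ∧ y ∉ segment ℝ z u ∧ v ∉ segment ℝ z u) ∧
      (x ∉ segment ℝ z v ∧ y ∉ segment ℝ z v ∧ u ∉ segment ℝ z v) ∧
      (y ∉ segment ℝ x u ∧ v ∉ segment ℝ x u) ∧ (x ∉ segment ℝ y v ∧ u ∉ segment ℝ y v) ∧
      (y ∉ segment ℝ x v ∧ u ∉ segment ℝ x v) ∧ (x ∉ segment ℝ y u ∧ v ∉ segment ℝ y u) ∧
      ip (v - x) (u - y) = 0 ∧
      (Disjoint (segment ℝ w x) (segment ℝ z u) ∧ Disjoint (segment ℝ w x) (segment ℝ z v) ∧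
        Disjoint (segment ℝ w x) (segment ℝ y v) ∧ Disjoint (segment ℝ w x) (segment ℝ y u)) ∧
      (Disjoint (segment ℝ w y) (segment ℝ z u) ∧ Disjoint (segment ℝ w y) (segment ℝ z v) ∧
        Disjoint (segment ℝ w y) (segment ℝ x u) ∧ Disjoint (segment ℝ w y) (segment ℝ x v)) ∧
      (Disjoint (segment ℝ z u) (segment ℝ x v) ∧ Disjoint (segment ℝ z u) (segment ℝ y v)) ∧
      (Disjoint (segment ℝ z v) (segment ℝ x u) ∧ Disjoint (segment ℝ z v) (segment ℝ y u)) ∧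
      Disjoint (segment ℝ x u) (segment ℝ y v) := by
  obtain ⟨w1, w2⟩ := w
  obtain ⟨z1, z2⟩ := z
  set m : P := ((w1 + z1) / 2, (w2 + z2) / 2) with hm
  set a : P := ((w1 - z1) / 2, (w2 - z2) / 2) with ha
  have hw' : w1 * w1 + w2 * w2 = 1 := hw
  have hz' : z1 * z1 + z2 * z2 = 1 := hz
  have hW : ((w1, w2) : P) = SqPts_g m a 1 0 := by
    ext
    · simp only [SqPts_g, hm, ha]; ring
    · simp only [SqPts_g, hm, ha]; ring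
  have hZ : ((z1, z2) : P) = SqPts_g m a (-1) 0 := by
    ext
    · simp only [SqPts_g, hm, ha]; ring
    · simp only [SqPts_g, hm, ha]; ring
  have hpos : 0 < ip a a := by
    have h0 : 0 ≤ ip a a := add_nonneg (mul_self_nonneg _) (mul_self_nonneg _)
    rcases eq_or_lt_of_le h0 with h | h
    · exfalso
      apply hwz
      have h1 : (w1 - z1) / 2 * ((w1 - z1) / 2) + (w2 - z2) / 2 * ((w2 - z2) / 2) = 0 := h.symm
      have h2 : w1 - z1 = 0 := by nlinarith [sq_nonneg (w1 - z1), sq_nonneg (w2 - z2)]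
      have h3 : w2 - z2 = 0 := by nlinarith [sq_nonneg (w1 - z1), sq_nonneg (w2 - z2)]
      rw [sub_eq_zero.1 h2, sub_eq_zero.1 h3]
    · exact h
  set ρ : ℝ := ip a a with hρ
  have hρ' : ρ = (w1 - z1) / 2 * ((w1 - z1) / 2) + (w2 - z2) / 2 * ((w2 - z2) / 2) := rfl
  set κ : ℝ := -(m.1 * a.2) + m.2 * a.1 with hκ
  have hκ' : κ = -((w1 + z1) / 2 * ((w2 - z2) / 2)) + (w2 + z2) / 2 * ((w1 - z1) / 2) := rfl
  have hmm : m.1 * m.1 + m.2 * m.2 = 1 - ρ := by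
    rw [hρ']
    show (w1 + z1) / 2 * ((w1 + z1) / 2) + (w2 + z2) / 2 * ((w2 + z2) / 2) = _
    linear_combination (1 / 2) * hw' + (1 / 2) * hz'
  have hma : m.1 * a.1 + m.2 * a.2 = 0 := by
    show (w1 + z1) / 2 * ((w1 - z1) / 2) + (w2 + z2) / 2 * ((w2 - z2) / 2) = _
    linear_combination (1 / 4) * hw' - (1 / 4) * hz'
  have haa : a.1 * a.1 + a.2 * a.2 = ρ := rfl
  have hκ2 : κ ^ 2 = (1 - ρ) * ρ := by
    rw [← hmm, ← haa, hκ]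
    linear_combination (-(m.1 * a.1 + m.2 * a.2)) * hma
  have hρ1 : ρ ≤ 1 := by nlinarith [mul_self_nonneg m.1, mul_self_nonneg m.2]
  have hκa : κ ≤ 1 := by nlinarith [sq_nonneg (κ - 1), sq_nonneg (ρ - 1 / 2)]
  have hκb : -1 ≤ κ := by nlinarith [sq_nonneg (κ + 1), sq_nonneg (ρ - 1 / 2)]
  have hip : ∀ s t : ℝ, ip (SqPts_g m a s t) (SqPts_g m a s t) =
      1 - ρ + (s ^ 2 + t ^ 2) * ρ + 2 * t * κ := by
    intro s t
    simp only [ip, SqPts_g]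
    rw [hκ]
    linear_combination hmm + 2 * s * hma + (s ^ 2 + t ^ 2) * haa
  set δ : ℝ := ρ / 4 with hδ
  have hd0 : 0 < δ := by rw [hδ]; linarith
  have hd1 : δ ≤ 1 / 4 := by rw [hδ]; linarith
  have hlt : ∀ s t : ℝ, s ^ 2 = δ ^ 2 → (t = δ ∨ t = -δ) →
      ip (SqPts_g m a s t) (SqPts_g m a s t) < 1 := by
    intro s t hs ht
    rw [hip, hs]
    have hρδ : ρ = 4 * δ := by rw [hδ]; ring
    have h5 : δ ^ 2 ≤ 1 / 16 := by nlinarith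
    rcases ht with rfl | rfl
    · rw [hρδ]
      nlinarith [mul_pos hd0 hd0, mul_nonneg hd0.le (sub_nonneg.2 hκa)]
    · rw [hρδ]
      nlinarith [mul_pos hd0 hd0, mul_nonneg hd0.le (show 0 ≤ κ + 1 by linarith)]
  rw [hW, hZ]
  refine ⟨SqPts_g m a δ δ, SqPts_g m a δ (-δ), SqPts_g m a (-δ) δ, SqPts_g m a (-δ) (-δ),
    ⟨hlt _ _ rfl (Or.inl rfl), hlt _ _ rfl (Or.inr rfl), hlt _ _ (by ring) (Or.inl rfl),
      hlt _ _ (by ring) (Or.inr rfl)⟩,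
    ⟨SqPts_ne hpos 0 1 ?_, SqPts_ne hpos 1 0 ?_, SqPts_ne hpos 1 0 ?_, SqPts_ne hpos 1 0 ?_,
      SqPts_ne hpos 1 0 ?_, SqPts_ne hpos 0 1 ?_⟩,
    ⟨SqPts_nm hpos 0 1 ?_ ?_, SqPts_nm hpos 1 0 ?_ ?_, SqPts_nm hpos 1 0 ?_ ?_⟩,
    ⟨SqPts_nm hpos 0 (-1) ?_ ?_, SqPts_nm hpos 1 0 ?_ ?_, SqPts_nm hpos 1 0 ?_ ?_⟩,
    ⟨SqPts_nm hpos (-1) 0 ?_ ?_, SqPts_nm hpos (-1) 0 ?_ ?_, SqPts_nm hpos 0 1 ?_ ?_⟩,
    ⟨SqPts_nm hpos (-1) 0 ?_ ?_, SqPts_nm hpos (-1) 0 ?_ ?_, SqPts_nm hpos 0 (-1) ?_ ?_⟩,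
    ⟨SqPts_nm hpos 0 1 ?_ ?_, SqPts_nm hpos 0 1 ?_ ?_⟩,
    ⟨SqPts_nm hpos 0 (-1) ?_ ?_, SqPts_nm hpos 0 (-1) ?_ ?_⟩,
    ⟨SqPts_nm hpos (-1) 1 ?_ ?_, SqPts_nm hpos 1 (-1) ?_ ?_⟩,
    ⟨SqPts_nm hpos (-1) (-1) ?_ ?_, SqPts_nm hpos 1 1 ?_ ?_⟩, ?_,
    ⟨SqPts_disj hpos 1 0 0 ?_ ?_ ?_ ?_, SqPts_disj hpos 1 0 0 ?_ ?_ ?_ ?_,
      SqPts_disj hpos 0 1 (-δ) ?_ ?_ ?_ ?_, SqPts_disj hpos 1 1 0 ?_ ?_ ?_ ?_⟩,
    ⟨SqPts_disj hpos 1 0 0 ?_ ?_ ?_ ?_, SqPts_disj hpos 1 0 0 ?_ ?_ ?_ ?_,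
      SqPts_disj hpos 0 (-1) (-δ) ?_ ?_ ?_ ?_, SqPts_disj hpos 1 (-1) 0 ?_ ?_ ?_ ?_⟩,
    ⟨SqPts_disj hpos (-1) 1 0 ?_ ?_ ?_ ?_, SqPts_disj hpos 0 1 (-δ) ?_ ?_ ?_ ?_⟩,
    ⟨SqPts_disj hpos 0 (-1) (-δ) ?_ ?_ ?_ ?_, SqPts_disj hpos (-1) (-1) 0 ?_ ?_ ?_ ?_⟩,
    SqPts_disj hpos 0 1 0 ?_ ?_ ?_ ?_⟩
  all_goals first
    | linarith
    | (simp only [ip, SqPts_g, Prod.fst_sub, Prod.snd_sub]; ring)

end MP_a17342_co.RT
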