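import Pool.Agent.Lib.MP_a17342_co.RT.Disk
import Pool.Agent.Lib.MP_a17342_co.RT.SqPts
import Pool.Agent.Lib.MP_a17342_co.RT.Cho

/-!
# K33 minus an edge with distinct outside neighbours
Plan: W = {u, v, w, x, y, z}; by the degrees the edges inside W are u x, u y, u z, v x, v y, v z, w x, w y; only w and z have outside neighbours, at most one each, distinct
by h. ctr (to the vertex w), hV, choose_units for the directions of w and z (circle), sq_points for x, y, u, v; blow_disc; h3: for the vertices on the circle use disc_seg.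
-/

set_option autoImplicit false

namespace MP_a17342_co.RT

variable {V : Type}

private theorem k3_deg3 [Finite V] {G : SimpleGraph V} (hG : Sub G) {s a b c : V} (ha : G.Adj s a)
    (hb : G.Adj s b) (hc : G.Adj s c) (hab : a ≠ b) (hac : a ≠ c) (hbc : b ≠ c) {t : V}
    (ht : G.Adj s t) : t = a ∨ t = b ∨ t = c := by
  by_contra h
  push Not at h
  obtain ⟨h1, h2, h3⟩ := h
  have hsub : ({a, b, c, t} : Set V) ⊆ G.neighborSet s := by
    intro q hq
    simp only [Set.mem_insert_iff, Set.mem_singleton_iff] at hq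
    rcases hq with hq | hq | hq | hq <;> rw [hq, SimpleGraph.mem_neighborSet] <;> assumption
  have h4 : ({a, b, c, t} : Set V).ncard = 4 := by
    rw [Set.ncard_insert_of_notMem, Set.ncard_insert_of_notMem, Set.ncard_pair h3.symm]
    · simp only [Set.mem_insert_iff, Set.mem_singleton_iff, not_or]
      exact ⟨hbc, h2.symm⟩
    · simp only [Set.mem_insert_iff, Set.mem_singleton_iff, not_or]
      exact ⟨hab, hac, h1.symm⟩
  have h5 := Set.ncard_le_ncard hsub (Set.toFinite _)
  have h6 := hG s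
  omega

private theorem k3_deg1 [Finite V] {G : SimpleGraph V} (hG : Sub G) {s a b : V} (ha : G.Adj s a)
    (hb : G.Adj s b) (hab : a ≠ b) {t t' : V} (ht : G.Adj s t) (ht' : G.Adj s t') (h1 : t ≠ a)
    (h2 : t ≠ b) (h1' : t' ≠ a) (h2' : t' ≠ b) : t = t' := by
  rcases k3_deg3 hG ha hb ht hab h1.symm h2.symm ht' with h | h | h
  · exact absurd h h1'
  · exact absurd h h2'
  · exact h.symm

private def K3E (u v w x y z a b : V) : Prop :=
  (a = w ∧ b = x) ∨ (a = w ∧ b = y) ∨ (a = z ∧ b = u) ∨ (a = z ∧ b = v) ∨ (a = x ∧ b = u) ∨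
    (a = y ∧ b = v) ∨ (a = x ∧ b = v) ∨ (a = y ∧ b = u)

private theorem k3m1 {u v w x y z t : V} (e : t = u) :
    t = u ∨ t = v ∨ t = w ∨ t = x ∨ t = y ∨ t = z := Or.inl e

private theorem k3m2 {u v w x y z t : V} (e : t = v) :
    t = u ∨ t = v ∨ t = w ∨ t = x ∨ t = y ∨ t = z := Or.inr (Or.inl e)

private theorem k3m3 {u v w x y z t : V} (e : t = w) :
    t = u ∨ t = v ∨ t = w ∨ t = x ∨ t = y ∨ t = z := Or.inr (Or.inr (Or.inl e))

private theorem k3m4 {u v w x y z t : V} (e : t = x) :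
    t = u ∨ t = v ∨ t = w ∨ t = x ∨ t = y ∨ t = z := Or.inr (Or.inr (Or.inr (Or.inl e)))

private theorem k3m5 {u v w x y z t : V} (e : t = y) :
    t = u ∨ t = v ∨ t = w ∨ t = x ∨ t = y ∨ t = z :=
  Or.inr (Or.inr (Or.inr (Or.inr (Or.inl e))))

private theorem k3m6 {u v w x y z t : V} (e : t = z) :
    t = u ∨ t = v ∨ t = w ∨ t = x ∨ t = y ∨ t = z :=
  Or.inr (Or.inr (Or.inr (Or.inr (Or.inr e))))

private theorem k3e1 {u v w x y z a b : V} (h : a = w) (h' : b = x) : K3E u v w x y z a b :=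
  Or.inl ⟨h, h'⟩

private theorem k3e2 {u v w x y z a b : V} (h : a = w) (h' : b = y) : K3E u v w x y z a b :=
  Or.inr (Or.inl ⟨h, h'⟩)

private theorem k3e3 {u v w x y z a b : V} (h : a = z) (h' : b = u) : K3E u v w x y z a b :=
  Or.inr (Or.inr (Or.inl ⟨h, h'⟩))

private theorem k3e4 {u v w x y z a b : V} (h : a = z) (h' : b = v) : K3E u v w x y z a b :=
  Or.inr (Or.inr (Or.inr (Or.inl ⟨h, h'⟩)))

private theorem k3e5 {u v w x y z a b : V} (h : a = x) (h' : b = u) : K3E u v w x y z a b :=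
  Or.inr (Or.inr (Or.inr (Or.inr (Or.inl ⟨h, h'⟩))))

private theorem k3e6 {u v w x y z a b : V} (h : a = y) (h' : b = v) : K3E u v w x y z a b :=
  Or.inr (Or.inr (Or.inr (Or.inr (Or.inr (Or.inl ⟨h, h'⟩)))))

private theorem k3e7 {u v w x y z a b : V} (h : a = x) (h' : b = v) : K3E u v w x y z a b :=
  Or.inr (Or.inr (Or.inr (Or.inr (Or.inr (Or.inr (Or.inl ⟨h, h'⟩))))))

private theorem k3e8 {u v w x y z a b : V} (h : a = y) (h' : b = u) : K3E u v w x y z a b :=
  Or.inr (Or.inr (Or.inr (Or.inr (Or.inr (Or.inr (Or.inr ⟨h, h'⟩))))))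

private theorem k3_mem {u v w x y z a b : V} (h : K3E u v w x y z a b) :
    (a = u ∨ a = v ∨ a = w ∨ a = x ∨ a = y ∨ a = z) ∧
      (b = u ∨ b = v ∨ b = w ∨ b = x ∨ b = y ∨ b = z) := by
  rcases h with ⟨e, f⟩ | ⟨e, f⟩ | ⟨e, f⟩ | ⟨e, f⟩ | ⟨e, f⟩ | ⟨e, f⟩ | ⟨e, f⟩ | ⟨e, f⟩
  · exact ⟨k3m3 e, k3m4 f⟩
  · exact ⟨k3m3 e, k3m5 f⟩
  · exact ⟨k3m6 e, k3m1 f⟩
  · exact ⟨k3m6 e, k3m2 f⟩
  · exact ⟨k3m4 e, k3m1 f⟩
  · exact ⟨k3m5 e, k3m2 f⟩
  · exact ⟨k3m4 e, k3m2 f⟩
  · exact ⟨k3m5 e, k3m1 f⟩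

private theorem k3_ip_comm (a b : P) : ip a b = ip b a := by
  unfold ip
  ring

private theorem k3_ip_neg (a b c : P) : ip (a - b) c = - ip (b - a) c := by
  unfold ip
  simp only [Prod.fst_sub, Prod.snd_sub]
  ring

private theorem k3_ip_neg' (a b c : P) : ip c (a - b) = - ip c (b - a) := by
  unfold ip
  simp only [Prod.fst_sub, Prod.snd_sub]
  ring

private theorem k3_dis {A B C D : P} (h : Disjoint (segment ℝ A B) (segment ℝ C D))
    (hn : (segment ℝ A B ∩ segment ℝ C D).Nonempty) : False := by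
  obtain ⟨q, hq1, hq2⟩ := hn
  exact Set.disjoint_left.1 h hq1 hq2

theorem k33e [Finite V] (hV : IH V) {G : SimpleGraph V} (hG : Sub G) {u v w x y z : V}
    (hux : G.Adj u x) (huy : G.Adj u y) (huz : G.Adj u z) (hvx : G.Adj v x) (hvy : G.Adj v y)
    (hvz : G.Adj v z) (hwx : G.Adj w x) (hwy : G.Adj w y) (huv : u ≠ v) (huw : u ≠ w)
    (hvw : v ≠ w) (hxy : x ≠ y) (hxz : x ≠ z) (hyz : y ≠ z) (hwz : w ≠ z) (nwz : ¬ G.Adj w z)
    (h : ∀ t, ¬ (G.Adj w t ∧ G.Adj z t)) : RAC G := by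
  classical
  have Nu : ∀ t, G.Adj u t → t = x ∨ t = y ∨ t = z := fun t ht =>
    k3_deg3 hG hux huy huz hxy hxz hyz ht
  have Nv : ∀ t, G.Adj v t → t = x ∨ t = y ∨ t = z := fun t ht =>
    k3_deg3 hG hvx hvy hvz hxy hxz hyz ht
  have Nx : ∀ t, G.Adj x t → t = u ∨ t = v ∨ t = w := fun t ht =>
    k3_deg3 hG hux.symm hvx.symm hwx.symm huv huw hvw ht
  have Ny : ∀ t, G.Adj y t → t = u ∨ t = v ∨ t = w := fun t ht =>
    k3_deg3 hG huy.symm hvy.symm hwy.symm huv huw hvw ht
  have hux' := hux.ne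
  have huy' := huy.ne
  have huz' := huz.ne
  have hvx' := hvx.ne
  have hvy' := hvy.ne
  have hvz' := hvz.ne
  have hwx' := hwx.ne
  have hwy' := hwy.ne
  obtain ⟨W, hWdef⟩ : ∃ W : Set V, W = {u, v, w, x, y, z} := ⟨_, rfl⟩
  have hmem : ∀ t, t ∈ W ↔ t = u ∨ t = v ∨ t = w ∨ t = x ∨ t = y ∨ t = z := by
    intro t
    rw [hWdef]
    simp only [Set.mem_insert_iff, Set.mem_singleton_iff]
  have hwW : w ∈ W := (hmem w).2 (k3m3 rfl)
  have huW : u ∈ W := (hmem u).2 (k3m1 rfl)
  have hzW : z ∈ W := (hmem z).2 (k3m6 rfl)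
  have hout0 : ∀ s ∈ W, ∀ t, t ∉ W → G.Adj s t → s = w ∨ s = z := by
    intro s hs t ht hst
    rw [hmem] at hs ht
    rcases hs with hs | hs | hs | hs | hs | hs
    · exfalso; rw [hs] at hst
      rcases Nu t hst with e | e | e
      · exact ht (k3m4 e)
      · exact ht (k3m5 e)
      · exact ht (k3m6 e)
    · exfalso; rw [hs] at hst
      rcases Nv t hst with e | e | e
      · exact ht (k3m4 e)
      · exact ht (k3m5 e)
      · exact ht (k3m6 e)
    · exact Or.inl hs
    · exfalso; rw [hs] at hst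
      rcases Nx t hst with e | e | e
      · exact ht (k3m1 e)
      · exact ht (k3m2 e)
      · exact ht (k3m3 e)
    · exfalso; rw [hs] at hst
      rcases Ny t hst with e | e | e
      · exact ht (k3m1 e)
      · exact ht (k3m2 e)
      · exact ht (k3m3 e)
    · exact Or.inr hs
  have hw1 : ∀ t, t ∉ W → ∀ t', t' ∉ W → G.Adj w t → G.Adj w t' → t = t' := by
    intro t ht t' ht' h1 h2
    rw [hmem] at ht ht'
    exact k3_deg1 hG hwx hwy hxy h1 h2 (fun e => ht (k3m4 e)) (fun e => ht (k3m5 e))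
      (fun e => ht' (k3m4 e)) (fun e => ht' (k3m5 e))
  have hz1 : ∀ t, t ∉ W → ∀ t', t' ∉ W → G.Adj z t → G.Adj z t' → t = t' := by
    intro t ht t' ht' h1 h2
    rw [hmem] at ht ht'
    exact k3_deg1 hG huz.symm hvz.symm huv h1 h2 (fun e => ht (k3m1 e)) (fun e => ht (k3m2 e))
      (fun e => ht' (k3m1 e)) (fun e => ht' (k3m2 e))
  have huniq : ∀ s ∈ W, ∀ s' ∈ W, ∀ t, t ∉ W → G.Adj s t → G.Adj s' t → s = s' := by
    intro s hs s' hs' t ht h1 h2
    rcases hout0 s hs t ht h1 with e | e <;> rcases hout0 s' hs' t ht h2 with e' | e'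
    · rw [e, e']
    · rw [e] at h1; rw [e'] at h2; exact absurd ⟨h1, h2⟩ (h t)
    · rw [e] at h1; rw [e'] at h2; exact absurd ⟨h2, h1⟩ (h t)
    · rw [e, e']
  have hone : ∀ s ∈ W, ∀ t, t ∉ W → ∀ t', t' ∉ W → G.Adj s t → G.Adj s t' → t = t' := by
    intro s hs t ht t' ht' h1 h2
    rcases hout0 s hs t ht h1 with e | e
    · rw [e] at h1 h2; exact hw1 t ht t' ht' h1 h2
    · rw [e] at h1 h2; exact hz1 t ht t' ht' h1 h2
  have hcard : {t : V | t ∉ W ∧ ∃ s ∈ W, G.Adj s t}.ncard ≤ 3 := by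
    have hsub : {t : V | t ∉ W ∧ ∃ s ∈ W, G.Adj s t} ⊆
        {t : V | t ∉ W ∧ G.Adj w t} ∪ {t : V | t ∉ W ∧ G.Adj z t} := by
      rintro t ⟨ht, s, hs, hst⟩
      rcases hout0 s hs t ht hst with e | e
      · left; rw [e] at hst; exact ⟨ht, hst⟩
      · right; rw [e] at hst; exact ⟨ht, hst⟩
    have h1 : {t : V | t ∉ W ∧ G.Adj w t}.ncard ≤ 1 := by
      rw [Set.ncard_le_one_iff (Set.toFinite _)]
      rintro t t' ⟨ht, h1⟩ ⟨ht', h2⟩
      exact hw1 t ht t' ht' h1 h2
    have h2 : {t : V | t ∉ W ∧ G.Adj z t}.ncard ≤ 1 := by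
      rw [Set.ncard_le_one_iff (Set.toFinite _)]
      rintro t t' ⟨ht, h1⟩ ⟨ht', h2⟩
      exact hz1 t ht t' ht' h1 h2
    have h3 := Set.ncard_le_ncard hsub (Set.toFinite _)
    have h4 := Set.ncard_union_le {t : V | t ∉ W ∧ G.Adj w t} {t : V | t ∉ W ∧ G.Adj z t}
    omega
  obtain ⟨p', hp'⟩ := hV {t : V // t ∉ W ∨ t = w} (ctr G W w) (ctr_card hwW huW huw)
    (ctr_sub hG hwW hcard)
  obtain ⟨p, hpp⟩ : ∃ p : V → P, ∀ t : {t : V // t ∉ W ∨ t = w}, p t.1 = p' t := by
    refine ⟨fun t => if ht : t ∉ W ∨ t = w then p' ⟨t, ht⟩ else 0, fun t => ?_⟩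
    exact dif_pos t.2
  have hp : Draws (ctr G W w) (fun t => p t.1) := by
    have : (fun t : {t : V // t ∉ W ∨ t = w} => p t.1) = p' := funext hpp
    rw [this]
    exact hp'
  obtain ⟨γ₀, hγ1, hγ2, hγ3⟩ := choose_units hwW huniq hone hp
  obtain ⟨ω, hω⟩ : ∃ ω : P, ω = γ₀ w := ⟨_, rfl⟩
  obtain ⟨ζ, hζ⟩ : ∃ ζ : P, ζ = γ₀ z := ⟨_, rfl⟩
  have hω1 : ip ω ω = 1 := by rw [hω]; exact hγ1 w hwW
  have hζ1 : ip ζ ζ = 1 := by rw [hζ]; exact hγ1 z hzW
  have hωζ : ω ≠ ζ := by
    intro e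
    rw [hω, hζ] at e
    exact hwz (hγ2 w hwW z hzW e)
  obtain ⟨X, Y, U', V', ⟨nX, nY, nU, nV⟩, ⟨dXY, dXU, dXV, dYU, dYV, dUV⟩, ⟨a1, a2, a3⟩,
    ⟨a4, a5, a6⟩, ⟨a7, a8, a9⟩, ⟨a10, a11, a12⟩, ⟨a13, a14⟩, ⟨a15, a16⟩, ⟨a17, a18⟩, ⟨a19, a20⟩,
    hperp, ⟨d1, d2, d3, d4⟩, ⟨d5, d6, d7, d8⟩, ⟨d9, d10⟩, ⟨d11, d12⟩, d13⟩ := sq_points hω1 hζ1 hωζ
  obtain ⟨γ, gw, gz, gx, gy, gu, gv⟩ : ∃ γ : V → P, γ w = ω ∧ γ z = ζ ∧ γ x = X ∧ γ y = Y ∧
      γ u = U' ∧ γ v = V' := by
    refine ⟨fun t => if t = w then ω else if t = z then ζ else if t = x then X else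
      if t = y then Y else if t = u then U' else V', ?_, ?_, ?_, ?_, ?_, ?_⟩
    · simp
    · simp [hwz.symm]
    · simp [hwx'.symm, hxz]
    · simp [hwy'.symm, hyz, hxy.symm]
    · simp [huw, huz', hux', huy']
    · simp [hvw, hvz', hvx', hvy', huv.symm]
  have hu : ∀ t ∈ W, ip (γ t) (γ t) ≤ 1 := by
    intro t ht
    rw [hmem] at ht
    rcases ht with e | e | e | e | e | e <;> rw [e]
    · rw [gu]; exact nU.le
    · rw [gv]; exact nV.le
    · rw [gw]; exact hω1.le
    · rw [gx]; exact nX.le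
    · rw [gy]; exact nY.le
    · rw [gz]; exact hζ1.le
  have nωX : ω ≠ X := by rintro e; rw [← e, hω1] at nX; exact lt_irrefl _ nX
  have nωY : ω ≠ Y := by rintro e; rw [← e, hω1] at nY; exact lt_irrefl _ nY
  have nωU : ω ≠ U' := by rintro e; rw [← e, hω1] at nU; exact lt_irrefl _ nU
  have nωV : ω ≠ V' := by rintro e; rw [← e, hω1] at nV; exact lt_irrefl _ nV
  have nζX : ζ ≠ X := by rintro e; rw [← e, hζ1] at nX; exact lt_irrefl _ nX
  have nζY : ζ ≠ Y := by rintro e; rw [← e, hζ1] at nY; exact lt_irrefl _ nY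
  have nζU : ζ ≠ U' := by rintro e; rw [← e, hζ1] at nU; exact lt_irrefl _ nU
  have nζV : ζ ≠ V' := by rintro e; rw [← e, hζ1] at nV; exact lt_irrefl _ nV
  have hinj : ∀ s ∈ W, ∀ t ∈ W, γ s = γ t → s = t := by
    intro s hs t ht e
    rw [hmem] at hs ht
    rcases hs with hs | hs | hs | hs | hs | hs <;> rcases ht with ht | ht | ht | ht | ht | ht <;>
      first
      | exact hs.trans ht.symm
      | (exfalso
         rw [hs, ht] at e
         simp only [gu, gv, gw, gx, gy, gz] at e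
         first
         | exact dXY e | exact dXY e.symm | exact dXU e | exact dXU e.symm
         | exact dXV e | exact dXV e.symm | exact dYU e | exact dYU e.symm
         | exact dYV e | exact dYV e.symm | exact dUV e | exact dUV e.symm
         | exact nωX e | exact nωX e.symm | exact nωY e | exact nωY e.symm
         | exact nωU e | exact nωU e.symm | exact nωV e | exact nωV e.symm
         | exact nζX e | exact nζX e.symm | exact nζY e | exact nζY e.symm
         | exact nζU e | exact nζU e.symm | exact nζV e | exact nζV e.symm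
         | exact hωζ e | exact hωζ e.symm)
  have hout : ∀ s ∈ W, ∀ t, t ∉ W → G.Adj s t → γ s = un (p t - p w) := by
    intro s hs t ht hst
    rcases hout0 s hs t ht hst with e | e
    · rw [e] at hst ⊢
      rw [gw, hω]
      exact hγ3 w hwW t ht hst
    · rw [e] at hst ⊢
      rw [gz, hζ]
      exact hγ3 z hzW t ht hst
  have hE : ∀ a ∈ W, ∀ b ∈ W, G.Adj a b → K3E u v w x y z a b ∨ K3E u v w x y z b a := by
    intro a ha b hb hab
    rw [hmem] at ha hb
    rcases ha with ha | ha | ha | ha | ha | ha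
    · rw [ha] at hab
      rcases Nu b hab with e | e | e
      · exact Or.inr (k3e5 e ha)
      · exact Or.inr (k3e8 e ha)
      · exact Or.inr (k3e3 e ha)
    · rw [ha] at hab
      rcases Nv b hab with e | e | e
      · exact Or.inr (k3e7 e ha)
      · exact Or.inr (k3e6 e ha)
      · exact Or.inr (k3e4 e ha)
    · rw [ha] at hab
      rcases hb with hb | hb | hb | hb | hb | hb
      · rw [hb] at hab
        rcases Nu w hab.symm with e | e | e
        · exact absurd e hwx'
        · exact absurd e hwy'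
        · exact absurd e hwz
      · rw [hb] at hab
        rcases Nv w hab.symm with e | e | e
        · exact absurd e hwx'
        · exact absurd e hwy'
        · exact absurd e hwz
      · rw [hb] at hab
        exact absurd hab (G.loopless.irrefl w)
      · exact Or.inl (k3e1 ha hb)
      · exact Or.inl (k3e2 ha hb)
      · rw [hb] at hab
        exact absurd hab nwz
    · rw [ha] at hab
      rcases Nx b hab with e | e | e
      · exact Or.inl (k3e5 ha e)
      · exact Or.inl (k3e7 ha e)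
      · exact Or.inr (k3e1 e ha)
    · rw [ha] at hab
      rcases Ny b hab with e | e | e
      · exact Or.inl (k3e8 ha e)
      · exact Or.inl (k3e6 ha e)
      · exact Or.inr (k3e2 e ha)
    · rw [ha] at hab
      rcases hb with hb | hb | hb | hb | hb | hb
      · exact Or.inl (k3e3 ha hb)
      · exact Or.inl (k3e4 ha hb)
      · rw [hb] at hab
        exact absurd hab.symm nwz
      · rw [hb] at hab
        rcases Nx z hab.symm with e | e | e
        · exact absurd e.symm huz'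
        · exact absurd e.symm hvz'
        · exact absurd e.symm hwz
      · rw [hb] at hab
        rcases Ny z hab.symm with e | e | e
        · exact absurd e.symm huz'
        · exact absurd e.symm hvz'
        · exact absurd e.symm hwz
      · rw [hb] at hab
        exact absurd hab (G.loopless.irrefl z)
  have hEW : ∀ a b, K3E u v w x y z a b → a ∈ W ∧ b ∈ W := by
    intro a b hab
    rw [hmem, hmem]
    exact k3_mem hab
  have hS : ∀ a b c, K3E u v w x y z a b → c ∈ W → c ≠ a → c ≠ b →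
      γ c ∉ segment ℝ (γ a) (γ b) := by
    intro a b c hab hcW hca hcb hseg
    obtain ⟨haW, hbW⟩ := hEW a b hab
    by_cases hc1 : 1 ≤ ip (γ c) (γ c)
    · rcases disc_seg (hu a haW) (hu b hbW) hc1 hseg with e | e
      · exact hca (hinj c hcW a haW e)
      · exact hcb (hinj c hcW b hbW e)
    · have hcw : c ≠ w := by rintro e; rw [e, gw, hω1] at hc1; exact hc1 le_rfl
      have hcz : c ≠ z := by rintro e; rw [e, gz, hζ1] at hc1; exact hc1 le_rfl
      rw [hmem] at hcW
      unfold K3E at hab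
      rcases hab with ⟨e, e'⟩ | ⟨e, e'⟩ | ⟨e, e'⟩ | ⟨e, e'⟩ | ⟨e, e'⟩ | ⟨e, e'⟩ | ⟨e, e'⟩ | ⟨e, e'⟩ <;>
        rcases hcW with f | f | f | f | f | f <;>
        first
        | exact hcw f
        | exact hcz f
        | (exact hca (f.trans e.symm))
        | (exact hcb (f.trans e'.symm))
        | (rw [e, e', f] at hseg
           simp only [gu, gv, gw, gx, gy, gz] at hseg
           first
           | exact a1 hseg | exact a2 hseg | exact a3 hseg | exact a4 hseg | exact a5 hseg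
           | exact a6 hseg | exact a7 hseg | exact a8 hseg | exact a9 hseg | exact a10 hseg
           | exact a11 hseg | exact a12 hseg | exact a13 hseg | exact a14 hseg | exact a15 hseg
           | exact a16 hseg | exact a17 hseg | exact a18 hseg | exact a19 hseg | exact a20 hseg)
  have hR : ∀ a b c d, K3E u v w x y z a b → K3E u v w x y z c d → a ≠ c → a ≠ d → b ≠ c →
      b ≠ d → (segment ℝ (γ a) (γ b) ∩ segment ℝ (γ c) (γ d)).Nonempty →
      ip (γ b - γ a) (γ d - γ c) = 0 := by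
    intro a b c d hab hcd hac had hbc hbd hne
    unfold K3E at hab hcd
    rcases hab with ⟨e, e'⟩ | ⟨e, e'⟩ | ⟨e, e'⟩ | ⟨e, e'⟩ | ⟨e, e'⟩ | ⟨e, e'⟩ | ⟨e, e'⟩ | ⟨e, e'⟩ <;>
      rcases hcd with ⟨f, f'⟩ | ⟨f, f'⟩ | ⟨f, f'⟩ | ⟨f, f'⟩ | ⟨f, f'⟩ | ⟨f, f'⟩ | ⟨f, f'⟩ | ⟨f, f'⟩ <;>
      first
      | exact absurd (e.trans f.symm) hac
      | exact absurd (e.trans f'.symm) had
      | exact absurd (e'.trans f.symm) hbc
      | exact absurd (e'.trans f'.symm) hbd
      | (rw [e, e', f, f'] at hne ⊢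
         simp only [gu, gv, gw, gx, gy, gz] at hne ⊢
         first
         | exact hperp
         | (rw [k3_ip_comm]; exact hperp)
         | (exfalso
            first
            | exact k3_dis d1 hne | exact k3_dis d1.symm hne
            | exact k3_dis d2 hne | exact k3_dis d2.symm hne
            | exact k3_dis d3 hne | exact k3_dis d3.symm hne
            | exact k3_dis d4 hne | exact k3_dis d4.symm hne
            | exact k3_dis d5 hne | exact k3_dis d5.symm hne
            | exact k3_dis d6 hne | exact k3_dis d6.symm hne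
            | exact k3_dis d7 hne | exact k3_dis d7.symm hne
            | exact k3_dis d8 hne | exact k3_dis d8.symm hne
            | exact k3_dis d9 hne | exact k3_dis d9.symm hne
            | exact k3_dis d10 hne | exact k3_dis d10.symm hne
            | exact k3_dis d11 hne | exact k3_dis d11.symm hne
            | exact k3_dis d12 hne | exact k3_dis d12.symm hne
            | exact k3_dis d13 hne | exact k3_dis d13.symm hne))
  refine blow_disc hwW huniq hp γ hu hinj hout ?_ ?_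
  · intro a ha b hb c hc hab hca hcb
    rcases hE a ha b hb hab with e | e
    · exact hS a b c e hc hca hcb
    · rw [segment_symm]
      exact hS b a c e hc hcb hca
  · intro a ha b hb c hc d hd hab hcd hac had hbc hbd hne
    rcases hE a ha b hb hab with e | e <;> rcases hE c hc d hd hcd with f | f
    · exact hR a b c d e f hac had hbc hbd hne
    · rw [segment_symm ℝ (γ c)] at hne
      rw [k3_ip_neg', hR a b d c e f had hac hbd hbc hne, neg_zero]
    · rw [segment_symm ℝ (γ a)] at hne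
      rw [k3_ip_neg, hR b a c d e f hbc hbd hac had hne, neg_zero]
    · rw [segment_symm ℝ (γ a), segment_symm ℝ (γ c)] at hne
      rw [k3_ip_neg, k3_ip_neg', hR b a d c e f hbd hbc had hac hne, neg_zero, neg_zero]

end MP_a17342_co.RT
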