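import Pool.Agent.Lib.MP_a17342_co.RT.KTwo
import Pool.Agent.Lib.MP_a17342_co.RT.KThree
import Pool.Agent.Lib.MP_a17342_co.RT.KFull
import Pool.Agent.Lib.MP_a17342_co.RT.KPen

/-!
# Two vertices with three common neighbours in a connected subcubic graph without triangles
-/

set_option autoImplicit false

namespace MP_a17342_co.RT

variable {V : Type}

private theorem CaseTwo_nb [Finite V] {G : SimpleGraph V} (hG : Sub G) {u x y z t : V}
    (hux : G.Adj u x) (huy : G.Adj u y) (huz : G.Adj u z) (hxy : x ≠ y) (hxz : x ≠ z) (hyz : y ≠ z)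
    (ht : G.Adj u t) : t = x ∨ t = y ∨ t = z := by
  classical
  by_contra h
  push Not at h
  have h1 : (({x, y, z, t} : Finset V) : Set V) ⊆ G.neighborSet u := by
    intro a ha
    simp only [Finset.coe_insert, Finset.coe_singleton, Set.mem_insert_iff,
      Set.mem_singleton_iff] at ha
    rcases ha with rfl | rfl | rfl | rfl
    · exact hux
    · exact huy
    · exact huz
    · exact ht
  have h2 := Set.ncard_le_ncard h1 (Set.toFinite _)
  have h3 : ({x, y, z, t} : Finset V).card = 4 := by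
    rw [Finset.card_insert_of_notMem, Finset.card_insert_of_notMem, Finset.card_insert_of_notMem,
      Finset.card_singleton]
    · simpa using fun e => h.2.2 e.symm
    · simp only [Finset.mem_insert, Finset.mem_singleton, not_or]
      exact ⟨hyz, fun e => h.2.1 e.symm⟩
    · simp only [Finset.mem_insert, Finset.mem_singleton, not_or]
      exact ⟨hxy, hxz, fun e => h.1 e.symm⟩
  rw [Set.ncard_coe_finset, h3] at h2
  have := hG u
  omega

private theorem CaseTwo_tri {G : SimpleGraph V} (hf : G.CliqueFree 3) {u x y : V}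
    (hux : G.Adj u x) (huy : G.Adj u y) : ¬ G.Adj x y := by
  classical
  intro h
  exact hf {u, x, y} (SimpleGraph.is3Clique_triple_iff.2 ⟨hux, huy, h⟩)

private theorem CaseTwo_aux [Finite V] (hV : IH V) {G : SimpleGraph V} (hG : Sub G)
    (hc : G.Connected) (hf : G.CliqueFree 3) {u v x y z w : V} (hux : G.Adj u x) (huy : G.Adj u y)
    (huz : G.Adj u z) (hvx : G.Adj v x) (hvy : G.Adj v y) (hvz : G.Adj v z) (huv : u ≠ v)
    (hxy : x ≠ y) (hxz : x ≠ z) (hyz : y ≠ z) (hwu : w ≠ u) (hwv : w ≠ v) (hwx : G.Adj w x)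
    (hwy : G.Adj w y) : RAC G := by
  by_cases hwz : G.Adj w z
  · exact k33 hG hc hux huy huz hvx hvy hvz hwx hwy hwz huv hwu.symm hwv.symm hxy hxz hyz
  · have hne : w ≠ z := by
      rintro rfl
      exact CaseTwo_tri hf hux huz hwx.symm
    by_cases he : ∃ e, G.Adj w e ∧ G.Adj z e
    · obtain ⟨e, hwe, hze⟩ := he
      refine kpen hV hG hux huy huz hvx hvy hvz hwx hwy hwe hze huv hwu.symm hwv.symm hxy hxz hyz
        hne ?_ ?_ ?_ ?_
      · rintro rfl
        exact CaseTwo_tri hf hux huz hze.symm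
      · rintro rfl
        exact CaseTwo_tri hf huy huz hze.symm
      · rintro rfl
        rcases CaseTwo_nb hG hux huy huz hxy hxz hyz hwe.symm with h | h | h
        · exact hwx.ne h
        · exact hwy.ne h
        · exact hne h
      · rintro rfl
        rcases CaseTwo_nb hG hvx hvy hvz hxy hxz hyz hwe.symm with h | h | h
        · exact hwx.ne h
        · exact hwy.ne h
        · exact hne h
    · push Not at he
      exact k33e hV hG hux huy huz hvx hvy hvz hwx hwy huv hwu.symm hwv.symm hxy hxz hyz hne hwz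
        (fun t ht => he t ht.1 ht.2)

theorem common_case [Finite V] (hV : IH V) {G : SimpleGraph V} (hG : Sub G) (hc : G.Connected)
    (hf : G.CliqueFree 3) {u v x y z : V} (hux : G.Adj u x) (huy : G.Adj u y) (huz : G.Adj u z)
    (hvx : G.Adj v x) (hvy : G.Adj v y) (hvz : G.Adj v z) (huv : u ≠ v) (hxy : x ≠ y)
    (hxz : x ≠ z) (hyz : y ≠ z) : RAC G := by
  by_cases h1 : ∃ t, t ≠ u ∧ t ≠ v ∧ G.Adj x t ∧ G.Adj y t
  · obtain ⟨w, hwu, hwv, hx, hy⟩ := h1
    exact CaseTwo_aux hV hG hc hf hux huy huz hvx hvy hvz huv hxy hxz hyz hwu hwv hx.symm hy.symm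
  by_cases h2 : ∃ t, t ≠ u ∧ t ≠ v ∧ G.Adj x t ∧ G.Adj z t
  · obtain ⟨w, hwu, hwv, hx, hz⟩ := h2
    exact CaseTwo_aux hV hG hc hf hux huz huy hvx hvz hvy huv hxz hxy hyz.symm hwu hwv hx.symm
      hz.symm
  by_cases h3 : ∃ t, t ≠ u ∧ t ≠ v ∧ G.Adj y t ∧ G.Adj z t
  · obtain ⟨w, hwu, hwv, hy, hz⟩ := h3
    exact CaseTwo_aux hV hG hc hf huy huz hux hvy hvz hvx huv hyz hxy.symm hxz.symm hwu hwv hy.symm
      hz.symm
  exact k23 hV hG hux huy huz hvx hvy hvz huv hxy hxz hyz (CaseTwo_tri hf hux huy)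
    (CaseTwo_tri hf hux huz) (CaseTwo_tri hf huy huz) (fun t hu hv =>
      ⟨fun h => h1 ⟨t, hu, hv, h⟩, fun h => h2 ⟨t, hu, hv, h⟩, fun h => h3 ⟨t, hu, hv, h⟩⟩)

end MP_a17342_co.RT
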