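import Pool.Agent.Lib.MP_a17342_co.RT.Good

/-!
# Local drawings of the 4-cycle a1 b1 b2 a2 (indices 0 = a1, 1 = b1, 2 = a2, 3 = b2)
-/

set_option autoImplicit false

namespace MP_a17342_co.RT

/-- the edges of the 4-cycle -/
def adj4 (i j : Fin 4) : Prop :=
  (i = 0 ∧ j = 1) ∨ (i = 1 ∧ j = 0) ∨ (i = 0 ∧ j = 2) ∨ (i = 2 ∧ j = 0) ∨
    (i = 1 ∧ j = 3) ∨ (i = 3 ∧ j = 1) ∨ (i = 2 ∧ j = 3) ∨ (i = 3 ∧ j = 2)

/-- the directions of the rays: `da` from a1, `db` from b1, east from a2 and b2 -/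
def dirs (da db : P) : Fin 4 → Set P := ![{da}, {db}, {((1 : ℝ), (0 : ℝ))}, {((1 : ℝ), (0 : ℝ))}]

/-- a1 is on the line of `da`, b1 on the line of `db`, a2 has height 0, b2 has height 1 -/
def Conf (da db : P) (g : Fin 4 → P) : Prop :=
  Loc adj4 g (dirs da db) ∧ (∃ t : ℝ, g 0 = t • da) ∧ (∃ t : ℝ, g 1 = t • db) ∧ (g 2).2 = 0 ∧
    (g 3).2 = 1

end MP_a17342_co.RT
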