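import Pool.Agent.Lib.MP_a17342_co.RT.CL1
import Pool.Agent.Lib.MP_a17342_co.RT.CL2
import Pool.Agent.Lib.MP_a17342_co.RT.CL3
import Pool.Agent.Lib.MP_a17342_co.RT.CTa
import Pool.Agent.Lib.MP_a17342_co.RT.CTb
import Pool.Agent.Lib.MP_a17342_co.RT.CTc
import Pool.Agent.Lib.MP_a17342_co.RT.CTd
import Pool.Agent.Lib.MP_a17342_co.RT.CS

/-!
# All cases of the local drawings
Plan: signs of yb and ya: yb > 0: ya ≤ 0: L1; ya > 0: xa yb < xb ya: L1, > : Ta, = : same direction (t = yb / ya). yb = 0 (so xb < 0): ya < 0: L3; ya = 0: same direction; ya > 0: Tb.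
yb < 0: ya < 0: xa yb < xb ya: L2, > : Tc, = : same direction; ya = 0 (xa < 0): Td; ya > 0: xa > 0 or xb < 0: Tb; xb > 0 or xa < 0: Td; otherwise xa = xb = 0: S.
q_cases: dc, dd not west, different directions; coordinates may be reflected (sign e): if dd.2 ≠ 0 and dc.2 dd.2 ≤ 0: e = sign of dd.2, first case; if dc.2 dd.2 > 0: compare dc.1 / dc.2 and dd.1 / dd.2;
if dd.2 = 0: then dd.1 > 0, dc.2 ≠ 0: second case.
-/

set_option autoImplicit false

namespace MP_a17342_co.RT

theorem conf_all {da db : P} (ha : da.2 ≠ 0 ∨ da.1 < 0) (hb : db.2 ≠ 0 ∨ db.1 < 0)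
    (h : ∀ t : ℝ, 0 < t → db ≠ t • da) : ∃ g, Conf da db g := by
  obtain ⟨xa, ya⟩ := da
  obtain ⟨xb, yb⟩ := db
  simp only at ha hb
  have hcol : ∀ t : ℝ, 0 < t → xb = t * xa → yb = t * ya → False := by
    intro t ht h1 h2
    apply h t ht
    rw [h1, h2]
    rfl
  have hpar : ya ≠ 0 → 0 < yb / ya → xa * yb ≠ xb * ya := by
    intro h0 h1 h2
    apply hcol (yb / ya) h1
    · field_simp
      linarith
    · field_simp
  rcases lt_trichotomy yb 0 with hy | hy | hy
  · rcases lt_trichotomy ya 0 with hz | hz | hz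
    · rcases lt_trichotomy (xa * yb) (xb * ya) with h1 | h1 | h1
      · exact conf_L2 hy hz h1
      · exact absurd h1 (hpar hz.ne (div_pos_of_neg_of_neg hy hz))
      · exact conf_Tc hz hy h1
    · have hxa : xa < 0 := ha.resolve_left (fun h0 => h0 hz)
      exact conf_Td hy hz.ge ha (Or.inr hxa)
    · by_cases h1 : 0 < xa ∨ xb < 0
      · exact conf_Tb hz hy.le (Or.inl hy.ne) h1
      · by_cases h2 : 0 < xb ∨ xa < 0
        · exact conf_Td hy hz.le (Or.inl hz.ne') h2
        · push Not at h1 h2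
          have e1 : xa = 0 := le_antisymm h1.1 h2.2
          have e2 : xb = 0 := le_antisymm h2.1 h1.2
          rw [e1, e2]
          exact conf_S hz hy
  · have hxb : xb < 0 := hb.resolve_left (fun h0 => h0 hy)
    rcases lt_trichotomy ya 0 with hz | hz | hz
    · rw [hy]
      exact conf_L3 hz hxb
    · exfalso
      have hxa : xa < 0 := ha.resolve_left (fun h0 => h0 hz)
      apply hcol (xb / xa) (div_pos_of_neg_of_neg hxb hxa)
      · rw [div_mul_cancel₀ _ hxa.ne]
      · rw [hy, hz, mul_zero]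
    · exact conf_Tb hz hy.le hb (Or.inr hxb)
  · rcases le_or_gt ya 0 with hz | hz
    · exact conf_L1 hy (Or.inl hz) ha
    · rcases lt_trichotomy (xa * yb) (xb * ya) with h1 | h1 | h1
      · exact conf_L1 hy (Or.inr h1) ha
      · exact absurd h1 (hpar hz.ne' (div_pos hy hz))
      · exact conf_Ta hz hy h1

theorem q_cases {dc dd : P} (hc : dc.2 ≠ 0 ∨ 0 < dc.1) (hd : dd.2 ≠ 0 ∨ 0 < dd.1)
    (h : ∀ t : ℝ, 0 < t → dd ≠ t • dc) :
    ∃ e : ℝ, (e = 1 ∨ e = -1) ∧
      ((0 < e * dd.2 ∧ ¬ (0 < e * dc.2 ∧ dc.1 * (e * dd.2) ≤ dd.1 * (e * dc.2))) ∨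
        (0 < e * dc.2 ∧ ¬ (0 < e * dd.2 ∧ dd.1 * (e * dc.2) ≤ dc.1 * (e * dd.2)))) := by
  obtain ⟨xc, yc⟩ := dc
  obtain ⟨xd, yd⟩ := dd
  simp only at hc hd ⊢
  have hcol : ∀ t : ℝ, 0 < t → xd = t * xc → yd = t * yc → False := by
    intro t ht h1 h2
    apply h t ht
    rw [h1, h2]
    rfl
  have hsign : ∀ y : ℝ, y ≠ 0 → ∃ e : ℝ, (e = 1 ∨ e = -1) ∧ 0 < e * y := by
    intro y hy
    rcases lt_or_gt_of_ne hy with h1 | h1
    · exact ⟨-1, Or.inr rfl, by linarith⟩
    · exact ⟨1, Or.inl rfl, by linarith⟩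
  by_cases hyd : yd = 0
  · have hxd : 0 < xd := hd.resolve_left (fun h0 => h0 hyd)
    have hyc : yc ≠ 0 := by
      intro hyc
      have hxc : 0 < xc := hc.resolve_left (fun h0 => h0 hyc)
      apply hcol (xd / xc) (div_pos hxd hxc)
      · rw [div_mul_cancel₀ _ hxc.ne']
      · rw [hyd, hyc, mul_zero]
    obtain ⟨e, he, h1⟩ := hsign yc hyc
    refine ⟨e, he, Or.inr ⟨h1, ?_⟩⟩
    rintro ⟨h2, -⟩
    rw [hyd, mul_zero] at h2
    exact lt_irrefl _ h2
  · obtain ⟨e, he, h1⟩ := hsign yd hyd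
    refine ⟨e, he, ?_⟩
    by_cases h2 : 0 < e * yc
    · rcases lt_trichotomy (xc * (e * yd)) (xd * (e * yc)) with h3 | h3 | h3
      · right
        exact ⟨h2, fun h4 => absurd h4.2 (not_le.2 h3)⟩
      · exfalso
        have he0 : e ≠ 0 := by rcases he with rfl | rfl <;> norm_num
        have hyc : yc ≠ 0 := by rintro rfl; simp at h2
        have h4 : xc * yd = xd * yc := by
          apply mul_left_cancel₀ he0
          linear_combination h3
        have h5 : 0 < yd / yc := by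
          have : yd / yc = (e * yd) / (e * yc) := by
            rw [mul_div_mul_left _ _ he0]
          rw [this]
          exact div_pos h1 h2
        apply hcol (yd / yc) h5
        · field_simp
          linarith
        · rw [div_mul_cancel₀ _ hyc]
      · left
        exact ⟨h1, fun h4 => absurd h4.2 (not_le.2 h3)⟩
    · left
      exact ⟨h1, fun h4 => h2 h4.1⟩

end MP_a17342_co.RT
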