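import Mathlib

/-!
# Local changes of straight-line RAC drawings: the objects
-/

set_option autoImplicit false

namespace MP_a17342_co.RT

/-- the plane -/
abbrev P : Type := ℝ × ℝ

/-- the scalar product -/
def ip (x y : P) : ℝ := x.1 * y.1 + x.2 * y.2

/-- the unit vector in the direction of `x` -/
noncomputable def un (x : P) : P := (Real.sqrt (ip x x))⁻¹ • x

variable {V : Type}

/-- `p` is a straight-line RAC drawing of `G`: the points `p v` are distinct, no vertex lies on an edge
not incident to it, and edges without a common end which meet are perpendicular. -/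
def Draws (G : SimpleGraph V) (p : V → P) : Prop :=
  Function.Injective p ∧
    (∀ a b c : V, G.Adj a b → c ≠ a → c ≠ b → p c ∉ segment ℝ (p a) (p b)) ∧
    (∀ a b c d : V, G.Adj a b → G.Adj c d → a ≠ c → a ≠ d → b ≠ c → b ≠ d →
      (segment ℝ (p a) (p b) ∩ segment ℝ (p c) (p d)).Nonempty →
      ((p b).1 - (p a).1) * ((p d).1 - (p c).1) +
        ((p b).2 - (p a).2) * ((p d).2 - (p c).2) = 0)

/-- `G` has a straight-line RAC drawing. -/
def RAC (G : SimpleGraph V) : Prop := ∃ p : V → P, Draws G p

/-- All degrees are at most three. -/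
def Sub (G : SimpleGraph V) : Prop := ∀ v, (G.neighborSet v).ncard ≤ 3

/-- The contraction of the vertex set `W` to its element `w`. -/
def ctr (G : SimpleGraph V) (W : Set V) (w : V) : SimpleGraph {x : V // x ∉ W ∨ x = w} where
  Adj x y := x ≠ y ∧ ∃ a b, G.Adj a b ∧ (a = x.1 ∨ (x.1 = w ∧ a ∈ W)) ∧
    (b = y.1 ∨ (y.1 = w ∧ b ∈ W))
  symm := ⟨by
    rintro x y ⟨h, a, b, hab, ha, hb⟩
    exact ⟨h.symm, b, a, hab.symm, hb, ha⟩⟩
  loopless := ⟨fun x h => h.1 rfl⟩

/-- All subcubic graphs with fewer vertices have drawings. -/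
def IH (V : Type) : Prop :=
  ∀ (V' : Type) [Finite V'] (G' : SimpleGraph V'), Nat.card V' < Nat.card V → Sub G' → RAC G'

end MP_a17342_co.RT
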