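import Pool.Agent.Lib.MP_a17342_co.RT.Defs

/-!
# Disconnected graphs
Plan: a set C, nonempty, not everything, with no edge between C and its complement (the support of a connected component). The induced graphs on C and on its
complement are subcubic with fewer vertices: drawings p1, p2 from hV (on subtypes). p x = p1 x for x ∈ C and p2 x + (T, 0) for x ∉ C, T so large that
all first coordinates of the first drawing are < M and of the second > M. Segments of the two parts are disjoint (half planes are convex).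
-/

set_option autoImplicit false

namespace MP_a17342_co.RT

variable {V : Type}

private lemma Disc_seg_le {u v z : P} {M : ℝ} (h : z ∈ segment ℝ u v) (hu : u.1 ≤ M)
    (hv : v.1 ≤ M) : z.1 ≤ M := by
  obtain ⟨a, b, ha, hb, hab, rfl⟩ := h
  simp only [Prod.fst_add, Prod.smul_fst, smul_eq_mul]
  have hM : a * M + b * M = M := by rw [← add_mul, hab, one_mul]
  linarith [mul_le_mul_of_nonneg_left hu ha, mul_le_mul_of_nonneg_left hv hb]

private lemma Disc_le_seg {u v z : P} {M : ℝ} (h : z ∈ segment ℝ u v) (hu : M ≤ u.1)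
    (hv : M ≤ v.1) : M ≤ z.1 := by
  obtain ⟨a, b, ha, hb, hab, rfl⟩ := h
  simp only [Prod.fst_add, Prod.smul_fst, smul_eq_mul]
  have hM : a * M + b * M = M := by rw [← add_mul, hab, one_mul]
  linarith [mul_le_mul_of_nonneg_left hu ha, mul_le_mul_of_nonneg_left hv hb]

private lemma Disc_sub_comap {W : Type} [Finite V] {G : SimpleGraph V} (hG : Sub G) (f : W → V)
    (hf : Function.Injective f) : Sub (G.comap f) := by
  intro v
  refine le_trans ?_ (hG (f v))
  apply Set.ncard_le_ncard_of_injOn f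
  · intro a ha
    exact ha
  · exact hf.injOn

theorem disc [Finite V] (hV : IH V) {G : SimpleGraph V} (hG : Sub G) (C : Set V)
    (h1 : C.Nonempty) (h2 : Cᶜ.Nonempty) (h : ∀ x ∈ C, ∀ y, y ∉ C → ¬ G.Adj x y) : RAC G := by
  classical
  obtain ⟨y0, hy0⟩ := h2
  obtain ⟨x0, hx0⟩ := h1
  have hy0' : ¬ (y0 ∈ C) := hy0
  have hx0' : ¬ (x0 ∉ C) := fun hh => hh hx0
  have c1 : Nat.card {x : V // x ∈ C} < Nat.card V := Finite.card_subtype_lt hy0'
  have c2 : Nat.card {x : V // x ∉ C} < Nat.card V := Finite.card_subtype_lt hx0'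
  obtain ⟨p1, i1, v1, e1⟩ := hV {x : V // x ∈ C} (G.comap Subtype.val) c1
    (Disc_sub_comap hG _ Subtype.val_injective)
  obtain ⟨p2, i2, v2, e2⟩ := hV {x : V // x ∉ C} (G.comap Subtype.val) c2
    (Disc_sub_comap hG _ Subtype.val_injective)
  obtain ⟨M, hM⟩ : ∃ M : ℝ, ∀ x, (p1 x).1 ≤ M := by
    obtain ⟨M, hM⟩ := (Set.finite_range fun x => (p1 x).1).bddAbove
    exact ⟨M, fun x => hM ⟨x, rfl⟩⟩
  obtain ⟨m, hm⟩ : ∃ m : ℝ, ∀ x, m ≤ (p2 x).1 := by
    obtain ⟨m, hm⟩ := (Set.finite_range fun x => (p2 x).1).bddBelow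
    exact ⟨m, fun x => hm ⟨x, rfl⟩⟩
  set T : P := (M - m + 1, 0) with hT
  set p : V → P := fun x => if hx : x ∈ C then p1 ⟨x, hx⟩ else T + p2 ⟨x, hx⟩ with hp
  have pC : ∀ x (hx : x ∈ C), p x = p1 ⟨x, hx⟩ := fun x hx => by simp [hp, hx]
  have pN : ∀ x (hx : x ∉ C), p x = T + p2 ⟨x, hx⟩ := fun x hx => by simp [hp, hx]
  have lC : ∀ x, x ∈ C → (p x).1 ≤ M := fun x hx => by rw [pC x hx]; exact hM _
  have lN : ∀ x, x ∉ C → M + 1 ≤ (p x).1 := fun x hx => by
    rw [pN x hx]
    have := hm ⟨x, hx⟩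
    simp only [hT, Prod.fst_add]
    linarith
  have same : ∀ a b, G.Adj a b → (a ∈ C ∧ b ∈ C) ∨ (a ∉ C ∧ b ∉ C) := by
    intro a b hab
    by_cases ha : a ∈ C <;> by_cases hb : b ∈ C
    · exact Or.inl ⟨ha, hb⟩
    · exact absurd hab (h a ha b hb)
    · exact absurd hab.symm (h b hb a ha)
    · exact Or.inr ⟨ha, hb⟩
  refine ⟨p, ?_, ?_, ?_⟩
  · intro x y hxy
    by_cases hx : x ∈ C <;> by_cases hy : y ∈ C
    · rw [pC x hx, pC y hy] at hxy
      exact congrArg Subtype.val (i1 hxy)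
    · have := lC x hx
      have := lN y hy
      rw [hxy] at *
      linarith
    · have := lC y hy
      have := lN x hx
      rw [hxy] at *
      linarith
    · rw [pN x hx, pN y hy] at hxy
      exact congrArg Subtype.val (i2 (add_left_cancel hxy))
  · intro a b c hab hca hcb hc
    rcases same a b hab with ⟨ha, hb⟩ | ⟨ha, hb⟩
    · by_cases hcC : c ∈ C
      · rw [pC a ha, pC b hb, pC c hcC] at hc
        exact v1 ⟨a, ha⟩ ⟨b, hb⟩ ⟨c, hcC⟩ hab (fun e => hca (congrArg Subtype.val e))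
          (fun e => hcb (congrArg Subtype.val e)) hc
      · have h3 := Disc_seg_le hc (lC a ha) (lC b hb)
        have h4 := lN c hcC
        linarith
    · by_cases hcC : c ∈ C
      · have h3 := Disc_le_seg hc (lN a ha) (lN b hb)
        have h4 := lC c hcC
        linarith
      · rw [pN a ha, pN b hb, pN c hcC, mem_segment_translate] at hc
        exact v2 ⟨a, ha⟩ ⟨b, hb⟩ ⟨c, hcC⟩ hab (fun e => hca (congrArg Subtype.val e))
          (fun e => hcb (congrArg Subtype.val e)) hc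
  · intro a b c d hab hcd hac had hbc hbd hne
    obtain ⟨z, hz1, hz2⟩ := hne
    rcases same a b hab with ⟨ha, hb⟩ | ⟨ha, hb⟩ <;> rcases same c d hcd with ⟨hc, hd⟩ | ⟨hc, hd⟩
    · rw [pC a ha, pC b hb] at hz1
      rw [pC c hc, pC d hd] at hz2
      rw [pC a ha, pC b hb, pC c hc, pC d hd]
      exact e1 ⟨a, ha⟩ ⟨b, hb⟩ ⟨c, hc⟩ ⟨d, hd⟩ hab hcd (fun e => hac (congrArg Subtype.val e))
        (fun e => had (congrArg Subtype.val e)) (fun e => hbc (congrArg Subtype.val e))
        (fun e => hbd (congrArg Subtype.val e)) ⟨z, hz1, hz2⟩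
    · have h3 := Disc_seg_le hz1 (lC a ha) (lC b hb)
      have h4 := Disc_le_seg hz2 (lN c hc) (lN d hd)
      linarith
    · have h3 := Disc_le_seg hz1 (lN a ha) (lN b hb)
      have h4 := Disc_seg_le hz2 (lC c hc) (lC d hd)
      linarith
    · rw [pN a ha, pN b hb] at hz1
      rw [pN c hc, pN d hd] at hz2
      rw [pN a ha, pN b hb, pN c hc, pN d hd]
      obtain ⟨w, rfl⟩ : ∃ w : P, z = T + w := ⟨z - T, by abel⟩
      rw [mem_segment_translate] at hz1 hz2
      have := e2 ⟨a, ha⟩ ⟨b, hb⟩ ⟨c, hc⟩ ⟨d, hd⟩ hab hcd (fun e => hac (congrArg Subtype.val e))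
        (fun e => had (congrArg Subtype.val e)) (fun e => hbc (congrArg Subtype.val e))
        (fun e => hbd (congrArg Subtype.val e)) ⟨w, hz1, hz2⟩
      simp only [Prod.fst_add, Prod.snd_add, add_sub_add_left_eq_sub]
      exact this

end MP_a17342_co.RT
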