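import Pool.Agent.Lib.MP_a17342_co.RT.Blow
import Pool.Agent.Lib.MP_a17342_co.RT.Circ

/-!
# Blowing up to points of the closed unit disc
Plan: disc_seg: ip is strictly convex: for z = u a + v b, u + v = 1, u, v ≥ 0: ip z z = u ip a a + v ip b b - u v ip (a - b) (a - b) ≤ 1 - u v ip (a - b) (a - b).
blow_disc: as blow_circ: blow with h1 = hinj; h2 from un_eq_smul; h4: ip of the ray point is ≥ 1, = 1 only for s = 0, so γ c is on the circle, s = 0 and γ c = γ x;
h6: ray_ge and disc_seg: the point would be γ a or γ b, so ip = 1 (hu: ≤ 1), s = 0, γ x = γ a or γ b; h7: ray_ray. D = p y - p w ≠ 0 by injectivity of the drawing.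
-/

set_option autoImplicit false

namespace MP_a17342_co.RT

variable {V : Type}

theorem disc_seg {a b c : P} (ha : ip a a ≤ 1) (hb : ip b b ≤ 1) (hc : 1 ≤ ip c c)
    (h : c ∈ segment ℝ a b) : c = a ∨ c = b := by
  obtain ⟨u, v, hu, hv, huv, rfl⟩ := h
  have h1 : ip (u • a + v • b) (u • a + v • b) =
      u * ip a a + v * ip b b - u * v * ip (a - b) (a - b) := by
    have hv' : v = 1 - u := by linarith
    subst hv'
    simp only [ip, Prod.fst_add, Prod.snd_add, Prod.fst_sub, Prod.snd_sub, Prod.smul_fst,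
      Prod.smul_snd, smul_eq_mul]
    ring
  rw [h1] at hc
  by_cases hab : a = b
  · left
    rw [← hab, ← add_smul, huv, one_smul]
  · have h2 : 0 < ip (a - b) (a - b) := ip_self_pos (sub_ne_zero.2 hab)
    have h3 : u * v = 0 := by
      have h4 : 0 ≤ u * v := mul_nonneg hu hv
      by_contra hne
      have h5 : 0 < u * v := lt_of_le_of_ne h4 (Ne.symm hne)
      have h6 := mul_pos h5 h2
      have h7 := mul_le_mul_of_nonneg_left ha hu
      have h8 := mul_le_mul_of_nonneg_left hb hv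
      linarith
    rcases mul_eq_zero.1 h3 with h | h
    · right
      have h9 : v = 1 := by linarith
      rw [h, h9, zero_smul, one_smul, zero_add]
    · left
      have h9 : u = 1 := by linarith
      rw [h, h9, zero_smul, one_smul, add_zero]

theorem blow_disc [Finite V] {G : SimpleGraph V} {W : Set V} {w : V} (hw : w ∈ W)
    (huniq : ∀ x ∈ W, ∀ x' ∈ W, ∀ y, y ∉ W → G.Adj x y → G.Adj x' y → x = x')
    {p : V → P} (hp : Draws (ctr G W w) (fun x => p x.1)) (γ : V → P)
    (hu : ∀ x ∈ W, ip (γ x) (γ x) ≤ 1) (hinj : ∀ x ∈ W, ∀ x' ∈ W, γ x = γ x' → x = x')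
    (hout : ∀ x ∈ W, ∀ y, y ∉ W → G.Adj x y → γ x = un (p y - p w))
    (h3 : ∀ a ∈ W, ∀ b ∈ W, ∀ c ∈ W, G.Adj a b → c ≠ a → c ≠ b → γ c ∉ segment ℝ (γ a) (γ b))
    (hc : ∀ a ∈ W, ∀ b ∈ W, ∀ c ∈ W, ∀ d ∈ W, G.Adj a b → G.Adj c d → a ≠ c → a ≠ d → b ≠ c →
      b ≠ d → (segment ℝ (γ a) (γ b) ∩ segment ℝ (γ c) (γ d)).Nonempty →
      ip (γ b - γ a) (γ d - γ c) = 0) : RAC G := by
  have hD : ∀ y, y ∉ W → p y - p w ≠ 0 := by
    intro y hy h
    have h1 := @hp.1 ⟨y, Or.inl hy⟩ ⟨w, Or.inr rfl⟩ (sub_eq_zero.mp h)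
    have h2 : y = w := congrArg Subtype.val h1
    exact hy (h2 ▸ hw)
  -- a point of `W` on a ray is its start
  have key : ∀ x ∈ W, ∀ y, y ∉ W → G.Adj x y → ∀ c ∈ W, ∀ s : ℝ, 0 ≤ s →
      γ x + s • (p y - p w) = γ c → x = c := by
    intro x hx y hy hxy c hcW s hs h
    have h1 := hout x hx y hy hxy
    have h2 : 1 ≤ ip (un (p y - p w) + s • (p y - p w)) (un (p y - p w) + s • (p y - p w)) :=
      ray_ge (hD y hy) hs
    have h3 : ip (un (p y - p w) + s • (p y - p w)) (un (p y - p w) + s • (p y - p w)) ≤ 1 := by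
      rw [← h1, h]
      exact hu c hcW
    have h4 := ray_eq (hD y hy) hs (le_antisymm h3 h2)
    rw [h4, zero_smul, add_zero] at h
    exact hinj x hx c hcW h
  refine blow hw huniq hp γ hinj ?_ h3 ?_ hc ?_ ?_
  · intro x hx y hy hxy
    obtain ⟨t, ht, h⟩ := un_eq_smul (hD y hy)
    exact ⟨t, ht.le, (hout x hx y hy hxy).trans h⟩
  · intro x hx y hy c hcW hxy hcx s hs h
    exact hcx (key x hx y hy hxy c hcW s hs h.symm).symm
  · intro a ha b hb x hx y hy _ hxy hxa hxb s hs h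
    have h1 := hout x hx y hy hxy
    have h2 : 1 ≤ ip (γ x + s • (p y - p w)) (γ x + s • (p y - p w)) := by
      rw [h1]
      exact ray_ge (hD y hy) hs
    rcases disc_seg (hu a ha) (hu b hb) h2 h with h4 | h4
    · exact hxa (key x hx y hy hxy a ha s hs h4)
    · exact hxb (key x hx y hy hxy b hb s hs h4)
  · intro x hx x' hx' y hy y' hy' hxy hxy' hxx _ s s' hs hs' h
    have h1 := hout x hx y hy hxy
    have h2 := hout x' hx' y' hy' hxy'
    rw [h1, h2] at h
    have h3 := ray_ray (hD y hy) (hD y' hy') hs hs' h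
    exact hxx (hinj x hx x' hx' (by rw [h1, h2, h3]))

end MP_a17342_co.RT
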