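import Pool.Agent.Lib.MP_a17342_co.RT.Good

/-!
# Two squares with a common edge
-/

set_option autoImplicit false

namespace MP_a17342_co.RT

variable {V : Type}

/-- `a₁ a₂ a₃` and `b₁ b₂ b₃` are paths with the rungs `a₁ b₁`, `a₂ b₂`, `a₃ b₃`; the third
neighbours of `a₁, b₁, a₃, b₃` are `x₁, y₁, x₃, y₃`. -/
structure Dom (G : SimpleGraph V) (a₁ a₂ a₃ b₁ b₂ b₃ x₁ y₁ x₃ y₃ : V) : Prop where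
  nd : [a₁, a₂, a₃, b₁, b₂, b₃].Nodup
  na1 : ∀ y, G.Adj a₁ y ↔ y = a₂ ∨ y = b₁ ∨ y = x₁
  nb1 : ∀ y, G.Adj b₁ y ↔ y = b₂ ∨ y = a₁ ∨ y = y₁
  na2 : ∀ y, G.Adj a₂ y ↔ y = a₁ ∨ y = a₃ ∨ y = b₂
  nb2 : ∀ y, G.Adj b₂ y ↔ y = b₁ ∨ y = b₃ ∨ y = a₂
  na3 : ∀ y, G.Adj a₃ y ↔ y = a₂ ∨ y = b₃ ∨ y = x₃
  nb3 : ∀ y, G.Adj b₃ y ↔ y = b₂ ∨ y = a₃ ∨ y = y₃
  ox1 : x₁ ∉ [a₁, a₂, a₃, b₁, b₂, b₃]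
  oy1 : y₁ ∉ [a₁, a₂, a₃, b₁, b₂, b₃]
  ox3 : x₃ ∉ [a₁, a₂, a₃, b₁, b₂, b₃]
  oy3 : y₃ ∉ [a₁, a₂, a₃, b₁, b₂, b₃]
  xy1 : x₁ ≠ y₁
  xy3 : x₃ ≠ y₃

/-- A collapsed drawing: `a₁, b₁, a₂, b₂` are on one point, `a₃, b₃` on another one. -/
structure DomP (p : V → P) (a₁ a₂ a₃ b₁ b₂ b₃ x₁ y₁ x₃ y₃ : V) : Prop where
  cP : ∀ v, p v = p a₁ ↔ v = a₁ ∨ v = b₁ ∨ v = a₂ ∨ v = b₂
  cQ : ∀ v, p v = p a₃ ↔ v = a₃ ∨ v = b₃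
  cS : ∀ v w, v ∉ [a₁, a₂, a₃, b₁, b₂, b₃] → p v = p w → w = v
  d1 : un (p x₁ - p a₁) ≠ un (p y₁ - p a₁)
  d2 : un (p x₁ - p a₁) ≠ un (p a₃ - p a₁)
  d3 : un (p y₁ - p a₁) ≠ un (p a₃ - p a₁)
  d4 : un (p x₃ - p a₃) ≠ un (p y₃ - p a₃)
  d5 : un (p x₃ - p a₃) ≠ un (p a₁ - p a₃)
  d6 : un (p y₃ - p a₃) ≠ un (p a₁ - p a₃)

theorem Dom.swap {G : SimpleGraph V} {a₁ a₂ a₃ b₁ b₂ b₃ x₁ y₁ x₃ y₃ : V}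
    (h : Dom G a₁ a₂ a₃ b₁ b₂ b₃ x₁ y₁ x₃ y₃) : Dom G b₁ b₂ b₃ a₁ a₂ a₃ y₁ x₁ y₃ x₃ := by
  have hnd := h.nd
  have o1 := h.ox1
  have o2 := h.oy1
  have o3 := h.ox3
  have o4 := h.oy3
  simp only [List.nodup_cons, List.mem_cons, List.not_mem_nil, or_false, not_or, not_false_eq_true,
    List.nodup_nil, and_true] at hnd o1 o2 o3 o4
  refine ⟨?_, h.nb1, h.na1, h.nb2, h.na2, h.nb3, h.na3, ?_, ?_, ?_, ?_, h.xy1.symm, h.xy3.symm⟩ <;>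
    simp only [List.nodup_cons, List.mem_cons, List.not_mem_nil, or_false, not_or,
      not_false_eq_true, List.nodup_nil, and_true] <;> grind

end MP_a17342_co.RT
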