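import Pool.Agent.Lib.MP_a17342_co.RT.Dom
import Pool.Agent.Lib.MP_a17342_co.RT.Dir

/-!
# Two squares with a common edge: the contraction
Plan: ρ v = a₁ for v ∈ {a₁, b₁, a₂, b₂}, a₃ for v ∈ {a₃, b₃}, v otherwise; V' = {v // ρ v = v} (fewer vertices), G' v w: v ≠ w and some G.Adj x y with ρ x = v, ρ y = w. Degrees:
a₁ has the neighbours x₁, y₁, a₃; a₃ has a₁, x₃, y₃; any other vertex v has neighbours ρ y with y a neighbour of v in G. hV gives a drawing p' of G'; p x = p' (ρ x). Coll from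
Draws G' p'; DomP: cP, cQ, cS by injectivity of p'; d1 to d6: dir_ne for G'.
-/

set_option autoImplicit false

namespace MP_a17342_co.RT

variable {V : Type}

private theorem DomC_three {α : Type} (a b c : α) : ({a, b, c} : Set α).ncard ≤ 3 := by
  calc ({a, b, c} : Set α).ncard ≤ ({b, c} : Set α).ncard + 1 := Set.ncard_insert_le _ _
    _ ≤ (({c} : Set α).ncard + 1) + 1 := by gcongr; exact Set.ncard_insert_le _ _
    _ = 3 := by rw [Set.ncard_singleton]

private theorem DomC_rho (a₁ a₂ a₃ b₁ b₂ b₃ : V) (nd : [a₁, a₂, a₃, b₁, b₂, b₃].Nodup) :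
    ∃ ρ : V → V, (∀ v, ρ v = a₁ ↔ v = a₁ ∨ v = b₁ ∨ v = a₂ ∨ v = b₂) ∧
      (∀ v, ρ v = a₃ ↔ v = a₃ ∨ v = b₃) ∧
      (∀ v, v ∉ [a₁, a₂, a₃, b₁, b₂, b₃] → ρ v = v) ∧
      (∀ v w, v ∉ [a₁, a₂, a₃, b₁, b₂, b₃] → ρ w = v → w = v) ∧
      (∀ v, ρ v = a₁ ∨ ρ v = a₃ ∨ (v ∉ [a₁, a₂, a₃, b₁, b₂, b₃] ∧ ρ v = v)) := by
  classical
  simp only [List.nodup_cons, List.mem_cons, List.not_mem_nil, or_false, not_or,
    not_false_eq_true, List.nodup_nil, and_true] at nd
  refine ⟨fun v => if v = a₁ ∨ v = b₁ ∨ v = a₂ ∨ v = b₂ then a₁ else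
    if v = a₃ ∨ v = b₃ then a₃ else v, ?_, ?_, ?_, ?_, ?_⟩
  · intro v
    dsimp only
    split_ifs with h1 h2
    · simp [h1]
    · constructor
      · intro h; grind
      · intro h; exact absurd h h1
    · constructor
      · intro h; exact absurd (Or.inl h) h1
      · intro h; exact absurd h h1
  · intro v
    dsimp only
    split_ifs with h1 h2
    · constructor
      · intro h; grind
      · intro h; grind
    · simp [h2]
    · constructor
      · intro h; exact absurd (Or.inl h) h2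
      · intro h; exact absurd h h2
  · intro v hv
    simp only [List.mem_cons, List.not_mem_nil, or_false, not_or] at hv
    dsimp only
    rw [if_neg (by grind), if_neg (by grind)]
  · intro v w hv hw
    simp only [List.mem_cons, List.not_mem_nil, or_false, not_or] at hv
    dsimp only at hw
    split_ifs at hw with h1 h2
    · exact absurd hw.symm hv.1
    · exact absurd hw.symm hv.2.2.1
    · exact hw
  · intro v
    dsimp only
    split_ifs with h1 h2
    · exact Or.inl rfl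
    · exact Or.inr (Or.inl rfl)
    · refine Or.inr (Or.inr ⟨?_, rfl⟩)
      simp only [List.mem_cons, List.not_mem_nil, or_false, not_or]
      grind

theorem dom_coll [Finite V] (hV : IH V) {G : SimpleGraph V} (hG : Sub G)
    {a₁ a₂ a₃ b₁ b₂ b₃ x₁ y₁ x₃ y₃ : V} (h : Dom G a₁ a₂ a₃ b₁ b₂ b₃ x₁ y₁ x₃ y₃) :
    ∃ p : V → P, Coll G p ∧ DomP p a₁ a₂ a₃ b₁ b₂ b₃ x₁ y₁ x₃ y₃ := by
  obtain ⟨ρ, hA, hB, hO, hC, hT⟩ := DomC_rho a₁ a₂ a₃ b₁ b₂ b₃ h.nd
  have r1 : ρ a₁ = a₁ := (hA _).2 (Or.inl rfl)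
  have r2 : ρ b₁ = a₁ := (hA _).2 (Or.inr (Or.inl rfl))
  have r3 : ρ a₂ = a₁ := (hA _).2 (Or.inr (Or.inr (Or.inl rfl)))
  have r4 : ρ b₂ = a₁ := (hA _).2 (Or.inr (Or.inr (Or.inr rfl)))
  have r5 : ρ a₃ = a₃ := (hB _).2 (Or.inl rfl)
  have r6 : ρ b₃ = a₃ := (hB _).2 (Or.inr rfl)
  have rx1 := hO _ h.ox1
  have ry1 := hO _ h.oy1
  have rx3 := hO _ h.ox3
  have ry3 := hO _ h.oy3
  have hnd := h.nd
  have o1 := h.ox1
  have o2 := h.oy1
  have o3 := h.ox3
  have o4 := h.oy3
  simp only [List.nodup_cons, List.mem_cons, List.not_mem_nil, or_false, not_or, not_false_eq_true,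
    List.nodup_nil, and_true] at hnd o1 o2 o3 o4
  have hidem : ∀ v, ρ (ρ v) = ρ v := by
    intro v
    rcases hT v with e | e | ⟨_, e⟩
    · rw [e, r1]
    · rw [e, r5]
    · rw [e, e]
  let π : V → {v : V // ρ v = v} := fun v => ⟨ρ v, hidem v⟩
  have hπ : ∀ v w, π v = π w ↔ ρ v = ρ w := fun v w =>
    ⟨fun e => congrArg Subtype.val e, fun e => Subtype.ext e⟩
  let G' : SimpleGraph {v : V // ρ v = v} :=
    { Adj := fun v w => v ≠ w ∧ ∃ x y, G.Adj x y ∧ π x = v ∧ π y = w
      symm := ⟨by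
        rintro v w ⟨hne, x, y, hxy, hx, hy⟩
        exact ⟨hne.symm, y, x, hxy.symm, hy, hx⟩⟩
      loopless := ⟨fun v hv => hv.1 rfl⟩ }
  have hadj : ∀ x y, G.Adj x y → ρ x ≠ ρ y → G'.Adj (π x) (π y) := fun x y hxy hne =>
    ⟨fun e => hne ((hπ x y).1 e), x, y, hxy, rfl, rfl⟩
  have hcard : Nat.card {v : V // ρ v = v} < Nat.card V := by
    refine Finite.card_subtype_lt (x := b₁) ?_
    rw [r2]
    exact hnd.1.2.2.1
  have hsub : Sub G' := by
    intro v
    rcases hT v.1 with e | e | ⟨hout, e⟩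
    · refine le_trans (Set.ncard_le_ncard (t := {π x₁, π y₁, π a₃}) ?_) (DomC_three _ _ _)
      rintro w ⟨hne, x, y, hxy, hx, hy⟩
      have hx' : ρ x = a₁ := by
        have : (π x).1 = v.1 := congrArg Subtype.val hx
        rw [← v.2, e] at this
        exact this
      have hw : ρ y ≠ a₁ := by
        intro e2
        exact hne (by rw [← hx, ← hy, hπ, hx', e2])
      simp only [Set.mem_insert_iff, Set.mem_singleton_iff, ← hy, hπ]
      rcases (hA x).1 hx' with rfl | rfl | rfl | rfl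
      · rcases (h.na1 y).1 hxy with rfl | rfl | rfl
        · exact absurd r3 hw
        · exact absurd r2 hw
        · exact Or.inl rfl
      · rcases (h.nb1 y).1 hxy with rfl | rfl | rfl
        · exact absurd r4 hw
        · exact absurd r1 hw
        · exact Or.inr (Or.inl rfl)
      · rcases (h.na2 y).1 hxy with rfl | rfl | rfl
        · exact absurd r1 hw
        · exact Or.inr (Or.inr rfl)
        · exact absurd r4 hw
      · rcases (h.nb2 y).1 hxy with rfl | rfl | rfl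
        · exact absurd r2 hw
        · exact Or.inr (Or.inr (by rw [r6, r5]))
        · exact absurd r3 hw
    · refine le_trans (Set.ncard_le_ncard (t := {π x₃, π y₃, π a₁}) ?_) (DomC_three _ _ _)
      rintro w ⟨hne, x, y, hxy, hx, hy⟩
      have hx' : ρ x = a₃ := by
        have : (π x).1 = v.1 := congrArg Subtype.val hx
        rw [← v.2, e] at this
        exact this
      have hw : ρ y ≠ a₃ := by
        intro e2
        exact hne (by rw [← hx, ← hy, hπ, hx', e2])
      simp only [Set.mem_insert_iff, Set.mem_singleton_iff, ← hy, hπ]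
      rcases (hB x).1 hx' with rfl | rfl
      · rcases (h.na3 y).1 hxy with rfl | rfl | rfl
        · exact Or.inr (Or.inr (by rw [r3, r1]))
        · exact absurd r6 hw
        · exact Or.inl rfl
      · rcases (h.nb3 y).1 hxy with rfl | rfl | rfl
        · exact Or.inr (Or.inr (by rw [r4, r1]))
        · exact absurd r5 hw
        · exact Or.inr (Or.inl rfl)
    · refine le_trans (Set.ncard_le_ncard (t := π '' G.neighborSet v.1) ?_)
        (le_trans (Set.ncard_image_le) (hG v.1))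
      rintro w ⟨hne, x, y, hxy, hx, hy⟩
      have hx' : ρ x = v.1 := congrArg Subtype.val hx
      have hxv : x = v.1 := hC v.1 x hout hx'
      exact ⟨y, hxv ▸ hxy, hy⟩
  obtain ⟨p', hp'⟩ := hV _ G' hcard hsub
  have hpi : ∀ v w, p' (π v) = p' (π w) ↔ ρ v = ρ w := fun v w =>
    ⟨fun e => (hπ v w).1 (hp'.1 e), fun e => by rw [(hπ v w).2 e]⟩
  refine ⟨fun v => p' (π v), ⟨?_, ?_⟩, ?_⟩
  · intro a b c hab hne hca hcb
    refine hp'.2.1 (π a) (π b) (π c) (hadj a b hab fun e => hne ((hpi a b).2 e)) ?_ ?_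
    · intro e
      exact hca (by rw [e])
    · intro e
      exact hcb (by rw [e])
  · intro a b c d hab hcd h1 h2 h3 h4 h5 h6 hne
    have key := hp'.2.2 (π a) (π b) (π c) (π d) (hadj a b hab fun e => h1 ((hpi a b).2 e))
      (hadj c d hcd fun e => h2 ((hpi c d).2 e)) (fun e => h3 (by rw [e])) (fun e => h4 (by rw [e]))
      (fun e => h5 (by rw [e])) (fun e => h6 (by rw [e])) hne
    exact key
  · have ax1 : G'.Adj (π a₁) (π x₁) :=
      hadj _ _ ((h.na1 _).2 (Or.inr (Or.inr rfl))) (by rw [r1, rx1]; exact fun e => o1.1 e.symm)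
    have ay1 : G'.Adj (π a₁) (π y₁) := by
      have := hadj _ _ ((h.nb1 _).2 (Or.inr (Or.inr rfl)))
        (by rw [r2, ry1]; exact fun e => o2.1 e.symm)
      have e : π b₁ = π a₁ := (hπ _ _).2 (by rw [r2, r1])
      rwa [e] at this
    have aa3 : G'.Adj (π a₁) (π a₃) := by
      have := hadj _ _ ((h.na2 _).2 (Or.inr (Or.inl rfl)))
        (by rw [r3, r5]; exact fun e => hnd.1.2.1 e)
      have e : π a₂ = π a₁ := (hπ _ _).2 (by rw [r3, r1])
      rwa [e] at this
    have ax3 : G'.Adj (π a₃) (π x₃) :=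
      hadj _ _ ((h.na3 _).2 (Or.inr (Or.inr rfl))) (by rw [r5, rx3]; exact fun e => o3.2.2.1 e.symm)
    have ay3 : G'.Adj (π a₃) (π y₃) := by
      have := hadj _ _ ((h.nb3 _).2 (Or.inr (Or.inr rfl)))
        (by rw [r6, ry3]; exact fun e => o4.2.2.1 e.symm)
      have e : π b₃ = π a₃ := (hπ _ _).2 (by rw [r6, r5])
      rwa [e] at this
    refine ⟨?_, ?_, ?_, ?_, ?_, ?_, ?_, ?_, ?_⟩
    · intro v
      rw [hpi, r1]
      exact hA v
    · intro v
      rw [hpi, r5]
      exact hB v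
    · intro v w hv e
      have e2 := (hpi v w).1 e
      rw [hO v hv] at e2
      exact hC v w hv e2.symm
    · exact dir_ne hp' ax1 ay1 (fun e => h.xy1 (by have := (hπ _ _).1 e; rwa [rx1, ry1] at this))
    · exact dir_ne hp' ax1 aa3 (fun e => o1.2.2.1 (by have := (hπ _ _).1 e; rwa [rx1, r5] at this))
    · exact dir_ne hp' ay1 aa3 (fun e => o2.2.2.1 (by have := (hπ _ _).1 e; rwa [ry1, r5] at this))
    · exact dir_ne hp' ax3 ay3 (fun e => h.xy3 (by have := (hπ _ _).1 e; rwa [rx3, ry3] at this))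
    · exact dir_ne hp' ax3 aa3.symm (fun e => o3.1 (by have := (hπ _ _).1 e; rwa [rx3, r1] at this))
    · exact dir_ne hp' ay3 aa3.symm (fun e => o4.1 (by have := (hπ _ _).1 e; rwa [ry3, r1] at this))

end MP_a17342_co.RT
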