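import Pool.Agent.Lib.MP_a17342_co.RT.DomG
import Pool.Agent.Lib.MP_a17342_co.RT.DomC

/-!
# An edge in two cycles of length four
-/

set_option autoImplicit false

namespace MP_a17342_co.RT

variable {V : Type}

private theorem DomE_third {G : SimpleGraph V} {v y z : V}
    (h3 : (G.neighborSet v).ncard = 3) (hy : G.Adj v y) (hz : G.Adj v z) (hyz : y ≠ z) :
    ∃ x, x ≠ y ∧ x ≠ z ∧ G.Adj v x ∧ ∀ w, G.Adj v w ↔ w = y ∨ w = z ∨ w = x := by
  obtain ⟨p, q, r, hpq, hpr, hqr, hs⟩ := Set.ncard_eq_three.mp h3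
  have hw : ∀ w, G.Adj v w ↔ w = p ∨ w = q ∨ w = r := by
    intro w
    rw [← SimpleGraph.mem_neighborSet, hs]
    simp
  have h1 := (hw y).mp hy
  have h2 := (hw z).mp hz
  rcases h1 with rfl | rfl | rfl
  · rcases h2 with rfl | rfl | rfl
    · exact absurd rfl hyz
    · exact ⟨r, hpr.symm, hqr.symm, (hw r).mpr (Or.inr (Or.inr rfl)), hw⟩
    · refine ⟨q, hpq.symm, hqr, (hw q).mpr (Or.inr (Or.inl rfl)), fun w => ?_⟩
      rw [hw w]
      tauto
  · rcases h2 with rfl | rfl | rfl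
    · refine ⟨r, hqr.symm, hpr.symm, (hw r).mpr (Or.inr (Or.inr rfl)), fun w => ?_⟩
      rw [hw w]
      tauto
    · exact absurd rfl hyz
    · refine ⟨p, hpq, hpr, (hw p).mpr (Or.inl rfl), fun w => ?_⟩
      rw [hw w]
      tauto
  · rcases h2 with rfl | rfl | rfl
    · refine ⟨q, hqr, hpq.symm, (hw q).mpr (Or.inr (Or.inl rfl)), fun w => ?_⟩
      rw [hw w]
      tauto
    · refine ⟨p, hpr, hpq, (hw p).mpr (Or.inl rfl), fun w => ?_⟩
      rw [hw w]
      tauto
    · exact absurd rfl hyz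

private theorem DomE_tri {G : SimpleGraph V} (hf : G.CliqueFree 3) {u v w : V}
    (h1 : G.Adj u v) (h2 : G.Adj v w) (h3 : G.Adj w u) : False := by
  classical
  exact hf {u, v, w} (SimpleGraph.is3Clique_triple_iff.mpr ⟨h1, h3.symm, h2⟩)

private theorem DomE_com [Finite V] {G : SimpleGraph V}
    (hn : ∀ u v, u ≠ v → (G.commonNeighbors u v).ncard ≤ 2) {u v p q r : V} (huv : u ≠ v)
    (hp : G.Adj u p) (hp' : G.Adj v p) (hq : G.Adj u q) (hq' : G.Adj v q) (hr : G.Adj u r)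
    (hr' : G.Adj v r) (hpq : p ≠ q) (hpr : p ≠ r) (hqr : q ≠ r) : False := by
  have h1 : ({p, q, r} : Set V).ncard = 3 := Set.ncard_eq_three.mpr ⟨p, q, r, hpq, hpr, hqr, rfl⟩
  have h2 : ({p, q, r} : Set V) ⊆ G.commonNeighbors u v := by
    intro x hx
    rw [SimpleGraph.mem_commonNeighbors]
    rcases hx with rfl | rfl | rfl
    · exact ⟨hp, hp'⟩
    · exact ⟨hq, hq'⟩
    · exact ⟨hr, hr'⟩
  have h3 := Set.ncard_le_ncard h2 (Set.toFinite _)
  have h4 := hn u v huv
  omega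

theorem square_case [Finite V] (hV : IH V) {G : SimpleGraph V}
    (h3 : ∀ v, (G.neighborSet v).ncard = 3) (hf : G.CliqueFree 3)
    (hn : ∀ u v, u ≠ v → (G.commonNeighbors u v).ncard ≤ 2) {a b c d c' d' : V}
    (hab : G.Adj a b) (hbc : G.Adj b c) (hcd : G.Adj c d) (hda : G.Adj d a) (hbc' : G.Adj b c')
    (hcd' : G.Adj c' d') (hda' : G.Adj d' a) (hac : a ≠ c) (hbd : b ≠ d) (hac' : a ≠ c')
    (hbd' : b ≠ d') (h : ¬ (c = c' ∧ d = d')) : RAC G := by
  have hG : Sub G := fun v => (h3 v).le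
  by_cases hcc : c = c'
  · exfalso
    have hdd : d ≠ d' := fun e => h ⟨hcc, e⟩
    subst hcc
    exact DomE_com hn hac hab hbc.symm hda.symm hcd hda'.symm hcd' hbd hbd' hdd
  by_cases hdd : d = d'
  · exfalso
    subst hdd
    exact DomE_com hn hbd hab.symm hda hbc hcd.symm hbc' hcd'.symm hac hac' hcc
  have hdc' : d ≠ c' := by
    rintro rfl
    exact DomE_tri hf hab hbc' hda
  have hcd'' : c ≠ d' := by
    rintro rfl
    exact DomE_tri hf hab hbc hda'
  -- adjacencies which are impossible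
  have n1 : ¬ G.Adj d d' := fun e => DomE_tri hf hda.symm e hda'
  have n2 : ¬ G.Adj d b := fun e => DomE_tri hf hda.symm e hab.symm
  have n3 : ¬ G.Adj d c' := fun e =>
    DomE_com hn hbd hab.symm hda hbc hcd.symm hbc' e hac hac' hcc
  have n4 : ¬ G.Adj c a := fun e => DomE_tri hf hab hbc e
  have n5 : ¬ G.Adj c d' := fun e =>
    DomE_com hn hac hab hbc.symm hda.symm hcd hda'.symm e hbd hbd' hdd
  have n6 : ¬ G.Adj c c' := fun e => DomE_tri hf hbc e hbc'.symm
  have n7 : ¬ G.Adj d' b := fun e => DomE_tri hf hda'.symm e hab.symm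
  have n8 : ¬ G.Adj c' a := fun e => DomE_tri hf hab hbc' e
  obtain ⟨x₁, hx1, hx1', hx1a, hx1n⟩ := DomE_third (h3 d) hda hcd.symm hac
  obtain ⟨y₁, hy1, hy1', hy1a, hy1n⟩ := DomE_third (h3 c) hbc.symm hcd hbd
  obtain ⟨x₃, hx3, hx3', hx3a, hx3n⟩ := DomE_third (h3 d') hda' hcd'.symm hac'
  obtain ⟨y₃, hy3, hy3', hy3a, hy3n⟩ := DomE_third (h3 c') hbc'.symm hcd' hbd'
  obtain ⟨x₂, hx2, hx2', hx2a, hx2n⟩ := DomE_third (h3 a) hda.symm hda'.symm hdd
  obtain ⟨y₂, hy2, hy2', hy2a, hy2n⟩ := DomE_third (h3 b) hbc hbc' hcc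
  have e2 : b = x₂ := by
    rcases (hx2n b).mp hab with e | e | e
    · exact absurd e hbd
    · exact absurd e hbd'
    · exact e
  have f2 : a = y₂ := by
    rcases (hy2n a).mp hab.symm with e | e | e
    · exact absurd e hac
    · exact absurd e hac'
    · exact e
  subst e2 f2
  have hD : Dom G d a d' c b c' x₁ y₁ x₃ y₃ := by
    refine ⟨?_, hx1n, hy1n, hx2n, hy2n, hx3n, hy3n, ?_, ?_, ?_, ?_, ?_, ?_⟩
    · simp only [List.nodup_cons, List.mem_cons, List.not_mem_nil, or_false, not_or,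
        not_false_eq_true, List.nodup_nil, and_true]
      exact ⟨⟨hda.ne, hdd, hcd.ne.symm, hbd.symm, hdc'⟩,
        ⟨hda'.ne.symm, hac, hab.ne, hac'⟩, ⟨hcd''.symm, hbd'.symm, hcd'.ne.symm⟩,
        ⟨hbc.ne.symm, hcc⟩, hbc'.ne⟩
    · simp only [List.mem_cons, List.not_mem_nil, or_false, not_or]
      refine ⟨hx1a.ne.symm, hx1, ?_, hx1', ?_, ?_⟩
      · rintro rfl
        exact n1 hx1a
      · rintro rfl
        exact n2 hx1a
      · rintro rfl
        exact n3 hx1a
    · simp only [List.mem_cons, List.not_mem_nil, or_false, not_or]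
      refine ⟨hy1', ?_, ?_, hy1a.ne.symm, hy1, ?_⟩
      · rintro rfl
        exact n4 hy1a
      · rintro rfl
        exact n5 hy1a
      · rintro rfl
        exact n6 hy1a
    · simp only [List.mem_cons, List.not_mem_nil, or_false, not_or]
      refine ⟨?_, hx3, hx3a.ne.symm, ?_, ?_, hx3'⟩
      · rintro rfl
        exact n1 hx3a.symm
      · rintro rfl
        exact n5 hx3a.symm
      · rintro rfl
        exact n7 hx3a
    · simp only [List.mem_cons, List.not_mem_nil, or_false, not_or]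
      refine ⟨?_, ?_, hy3', ?_, hy3, hy3a.ne.symm⟩
      · rintro rfl
        exact n3 hy3a.symm
      · rintro rfl
        exact n8 hy3a
      · rintro rfl
        exact n6 hy3a.symm
    · rintro rfl
      exact DomE_tri hf hcd hx1a hy1a.symm
    · rintro rfl
      exact DomE_tri hf hcd' hx3a hy3a.symm
  obtain ⟨p, hp, hc⟩ := dom_coll hV hG hD
  exact dom_geo hp hD hc

end MP_a17342_co.RT
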