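import Pool.Agent.Lib.MP_a17342_co.RT.Good

/-!
# The local drawing of the edge a₃ b₃
Plan: indices 0 = a₃ at (0, 0), rays dc and west; 1 = b₃ at (k, 1), k = dd.1 / dd.2, rays dd (the points (k h, h), h ≥ 1) and west (height 1, first coordinate ≤ k). The dc ray meets height 1 (if dc.2 > 0)
at dc.1 / dc.2 > k.
-/

set_option autoImplicit false

namespace MP_a17342_co.RT

/-- the edge of the cluster at `a₃` -/
def adj2 (i j : Fin 2) : Prop := i ≠ j

private theorem DomT_one {dc dd : P} (hd : 0 < dd.2)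
    (h : ¬ (0 < dc.2 ∧ dc.1 * dd.2 ≤ dd.1 * dc.2)) {s s' : ℝ} (hs : 0 ≤ s) (hs' : 0 ≤ s')
    (h1 : s * dc.1 = dd.1 / dd.2 + s' * dd.1) (h2 : s * dc.2 = 1 + s' * dd.2) : False := by
  have h3 : 0 < s * dc.2 := by rw [h2]; positivity
  have hs0 : 0 < s := lt_of_le_of_ne hs (fun h0 => by rw [← h0, zero_mul] at h3; exact lt_irrefl _ h3)
  have hc0 : 0 < dc.2 := (mul_pos_iff_of_pos_left hs0).1 h3
  refine h ⟨hc0, le_of_mul_le_mul_left (a := s) ?_ hs0⟩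
  have h4 : dd.1 / dd.2 * dd.2 = dd.1 := div_mul_cancel₀ _ hd.ne'
  have h5 : s * (dc.1 * dd.2) = dd.1 * (1 + s' * dd.2) := by
    calc s * (dc.1 * dd.2) = (s * dc.1) * dd.2 := by ring
      _ = dd.1 / dd.2 * dd.2 + s' * dd.1 * dd.2 := by rw [h1]; ring
      _ = dd.1 * (1 + s' * dd.2) := by rw [h4]; ring
  rw [h5, ← h2]
  exact le_of_eq (by ring)

private theorem DomT_west {dc dd : P} (hd : 0 < dd.2)
    (h : ¬ (0 < dc.2 ∧ dc.1 * dd.2 ≤ dd.1 * dc.2)) {s s' : ℝ} (hs : 0 ≤ s) (hs' : 0 ≤ s')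
    (h1 : s * dc.1 = dd.1 / dd.2 - s') (h2 : s * dc.2 = 1) : False := by
  have h3 : 0 < s * dc.2 := by rw [h2]; norm_num
  have hs0 : 0 < s := lt_of_le_of_ne hs (fun h0 => by rw [← h0, zero_mul] at h3; exact lt_irrefl _ h3)
  have hc0 : 0 < dc.2 := (mul_pos_iff_of_pos_left hs0).1 h3
  refine h ⟨hc0, le_of_mul_le_mul_left (a := s) ?_ hs0⟩
  have h4 : dd.1 / dd.2 * dd.2 = dd.1 := div_mul_cancel₀ _ hd.ne'
  have h5 : s * (dc.1 * dd.2) = dd.1 - s' * dd.2 := by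
    calc s * (dc.1 * dd.2) = (s * dc.1) * dd.2 := by ring
      _ = dd.1 / dd.2 * dd.2 - s' * dd.2 := by rw [h1]; ring
      _ = dd.1 - s' * dd.2 := by rw [h4]
  have h6 : s * (dd.1 * dc.2) = dd.1 := by
    calc s * (dd.1 * dc.2) = dd.1 * (s * dc.2) := by ring
      _ = dd.1 := by rw [h2, mul_one]
  rw [h5, h6]
  have := mul_nonneg hs' hd.le
  linarith

private theorem DomT_c7 {dc dd : P} (hd : 0 < dd.2)
    (h : ¬ (0 < dc.2 ∧ dc.1 * dd.2 ≤ dd.1 * dc.2)) {d d' : P}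
    (hd1 : d = dc ∨ d = ((-1 : ℝ), (0 : ℝ))) (hd2 : d' = dd ∨ d' = ((-1 : ℝ), (0 : ℝ)))
    {s s' : ℝ} (hs : 0 ≤ s) (hs' : 0 ≤ s')
    (he : (0 : P) + s • d = (dd.1 / dd.2, 1) + s' • d') : False := by
  have e1 := congrArg Prod.fst he
  have e2 := congrArg Prod.snd he
  simp only [Prod.fst_add, Prod.snd_add, Prod.smul_fst, Prod.smul_snd, Prod.fst_zero,
    Prod.snd_zero, smul_eq_mul, zero_add] at e1 e2
  have hpos := mul_nonneg hs' hd.le
  rcases hd1 with rfl | rfl <;> rcases hd2 with rfl | rfl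
  · exact DomT_one hd h hs hs' e1 e2
  · refine DomT_west hd h hs hs' (by rw [e1]; ring) (by rw [e2]; ring)
  · simp only [mul_zero] at e2
    linarith
  · simp only [mul_zero, add_zero] at e2
    norm_num at e2

theorem dom_two {dc dd : P} (hc : dc.2 ≠ 0 ∨ 0 < dc.1) (hd : 0 < dd.2)
    (h : ¬ (0 < dc.2 ∧ dc.1 * dd.2 ≤ dd.1 * dc.2)) :
    Loc adj2 ![(0 : P), (dd.1 / dd.2, 1)] ![{dc, ((-1 : ℝ), (0 : ℝ))}, {dd, ((-1 : ℝ), (0 : ℝ))}] := by
  have c7 : ∀ d ∈ ({dc, ((-1 : ℝ), (0 : ℝ))} : Set P), ∀ d' ∈ ({dd, ((-1 : ℝ), (0 : ℝ))} : Set P),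
      ∀ s s' : ℝ, 0 ≤ s → 0 ≤ s' → (0 : P) + s • d ≠ (dd.1 / dd.2, 1) + s' • d' :=
    fun d hd1 d' hd2 s s' hs hs' he => DomT_c7 hd h hd1 hd2 hs hs' he
  refine ⟨?_, ?_, ?_, ?_, ?_, ?_⟩
  · intro i j hij
    fin_cases i <;> fin_cases j
    · rfl
    · exfalso
      have := congrArg Prod.snd hij
      simp at this
    · exfalso
      have := congrArg Prod.snd hij
      simp at this
    · rfl
  · intro i j k hij hi hj
    unfold adj2 at hij
    omega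
  · intro i k d hd1 hki s hs he
    fin_cases i <;> fin_cases k
    · exact hki rfl
    · refine c7 d hd1 ((-1 : ℝ), (0 : ℝ)) (Or.inr rfl) s 0 hs le_rfl ?_
      rw [zero_smul, add_zero]
      exact he.symm
    · refine c7 ((-1 : ℝ), (0 : ℝ)) (Or.inr rfl) d hd1 0 s le_rfl hs ?_
      rw [zero_smul, add_zero]
      exact he
    · exact hki rfl
  · intro i j k l hij hkl h1 h2 h3 h4
    unfold adj2 at hij hkl
    omega
  · intro i j k hij d hd1 h1 h2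
    unfold adj2 at hij
    omega
  · intro i j hij d hd1 d' hd2 s s' hs hs' he
    fin_cases i <;> fin_cases j
    · exact hij rfl
    · exact c7 d hd1 d' hd2 s s' hs hs' he
    · exact c7 d' hd2 d hd1 s' s hs' hs he.symm
    · exact hij rfl

end MP_a17342_co.RT
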