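import Pool.Agent.Lib.MP_a17342_co.RT.Good

/-!
# From local drawings to the local conditions
Plan: lift: translate tuples of vertices at q to tuples of indices by hcl (all of l1 to l7 directly from the fields of Loc; p y - q is in R i by hR).
sing: only one vertex at q: everything is vacuous. lin: q ↦ q.1 • D + q.2 • n with ip D n = 0, ip D D = ip n n > 0 is linear, injective and multiplies ip by ip D D.
-/

set_option autoImplicit false

namespace MP_a17342_co.RT

variable {V : Type}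

/-- the linear map with the columns `D`, `n` -/
def lin (D n : P) (q : P) : P := q.1 • D + q.2 • n

private def LocG_L (D n : P) : P →ₗ[ℝ] P where
  toFun q := lin D n q
  map_add' a b := by
    simp only [lin, Prod.fst_add, Prod.snd_add, add_smul]
    abel
  map_smul' c a := by
    simp only [lin, Prod.smul_fst, Prod.smul_snd, smul_eq_mul, mul_smul, smul_add, RingHom.id_apply]

private theorem LocG_add (D n a b : P) : lin D n (a + b) = lin D n a + lin D n b :=
  (LocG_L D n).map_add a b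

private theorem LocG_sub (D n a b : P) : lin D n (a - b) = lin D n a - lin D n b :=
  (LocG_L D n).map_sub a b

private theorem LocG_smul (D n a : P) (c : ℝ) : lin D n (c • a) = c • lin D n a :=
  (LocG_L D n).map_smul c a

theorem loc_good {G : SimpleGraph V} {p γ : V → P} {q : P} {m : ℕ}
    {adj : Fin m → Fin m → Prop} {g : Fin m → P} {R : Fin m → Set P} (h : Loc adj g R)
    (f : Fin m → V) (hf : Function.Injective f) (hγ : ∀ i, γ (f i) = g i)
    (hq : ∀ i, p (f i) = q) (hadj : ∀ i j, G.Adj (f i) (f j) → adj i j)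
    (hcl : ∀ v, p v = q → ∃ j, v = f j) (hR : ∀ i y, G.Adj (f i) y → p y ≠ q → p y - q ∈ R i) :
    Good G p γ q := by
  have hne : ∀ i j, f i ≠ f j → i ≠ j := fun i j hij he => hij (by rw [he])
  refine ⟨?_, ?_, ?_, ?_, ?_, ?_⟩
  · intro a b ha hb hab
    obtain ⟨i, rfl⟩ := hcl a ha
    obtain ⟨j, rfl⟩ := hcl b hb
    rw [hγ, hγ] at hab
    rw [h.inj hab]
  · intro a b c hab ha hb hc hca hcb
    obtain ⟨i, rfl⟩ := hcl a ha
    obtain ⟨j, rfl⟩ := hcl b hb
    obtain ⟨k, rfl⟩ := hcl c hc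
    rw [hγ, hγ, hγ]
    exact h.c3 i j k (hadj i j hab) (hne _ _ hca) (hne _ _ hcb)
  · intro a b c hab ha hb hc hca s hs
    obtain ⟨i, rfl⟩ := hcl a ha
    obtain ⟨k, rfl⟩ := hcl c hc
    rw [hγ, hγ]
    exact h.c4 i k _ (hR i b hab hb) (hne _ _ hca) s hs
  · intro a b c d hab hcd ha hb hc hd h1 h2 h3 h4 hs
    obtain ⟨i, rfl⟩ := hcl a ha
    obtain ⟨j, rfl⟩ := hcl b hb
    obtain ⟨k, rfl⟩ := hcl c hc
    obtain ⟨l, rfl⟩ := hcl d hd
    rw [hγ, hγ, hγ, hγ] at hs ⊢
    exact h.c5 i j k l (hadj i j hab) (hadj k l hcd) (hne _ _ h1) (hne _ _ h2) (hne _ _ h3)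
      (hne _ _ h4) hs
  · intro a b c d hab hcd ha hb hc hd h1 h2 s hs hm
    obtain ⟨i, rfl⟩ := hcl a ha
    obtain ⟨j, rfl⟩ := hcl b hb
    obtain ⟨k, rfl⟩ := hcl c hc
    rw [hγ, hγ, hγ] at hm
    rw [hγ, hγ]
    exact h.c6 i j k (hadj i j hab) _ (hR k d hcd hd) (hne _ _ h1) (hne _ _ h2) s hs hm
  · intro a b c d hab hcd ha hb hc hd h1 _ s s' hs hs'
    obtain ⟨i, rfl⟩ := hcl a ha
    obtain ⟨j, rfl⟩ := hcl c hc
    rw [hγ, hγ]
    exact h.c7 i j (hne _ _ h1) _ (hR i b hab hb) _ (hR j d hcd hd) s s' hs hs'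

theorem sing_good {G : SimpleGraph V} {p γ : V → P} {q : P} {x : V}
    (h : ∀ v, p v = q → v = x) : Good G p γ q := by
  have h2 : ∀ a b, p a = q → p b = q → a = b := fun a b ha hb => (h a ha).trans (h b hb).symm
  refine ⟨?_, ?_, ?_, ?_, ?_, ?_⟩
  · intro a b ha hb _
    exact h2 a b ha hb
  · intro a b c _ ha _ hc hca _
    exact absurd (h2 c a hc ha) hca
  · intro a b c _ ha _ hc hca _ _
    exact absurd (h2 c a hc ha) hca
  · intro a b c d _ _ ha _ hc _ h1 _ _ _ _
    exact absurd (h2 a c ha hc) h1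
  · intro a b c d _ _ ha _ hc _ h1 _ _ _ _
    exact absurd (h2 c a hc ha) h1
  · intro a b c d _ _ ha _ hc _ h1 _ _ _ _ _
    exact absurd (h2 a c ha hc) h1

theorem ip_lin {D n : P} (h0 : ip D n = 0) (h1 : ip n n = ip D D) (a b : P) :
    ip (lin D n a) (lin D n b) = ip D D * ip a b := by
  simp only [ip, lin, Prod.fst_add, Prod.snd_add, Prod.smul_fst, Prod.smul_snd, smul_eq_mul] at *
  linear_combination (a.1 * b.2 + a.2 * b.1) * h0 + a.2 * b.2 * h1

private theorem LocG_ip_pos {D : P} (hD : D ≠ 0) : ip D D ≠ 0 := by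
  intro h
  apply hD
  simp only [ip] at h
  have h1 : D.1 = 0 := by nlinarith [mul_self_nonneg D.1, mul_self_nonneg D.2]
  have h2 : D.2 = 0 := by nlinarith [mul_self_nonneg D.1, mul_self_nonneg D.2]
  exact Prod.ext h1 h2

private theorem LocG_inj {D n : P} (hD : D ≠ 0) (h0 : ip D n = 0) (h1 : ip n n = ip D D) :
    Function.Injective (lin D n) := by
  intro a b hab
  by_contra hne
  have h2 : lin D n (a - b) = 0 := by rw [LocG_sub, hab, sub_self]
  have h3 := ip_lin h0 h1 (a - b) (a - b)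
  rw [h2] at h3
  have h4 : ip (0 : P) 0 = 0 := by simp [ip]
  rw [h4] at h3
  rcases mul_eq_zero.1 h3.symm with h5 | h5
  · exact LocG_ip_pos hD h5
  · exact LocG_ip_pos (sub_ne_zero.2 hne) h5

private theorem LocG_seg {D n : P} (hD : D ≠ 0) (h0 : ip D n = 0) (h1 : ip n n = ip D D)
    {a b z : P} (h : lin D n z ∈ segment ℝ (lin D n a) (lin D n b)) : z ∈ segment ℝ a b := by
  obtain ⟨u, v, hu, hv, huv, he⟩ := h
  refine ⟨u, v, hu, hv, huv, ?_⟩
  apply LocG_inj hD h0 h1
  rw [LocG_add, LocG_smul, LocG_smul, he]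

theorem loc_lin {m : ℕ} {adj : Fin m → Fin m → Prop} {g : Fin m → P} {R : Fin m → Set P}
    (h : Loc adj g R) {D n : P} (hD : D ≠ 0) (h0 : ip D n = 0) (h1 : ip n n = ip D D) :
    Loc adj (fun i => lin D n (g i)) (fun i => lin D n '' R i) := by
  have hinj := LocG_inj hD h0 h1
  refine ⟨?_, ?_, ?_, ?_, ?_, ?_⟩
  · intro i j hij
    exact h.inj (hinj hij)
  · intro i j k hij hki hkj hm
    exact h.c3 i j k hij hki hkj (LocG_seg hD h0 h1 hm)
  · rintro i k _ ⟨d, hd, rfl⟩ hki s hs he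
    refine h.c4 i k d hd hki s hs (hinj ?_)
    rw [LocG_add, LocG_smul]
    exact he
  · intro i j k l hij hkl n1 n2 n3 n4 hs
    have h2 : ip (g j - g i) (g l - g k) = 0 := by
      refine h.c5 i j k l hij hkl n1 n2 n3 n4 ?_
      obtain ⟨x, hx1, hx2⟩ := hs
      obtain ⟨u, v, hu, hv, huv, he⟩ := hx1
      refine ⟨u • g i + v • g j, ⟨u, v, hu, hv, huv, rfl⟩, ?_⟩
      apply LocG_seg hD h0 h1
      rw [LocG_add, LocG_smul, LocG_smul, he]
      exact hx2
    show ip (lin D n (g j) - lin D n (g i)) (lin D n (g l) - lin D n (g k)) = 0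
    rw [← LocG_sub, ← LocG_sub, ip_lin h0 h1, h2, mul_zero]
  · rintro i j k hij _ ⟨d, hd, rfl⟩ hki hkj s hs hm
    have h2 : ip (g j - g i) d = 0 := by
      refine h.c6 i j k hij d hd hki hkj s hs ?_
      apply LocG_seg hD h0 h1
      rw [LocG_add, LocG_smul]
      exact hm
    show ip (lin D n (g j) - lin D n (g i)) (lin D n d) = 0
    rw [← LocG_sub, ip_lin h0 h1, h2, mul_zero]
  · rintro i j hij _ ⟨d, hd, rfl⟩ _ ⟨d', hd', rfl⟩ s s' hs hs' he
    refine h.c7 i j hij d hd d' hd' s s' hs hs' (hinj ?_)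
    rw [LocG_add, LocG_smul, LocG_add, LocG_smul]
    exact he

theorem lin_surj {D n : P} (hD : D ≠ 0) (h0 : ip D n = 0) (h1 : ip n n = ip D D) (x : P) :
    ∃ y, lin D n y = x := by
  have hinj : Function.Injective (LocG_L D n) := LocG_inj hD h0 h1
  exact (LinearMap.injective_iff_surjective.1 hinj) x

end MP_a17342_co.RT
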