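import Pool.Agent.Lib.MP_a17342_co.RT.Dom
import Pool.Agent.Lib.MP_a17342_co.RT.BlowG
import Pool.Agent.Lib.MP_a17342_co.RT.LocG
import Pool.Agent.Lib.MP_a17342_co.RT.ConfAll
import Pool.Agent.Lib.MP_a17342_co.RT.Dir
import Pool.Agent.Lib.MP_a17342_co.RT.DomT

/-!
# Two squares with a common edge: the drawing
-/

set_option autoImplicit false

namespace MP_a17342_co.RT

variable {V : Type}

private theorem domG_lin_smul (D n : P) (t : ℝ) (q : P) : lin D n (t • q) = t • lin D n q := by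
  simp only [lin, Prod.smul_fst, Prod.smul_snd, smul_eq_mul, smul_add, smul_smul]

private theorem domG_lin_one (D n : P) (x : ℝ) : lin D n (x, 0) = x • D := by
  simp [lin]

private theorem domG_swap {p : V → P} {a₁ a₂ a₃ b₁ b₂ b₃ x₁ y₁ x₃ y₃ : V}
    (hc : DomP p a₁ a₂ a₃ b₁ b₂ b₃ x₁ y₁ x₃ y₃) : DomP p b₁ b₂ b₃ a₁ a₂ a₃ y₁ x₁ y₃ x₃ := by
  have e1 : p b₁ = p a₁ := (hc.cP b₁).2 (Or.inr (Or.inl rfl))
  have e3 : p b₃ = p a₃ := (hc.cQ b₃).2 (Or.inr rfl)
  refine ⟨?_, ?_, ?_, ?_, ?_, ?_, ?_, ?_, ?_⟩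
  · intro v
    rw [e1, hc.cP]
    tauto
  · intro v
    rw [e3, hc.cQ]
    tauto
  · intro v w hv hvw
    refine hc.cS v w ?_ hvw
    simp only [List.mem_cons, List.not_mem_nil, or_false, not_or] at hv ⊢
    tauto
  · rw [e1]; exact hc.d1.symm
  · rw [e1, e3]; exact hc.d3
  · rw [e1, e3]; exact hc.d2
  · rw [e3]; exact hc.d4.symm
  · rw [e1, e3]; exact hc.d6
  · rw [e1, e3]; exact hc.d5

theorem dom_one [Finite V] {G : SimpleGraph V} {p : V → P} (hp : Coll G p)
    {a₁ a₂ a₃ b₁ b₂ b₃ x₁ y₁ x₃ y₃ : V} (h : Dom G a₁ a₂ a₃ b₁ b₂ b₃ x₁ y₁ x₃ y₃)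
    (hc : DomP p a₁ a₂ a₃ b₁ b₂ b₃ x₁ y₁ x₃ y₃) {n dc dd : P}
    (h0 : ip (p a₃ - p a₁) n = 0) (h1 : ip n n = ip (p a₃ - p a₁) (p a₃ - p a₁))
    (hdc : p x₃ - p a₃ = lin (p a₃ - p a₁) n dc) (hdd : p y₃ - p a₃ = lin (p a₃ - p a₁) n dd)
    (h2 : 0 < dd.2) (h3 : ¬ (0 < dc.2 ∧ dc.1 * dd.2 ≤ dd.1 * dc.2)) : RAC G := by
  classical
  have hnd := h.nd
  have o1 := h.ox1
  have o2 := h.oy1
  have o3 := h.ox3
  have o4 := h.oy3
  simp only [List.nodup_cons, List.mem_cons, List.not_mem_nil, or_false, not_or, not_false_eq_true,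
    List.nodup_nil, and_true] at hnd o1 o2 o3 o4
  obtain ⟨⟨n12, n13, n14, n15, n16⟩, ⟨n23, n24, n25, n26⟩, ⟨n34, n35, n36⟩, ⟨n45, n46⟩, n56⟩ := hnd
  obtain ⟨ox1, ox2, ox3, ox4, ox5, ox6⟩ := o1
  obtain ⟨oy1, oy2, oy3, oy4, oy5, oy6⟩ := o2
  obtain ⟨oz1, oz2, oz3, oz4, oz5, oz6⟩ := o3
  obtain ⟨ow1, ow2, ow3, ow4, ow5, ow6⟩ := o4
  have pb1 : p b₁ = p a₁ := (hc.cP b₁).2 (Or.inr (Or.inl rfl))
  have pa2 : p a₂ = p a₁ := (hc.cP a₂).2 (Or.inr (Or.inr (Or.inl rfl)))
  have pb2 : p b₂ = p a₁ := (hc.cP b₂).2 (Or.inr (Or.inr (Or.inr rfl)))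
  have pb3 : p b₃ = p a₃ := (hc.cQ b₃).2 (Or.inr rfl)
  have p31 : p a₃ ≠ p a₁ := by
    intro hcon
    rcases (hc.cP a₃).1 hcon with e | e | e | e
    · exact n13 e.symm
    · exact n34 e
    · exact n23 e.symm
    · exact n35 e
  have hD : p a₃ - p a₁ ≠ 0 := sub_ne_zero.2 p31
  have px1 : p x₁ ≠ p a₁ := by
    intro hcon
    rcases (hc.cP x₁).1 hcon with e | e | e | e
    · exact ox1 e
    · exact ox4 e
    · exact ox2 e
    · exact ox5 e
  have py1 : p y₁ ≠ p a₁ := by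
    intro hcon
    rcases (hc.cP y₁).1 hcon with e | e | e | e
    · exact oy1 e
    · exact oy4 e
    · exact oy2 e
    · exact oy5 e
  have px3 : p x₃ ≠ p a₃ := by
    intro hcon
    rcases (hc.cQ x₃).1 hcon with e | e
    · exact oz3 e
    · exact oz6 e
  obtain ⟨da, hda⟩ := lin_surj hD h0 h1 (p x₁ - p a₁)
  obtain ⟨db, hdb⟩ := lin_surj hD h0 h1 (p y₁ - p a₁)
  have ha : da.2 ≠ 0 ∨ da.1 < 0 := by
    by_contra hcon
    push Not at hcon
    obtain ⟨k1, k2⟩ := hcon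
    have e : da = (da.1, 0) := Prod.ext rfl k1
    rw [e, domG_lin_one] at hda
    rcases eq_or_lt_of_le k2 with k | k
    · rw [← k, zero_smul] at hda
      exact px1 (sub_eq_zero.1 hda.symm)
    · apply hc.d2
      rw [← hda, un_smul k]
  have hb : db.2 ≠ 0 ∨ db.1 < 0 := by
    by_contra hcon
    push Not at hcon
    obtain ⟨k1, k2⟩ := hcon
    have e : db = (db.1, 0) := Prod.ext rfl k1
    rw [e, domG_lin_one] at hdb
    rcases eq_or_lt_of_le k2 with k | k
    · rw [← k, zero_smul] at hdb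
      exact py1 (sub_eq_zero.1 hdb.symm)
    · apply hc.d3
      rw [← hdb, un_smul k]
  have hab : ∀ t : ℝ, 0 < t → db ≠ t • da := by
    intro t ht e
    apply hc.d1
    rw [← hda, ← hdb, e, domG_lin_smul, un_smul ht]
  have hcc : dc.2 ≠ 0 ∨ 0 < dc.1 := by
    by_contra hcon
    push Not at hcon
    obtain ⟨k1, k2⟩ := hcon
    have e : dc = (dc.1, 0) := Prod.ext rfl k1
    rw [e, domG_lin_one] at hdc
    rcases eq_or_lt_of_le k2 with k | k
    · rw [k, zero_smul] at hdc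
      exact px3 (sub_eq_zero.1 hdc)
    · apply hc.d5
      have e2 : dc.1 • (p a₃ - p a₁) = (-dc.1) • (p a₁ - p a₃) := by
        rw [← neg_sub (p a₃) (p a₁), smul_neg, neg_smul, neg_neg]
      rw [hdc, e2, un_smul (neg_pos.2 k)]
  obtain ⟨g, hL, ⟨t0, ht0⟩, ⟨t1, ht1⟩, hg2, hg3⟩ := conf_all ha hb hab
  have hT := dom_two hcc h2 h3
  have hg2' : g 2 = ((g 2).1, 0) := Prod.ext rfl hg2
  have hg3' : g 3 = ((g 3).1, 1) := Prod.ext rfl hg3
  let γ : V → P := fun v =>
    if v = a₁ then lin (p a₃ - p a₁) n (g 0) else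
    if v = b₁ then lin (p a₃ - p a₁) n (g 1) else
    if v = a₂ then lin (p a₃ - p a₁) n (g 2) else
    if v = b₂ then lin (p a₃ - p a₁) n (g 3) else
    if v = b₃ then lin (p a₃ - p a₁) n (dd.1 / dd.2, 1) else 0
  have γa1 : γ a₁ = lin (p a₃ - p a₁) n (g 0) := if_pos rfl
  have γb1 : γ b₁ = lin (p a₃ - p a₁) n (g 1) := by
    change (if b₁ = a₁ then _ else _) = _
    rw [if_neg (Ne.symm n14), if_pos rfl]
  have γa2 : γ a₂ = lin (p a₃ - p a₁) n (g 2) := by
    change (if a₂ = a₁ then _ else _) = _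
    rw [if_neg (Ne.symm n12), if_neg n24, if_pos rfl]
  have γb2 : γ b₂ = lin (p a₃ - p a₁) n (g 3) := by
    change (if b₂ = a₁ then _ else _) = _
    rw [if_neg (Ne.symm n15), if_neg (Ne.symm n45), if_neg (Ne.symm n25), if_pos rfl]
  have γb3 : γ b₃ = lin (p a₃ - p a₁) n (dd.1 / dd.2, 1) := by
    change (if b₃ = a₁ then _ else _) = _
    rw [if_neg (Ne.symm n16), if_neg (Ne.symm n46), if_neg (Ne.symm n26), if_neg (Ne.symm n56),
      if_pos rfl]
  have γ0 : ∀ v, v ≠ a₁ → v ≠ b₁ → v ≠ a₂ → v ≠ b₂ → v ≠ b₃ → γ v = 0 := by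
    intro v k1 k2 k3 k4 k5
    change (if v = a₁ then _ else _) = _
    rw [if_neg k1, if_neg k2, if_neg k3, if_neg k4, if_neg k5]
  have γa3 : γ a₃ = 0 := γ0 _ (Ne.symm n13) n34 (Ne.symm n23) n35 n36
  have γx1 : γ x₁ = 0 := γ0 _ ox1 ox4 ox2 ox5 ox6
  have γy1 : γ y₁ = 0 := γ0 _ oy1 oy4 oy2 oy5 oy6
  have γx3 : γ x₃ = 0 := γ0 _ oz1 oz4 oz2 oz5 oz6
  have γy3 : γ y₃ = 0 := γ0 _ ow1 ow4 ow2 ow5 ow6
  have hsym : ∀ a b, (∃ t : ℝ, γ b - γ a = t • (p b - p a)) →
      ∃ t : ℝ, γ a - γ b = t • (p a - p b) := by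
    rintro a b ⟨t, ht⟩
    refine ⟨t, ?_⟩
    rw [← neg_sub (γ b) (γ a), ht, ← smul_neg, neg_sub]
  have h23 : ∃ t : ℝ, γ a₃ - γ a₂ = t • (p a₃ - p a₂) := by
    refine ⟨-(g 2).1, ?_⟩
    rw [γa3, γa2, pa2, hg2', domG_lin_one, zero_sub, neg_smul]
  have h56 : ∃ t : ℝ, γ b₃ - γ b₂ = t • (p b₃ - p b₂) := by
    refine ⟨dd.1 / dd.2 - (g 3).1, ?_⟩
    rw [γb3, γb2, pb2, pb3, hg3']
    simp only [lin, sub_smul]
    abel
  have hdir1 : ∀ a ∈ [a₁, a₂, a₃, b₁, b₂, b₃], ∀ b, G.Adj a b → p a ≠ p b →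
      ∃ t : ℝ, γ b - γ a = t • (p b - p a) := by
    intro a ha' b hadj hne
    simp only [List.mem_cons, List.not_mem_nil, or_false] at ha'
    rcases ha' with rfl | rfl | rfl | rfl | rfl | rfl
    · rcases (h.na1 b).1 hadj with rfl | rfl | rfl
      · exact absurd pa2.symm hne
      · exact absurd pb1.symm hne
      · refine ⟨-t0, ?_⟩
        rw [γx1, γa1, ht0, domG_lin_smul, hda, zero_sub, neg_smul]
    · rcases (h.na2 b).1 hadj with rfl | rfl | rfl
      · exact absurd pa2 hne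
      · exact h23
      · exact absurd (pa2.trans pb2.symm) hne
    · rcases (h.na3 b).1 hadj with rfl | rfl | rfl
      · exact hsym _ _ h23
      · exact absurd pb3.symm hne
      · refine ⟨0, ?_⟩
        rw [γx3, γa3, zero_smul, sub_zero]
    · rcases (h.nb1 b).1 hadj with rfl | rfl | rfl
      · exact absurd (pb1.trans pb2.symm) hne
      · exact absurd pb1 hne
      · refine ⟨-t1, ?_⟩
        rw [γy1, γb1, ht1, domG_lin_smul, hdb, pb1, zero_sub, neg_smul]
    · rcases (h.nb2 b).1 hadj with rfl | rfl | rfl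
      · exact absurd (pb2.trans pb1.symm) hne
      · exact h56
      · exact absurd (pb2.trans pa2.symm) hne
    · rcases (h.nb3 b).1 hadj with rfl | rfl | rfl
      · exact hsym _ _ h56
      · exact absurd pb3 hne
      · refine ⟨-(1 / dd.2), ?_⟩
        have e : (dd.1 / dd.2, (1 : ℝ)) = (1 / dd.2) • dd := by
          refine Prod.ext ?_ ?_
          · simp only [Prod.smul_fst, smul_eq_mul]
            ring
          · simp only [Prod.smul_snd, smul_eq_mul]
            field_simp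
        rw [γy3, γb3, pb3, hdd, e, domG_lin_smul, zero_sub, neg_smul]
  refine blow_g hp γ ?_ ?_
  · intro a b hadj hne
    by_cases hma : a ∈ [a₁, a₂, a₃, b₁, b₂, b₃]
    · exact hdir1 a hma b hadj hne
    by_cases hmb : b ∈ [a₁, a₂, a₃, b₁, b₂, b₃]
    · exact hsym _ _ (hdir1 b hmb a hadj.symm (Ne.symm hne))
    simp only [List.mem_cons, List.not_mem_nil, or_false, not_or] at hma hmb
    obtain ⟨m1, m2, m3, m4, m5, m6⟩ := hma
    obtain ⟨l1, l2, l3, l4, l5, l6⟩ := hmb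
    refine ⟨0, ?_⟩
    rw [γ0 a m1 m4 m2 m5 m6, γ0 b l1 l4 l2 l5 l6, zero_smul, sub_zero]
  · have good1 : Good G p γ (p a₁) := by
      refine loc_good (loc_lin hL hD h0 h1) ![a₁, b₁, a₂, b₂] ?_ ?_ ?_ ?_ ?_ ?_
      · intro i j hij
        fin_cases i <;> fin_cases j <;> first | rfl | (exfalso; simp at hij; tauto)
      · intro i
        fin_cases i
        · exact γa1
        · exact γb1
        · exact γa2
        · exact γb2
      · intro i
        fin_cases i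
        · rfl
        · exact pb1
        · exact pa2
        · exact pb2
      · intro i j hij
        fin_cases i <;> fin_cases j
        · exact absurd hij (G.loopless.irrefl _)
        · exact Or.inl ⟨rfl, rfl⟩
        · exact Or.inr (Or.inr (Or.inl ⟨rfl, rfl⟩))
        · exfalso
          rcases (h.na1 b₂).1 hij with e | e | e
          · exact n25 e.symm
          · exact n45 e.symm
          · exact ox5 e.symm
        · exact Or.inr (Or.inl ⟨rfl, rfl⟩)
        · exact absurd hij (G.loopless.irrefl _)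
        · exfalso
          rcases (h.nb1 a₂).1 hij with e | e | e
          · exact n25 e
          · exact n12 e.symm
          · exact oy2 e.symm
        · exact Or.inr (Or.inr (Or.inr (Or.inr (Or.inl ⟨rfl, rfl⟩))))
        · exact Or.inr (Or.inr (Or.inr (Or.inl ⟨rfl, rfl⟩)))
        · exfalso
          rcases (h.na2 b₁).1 hij with e | e | e
          · exact n14 e.symm
          · exact n34 e.symm
          · exact n45 e
        · exact absurd hij (G.loopless.irrefl _)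
        · exact Or.inr (Or.inr (Or.inr (Or.inr (Or.inr (Or.inr (Or.inl ⟨rfl, rfl⟩))))))
        · exfalso
          rcases (h.nb2 a₁).1 hij with e | e | e
          · exact n14 e
          · exact n16 e
          · exact n12 e
        · exact Or.inr (Or.inr (Or.inr (Or.inr (Or.inr (Or.inl ⟨rfl, rfl⟩)))))
        · exact Or.inr (Or.inr (Or.inr (Or.inr (Or.inr (Or.inr (Or.inr ⟨rfl, rfl⟩))))))
        · exact absurd hij (G.loopless.irrefl _)
      · intro v hv
        rcases (hc.cP v).1 hv with rfl | rfl | rfl | rfl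
        · exact ⟨0, rfl⟩
        · exact ⟨1, rfl⟩
        · exact ⟨2, rfl⟩
        · exact ⟨3, rfl⟩
      · intro i y hadj hne
        fin_cases i
        · rcases (h.na1 y).1 hadj with rfl | rfl | rfl
          · exact absurd pa2 hne
          · exact absurd pb1 hne
          · exact ⟨da, rfl, hda⟩
        · rcases (h.nb1 y).1 hadj with rfl | rfl | rfl
          · exact absurd pb2 hne
          · exact absurd rfl hne
          · exact ⟨db, rfl, hdb⟩
        · rcases (h.na2 y).1 hadj with rfl | rfl | rfl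
          · exact absurd rfl hne
          · exact ⟨((1 : ℝ), (0 : ℝ)), rfl, by rw [domG_lin_one, one_smul]⟩
          · exact absurd pb2 hne
        · rcases (h.nb2 y).1 hadj with rfl | rfl | rfl
          · exact absurd pb1 hne
          · exact ⟨((1 : ℝ), (0 : ℝ)), rfl, by rw [domG_lin_one, one_smul, pb3]⟩
          · exact absurd pa2 hne
    have good3 : Good G p γ (p a₃) := by
      refine loc_good (loc_lin hT hD h0 h1) ![a₃, b₃] ?_ ?_ ?_ ?_ ?_ ?_
      · intro i j hij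
        fin_cases i <;> fin_cases j <;> first | rfl | (exfalso; simp at hij; tauto)
      · intro i
        fin_cases i
        · change γ a₃ = lin _ n (0 : P)
          rw [γa3]
          simp [lin]
        · exact γb3
      · intro i
        fin_cases i
        · rfl
        · exact pb3
      · intro i j hij hcon
        rw [hcon] at hij
        exact G.loopless.irrefl _ hij
      · intro v hv
        rcases (hc.cQ v).1 hv with rfl | rfl
        · exact ⟨0, rfl⟩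
        · exact ⟨1, rfl⟩
      · intro i y hadj hne
        have west : lin (p a₃ - p a₁) n ((-1 : ℝ), (0 : ℝ)) = p a₁ - p a₃ := by
          rw [domG_lin_one, neg_smul, one_smul, neg_sub]
        fin_cases i
        · rcases (h.na3 y).1 hadj with rfl | rfl | rfl
          · exact ⟨((-1 : ℝ), (0 : ℝ)), Or.inr rfl, by rw [west, pa2]⟩
          · exact absurd pb3 hne
          · exact ⟨dc, Or.inl rfl, hdc.symm⟩
        · rcases (h.nb3 y).1 hadj with rfl | rfl | rfl
          · exact ⟨((-1 : ℝ), (0 : ℝ)), Or.inr rfl, by rw [west, pb2]⟩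
          · exact absurd rfl hne
          · exact ⟨dd, Or.inl rfl, hdd.symm⟩
    intro a
    by_cases hma : a ∈ [a₁, a₂, a₃, b₁, b₂, b₃]
    · simp only [List.mem_cons, List.not_mem_nil, or_false] at hma
      rcases hma with e | e | e | e | e | e
      · rw [e]; exact good1
      · rw [e, pa2]; exact good1
      · rw [e]; exact good3
      · rw [e, pb1]; exact good1
      · rw [e, pb2]; exact good1
      · rw [e, pb3]; exact good3
    · exact sing_good (x := a) fun v hv => hc.cS a v hma hv.symm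

theorem dom_geo [Finite V] {G : SimpleGraph V} {p : V → P} (hp : Coll G p)
    {a₁ a₂ a₃ b₁ b₂ b₃ x₁ y₁ x₃ y₃ : V} (h : Dom G a₁ a₂ a₃ b₁ b₂ b₃ x₁ y₁ x₃ y₃)
    (hc : DomP p a₁ a₂ a₃ b₁ b₂ b₃ x₁ y₁ x₃ y₃) : RAC G := by
  have hnd := h.nd
  have o3 := h.ox3
  have o4 := h.oy3
  simp only [List.nodup_cons, List.mem_cons, List.not_mem_nil, or_false, not_or, not_false_eq_true,
    List.nodup_nil, and_true] at hnd o3 o4
  obtain ⟨⟨n12, n13, n14, n15, n16⟩, ⟨n23, n24, n25, n26⟩, ⟨n34, n35, n36⟩, ⟨n45, n46⟩, n56⟩ := hnd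
  obtain ⟨oz1, oz2, oz3, oz4, oz5, oz6⟩ := o3
  obtain ⟨ow1, ow2, ow3, ow4, ow5, ow6⟩ := o4
  have pb1 : p b₁ = p a₁ := (hc.cP b₁).2 (Or.inr (Or.inl rfl))
  have pb3 : p b₃ = p a₃ := (hc.cQ b₃).2 (Or.inr rfl)
  have p31 : p a₃ ≠ p a₁ := by
    intro hcon
    rcases (hc.cP a₃).1 hcon with e | e | e | e
    · exact n13 e.symm
    · exact n34 e
    · exact n23 e.symm
    · exact n35 e
  have hD : p a₃ - p a₁ ≠ 0 := sub_ne_zero.2 p31
  have px3 : p x₃ ≠ p a₃ := by
    intro hcon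
    rcases (hc.cQ x₃).1 hcon with e | e
    · exact oz3 e
    · exact oz6 e
  have py3 : p y₃ ≠ p a₃ := by
    intro hcon
    rcases (hc.cQ y₃).1 hcon with e | e
    · exact ow3 e
    · exact ow6 e
  have i0 : ip (p a₃ - p a₁) (-(p a₃ - p a₁).2, (p a₃ - p a₁).1) = 0 := by
    simp only [ip]; ring
  have i1 : ip (-(p a₃ - p a₁).2, (p a₃ - p a₁).1) (-(p a₃ - p a₁).2, (p a₃ - p a₁).1) =
      ip (p a₃ - p a₁) (p a₃ - p a₁) := by
    simp only [ip]; ring
  obtain ⟨dc, hdc⟩ := lin_surj hD i0 i1 (p x₃ - p a₃)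
  obtain ⟨dd, hdd⟩ := lin_surj hD i0 i1 (p y₃ - p a₃)
  have west : ∀ k : ℝ, k < 0 → un (k • (p a₃ - p a₁)) = un (p a₁ - p a₃) := by
    intro k hk
    have e2 : k • (p a₃ - p a₁) = (-k) • (p a₁ - p a₃) := by
      rw [← neg_sub (p a₃) (p a₁), smul_neg, neg_smul, neg_neg]
    rw [e2, un_smul (neg_pos.2 hk)]
  have hcc : dc.2 ≠ 0 ∨ 0 < dc.1 := by
    by_contra hcon
    push Not at hcon
    obtain ⟨k1, k2⟩ := hcon
    have e : dc = (dc.1, 0) := Prod.ext rfl k1
    rw [e, domG_lin_one] at hdc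
    rcases eq_or_lt_of_le k2 with k | k
    · rw [k, zero_smul] at hdc
      exact px3 (sub_eq_zero.1 hdc.symm)
    · apply hc.d5
      rw [← hdc, west _ k]
  have hdd' : dd.2 ≠ 0 ∨ 0 < dd.1 := by
    by_contra hcon
    push Not at hcon
    obtain ⟨k1, k2⟩ := hcon
    have e : dd = (dd.1, 0) := Prod.ext rfl k1
    rw [e, domG_lin_one] at hdd
    rcases eq_or_lt_of_le k2 with k | k
    · rw [k, zero_smul] at hdd
      exact py3 (sub_eq_zero.1 hdd.symm)
    · apply hc.d6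
      rw [← hdd, west _ k]
  have hcd : ∀ t : ℝ, 0 < t → dd ≠ t • dc := by
    intro t ht e
    apply hc.d4
    rw [← hdc, ← hdd, e, domG_lin_smul, un_smul ht]
  obtain ⟨e, he, hcase⟩ := q_cases hcc hdd' hcd
  have hee : e * e = 1 := by
    rcases he with rfl | rfl <;> norm_num
  have j0 : ip (p a₃ - p a₁) (e • (-(p a₃ - p a₁).2, (p a₃ - p a₁).1)) = 0 := by
    simp only [ip, Prod.smul_fst, Prod.smul_snd, smul_eq_mul]; ring
  have j1 : ip (e • (-(p a₃ - p a₁).2, (p a₃ - p a₁).1)) (e • (-(p a₃ - p a₁).2, (p a₃ - p a₁).1)) =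
      ip (p a₃ - p a₁) (p a₃ - p a₁) := by
    simp only [ip, Prod.smul_fst, Prod.smul_snd, smul_eq_mul]
    linear_combination ((p a₃ - p a₁).2 ^ 2 + (p a₃ - p a₁).1 ^ 2) * hee
  have flip : ∀ q : P, lin (p a₃ - p a₁) (e • (-(p a₃ - p a₁).2, (p a₃ - p a₁).1)) (q.1, e * q.2) =
      lin (p a₃ - p a₁) (-(p a₃ - p a₁).2, (p a₃ - p a₁).1) q := by
    intro q
    simp only [lin]
    rw [smul_smul, mul_right_comm, hee, one_mul]
  rcases hcase with ⟨k1, k2⟩ | ⟨k1, k2⟩
  · exact dom_one hp h hc j0 j1 (dc := (dc.1, e * dc.2)) (dd := (dd.1, e * dd.2))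
      (by rw [flip, hdc]) (by rw [flip, hdd]) k1 k2
  · refine dom_one hp h.swap (domG_swap hc) (n := e • (-(p a₃ - p a₁).2, (p a₃ - p a₁).1))
      (dc := (dd.1, e * dd.2)) (dd := (dc.1, e * dc.2)) ?_ ?_ ?_ ?_ k1 k2
    · rw [pb1, pb3]; exact j0
    · rw [pb1, pb3]; exact j1
    · rw [pb1, pb3, flip, hdd]
    · rw [pb1, pb3, flip, hdc]

end MP_a17342_co.RT
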