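import Pool.Agent.Lib.MP_a17342_co.RT.Ctr

/-!
# A disc around the contracted vertex
-/

set_option autoImplicit false

namespace MP_a17342_co.RT

variable {V : Type}

private theorem Far_closed (x y : P) : IsClosed (segment ℝ x y) := by
  rw [← convexHull_pair]
  exact ((Set.toFinite {x, y}).isCompact_convexHull (𝕜 := ℝ)).isClosed

theorem far [Finite V] {G : SimpleGraph V} {W : Set V} {w : V} (hw : w ∈ W) {p : V → P}
    (hp : Draws (ctr G W w) (fun x => p x.1)) :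
    ∃ r : ℝ, 0 < r ∧ (∀ v, v ∉ W → p v ∉ Metric.ball (p w) r) ∧
      ∀ a b, a ∉ W → b ∉ W → G.Adj a b →
        Disjoint (segment ℝ (p a) (p b)) (Metric.ball (p w) r) := by
  have wne : ∀ c, c ∉ W → c ≠ w := by
    rintro c hc rfl
    exact hc hw
  set K : Set P := (⋃ v : {v : V // v ∉ W}, {p v.1}) ∪
    ⋃ e : {e : V × V // e.1 ∉ W ∧ e.2 ∉ W ∧ G.Adj e.1 e.2}, segment ℝ (p e.1.1) (p e.1.2) with hK
  have hcl : IsClosed K := by
    refine IsClosed.union (isClosed_iUnion_of_finite fun v => isClosed_singleton)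
      (isClosed_iUnion_of_finite fun e => Far_closed _ _)
  have hwK : p w ∈ Kᶜ := by
    rintro (h | h)
    · obtain ⟨v, hv⟩ := Set.mem_iUnion.1 h
      have h1 := @hp.1 ⟨w, Or.inr rfl⟩ ⟨v.1, Or.inl v.2⟩ hv
      exact wne v.1 v.2 (congrArg Subtype.val h1).symm
    · obtain ⟨⟨⟨a, b⟩, ha, hb, hab⟩, he⟩ := Set.mem_iUnion.1 h
      exact hp.2.1 ⟨a, Or.inl ha⟩ ⟨b, Or.inl hb⟩ ⟨w, Or.inr rfl⟩ (ctr_adj' ha hb hab)
        (fun e => wne a ha (congrArg Subtype.val e).symm) (fun e => wne b hb (congrArg Subtype.val e).symm) he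
  obtain ⟨r, hr, hball⟩ := Metric.isOpen_iff.1 hcl.isOpen_compl (p w) hwK
  refine ⟨r, hr, fun v hv h => hball h (Or.inl (Set.mem_iUnion.2 ⟨⟨v, hv⟩, rfl⟩)), fun a b ha hb hab => ?_⟩
  rw [Set.disjoint_left]
  intro z hz hz'
  exact hball hz' (Or.inr (Set.mem_iUnion.2 ⟨⟨(a, b), ha, hb, hab⟩, hz⟩))

end MP_a17342_co.RT
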