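import Pool.Agent.Lib.MP_a17342_co.RT.Defs

/-!
# Collapsed drawings and local conditions
-/

set_option autoImplicit false

namespace MP_a17342_co.RT

variable {V : Type}

/-- `p` puts the vertices of a cluster on one point; apart from that it is a drawing. -/
structure Coll (G : SimpleGraph V) (p : V → P) : Prop where
  c1 : ∀ a b c, G.Adj a b → p a ≠ p b → p c ≠ p a → p c ≠ p b → p c ∉ segment ℝ (p a) (p b)
  c2 : ∀ a b c d, G.Adj a b → G.Adj c d → p a ≠ p b → p c ≠ p d → p a ≠ p c → p a ≠ p d →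
    p b ≠ p c → p b ≠ p d → (segment ℝ (p a) (p b) ∩ segment ℝ (p c) (p d)).Nonempty →
    ip (p b - p a) (p d - p c) = 0

/-- The shifts `γ` are good for the cluster at the point `q`. -/
structure Good (G : SimpleGraph V) (p γ : V → P) (q : P) : Prop where
  l1 : ∀ a b, p a = q → p b = q → γ a = γ b → a = b
  l3 : ∀ a b c, G.Adj a b → p a = q → p b = q → p c = q → c ≠ a → c ≠ b →
    γ c ∉ segment ℝ (γ a) (γ b)
  l4 : ∀ a b c, G.Adj a b → p a = q → p b ≠ q → p c = q → c ≠ a → ∀ s : ℝ, 0 ≤ s →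
    γ c ≠ γ a + s • (p b - q)
  l5 : ∀ a b c d, G.Adj a b → G.Adj c d → p a = q → p b = q → p c = q → p d = q → a ≠ c →
    a ≠ d → b ≠ c → b ≠ d → (segment ℝ (γ a) (γ b) ∩ segment ℝ (γ c) (γ d)).Nonempty →
    ip (γ b - γ a) (γ d - γ c) = 0
  l6 : ∀ a b c d, G.Adj a b → G.Adj c d → p a = q → p b = q → p c = q → p d ≠ q → c ≠ a →
    c ≠ b → ∀ s : ℝ, 0 ≤ s → γ c + s • (p d - q) ∈ segment ℝ (γ a) (γ b) →
    ip (γ b - γ a) (p d - q) = 0
  l7 : ∀ a b c d, G.Adj a b → G.Adj c d → p a = q → p b ≠ q → p c = q → p d ≠ q → a ≠ c →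
    b ≠ d → ∀ s s' : ℝ, 0 ≤ s → 0 ≤ s' → γ a + s • (p b - q) ≠ γ c + s' • (p d - q)

/-- A local drawing: points `g i`, edges given by `adj`, rays from `g i` in the directions in `R i`. -/
structure Loc {m : ℕ} (adj : Fin m → Fin m → Prop) (g : Fin m → P) (R : Fin m → Set P) :
    Prop where
  inj : Function.Injective g
  c3 : ∀ i j k, adj i j → k ≠ i → k ≠ j → g k ∉ segment ℝ (g i) (g j)
  c4 : ∀ i k, ∀ d ∈ R i, k ≠ i → ∀ s : ℝ, 0 ≤ s → g k ≠ g i + s • d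
  c5 : ∀ i j k l, adj i j → adj k l → i ≠ k → i ≠ l → j ≠ k → j ≠ l →
    (segment ℝ (g i) (g j) ∩ segment ℝ (g k) (g l)).Nonempty → ip (g j - g i) (g l - g k) = 0
  c6 : ∀ i j k, adj i j → ∀ d ∈ R k, k ≠ i → k ≠ j → ∀ s : ℝ, 0 ≤ s →
    g k + s • d ∈ segment ℝ (g i) (g j) → ip (g j - g i) d = 0
  c7 : ∀ i j, i ≠ j → ∀ d ∈ R i, ∀ d' ∈ R j, ∀ s s' : ℝ, 0 ≤ s → 0 ≤ s' →
    g i + s • d ≠ g j + s' • d'

end MP_a17342_co.RT
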