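import Pool.Agent.Lib.MP_a17342_co.RT.Disk

/-!
# Triangles inscribed in the unit circle
-/

set_option autoImplicit false

namespace MP_a17342_co.RT

private theorem Hull_seg_le {b d z : P} (hb : ip b b ≤ 1) (hd : ip d d ≤ 1)
    (hz : z ∈ segment ℝ b d) : ip z z ≤ 1 := by
  obtain ⟨u, v, hu, hv, huv, rfl⟩ := hz
  unfold ip at *
  simp only [Prod.fst_add, Prod.snd_add, Prod.smul_fst, Prod.smul_snd, smul_eq_mul]
  have hv' : v = 1 - u := by linarith
  subst hv'
  nlinarith [mul_nonneg (mul_nonneg hu hv) (add_nonneg (sq_nonneg (b.1 - d.1))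
    (sq_nonneg (b.2 - d.2))), mul_nonneg hu (sub_nonneg.mpr hb), mul_nonneg hv (sub_nonneg.mpr hd)]

theorem hull_ip {a b d c : P} (ha : ip a a = 1) (hb : ip b b = 1) (hd : ip d d = 1)
    (hc : 1 ≤ ip c c) (h : c ∈ convexHull ℝ {a, b, d}) : c = a ∨ c = b ∨ c = d := by
  rw [convexHull_insert (Set.insert_nonempty b {d}), convexHull_pair, mem_convexJoin] at h
  obtain ⟨a', ha', z, hz, hc'⟩ := h
  rw [Set.mem_singleton_iff] at ha'
  subst ha'
  have hz1 : ip z z ≤ 1 := Hull_seg_le hb.le hd.le hz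
  rcases disc_seg ha.le hz1 hc hc' with h1 | h1
  · left
    exact h1
  · right
    subst h1
    exact disc_seg hb.le hd.le hc hz

theorem circ_indep {a b d : P} (ha : ip a a = 1) (hb : ip b b = 1) (hd : ip d d = 1)
    (hab : a ≠ b) (had : a ≠ d) (hbd : b ≠ d) : AffineIndependent ℝ ![a, b, d] := by
  rw [affineIndependent_iff_not_collinear_set]
  intro hcol
  rcases hcol.wbtw_or_wbtw_or_wbtw with h | h | h
  · have h1 : b ∈ segment ℝ a d := by
      rw [← affineSegment_eq_segment]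
      exact h
    rcases disc_seg ha.le hd.le hb.ge h1 with h2 | h2
    · exact hab h2.symm
    · exact hbd h2
  · have h1 : d ∈ segment ℝ b a := by
      rw [← affineSegment_eq_segment]
      exact h
    rcases disc_seg hb.le ha.le hd.ge h1 with h2 | h2
    · exact hbd h2.symm
    · exact had h2.symm
  · have h1 : a ∈ segment ℝ d b := by
      rw [← affineSegment_eq_segment]
      exact h
    rcases disc_seg hd.le hb.le ha.ge h1 with h2 | h2
    · exact had h2
    · exact hab h2

private theorem Hull_top {A B C : P} (h : AffineIndependent ℝ ![A, B, C]) :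
    affineSpan ℝ (Set.range ![A, B, C]) = ⊤ := by
  rw [h.affineSpan_eq_top_iff_card_eq_finrank_add_one]
  simp

theorem aff_map {A B C A' B' C' : P} (h : AffineIndependent ℝ ![A, B, C])
    (h' : AffineIndependent ℝ ![A', B', C']) :
    ∃ f : P →ᵃ[ℝ] P, Function.Injective f ∧ f A = A' ∧ f B = B' ∧ f C = C' := by
  let b : AffineBasis (Fin 3) ℝ P := ⟨![A, B, C], h, Hull_top h⟩
  let b' : AffineBasis (Fin 3) ℝ P := ⟨![A', B', C'], h', Hull_top h'⟩
  let L : P ≃ₗ[ℝ] P := (b.basisOf 0).equiv (b'.basisOf 0) (Equiv.refl _)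
  have h1 : ∀ j : {j : Fin 3 // j ≠ 0}, L (b j -ᵥ b 0) = b' j -ᵥ b' 0 := by
    intro j
    rw [← AffineBasis.basisOf_apply, ← AffineBasis.basisOf_apply]
    exact Module.Basis.equiv_apply _ _ _ _
  let F : P ≃ᵃ[ℝ] P := (AffineEquiv.vaddConst ℝ A).symm.trans
    (L.toAffineEquiv.trans (AffineEquiv.vaddConst ℝ A'))
  have hF : ∀ q, F q = L (q - A) + A' := fun q => rfl
  have e1 : L (B - A) = B' - A' := h1 ⟨1, by decide⟩
  have e2 : L (C - A) = C' - A' := h1 ⟨2, by decide⟩
  refine ⟨F.toAffineMap, F.injective, ?_, ?_, ?_⟩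
  · show F A = A'
    rw [hF, sub_self, map_zero, zero_add]
  · show F B = B'
    rw [hF, e1, sub_add_cancel]
  · show F C = C'
    rw [hF, e2, sub_add_cancel]

end MP_a17342_co.RT
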