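import Pool.Agent.Lib.MP_a17342_co.RT.Conf

/-!
# Local drawings of the 4-cycle a c b d (indices 0 = a, 1 = b, 2 = c, 3 = d; a, b opposite)
-/

set_option autoImplicit false

namespace MP_a17342_co.RT

/-- the edges of the 4-cycle -/
def adjK (i j : Fin 4) : Prop :=
  (i = 0 ∧ j = 2) ∨ (i = 2 ∧ j = 0) ∨ (i = 0 ∧ j = 3) ∨ (i = 3 ∧ j = 0) ∨
    (i = 1 ∧ j = 2) ∨ (i = 2 ∧ j = 1) ∨ (i = 1 ∧ j = 3) ∨ (i = 3 ∧ j = 1)

/-- a is on the line of `da`, b on the line of `db`, c has height 0, d has height 1 -/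
def KConf (da db : P) (g : Fin 4 → P) : Prop :=
  Loc adjK g (dirs da db) ∧ (∃ t : ℝ, g 0 = t • da) ∧ (∃ t : ℝ, g 1 = t • db) ∧ (g 2).2 = 0 ∧
    (g 3).2 = 1

end MP_a17342_co.RT
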