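import Pool.Agent.Lib.MP_a17342_co.RT.KConf

/-!
# Local drawing KL2 of the 4-cycle a c b d
-/

set_option autoImplicit false

namespace MP_a17342_co.RT

/-- A configuration from the separate geometric conditions. -/
private lemma KL2_mk (A0 A1 A2 A3 da db : P)
    (n01 : A0 ≠ A1) (n02 : A0 ≠ A2) (n03 : A0 ≠ A3) (n12 : A1 ≠ A2) (n13 : A1 ≠ A3) (n23 : A2 ≠ A3)
    (s021 : A1 ∉ segment ℝ A0 A2) (s023 : A3 ∉ segment ℝ A0 A2)
    (s031 : A1 ∉ segment ℝ A0 A3) (s032 : A2 ∉ segment ℝ A0 A3)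
    (s120 : A0 ∉ segment ℝ A1 A2) (s123 : A3 ∉ segment ℝ A1 A2)
    (s130 : A0 ∉ segment ℝ A1 A3) (s132 : A2 ∉ segment ℝ A1 A3)
    (r01 : ∀ s : ℝ, 0 ≤ s → A1 ≠ A0 + s • da) (r02 : ∀ s : ℝ, 0 ≤ s → A2 ≠ A0 + s • da)
    (r03 : ∀ s : ℝ, 0 ≤ s → A3 ≠ A0 + s • da)
    (r10 : ∀ s : ℝ, 0 ≤ s → A0 ≠ A1 + s • db) (r12 : ∀ s : ℝ, 0 ≤ s → A2 ≠ A1 + s • db)
    (r13 : ∀ s : ℝ, 0 ≤ s → A3 ≠ A1 + s • db)
    (r20 : ∀ s : ℝ, 0 ≤ s → A0 ≠ A2 + s • ((1 : ℝ), (0 : ℝ)))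
    (r21 : ∀ s : ℝ, 0 ≤ s → A1 ≠ A2 + s • ((1 : ℝ), (0 : ℝ)))
    (r23 : ∀ s : ℝ, 0 ≤ s → A3 ≠ A2 + s • ((1 : ℝ), (0 : ℝ)))
    (r30 : ∀ s : ℝ, 0 ≤ s → A0 ≠ A3 + s • ((1 : ℝ), (0 : ℝ)))
    (r31 : ∀ s : ℝ, 0 ≤ s → A1 ≠ A3 + s • ((1 : ℝ), (0 : ℝ)))
    (r32 : ∀ s : ℝ, 0 ≤ s → A2 ≠ A3 + s • ((1 : ℝ), (0 : ℝ)))
    (c02 : (segment ℝ A0 A2 ∩ segment ℝ A1 A3).Nonempty → ip (A2 - A0) (A3 - A1) = 0)
    (c03 : (segment ℝ A0 A3 ∩ segment ℝ A1 A2).Nonempty → ip (A3 - A0) (A2 - A1) = 0)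
    (t021 : ∀ s : ℝ, 0 ≤ s → A1 + s • db ∈ segment ℝ A0 A2 → ip (A2 - A0) db = 0)
    (t023 : ∀ s : ℝ, 0 ≤ s → A3 + s • ((1 : ℝ), (0 : ℝ)) ∈ segment ℝ A0 A2 →
      ip (A2 - A0) ((1 : ℝ), (0 : ℝ)) = 0)
    (t031 : ∀ s : ℝ, 0 ≤ s → A1 + s • db ∈ segment ℝ A0 A3 → ip (A3 - A0) db = 0)
    (t032 : ∀ s : ℝ, 0 ≤ s → A2 + s • ((1 : ℝ), (0 : ℝ)) ∈ segment ℝ A0 A3 →
      ip (A3 - A0) ((1 : ℝ), (0 : ℝ)) = 0)
    (t120 : ∀ s : ℝ, 0 ≤ s → A0 + s • da ∈ segment ℝ A1 A2 → ip (A2 - A1) da = 0)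
    (t123 : ∀ s : ℝ, 0 ≤ s → A3 + s • ((1 : ℝ), (0 : ℝ)) ∈ segment ℝ A1 A2 →
      ip (A2 - A1) ((1 : ℝ), (0 : ℝ)) = 0)
    (t130 : ∀ s : ℝ, 0 ≤ s → A0 + s • da ∈ segment ℝ A1 A3 → ip (A3 - A1) da = 0)
    (t132 : ∀ s : ℝ, 0 ≤ s → A2 + s • ((1 : ℝ), (0 : ℝ)) ∈ segment ℝ A1 A3 →
      ip (A3 - A1) ((1 : ℝ), (0 : ℝ)) = 0)
    (u01 : ∀ s s' : ℝ, 0 ≤ s → 0 ≤ s' → A0 + s • da ≠ A1 + s' • db)
    (u02 : ∀ s s' : ℝ, 0 ≤ s → 0 ≤ s' → A0 + s • da ≠ A2 + s' • ((1 : ℝ), (0 : ℝ)))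
    (u03 : ∀ s s' : ℝ, 0 ≤ s → 0 ≤ s' → A0 + s • da ≠ A3 + s' • ((1 : ℝ), (0 : ℝ)))
    (u12 : ∀ s s' : ℝ, 0 ≤ s → 0 ≤ s' → A1 + s • db ≠ A2 + s' • ((1 : ℝ), (0 : ℝ)))
    (u13 : ∀ s s' : ℝ, 0 ≤ s → 0 ≤ s' → A1 + s • db ≠ A3 + s' • ((1 : ℝ), (0 : ℝ)))
    (u23 : ∀ s s' : ℝ, 0 ≤ s → 0 ≤ s' →
      A2 + s • ((1 : ℝ), (0 : ℝ)) ≠ A3 + s' • ((1 : ℝ), (0 : ℝ)))
    (p0 : ∃ t : ℝ, A0 = t • da) (p1 : ∃ t : ℝ, A1 = t • db) (p2 : A2.2 = 0) (p3 : A3.2 = 1) :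
    KConf da db ![A0, A1, A2, A3] := by
  have ipn' : ∀ x y z : P, ip (x - y) z = 0 → ip (y - x) z = 0 := by
    intro x y z h
    simp only [ip, Prod.fst_sub, Prod.snd_sub] at h ⊢
    linarith
  have ipc : ∀ x y : P, ip x y = ip y x := by
    intro x y
    simp only [ip]; ring
  have f1 : ∀ a b c d : P, ((segment ℝ a b ∩ segment ℝ c d).Nonempty → ip (b - a) (d - c) = 0) →
      ((segment ℝ b a ∩ segment ℝ c d).Nonempty → ip (a - b) (d - c) = 0) := by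
    intro a b c d h1 h2
    rw [segment_symm] at h2
    exact ipn' _ _ _ (h1 h2)
  have f3 : ∀ a b c d : P, ((segment ℝ a b ∩ segment ℝ c d).Nonempty → ip (b - a) (d - c) = 0) →
      ((segment ℝ c d ∩ segment ℝ a b).Nonempty → ip (d - c) (b - a) = 0) := by
    intro a b c d h1 h2
    rw [Set.inter_comm] at h2
    rw [ipc]
    exact h1 h2
  have f2 : ∀ a b c d : P, ((segment ℝ a b ∩ segment ℝ c d).Nonempty → ip (b - a) (d - c) = 0) →
      ((segment ℝ a b ∩ segment ℝ d c).Nonempty → ip (b - a) (c - d) = 0) := by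
    intro a b c d h1
    exact f3 _ _ _ _ (f1 _ _ _ _ (f3 _ _ _ _ h1))
  refine ⟨⟨?_, ?_, ?_, ?_, ?_, ?_⟩, p0, p1, p2, p3⟩
  · intro i j hij
    fin_cases i <;> fin_cases j <;> first
      | rfl
      | (exfalso; simp at hij; first
          | exact n01 hij | exact n02 hij | exact n03 hij | exact n12 hij | exact n13 hij
          | exact n23 hij | exact n01 hij.symm | exact n02 hij.symm | exact n03 hij.symm
          | exact n12 hij.symm | exact n13 hij.symm | exact n23 hij.symm)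
  · intro i j k hij hki hkj
    rcases hij with ⟨rfl, rfl⟩ | ⟨rfl, rfl⟩ | ⟨rfl, rfl⟩ | ⟨rfl, rfl⟩ | ⟨rfl, rfl⟩ | ⟨rfl, rfl⟩ |
      ⟨rfl, rfl⟩ | ⟨rfl, rfl⟩ <;> fin_cases k <;> first
      | exact absurd rfl hki
      | exact absurd rfl hkj
      | exact s021 | exact s023 | exact s031 | exact s032 | exact s120 | exact s123 | exact s130
      | exact s132
      | (rw [segment_symm]; first
          | exact s021 | exact s023 | exact s031 | exact s032 | exact s120 | exact s123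
          | exact s130 | exact s132)
  · intro i k d hd hki
    fin_cases i <;> fin_cases k <;> (replace hd := Set.mem_singleton_iff.1 hd; subst hd) <;> first
      | exact absurd rfl hki
      | exact r01 | exact r02 | exact r03 | exact r10 | exact r12 | exact r13 | exact r20
      | exact r21 | exact r23 | exact r30 | exact r31 | exact r32
  · intro i j k l hij hkl hik hil hjk hjl
    rcases hij with ⟨rfl, rfl⟩ | ⟨rfl, rfl⟩ | ⟨rfl, rfl⟩ | ⟨rfl, rfl⟩ | ⟨rfl, rfl⟩ | ⟨rfl, rfl⟩ |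
      ⟨rfl, rfl⟩ | ⟨rfl, rfl⟩ <;>
    rcases hkl with ⟨rfl, rfl⟩ | ⟨rfl, rfl⟩ | ⟨rfl, rfl⟩ | ⟨rfl, rfl⟩ | ⟨rfl, rfl⟩ | ⟨rfl, rfl⟩ |
      ⟨rfl, rfl⟩ | ⟨rfl, rfl⟩ <;> first
      | exact absurd rfl hik
      | exact absurd rfl hil
      | exact absurd rfl hjk
      | exact absurd rfl hjl
      | exact c02
      | exact f1 _ _ _ _ c02
      | exact f2 _ _ _ _ c02
      | exact f1 _ _ _ _ (f2 _ _ _ _ c02)
      | exact f3 _ _ _ _ c02
      | exact f1 _ _ _ _ (f3 _ _ _ _ c02)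
      | exact f2 _ _ _ _ (f3 _ _ _ _ c02)
      | exact f1 _ _ _ _ (f2 _ _ _ _ (f3 _ _ _ _ c02))
      | exact c03
      | exact f1 _ _ _ _ c03
      | exact f2 _ _ _ _ c03
      | exact f1 _ _ _ _ (f2 _ _ _ _ c03)
      | exact f3 _ _ _ _ c03
      | exact f1 _ _ _ _ (f3 _ _ _ _ c03)
      | exact f2 _ _ _ _ (f3 _ _ _ _ c03)
      | exact f1 _ _ _ _ (f2 _ _ _ _ (f3 _ _ _ _ c03))
  · intro i j k hij d hd hki hkj
    rcases hij with ⟨rfl, rfl⟩ | ⟨rfl, rfl⟩ | ⟨rfl, rfl⟩ | ⟨rfl, rfl⟩ | ⟨rfl, rfl⟩ | ⟨rfl, rfl⟩ |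
      ⟨rfl, rfl⟩ | ⟨rfl, rfl⟩ <;> fin_cases k <;>
      (replace hd := Set.mem_singleton_iff.1 hd; subst hd) <;> first
      | exact absurd rfl hki
      | exact absurd rfl hkj
      | exact t021 | exact t023 | exact t031 | exact t032 | exact t120 | exact t123 | exact t130
      | exact t132
      | (rw [segment_symm]; intro s hs hm; apply ipn'; first
          | exact t021 s hs hm | exact t023 s hs hm | exact t031 s hs hm | exact t032 s hs hm
          | exact t120 s hs hm | exact t123 s hs hm | exact t130 s hs hm | exact t132 s hs hm)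
  · intro i j hij d hd d' hd' s s' hs hs'
    fin_cases i <;> fin_cases j <;>
      (replace hd := Set.mem_singleton_iff.1 hd; subst hd
       replace hd' := Set.mem_singleton_iff.1 hd'; subst hd') <;> first
      | exact absurd rfl hij
      | exact u01 s s' hs hs' | exact u02 s s' hs hs' | exact u03 s s' hs hs'
      | exact u12 s s' hs hs' | exact u13 s s' hs hs' | exact u23 s s' hs hs'
      | exact (u01 s' s hs' hs).symm | exact (u02 s' s hs' hs).symm | exact (u03 s' s hs' hs).symm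
      | exact (u12 s' s hs' hs).symm | exact (u13 s' s hs' hs).symm | exact (u23 s' s hs' hs).symm

private theorem KL2_scale {xa ya xb : ℝ} (ha : 0 < ya) (h : 0 < xa ∨ xb < 0) :
    ∃ σ τ : ℝ, 0 < σ ∧ 0 < τ ∧ 2 ≤ σ * ya ∧ τ * xb < σ * xa := by
  rcases h with h | h
  · refine ⟨2 / ya + (|xb| + 1) / xa, 1, by positivity, one_pos, ?_, ?_⟩
    · have e : (2 / ya + (|xb| + 1) / xa) * ya = 2 + (|xb| + 1) / xa * ya := by
        field_simp
      rw [e]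
      have : 0 ≤ (|xb| + 1) / xa * ya := by positivity
      linarith
    · have e : (2 / ya + (|xb| + 1) / xa) * xa = 2 / ya * xa + (|xb| + 1) := by
        field_simp
      rw [e]
      have h1 : 0 ≤ 2 / ya * xa := by positivity
      have h2 := le_abs_self xb
      linarith
  · refine ⟨2 / ya, (|2 / ya * xa| + 1) / (-xb), by positivity,
      div_pos (by positivity) (by linarith), ?_, ?_⟩
    · have e : 2 / ya * ya = 2 := by field_simp
      rw [e]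
    · have hx : -xb ≠ 0 := by linarith
      have e : (|2 / ya * xa| + 1) / (-xb) * xb = -(|2 / ya * xa| + 1) := by
        have : xb = -(-xb) := by ring
        rw [div_mul_eq_mul_div, div_eq_iff hx]
        ring
      rw [e]
      have := neg_abs_le (2 / ya * xa)
      linarith

theorem kconf_2 {xa ya xb yb : ℝ} (ha : 0 < ya) (hb : yb ≤ 0) (hb' : yb ≠ 0 ∨ xb < 0)
    (h : 0 < xa ∨ xb < 0) : ∃ g, KConf (xa, ya) (xb, yb) g := by
  obtain ⟨σ, τ, hσ, hτ, hy, hx⟩ := KL2_scale ha h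
  obtain ⟨x0, hx0⟩ : ∃ x0, x0 = σ * xa := ⟨_, rfl⟩
  obtain ⟨y0, hy0⟩ : ∃ y0, y0 = σ * ya := ⟨_, rfl⟩
  obtain ⟨x1, hx1⟩ : ∃ x1, x1 = τ * xb := ⟨_, rfl⟩
  obtain ⟨y1, hy1⟩ : ∃ y1, y1 = τ * yb := ⟨_, rfl⟩
  have k1 : y1 ≤ 0 := by
    rw [hy1]
    exact mul_nonpos_of_nonneg_of_nonpos hτ.le hb
  have k2 : x1 < x0 := by rw [hx0, hx1]; exact hx
  have k3 : 2 ≤ y0 := by rw [hy0]; exact hy
  have S02 : ∀ z ∈ segment ℝ ((x0, y0) : P) ((x0, 0) : P), z.1 = x0 ∧ 0 ≤ z.2 := by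
    rintro z ⟨a, b, ha, hb, hab, rfl⟩
    refine ⟨?_, ?_⟩
    · show a * x0 + b * x0 = x0
      rw [← add_mul, hab, one_mul]
    · show 0 ≤ a * y0 + b * 0
      have := mul_nonneg ha (show 0 ≤ y0 by linarith)
      linarith
  have S03 : ∀ z ∈ segment ℝ ((x0, y0) : P) ((x0 - 1, 1) : P), 1 ≤ z.2 := by
    rintro z ⟨a, b, ha, hb, hab, rfl⟩
    show 1 ≤ a * y0 + b * 1
    have := mul_nonneg ha (show 0 ≤ y0 - 1 by linarith)
    nlinarith
  have S12 : ∀ z ∈ segment ℝ ((x1, y1) : P) ((x0, 0) : P), z.2 ≤ 0 := by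
    rintro z ⟨a, b, ha, hb, hab, rfl⟩
    show a * y1 + b * 0 ≤ 0
    have := mul_nonneg ha (show 0 ≤ -y1 by linarith)
    linarith
  have S13 : ∀ z ∈ segment ℝ ((x1, y1) : P) ((x0 - 1, 1) : P), z.1 < x0 ∧ z.2 ≤ 1 := by
    rintro z ⟨a, b, ha, hb, hab, rfl⟩
    refine ⟨?_, ?_⟩
    · show a * x1 + b * (x0 - 1) < x0
      have e : a * x1 + b * (x0 - 1) = x0 - (a * (x0 - x1) + b * 1) := by
        have e1 : a = 1 - b := by linarith
        rw [e1]
        ring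
      rw [e]
      rcases ha.eq_or_lt with h0 | h0
      · have : b = 1 := by linarith
        rw [← h0, this]
        linarith
      · have := mul_pos h0 (sub_pos.2 k2)
        linarith
    · show a * y1 + b * 1 ≤ 1
      have := mul_nonneg ha (show 0 ≤ -y1 by linarith)
      linarith
  have R0 : ∀ s : ℝ, 0 ≤ s → 2 ≤ (((x0, y0) : P) + s • ((xa, ya) : P)).2 := by
    intro s hs
    show 2 ≤ y0 + s * ya
    have := mul_nonneg hs ha.le
    linarith
  have R1 : ∀ s : ℝ, 0 ≤ s → (((x1, y1) : P) + s • ((xb, yb) : P)).2 ≤ 0 ∧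
      ((((x1, y1) : P) + s • ((xb, yb) : P)).2 = 0 →
        (((x1, y1) : P) + s • ((xb, yb) : P)).1 < x0) := by
    intro s hs
    have h1 : (((x1, y1) : P) + s • ((xb, yb) : P)).2 = (τ + s) * yb := by
      show y1 + s * yb = (τ + s) * yb
      rw [hy1]
      ring
    have h2 : 0 < τ + s := by linarith
    rw [h1]
    refine ⟨mul_nonpos_of_nonneg_of_nonpos h2.le hb, fun h3 => ?_⟩
    have h4 : yb = 0 := by
      rcases mul_eq_zero.1 h3 with h5 | h5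
      · linarith
      · exact h5
    have h5 : xb < 0 := by
      rcases hb' with h6 | h6
      · exact absurd h4 h6
      · exact h6
    show x1 + s * xb < x0
    have h6 := mul_nonneg hs (show 0 ≤ -xb by linarith)
    linarith
  have R2 : ∀ s : ℝ, (((x0, 0) : P) + s • ((1 : ℝ), (0 : ℝ))).2 = 0 := by
    intro s
    show 0 + s * 0 = 0
    ring
  have R2' : ∀ s : ℝ, (((x0, 0) : P) + s • ((1 : ℝ), (0 : ℝ))).1 = x0 + s := by
    intro s
    show x0 + s * 1 = x0 + s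
    ring
  have R3 : ∀ s : ℝ, (((x0 - 1, 1) : P) + s • ((1 : ℝ), (0 : ℝ))).2 = 1 := by
    intro s
    show 1 + s * 0 = 1
    ring
  refine ⟨![(x0, y0), (x1, y1), (x0, 0), (x0 - 1, 1)], KL2_mk _ _ _ _ _ _
    ?_ ?_ ?_ ?_ ?_ ?_ ?_ ?_ ?_ ?_ ?_ ?_ ?_ ?_ ?_ ?_ ?_ ?_ ?_ ?_ ?_ ?_ ?_ ?_ ?_ ?_ ?_ ?_ ?_ ?_ ?_ ?_
    ?_ ?_ ?_ ?_ ?_ ?_ ?_ ?_ ?_ ?_ ⟨σ, ?_⟩ ⟨τ, ?_⟩ rfl rfl⟩
  -- n
  · intro e
    have : x0 = x1 := congrArg Prod.fst e
    linarith
  · intro e
    have : y0 = 0 := congrArg Prod.snd e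
    linarith
  · intro e
    have : y0 = 1 := congrArg Prod.snd e
    linarith
  · intro e
    have : x1 = x0 := congrArg Prod.fst e
    linarith
  · intro e
    have : y1 = 1 := congrArg Prod.snd e
    linarith
  · intro e
    have : (0 : ℝ) = 1 := congrArg Prod.snd e
    linarith
  -- s
  · intro hz
    have : x1 = x0 := (S02 _ hz).1
    linarith
  · intro hz
    have : x0 - 1 = x0 := (S02 _ hz).1
    linarith
  · intro hz
    have : 1 ≤ y1 := S03 _ hz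
    linarith
  · intro hz
    have : (1 : ℝ) ≤ 0 := S03 _ hz
    linarith
  · intro hz
    have : y0 ≤ 0 := S12 _ hz
    linarith
  · intro hz
    have : (1 : ℝ) ≤ 0 := S12 _ hz
    linarith
  · intro hz
    have : x0 < x0 := (S13 _ hz).1
    linarith
  · intro hz
    have : x0 < x0 := (S13 _ hz).1
    linarith
  -- r0
  · intro s hs e
    have := R0 s hs
    rw [← e] at this
    have : 2 ≤ y1 := this
    linarith
  · intro s hs e
    have := R0 s hs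
    rw [← e] at this
    have : (2 : ℝ) ≤ 0 := this
    linarith
  · intro s hs e
    have := R0 s hs
    rw [← e] at this
    have : (2 : ℝ) ≤ 1 := this
    linarith
  -- r1
  · intro s hs e
    have := (R1 s hs).1
    rw [← e] at this
    have : y0 ≤ 0 := this
    linarith
  · intro s hs e
    have := (R1 s hs).2
    rw [← e] at this
    have : x0 < x0 := this rfl
    linarith
  · intro s hs e
    have := (R1 s hs).1
    rw [← e] at this
    have : (1 : ℝ) ≤ 0 := this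
    linarith
  -- r2
  · intro s hs e
    have := R2 s
    rw [← e] at this
    have : y0 = 0 := this
    linarith
  · intro s hs e
    have := R2' s
    rw [← e] at this
    have : x1 = x0 + s := this
    linarith
  · intro s hs e
    have := R2 s
    rw [← e] at this
    have : (1 : ℝ) = 0 := this
    linarith
  -- r3
  · intro s hs e
    have := R3 s
    rw [← e] at this
    have : y0 = 1 := this
    linarith
  · intro s hs e
    have := R3 s
    rw [← e] at this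
    have : y1 = 1 := this
    linarith
  · intro s hs e
    have := R3 s
    rw [← e] at this
    have : (0 : ℝ) = 1 := this
    linarith
  -- c
  · rintro ⟨z, hz1, hz2⟩
    linarith [(S02 z hz1).1, (S13 z hz2).1]
  · rintro ⟨z, hz1, hz2⟩
    linarith [S03 z hz1, S12 z hz2]
  -- t
  · intro s hs hz
    have h1 := S02 _ hz
    have h2 := R1 s hs
    linarith [h2.2 (le_antisymm h2.1 h1.2), h1.1]
  · intro s hs hz
    show (x0 - x0) * 1 + (0 - y0) * 0 = 0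
    ring
  · intro s hs hz
    linarith [S03 _ hz, (R1 s hs).1]
  · intro s hs hz
    linarith [S03 _ hz, R2 s]
  · intro s hs hz
    linarith [S12 _ hz, R0 s hs]
  · intro s hs hz
    linarith [S12 _ hz, R3 s]
  · intro s hs hz
    linarith [(S13 _ hz).2, R0 s hs]
  · intro s hs hz
    linarith [(S13 _ hz).1, R2' s]
  -- u
  · intro s s' hs hs' e
    have := R0 s hs
    rw [e] at this
    linarith [(R1 s' hs').1]
  · intro s s' hs hs' e
    have := R0 s hs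
    rw [e, R2] at this
    linarith
  · intro s s' hs hs' e
    have := R0 s hs
    rw [e, R3] at this
    linarith
  · intro s s' hs hs' e
    have := (R1 s hs).2
    rw [e, R2, R2'] at this
    linarith [this rfl]
  · intro s s' hs hs' e
    have := (R1 s hs).1
    rw [e, R3] at this
    linarith
  · intro s s' hs hs' e
    have := R2 s
    rw [e, R3] at this
    linarith
  -- p
  · show (x0, y0) = σ • ((xa, ya) : P)
    rw [hx0, hy0]
    rfl
  · show (x1, y1) = τ • ((xb, yb) : P)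
    rw [hx1, hy1]
    rfl

end MP_a17342_co.RT
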