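import Pool.Agent.Lib.MP_a17342_co.RT.KConf

/-!
# Local drawing KL3 of the 4-cycle a c b d
-/

set_option autoImplicit false

namespace MP_a17342_co.RT

private def KL3_T (X d A B : P) : Prop :=
  ∀ s : ℝ, 0 ≤ s → X + s • d ∈ segment ℝ A B → s ≠ 0 ∧ ip (B - A) d = 0

private theorem KL3_T_symm {X d A B : P} (h : KL3_T X d A B) : KL3_T X d B A := by
  intro s hs hm
  rw [segment_symm] at hm
  refine ⟨(h s hs hm).1, ?_⟩
  have := (h s hs hm).2
  simp only [ip, Prod.fst_sub, Prod.snd_sub] at this ⊢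
  linarith

private theorem KL3_T_not {X d A B : P} (h : KL3_T X d A B) : X ∉ segment ℝ A B := by
  intro hm
  exact (h 0 le_rfl (by simpa using hm)).1 rfl

private def KL3_U (X d Y d' : P) : Prop :=
  ∀ s s' : ℝ, 0 ≤ s → 0 ≤ s' → X + s • d ≠ Y + s' • d'

private theorem KL3_U_symm {X d Y d' : P} (h : KL3_U X d Y d') : KL3_U Y d' X d :=
  fun s s' hs hs' he => h s' s hs' hs he.symm

private theorem KL3_U_ray {X d Y d' : P} (h : KL3_U X d Y d') (s : ℝ) (hs : 0 ≤ s) :
    Y ≠ X + s • d := by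
  intro he
  exact h s 0 hs le_rfl (by simpa using he.symm)

private theorem KL3_U_ne {X d Y d' : P} (h : KL3_U X d Y d') : X ≠ Y := by
  intro he
  exact h 0 0 le_rfl le_rfl (by simpa using he)

private theorem KL3_mk {A B C D da db e : P} (he : e = ((1 : ℝ), (0 : ℝ)))
    (e1 : ∀ z, z ∈ segment ℝ A C → z ∈ segment ℝ B D → False)
    (e2 : ∀ z, z ∈ segment ℝ A D → z ∈ segment ℝ B C → False)
    (t1 : KL3_T B db A C) (t2 : KL3_T D e A C) (t3 : KL3_T B db A D) (t4 : KL3_T C e A D)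
    (t5 : KL3_T A da B C) (t6 : KL3_T D e B C) (t7 : KL3_T A da B D) (t8 : KL3_T C e B D)
    (u1 : KL3_U A da B db) (u2 : KL3_U A da C e) (u3 : KL3_U A da D e) (u4 : KL3_U B db C e)
    (u5 : KL3_U B db D e) (u6 : KL3_U C e D e) : Loc adjK ![A, B, C, D] (dirs da db) := by
  subst he
  have hU : ∀ i j : Fin 4, i ≠ j → ∀ d ∈ dirs da db i, ∀ d' ∈ dirs da db j,
      KL3_U (![A, B, C, D] i) d (![A, B, C, D] j) d' := by
    intro i j hij d hd d' hd'
    fin_cases i <;> fin_cases j <;>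
      first
      | exact absurd rfl hij
      | (simp only [dirs, Set.mem_singleton_iff, Fin.zero_eta, Fin.mk_one, Fin.reduceFinMk,
          Matrix.cons_val_zero, Matrix.cons_val_one, Matrix.cons_val] at hd hd' ⊢
         subst hd hd'
         first | assumption | (apply KL3_U_symm; assumption))
  have hne : ∀ i : Fin 4, (dirs da db i).Nonempty := by
    intro i
    fin_cases i <;> simp [dirs]
  have hT : ∀ i j k : Fin 4, adjK i j → k ≠ i → k ≠ j → ∀ d ∈ dirs da db k,
      KL3_T (![A, B, C, D] k) d (![A, B, C, D] i) (![A, B, C, D] j) := by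
    intro i j k hij hki hkj d hd
    rcases hij with ⟨rfl, rfl⟩ | ⟨rfl, rfl⟩ | ⟨rfl, rfl⟩ | ⟨rfl, rfl⟩ | ⟨rfl, rfl⟩ | ⟨rfl, rfl⟩ |
      ⟨rfl, rfl⟩ | ⟨rfl, rfl⟩ <;> fin_cases k <;>
      first
      | exact absurd rfl hki
      | exact absurd rfl hkj
      | (simp only [dirs, Set.mem_singleton_iff, Fin.zero_eta, Fin.mk_one, Fin.reduceFinMk,
          Matrix.cons_val_zero, Matrix.cons_val_one, Matrix.cons_val] at hd ⊢
         subst hd
         first | assumption | (apply KL3_T_symm; assumption))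
  refine ⟨?_, ?_, ?_, ?_, ?_, ?_⟩
  · intro i j h
    by_contra hij
    obtain ⟨d, hd⟩ := hne i
    obtain ⟨d', hd'⟩ := hne j
    exact KL3_U_ne (hU i j hij d hd d' hd') h
  · intro i j k hij hki hkj
    obtain ⟨d, hd⟩ := hne k
    exact KL3_T_not (hT i j k hij hki hkj d hd)
  · intro i k d hd hki s hs
    obtain ⟨d', hd'⟩ := hne k
    exact KL3_U_ray (hU i k (Ne.symm hki) d hd d' hd') s hs
  · intro i j k l hij hkl hik hil hjk hjl hz
    exfalso
    obtain ⟨z, hz1, hz2⟩ := hz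
    rcases hij with ⟨rfl, rfl⟩ | ⟨rfl, rfl⟩ | ⟨rfl, rfl⟩ | ⟨rfl, rfl⟩ | ⟨rfl, rfl⟩ | ⟨rfl, rfl⟩ |
      ⟨rfl, rfl⟩ | ⟨rfl, rfl⟩ <;>
    rcases hkl with ⟨rfl, rfl⟩ | ⟨rfl, rfl⟩ | ⟨rfl, rfl⟩ | ⟨rfl, rfl⟩ | ⟨rfl, rfl⟩ | ⟨rfl, rfl⟩ |
      ⟨rfl, rfl⟩ | ⟨rfl, rfl⟩ <;>
      first
      | exact absurd rfl hik
      | exact absurd rfl hil
      | exact absurd rfl hjk
      | exact absurd rfl hjl
      | (simp only [Matrix.cons_val_zero, Matrix.cons_val_one, Matrix.cons_val] at hz1 hz2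
         first
         | exact e1 z hz1 hz2
         | exact e1 z (segment_symm ℝ A C ▸ hz1) hz2
         | exact e1 z hz1 (segment_symm ℝ B D ▸ hz2)
         | exact e1 z (segment_symm ℝ A C ▸ hz1) (segment_symm ℝ B D ▸ hz2)
         | exact e1 z hz2 hz1
         | exact e1 z (segment_symm ℝ A C ▸ hz2) hz1
         | exact e1 z hz2 (segment_symm ℝ B D ▸ hz1)
         | exact e1 z (segment_symm ℝ A C ▸ hz2) (segment_symm ℝ B D ▸ hz1)
         | exact e2 z hz1 hz2
         | exact e2 z (segment_symm ℝ A D ▸ hz1) hz2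
         | exact e2 z hz1 (segment_symm ℝ B C ▸ hz2)
         | exact e2 z (segment_symm ℝ A D ▸ hz1) (segment_symm ℝ B C ▸ hz2)
         | exact e2 z hz2 hz1
         | exact e2 z (segment_symm ℝ A D ▸ hz2) hz1
         | exact e2 z hz2 (segment_symm ℝ B C ▸ hz1)
         | exact e2 z (segment_symm ℝ A D ▸ hz2) (segment_symm ℝ B C ▸ hz1))
  · intro i j k hij d hd hki hkj s hs hm
    exact (hT i j k hij hki hkj d hd s hs hm).2
  · intro i j hij d hd d' hd' s s' hs hs'
    exact hU i j hij d hd d' hd' s s' hs hs'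

private theorem KL3_le {a b z : P} (α β c : ℝ) (h1 : α * a.1 + β * a.2 ≤ c)
    (h2 : α * b.1 + β * b.2 ≤ c) (hz : z ∈ segment ℝ a b) : α * z.1 + β * z.2 ≤ c := by
  obtain ⟨t1, t2, ht1, ht2, ht, rfl⟩ := hz
  simp only [Prod.fst_add, Prod.snd_add, Prod.smul_fst, Prod.smul_snd, smul_eq_mul]
  have e : t2 = 1 - t1 := by linarith
  subst e
  nlinarith [mul_le_mul_of_nonneg_left h1 ht1, mul_le_mul_of_nonneg_left h2 ht2]

private theorem KL3_lt {a b z : P} (α β c : ℝ) (h1 : α * a.1 + β * a.2 < c)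
    (h2 : α * b.1 + β * b.2 < c) (hz : z ∈ segment ℝ a b) : α * z.1 + β * z.2 < c := by
  obtain ⟨m, hm1, hm2⟩ := exists_between (max_lt h1 h2)
  have := KL3_le α β m ((le_max_left _ _).trans hm1.le) ((le_max_right _ _).trans hm1.le) hz
  linarith

private theorem KL3_core {xa ya xb yb : ℝ} (σ τ : ℝ) (hya : ya < 0)
    (hyb : yb < 0) (ea : σ * ya = -1) (eb : τ * yb = -1) (hx : σ * xa < τ * xb) :
    ∃ g, KConf (xa, ya) (xb, yb) g := by
  obtain ⟨x2, hx2⟩ : ∃ x, x = σ * xa := ⟨_, rfl⟩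
  obtain ⟨x0, hx0⟩ : ∃ x, x = τ * xb := ⟨_, rfl⟩
  rw [← hx2, ← hx0] at hx
  obtain ⟨c, hc⟩ : ∃ c, c = (x2 + 3 * x0) / 4 := ⟨_, rfl⟩
  have hA : ∀ s : ℝ, 0 ≤ s → -1 + s * ya ≤ -1 := by
    intro s hs
    nlinarith [mul_nonneg hs (neg_pos.2 hya).le]
  have hB : ∀ s : ℝ, 0 ≤ s → -1 + s * yb ≤ -1 := by
    intro s hs
    nlinarith [mul_nonneg hs (neg_pos.2 hyb).le]
  have hA0 : ∀ s : ℝ, 0 ≤ s → -1 ≤ -1 + s * ya → s = 0 := by
    intro s hs h
    by_contra h0
    have : 0 < s := lt_of_le_of_ne hs (Ne.symm h0)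
    nlinarith [mul_pos this (neg_pos.2 hya)]
  have hB0 : ∀ s : ℝ, 0 ≤ s → -1 ≤ -1 + s * yb → s = 0 := by
    intro s hs h
    by_contra h0
    have : 0 < s := lt_of_le_of_ne hs (Ne.symm h0)
    nlinarith [mul_pos this (neg_pos.2 hyb)]
  refine ⟨![(x2, -1), (x0, -1), (c, 0), (x0, 1)], KL3_mk (e := ((1 : ℝ), (0 : ℝ))) rfl ?_ ?_ ?_ ?_ ?_ ?_ ?_ ?_ ?_ ?_ ?_
    ?_ ?_ ?_ ?_ ?_, ⟨σ, ?_⟩, ⟨τ, ?_⟩, rfl, rfl⟩
  · -- e1
    intro z hz hz'
    have q1 := KL3_le 1 0 c (by simp only; linarith) (by simp only; linarith) hz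
    have q2 := KL3_le (-1) 0 (-x0) (by simp only; linarith) (by simp only; linarith) hz'
    linarith
  · -- e2
    intro z hz hz'
    have q1 := KL3_le 1 (-((x0 - x2) / 2)) (x2 + (x0 - x2) / 2) (by simp only; linarith) (by simp only; linarith) hz
    have q2 := KL3_lt (-1) ((x0 - x2) / 2) (-(x2 + (x0 - x2) / 2)) (by simp only; linarith) (by simp only; linarith) hz'
    linarith
  · -- t1
    intro s hs hm
    exfalso
    have q1 := KL3_le 0 (-1) 1 (by simp only; linarith) (by simp only; linarith) hm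
    have q2 := KL3_le 1 0 c (by simp only; linarith) (by simp only; linarith) hm
    simp only [Prod.fst_add, Prod.snd_add, Prod.smul_fst, Prod.smul_snd, smul_eq_mul] at q1 q2
    have h0 := hB0 s hs (by linarith)
    subst h0
    linarith
  · -- t2
    intro s hs hm
    exfalso
    have q1 := KL3_le 0 1 0 (by simp only; linarith) (by simp only; linarith) hm
    simp only [Prod.fst_add, Prod.snd_add, Prod.smul_fst, Prod.smul_snd, smul_eq_mul] at q1
    linarith
  · -- t3
    intro s hs hm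
    exfalso
    have q1 := KL3_le 0 (-1) 1 (by simp only; linarith) (by simp only; linarith) hm
    have q2 := KL3_le 1 (-((x0 - x2) / 2)) (x2 + (x0 - x2) / 2) (by simp only; linarith) (by simp only; linarith) hm
    simp only [Prod.fst_add, Prod.snd_add, Prod.smul_fst, Prod.smul_snd, smul_eq_mul] at q1 q2
    have h0 := hB0 s hs (by linarith)
    subst h0
    linarith
  · -- t4
    intro s hs hm
    exfalso
    have q2 := KL3_le 1 (-((x0 - x2) / 2)) (x2 + (x0 - x2) / 2) (by simp only; linarith) (by simp only; linarith) hm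
    simp only [Prod.fst_add, Prod.snd_add, Prod.smul_fst, Prod.smul_snd, smul_eq_mul] at q2
    linarith
  · -- t5
    intro s hs hm
    exfalso
    have q1 := KL3_le 0 (-1) 1 (by simp only; linarith) (by simp only; linarith) hm
    have q2 := KL3_le (-1) 0 (-c) (by simp only; linarith) (by simp only; linarith) hm
    simp only [Prod.fst_add, Prod.snd_add, Prod.smul_fst, Prod.smul_snd, smul_eq_mul] at q1 q2
    have h0 := hA0 s hs (by linarith)
    subst h0
    linarith
  · -- t6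
    intro s hs hm
    exfalso
    have q1 := KL3_le 0 1 0 (by simp only; linarith) (by simp only; linarith) hm
    simp only [Prod.fst_add, Prod.snd_add, Prod.smul_fst, Prod.smul_snd, smul_eq_mul] at q1
    linarith
  · -- t7
    intro s hs hm
    exfalso
    have q1 := KL3_le 0 (-1) 1 (by simp only; linarith) (by simp only; linarith) hm
    have q2 := KL3_le (-1) 0 (-x0) (by simp only; linarith) (by simp only; linarith) hm
    simp only [Prod.fst_add, Prod.snd_add, Prod.smul_fst, Prod.smul_snd, smul_eq_mul] at q1 q2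
    have h0 := hA0 s hs (by linarith)
    subst h0
    linarith
  · -- t8
    intro s hs hm
    have q2 := KL3_le (-1) 0 (-x0) (by simp only; linarith) (by simp only; linarith) hm
    simp only [Prod.fst_add, Prod.snd_add, Prod.smul_fst, Prod.smul_snd, smul_eq_mul] at q2
    refine ⟨?_, ?_⟩
    · rintro rfl
      linarith
    · simp [ip]
  · -- u1
    intro s s' hs hs' he
    have q1 := congrArg Prod.fst he
    have q2 := congrArg Prod.snd he
    simp only [Prod.fst_add, Prod.snd_add, Prod.smul_fst, Prod.smul_snd, smul_eq_mul] at q1 q2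
    have k1 : xa = -(x2 * ya) := by
      rw [hx2]; linear_combination xa * ea
    have k2 : xb = -(x0 * yb) := by
      rw [hx0]; linear_combination xb * eb
    have k3 : x2 * (1 - s * ya) = x0 * (1 - s' * yb) := by
      have e1 : s * xa = -(x2 * (s * ya)) := by rw [k1]; ring
      have e2 : s' * xb = -(x0 * (s' * yb)) := by rw [k2]; ring
      rw [e1, e2] at q1
      linarith
    have k4 : s * ya = s' * yb := by linarith
    rw [← k4] at k3
    have k5 : (1 : ℝ) ≤ 1 - s * ya := by linarith [hA s hs]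
    nlinarith
  · intro s s' hs hs' he
    have q2 := congrArg Prod.snd he
    simp only [Prod.snd_add, Prod.smul_snd, smul_eq_mul] at q2
    linarith [hA s hs]
  · intro s s' hs hs' he
    have q2 := congrArg Prod.snd he
    simp only [Prod.snd_add, Prod.smul_snd, smul_eq_mul] at q2
    linarith [hA s hs]
  · intro s s' hs hs' he
    have q2 := congrArg Prod.snd he
    simp only [Prod.snd_add, Prod.smul_snd, smul_eq_mul] at q2
    linarith [hB s hs]
  · intro s s' hs hs' he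
    have q2 := congrArg Prod.snd he
    simp only [Prod.snd_add, Prod.smul_snd, smul_eq_mul] at q2
    linarith [hB s hs]
  · intro s s' hs hs' he
    have q2 := congrArg Prod.snd he
    simp only [Prod.snd_add, Prod.smul_snd, smul_eq_mul] at q2
    linarith
  · simp [hx2, ea]
  · simp [hx0, eb]

theorem kconf_3 {xa ya xb yb : ℝ} (ha : ya < 0) (hb : yb < 0) (h : xb * ya < xa * yb) :
    ∃ g, KConf (xa, ya) (xb, yb) g := by
  have h1 : 0 < (-ya)⁻¹ := inv_pos.2 (by linarith)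
  have h2 : 0 < (-yb)⁻¹ := inv_pos.2 (by linarith)
  have ea : (-ya)⁻¹ * ya = -1 := by
    have : ya ≠ 0 := ha.ne
    field_simp
  have eb : (-yb)⁻¹ * yb = -1 := by
    have : yb ≠ 0 := hb.ne
    field_simp
  refine KL3_core (-ya)⁻¹ (-yb)⁻¹ ha hb ea eb ?_
  have h3 : (-ya)⁻¹ * (-yb)⁻¹ * (xb * ya) < (-ya)⁻¹ * (-yb)⁻¹ * (xa * yb) :=
    mul_lt_mul_of_pos_left h (mul_pos h1 h2)
  have e1 : (-ya)⁻¹ * (-yb)⁻¹ * (xb * ya) = -((-yb)⁻¹ * xb) := by
    linear_combination (-yb)⁻¹ * xb * ea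
  have e2 : (-ya)⁻¹ * (-yb)⁻¹ * (xa * yb) = -((-ya)⁻¹ * xa) := by
    linear_combination (-ya)⁻¹ * xa * eb
  rw [e1, e2] at h3
  linarith

end MP_a17342_co.RT
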