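import Pool.Agent.Lib.MP_a17342_co.RT.KConf

/-!
# Local drawing KL4 of the 4-cycle a c b d
-/

set_option autoImplicit false

namespace MP_a17342_co.RT

private theorem KL4_four (k : Fin 4) : k = 0 ∨ k = 1 ∨ k = 2 ∨ k = 3 := by
  fin_cases k <;> simp

/-- a local drawing from disjointness of segments and rays -/
private theorem KL4_mk {da db A B C D : P}
    (d1 : ∀ z ∈ segment ℝ A C, z ∉ segment ℝ B D)
    (d2 : ∀ z ∈ segment ℝ A D, z ∉ segment ℝ B C)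
    (q012 : ∀ s : ℝ, 0 ≤ s → A + s • da ∈ segment ℝ B C → ip (C - B) da = 0)
    (q013 : ∀ s : ℝ, 0 ≤ s → A + s • da ∈ segment ℝ B D → ip (D - B) da = 0)
    (q102 : ∀ s : ℝ, 0 ≤ s → B + s • db ∈ segment ℝ A C → ip (C - A) db = 0)
    (q103 : ∀ s : ℝ, 0 ≤ s → B + s • db ∈ segment ℝ A D → ip (D - A) db = 0)
    (q203 : ∀ s : ℝ, 0 ≤ s → C + s • ((1 : ℝ), (0 : ℝ)) ∈ segment ℝ A D →
      ip (D - A) ((1 : ℝ), (0 : ℝ)) = 0)
    (q213 : ∀ s : ℝ, 0 ≤ s → C + s • ((1 : ℝ), (0 : ℝ)) ∈ segment ℝ B D →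
      ip (D - B) ((1 : ℝ), (0 : ℝ)) = 0)
    (q302 : ∀ s : ℝ, 0 ≤ s → D + s • ((1 : ℝ), (0 : ℝ)) ∈ segment ℝ A C →
      ip (C - A) ((1 : ℝ), (0 : ℝ)) = 0)
    (q312 : ∀ s : ℝ, 0 ≤ s → D + s • ((1 : ℝ), (0 : ℝ)) ∈ segment ℝ B C →
      ip (C - B) ((1 : ℝ), (0 : ℝ)) = 0)
    (r01 : ∀ s s' : ℝ, 0 ≤ s → 0 ≤ s' → A + s • da ≠ B + s' • db)
    (r02 : ∀ s s' : ℝ, 0 ≤ s → 0 ≤ s' → A + s • da ≠ C + s' • ((1 : ℝ), (0 : ℝ)))
    (r03 : ∀ s s' : ℝ, 0 ≤ s → 0 ≤ s' → A + s • da ≠ D + s' • ((1 : ℝ), (0 : ℝ)))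
    (r12 : ∀ s s' : ℝ, 0 ≤ s → 0 ≤ s' → B + s • db ≠ C + s' • ((1 : ℝ), (0 : ℝ)))
    (r13 : ∀ s s' : ℝ, 0 ≤ s → 0 ≤ s' → B + s • db ≠ D + s' • ((1 : ℝ), (0 : ℝ)))
    (r23 : ∀ s s' : ℝ, 0 ≤ s → 0 ≤ s' →
      C + s • ((1 : ℝ), (0 : ℝ)) ≠ D + s' • ((1 : ℝ), (0 : ℝ))) :
    Loc adjK ![A, B, C, D] (dirs da db) := by
  have sw : ∀ {x y z : P}, z ∈ segment ℝ x y → z ∈ segment ℝ y x := by
    intro x y z h
    rw [segment_symm]
    exact h
  have ips : ∀ {x y d : P}, ip (x - y) d = 0 → ip (y - x) d = 0 := by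
    intro x y d h
    simp only [ip, Prod.fst_sub, Prod.snd_sub] at h ⊢
    linear_combination -h
  have c7 : ∀ i j : Fin 4, i ≠ j → ∀ d ∈ dirs da db i, ∀ d' ∈ dirs da db j, ∀ s s' : ℝ,
      0 ≤ s → 0 ≤ s' →
      (![A, B, C, D] : Fin 4 → P) i + s • d ≠ (![A, B, C, D] : Fin 4 → P) j + s' • d' := by
    intro i j hij d hd d' hd' s s' h h'
    rcases KL4_four i with rfl | rfl | rfl | rfl <;>
      rcases KL4_four j with rfl | rfl | rfl | rfl
    · exact absurd rfl hij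
    · obtain rfl : d = da := hd
      obtain rfl : d' = db := hd'
      exact r01 s s' h h'
    · obtain rfl : d = da := hd
      obtain rfl : d' = ((1 : ℝ), (0 : ℝ)) := hd'
      exact r02 s s' h h'
    · obtain rfl : d = da := hd
      obtain rfl : d' = ((1 : ℝ), (0 : ℝ)) := hd'
      exact r03 s s' h h'
    · obtain rfl : d = db := hd
      obtain rfl : d' = da := hd'
      exact fun e => r01 s' s h' h e.symm
    · exact absurd rfl hij
    · obtain rfl : d = db := hd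
      obtain rfl : d' = ((1 : ℝ), (0 : ℝ)) := hd'
      exact r12 s s' h h'
    · obtain rfl : d = db := hd
      obtain rfl : d' = ((1 : ℝ), (0 : ℝ)) := hd'
      exact r13 s s' h h'
    · obtain rfl : d = ((1 : ℝ), (0 : ℝ)) := hd
      obtain rfl : d' = da := hd'
      exact fun e => r02 s' s h' h e.symm
    · obtain rfl : d = ((1 : ℝ), (0 : ℝ)) := hd
      obtain rfl : d' = db := hd'
      exact fun e => r12 s' s h' h e.symm
    · exact absurd rfl hij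
    · obtain rfl : d = ((1 : ℝ), (0 : ℝ)) := hd
      obtain rfl : d' = ((1 : ℝ), (0 : ℝ)) := hd'
      exact r23 s s' h h'
    · obtain rfl : d = ((1 : ℝ), (0 : ℝ)) := hd
      obtain rfl : d' = da := hd'
      exact fun e => r03 s' s h' h e.symm
    · obtain rfl : d = ((1 : ℝ), (0 : ℝ)) := hd
      obtain rfl : d' = db := hd'
      exact fun e => r13 s' s h' h e.symm
    · obtain rfl : d = ((1 : ℝ), (0 : ℝ)) := hd
      obtain rfl : d' = ((1 : ℝ), (0 : ℝ)) := hd'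
      exact fun e => r23 s' s h' h e.symm
    · exact absurd rfl hij
  have ex : ∀ i : Fin 4, ∃ d, d ∈ dirs da db i := by
    intro i
    rcases KL4_four i with rfl | rfl | rfl | rfl
    · exact ⟨da, rfl⟩
    · exact ⟨db, rfl⟩
    · exact ⟨((1 : ℝ), (0 : ℝ)), rfl⟩
    · exact ⟨((1 : ℝ), (0 : ℝ)), rfl⟩
  refine ⟨?_, ?_, ?_, ?_, ?_, c7⟩
  · intro i j hij
    by_contra hne
    obtain ⟨d, hd⟩ := ex i
    obtain ⟨d', hd'⟩ := ex j
    exact c7 i j hne d hd d' hd' 0 0 le_rfl le_rfl (by rw [hij, zero_smul, zero_smul])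
  · intro i j k hij hki hkj hz
    rcases hij with ⟨rfl, rfl⟩ | ⟨rfl, rfl⟩ | ⟨rfl, rfl⟩ | ⟨rfl, rfl⟩ | ⟨rfl, rfl⟩ | ⟨rfl, rfl⟩ |
      ⟨rfl, rfl⟩ | ⟨rfl, rfl⟩ <;> rcases KL4_four k with rfl | rfl | rfl | rfl <;>
      first
      | exact hki rfl
      | exact hkj rfl
      | exact d1 B hz (left_mem_segment ℝ B D)
      | exact d1 B (sw hz) (left_mem_segment ℝ B D)
      | exact d1 D hz (right_mem_segment ℝ B D)
      | exact d1 D (sw hz) (right_mem_segment ℝ B D)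
      | exact d2 B hz (left_mem_segment ℝ B C)
      | exact d2 B (sw hz) (left_mem_segment ℝ B C)
      | exact d2 C hz (right_mem_segment ℝ B C)
      | exact d2 C (sw hz) (right_mem_segment ℝ B C)
      | exact d2 A (left_mem_segment ℝ A D) hz
      | exact d2 A (left_mem_segment ℝ A D) (sw hz)
      | exact d2 D (right_mem_segment ℝ A D) hz
      | exact d2 D (right_mem_segment ℝ A D) (sw hz)
      | exact d1 A (left_mem_segment ℝ A C) hz
      | exact d1 A (left_mem_segment ℝ A C) (sw hz)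
      | exact d1 C (right_mem_segment ℝ A C) hz
      | exact d1 C (right_mem_segment ℝ A C) (sw hz)
  · intro i k d hd hki s hs he
    obtain ⟨d', hd'⟩ := ex k
    refine c7 k i hki d' hd' d hd 0 s le_rfl hs ?_
    rw [zero_smul, add_zero]
    exact he
  · intro i j k l hij hkl h1 h2 h3 h4 hne
    obtain ⟨z, hz1, hz2⟩ := hne
    exfalso
    rcases hij with ⟨rfl, rfl⟩ | ⟨rfl, rfl⟩ | ⟨rfl, rfl⟩ | ⟨rfl, rfl⟩ | ⟨rfl, rfl⟩ | ⟨rfl, rfl⟩ |
      ⟨rfl, rfl⟩ | ⟨rfl, rfl⟩ <;>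
    rcases hkl with ⟨rfl, rfl⟩ | ⟨rfl, rfl⟩ | ⟨rfl, rfl⟩ | ⟨rfl, rfl⟩ | ⟨rfl, rfl⟩ | ⟨rfl, rfl⟩ |
      ⟨rfl, rfl⟩ | ⟨rfl, rfl⟩ <;>
      first
      | exact h1 rfl
      | exact h2 rfl
      | exact h3 rfl
      | exact h4 rfl
      | exact d1 z hz1 hz2
      | exact d1 z (sw hz1) hz2
      | exact d1 z hz1 (sw hz2)
      | exact d1 z (sw hz1) (sw hz2)
      | exact d1 z hz2 hz1
      | exact d1 z (sw hz2) hz1
      | exact d1 z hz2 (sw hz1)
      | exact d1 z (sw hz2) (sw hz1)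
      | exact d2 z hz1 hz2
      | exact d2 z (sw hz1) hz2
      | exact d2 z hz1 (sw hz2)
      | exact d2 z (sw hz1) (sw hz2)
      | exact d2 z hz2 hz1
      | exact d2 z (sw hz2) hz1
      | exact d2 z hz2 (sw hz1)
      | exact d2 z (sw hz2) (sw hz1)
  · intro i j k hij d hd hki hkj s hs hz
    rcases KL4_four k with rfl | rfl | rfl | rfl
    · obtain rfl : d = da := hd
      rcases hij with ⟨rfl, rfl⟩ | ⟨rfl, rfl⟩ | ⟨rfl, rfl⟩ | ⟨rfl, rfl⟩ | ⟨rfl, rfl⟩ | ⟨rfl, rfl⟩ |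
        ⟨rfl, rfl⟩ | ⟨rfl, rfl⟩ <;>
      first
      | exact absurd rfl hki
      | exact absurd rfl hkj
      | exact q012 s hs hz
      | exact ips (q012 s hs (sw hz))
      | exact q013 s hs hz
      | exact ips (q013 s hs (sw hz))
    · obtain rfl : d = db := hd
      rcases hij with ⟨rfl, rfl⟩ | ⟨rfl, rfl⟩ | ⟨rfl, rfl⟩ | ⟨rfl, rfl⟩ | ⟨rfl, rfl⟩ | ⟨rfl, rfl⟩ |
        ⟨rfl, rfl⟩ | ⟨rfl, rfl⟩ <;>
      first
      | exact absurd rfl hki
      | exact absurd rfl hkj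
      | exact q102 s hs hz
      | exact ips (q102 s hs (sw hz))
      | exact q103 s hs hz
      | exact ips (q103 s hs (sw hz))
    · obtain rfl : d = ((1 : ℝ), (0 : ℝ)) := hd
      rcases hij with ⟨rfl, rfl⟩ | ⟨rfl, rfl⟩ | ⟨rfl, rfl⟩ | ⟨rfl, rfl⟩ | ⟨rfl, rfl⟩ | ⟨rfl, rfl⟩ |
        ⟨rfl, rfl⟩ | ⟨rfl, rfl⟩ <;>
      first
      | exact absurd rfl hki
      | exact absurd rfl hkj
      | exact q203 s hs hz
      | exact ips (q203 s hs (sw hz))
      | exact q213 s hs hz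
      | exact ips (q213 s hs (sw hz))
    · obtain rfl : d = ((1 : ℝ), (0 : ℝ)) := hd
      rcases hij with ⟨rfl, rfl⟩ | ⟨rfl, rfl⟩ | ⟨rfl, rfl⟩ | ⟨rfl, rfl⟩ | ⟨rfl, rfl⟩ | ⟨rfl, rfl⟩ |
        ⟨rfl, rfl⟩ | ⟨rfl, rfl⟩ <;>
      first
      | exact absurd rfl hki
      | exact absurd rfl hkj
      | exact q302 s hs hz
      | exact ips (q302 s hs (sw hz))
      | exact q312 s hs hz
      | exact ips (q312 s hs (sw hz))

private theorem KL4_seg {x y z : P} (h : z ∈ segment ℝ x y) :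
    ∃ t : ℝ, 0 ≤ t ∧ t ≤ 1 ∧ z.1 = x.1 + t * (y.1 - x.1) ∧ z.2 = x.2 + t * (y.2 - x.2) := by
  obtain ⟨a, b, ha, hb, hab, rfl⟩ := h
  refine ⟨b, hb, by linarith, ?_, ?_⟩
  · simp only [Prod.fst_add, Prod.smul_fst, smul_eq_mul]
    rw [show a = 1 - b by linarith]
    ring
  · simp only [Prod.snd_add, Prod.smul_snd, smul_eq_mul]
    rw [show a = 1 - b by linarith]
    ring

/-- the drawing, `x3` is the first coordinate of `c` -/
private theorem KL4_loc {xa ya xb yb x0 x2 x3 y0 y2 : ℝ} (h1 : x2 < x0) (h2 : x3 < x0)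
    (h3 : y0 < 0) (hyb : yb ≤ 0) (hya : 0 ≤ ya)
    (h4 : 2 ≤ y2 ∨ (y2 = 0 ∧ ya = 0 ∧ xa ≤ 0 ∧ x2 < x3)) :
    Loc adjK ![((x2, y2) : P), (x0, y0), (x3, 0), (x0, 1)] (dirs (xa, ya) (xb, yb)) := by
  have hy2 : 0 ≤ y2 := by
    rcases h4 with h | h
    · linarith
    · exact h.1.ge
  -- the ray of `a`
  have R0 : ∀ s : ℝ, 0 ≤ s → 2 ≤ y2 + s * ya ∨ (y2 + s * ya = 0 ∧ x2 + s * xa < x3) := by
    intro s hs
    rcases h4 with h | ⟨h, h', h'', h'''⟩
    · left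
      have := mul_nonneg hs hya
      linarith
    · right
      rw [h, h']
      refine ⟨by ring, ?_⟩
      have := mul_nonpos_of_nonneg_of_nonpos hs h''
      linarith
  have R1 : ∀ s : ℝ, 0 ≤ s → y0 + s * yb < 0 := by
    intro s hs
    have := mul_nonpos_of_nonneg_of_nonpos hs hyb
    linarith
  -- the edges
  have AC : ∀ z ∈ segment ℝ ((x2, y2) : P) (x3, 0), z.1 < x0 ∧ 0 ≤ z.2 := by
    intro z hz
    obtain ⟨t, t0, t1, e1, e2⟩ := KL4_seg hz
    simp only at e1 e2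
    constructor
    · rw [e1]
      have h6 : 0 ≤ (1 - t) * (x0 - x2) := mul_nonneg (by linarith) (by linarith)
      rcases t0.eq_or_lt with h5 | h5
      · rw [← h5]
        linarith
      · have h7 : 0 < t * (x0 - x3) := mul_pos h5 (by linarith)
        linarith
    · rw [e2]
      nlinarith
  have AD : ∀ z ∈ segment ℝ ((x2, y2) : P) (x0, 1), 1 ≤ z.2 ∨ (0 < z.2 ∧ y2 = 0) ∨
      (z.2 = 0 ∧ z.1 < x3) := by
    intro z hz
    obtain ⟨t, t0, t1, e1, e2⟩ := KL4_seg hz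
    simp only at e1 e2
    rcases h4 with h | ⟨h, h', h'', h'''⟩
    · left
      rw [e2]
      nlinarith
    · right
      rcases t0.eq_or_lt with h5 | h5
      · right
        rw [e1, e2, ← h5, h]
        constructor
        · ring
        · linarith
      · left
        rw [e2, h]
        constructor
        · linarith
        · rfl
  have BC : ∀ z ∈ segment ℝ ((x0, y0) : P) (x3, 0), z.2 < 0 ∨ (z.2 = 0 ∧ z.1 = x3) := by
    intro z hz
    obtain ⟨t, t0, t1, e1, e2⟩ := KL4_seg hz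
    simp only at e1 e2
    rcases t1.eq_or_lt with h5 | h5
    · right
      rw [e1, e2, h5]
      constructor <;> ring
    · left
      rw [e2]
      nlinarith
  have BD : ∀ z ∈ segment ℝ ((x0, y0) : P) (x0, 1), z.1 = x0 ∧ z.2 ≤ 1 := by
    intro z hz
    obtain ⟨t, t0, t1, e1, e2⟩ := KL4_seg hz
    simp only at e1 e2
    constructor
    · rw [e1]
      ring
    · rw [e2]
      nlinarith
  refine KL4_mk ?_ ?_ ?_ ?_ ?_ ?_ ?_ ?_ ?_ ?_ ?_ ?_ ?_ ?_ ?_ ?_
  · intro z hz hz'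
    have := (AC z hz).1
    have := (BD z hz').1
    linarith
  · intro z hz hz'
    rcases BC z hz' with h5 | ⟨h5, h6⟩ <;> rcases AD z hz with h7 | ⟨h7, h8⟩ | ⟨h7, h8⟩ <;> linarith
  · intro s hs hz
    exfalso
    have h5 := R0 s hs
    have h6 := BC _ hz
    simp only [Prod.fst_add, Prod.snd_add, Prod.smul_fst, Prod.smul_snd, smul_eq_mul] at h6
    rcases h5 with h5 | ⟨h5, h7⟩ <;> rcases h6 with h6 | ⟨h6, h8⟩ <;> linarith
  · intro s hs hz
    exfalso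
    have h5 := R0 s hs
    have h6 := BD _ hz
    simp only [Prod.fst_add, Prod.snd_add, Prod.smul_fst, Prod.smul_snd, smul_eq_mul] at h6
    rcases h5 with h5 | ⟨h5, h7⟩ <;> linarith [h6.1, h6.2]
  · intro s hs hz
    exfalso
    have h5 := R1 s hs
    have h6 := (AC _ hz).2
    simp only [Prod.snd_add, Prod.smul_snd, smul_eq_mul] at h6
    linarith
  · intro s hs hz
    exfalso
    have h5 := R1 s hs
    have h6 := AD _ hz
    simp only [Prod.fst_add, Prod.snd_add, Prod.smul_fst, Prod.smul_snd, smul_eq_mul] at h6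
    rcases h6 with h6 | ⟨h6, _⟩ | ⟨h6, _⟩ <;> linarith
  · intro s hs hz
    exfalso
    have h6 := AD _ hz
    simp only [Prod.fst_add, Prod.snd_add, Prod.smul_fst, Prod.smul_snd, smul_eq_mul] at h6
    rcases h6 with h6 | ⟨h6, _⟩ | ⟨_, h6⟩ <;> linarith
  · intro s hs hz
    simp only [ip, Prod.fst_sub, Prod.snd_sub]
    ring
  · intro s hs hz
    exfalso
    have h6 := (AC _ hz).1
    simp only [Prod.fst_add, Prod.smul_fst, smul_eq_mul] at h6
    linarith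
  · intro s hs hz
    exfalso
    have h6 := BC _ hz
    simp only [Prod.fst_add, Prod.snd_add, Prod.smul_fst, Prod.smul_snd, smul_eq_mul] at h6
    rcases h6 with h6 | ⟨h6, _⟩ <;> linarith
  · intro s s' hs hs' he
    have e2 := congrArg Prod.snd he
    simp only [Prod.snd_add, Prod.smul_snd, smul_eq_mul] at e2
    have h5 := R1 s' hs'
    rcases R0 s hs with h6 | ⟨h6, _⟩ <;> linarith
  · intro s s' hs hs' he
    have e1 := congrArg Prod.fst he
    have e2 := congrArg Prod.snd he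
    simp only [Prod.fst_add, Prod.smul_fst, Prod.snd_add, Prod.smul_snd, smul_eq_mul] at e1 e2
    rcases R0 s hs with h6 | ⟨_, h6⟩ <;> linarith
  · intro s s' hs hs' he
    have e2 := congrArg Prod.snd he
    simp only [Prod.snd_add, Prod.smul_snd, smul_eq_mul] at e2
    rcases R0 s hs with h6 | ⟨h6, _⟩ <;> linarith
  · intro s s' hs hs' he
    have e2 := congrArg Prod.snd he
    simp only [Prod.snd_add, Prod.smul_snd, smul_eq_mul] at e2
    have h5 := R1 s hs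
    linarith
  · intro s s' hs hs' he
    have e2 := congrArg Prod.snd he
    simp only [Prod.snd_add, Prod.smul_snd, smul_eq_mul] at e2
    have h5 := R1 s hs
    linarith
  · intro s s' hs hs' he
    have e2 := congrArg Prod.snd he
    simp only [Prod.snd_add, Prod.smul_snd, smul_eq_mul] at e2
    linarith

theorem kconf_4 {xa ya xb yb : ℝ} (hb : yb < 0) (ha : 0 ≤ ya) (ha' : ya ≠ 0 ∨ xa < 0)
    (h : 0 < xb ∨ xa < 0) : ∃ g, KConf (xa, ya) (xb, yb) g := by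
  -- the multipliers
  obtain ⟨σ, τ, hσ, hτ, h1, h2⟩ : ∃ σ τ : ℝ, 0 < τ ∧ σ * xa < τ * xb ∧
      (0 < ya → 2 ≤ σ * ya) ∧ 0 ≤ σ := by
    rcases h with h | h
    · -- `xb > 0`: take `τ` large
      obtain ⟨σ, hσ0, hσ⟩ : ∃ σ : ℝ, 0 ≤ σ ∧ (0 < ya → 2 ≤ σ * ya) := by
        rcases ha.eq_or_lt with h5 | h5
        · exact ⟨0, le_rfl, fun h6 => absurd h5 h6.ne⟩
        · exact ⟨2 / ya, by positivity, fun _ => by rw [div_mul_cancel₀ _ h5.ne']⟩
      refine ⟨σ, (|σ * xa| + 1) / xb, by positivity, ?_, hσ, hσ0⟩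
      rw [div_mul_cancel₀ _ h.ne']
      have := le_abs_self (σ * xa)
      linarith
    · -- `xa < 0`: take `σ` large
      obtain ⟨σ, hσ0, hσ⟩ : ∃ σ : ℝ, 0 ≤ σ ∧ (0 < ya → 2 ≤ σ * ya) := by
        rcases ha.eq_or_lt with h5 | h5
        · exact ⟨0, le_rfl, fun h6 => absurd h5 h6.ne⟩
        · exact ⟨2 / ya, by positivity, fun _ => by rw [div_mul_cancel₀ _ h5.ne']⟩
      have hxa : 0 < -xa := by linarith
      have hpos : 0 ≤ (|xb| + 1) / (-xa) := by positivity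
      refine ⟨σ + (|xb| + 1) / (-xa), 1, one_pos, ?_, ?_, by linarith⟩
      · have h5 : (|xb| + 1) / (-xa) * xa = -(|xb| + 1) := by
          have : xa ≠ 0 := h.ne
          field_simp
        rw [add_mul, h5]
        have h6 := neg_abs_le xb
        have h7 := mul_nonpos_of_nonneg_of_nonpos hσ0 h.le
        linarith
      · intro h5
        have h6 := hσ h5
        have h7 := mul_nonneg hpos h5.le
        rw [add_mul]
        linarith
  have hy0 : τ * yb < 0 := mul_neg_of_pos_of_neg hσ hb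
  rcases ha.eq_or_lt with h5 | h5
  · have hxa : xa < 0 := by
      rcases ha' with h6 | h6
      · exact absurd h5.symm h6
      · exact h6
    refine ⟨![((σ * xa, σ * ya) : P), (τ * xb, τ * yb), ((σ * xa + τ * xb) / 2, 0), (τ * xb, 1)],
      KL4_loc hτ (by linarith) hy0 hb.le ha (Or.inr ⟨by rw [← h5]; ring, h5.symm, hxa.le,
        by linarith⟩), ⟨σ, ?_⟩, ⟨τ, ?_⟩, rfl, rfl⟩
    · apply Prod.ext <;> rfl
    · apply Prod.ext <;> rfl
  · refine ⟨![((σ * xa, σ * ya) : P), (τ * xb, τ * yb), (τ * xb - 1, 0), (τ * xb, 1)],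
      KL4_loc hτ (by linarith) hy0 hb.le ha (Or.inl (h1 h5)), ⟨σ, ?_⟩, ⟨τ, ?_⟩, rfl, rfl⟩
    · apply Prod.ext <;> rfl
    · apply Prod.ext <;> rfl

end MP_a17342_co.RT
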