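import Pool.Agent.Lib.MP_a17342_co.RT.KL1
import Pool.Agent.Lib.MP_a17342_co.RT.KL2
import Pool.Agent.Lib.MP_a17342_co.RT.KL3
import Pool.Agent.Lib.MP_a17342_co.RT.KL4
import Pool.Agent.Lib.MP_a17342_co.RT.KLS

/-!
# All cases of the local drawings of the 4-cycle a c b d
-/

set_option autoImplicit false

namespace MP_a17342_co.RT

private theorem KConfAll_tr {m : ℕ} {adj adj' : Fin m → Fin m → Prop} {g : Fin m → P}
    {R R' : Fin m → Set P} (h : Loc adj g R) (σ : Fin m → Fin m) (hσ : Function.Injective σ)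
    (ha : ∀ i j, adj' i j → adj (σ i) (σ j)) (hR : ∀ i, R' i = R (σ i)) :
    Loc adj' (fun i => g (σ i)) R' := by
  refine ⟨?_, ?_, ?_, ?_, ?_, ?_⟩
  · intro i j hij
    exact hσ (h.inj hij)
  · intro i j k hij h1 h2
    exact h.c3 _ _ _ (ha _ _ hij) (hσ.ne h1) (hσ.ne h2)
  · intro i k d hd h1 s hs
    rw [hR] at hd
    exact h.c4 _ _ d hd (hσ.ne h1) s hs
  · intro i j k l hij hkl n1 n2 n3 n4 hs
    exact h.c5 _ _ _ _ (ha _ _ hij) (ha _ _ hkl) (hσ.ne n1) (hσ.ne n2) (hσ.ne n3) (hσ.ne n4) hs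
  · intro i j k hij d hd n1 n2 s hs hm
    rw [hR] at hd
    exact h.c6 _ _ _ (ha _ _ hij) d hd (hσ.ne n1) (hσ.ne n2) s hs hm
  · intro i j n d hd d' hd' s s' hs hs'
    rw [hR] at hd hd'
    exact h.c7 _ _ (hσ.ne n) d hd d' hd' s s' hs hs'

private def KConfAll_s : Fin 4 → Fin 4 := ![1, 0, 2, 3]

theorem kconf_swap {da db : P} {g : Fin 4 → P} (h : KConf da db g) :
    KConf db da ![g 1, g 0, g 2, g 3] := by
  obtain ⟨h1, h2, h3, h4, h5⟩ := h
  refine ⟨?_, h3, h2, h4, h5⟩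
  have he : (![g 1, g 0, g 2, g 3] : Fin 4 → P) = fun i => g (KConfAll_s i) := by
    funext i
    fin_cases i <;> rfl
  rw [he]
  refine KConfAll_tr h1 KConfAll_s ?_ ?_ ?_
  · intro i j hij
    revert hij
    revert i j
    decide
  · intro i j hij
    rcases hij with ⟨rfl, rfl⟩ | ⟨rfl, rfl⟩ | ⟨rfl, rfl⟩ | ⟨rfl, rfl⟩ | ⟨rfl, rfl⟩ | ⟨rfl, rfl⟩ |
      ⟨rfl, rfl⟩ | ⟨rfl, rfl⟩ <;> simp [adjK, KConfAll_s]
  · intro i
    fin_cases i <;> rfl

private theorem KConfAll_ex {da db : P} (h : ∃ g, KConf db da g) : ∃ g, KConf da db g := by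
  obtain ⟨g, hg⟩ := h
  exact ⟨_, kconf_swap hg⟩

private theorem KConfAll_mix {xa ya xb yb : ℝ} (hz : 0 < ya) (hy : yb ≤ 0)
    (hb : yb ≠ 0 ∨ xb < 0) : ∃ g, KConf (xa, ya) (xb, yb) g := by
  by_cases h1 : 0 < xa ∨ xb < 0
  · exact kconf_2 hz hy hb h1
  · have hy0 : yb < 0 := by
      rcases hb with h | h
      · exact lt_of_le_of_ne hy h
      · exact absurd (Or.inr h) h1
    by_cases h2 : 0 < xb ∨ xa < 0
    · exact kconf_4 hy0 hz.le (Or.inl hz.ne') h2
    · push Not at h1 h2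
      have e1 : xa = 0 := le_antisymm h1.1 h2.2
      have e2 : xb = 0 := le_antisymm h2.1 h1.2
      rw [e1, e2]
      exact kconf_S hz hy0

theorem kconf_all {da db : P} (ha : da.2 ≠ 0 ∨ da.1 < 0) (hb : db.2 ≠ 0 ∨ db.1 < 0)
    (h : ∀ t : ℝ, 0 < t → db ≠ t • da) : ∃ g, KConf da db g := by
  obtain ⟨xa, ya⟩ := da
  obtain ⟨xb, yb⟩ := db
  simp only at ha hb
  have hcol : ∀ t : ℝ, 0 < t → xb = t * xa → yb = t * ya → False := by
    intro t ht h1 h2
    apply h t ht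
    rw [h1, h2]
    rfl
  have hpar : ya ≠ 0 → 0 < yb / ya → xa * yb ≠ xb * ya := by
    intro h0 h1 h2
    apply hcol (yb / ya) h1
    · field_simp
      linarith
    · field_simp
  rcases lt_trichotomy yb 0 with hy | hy | hy
  · rcases lt_trichotomy ya 0 with hz | hz | hz
    · rcases lt_trichotomy (xa * yb) (xb * ya) with h1 | h1 | h1
      · exact KConfAll_ex (kconf_3 hy hz h1)
      · exact absurd h1 (hpar hz.ne (div_pos_of_neg_of_neg hy hz))
      · exact kconf_3 hz hy h1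
    · have hxa : xa < 0 := ha.resolve_left (fun h0 => h0 hz)
      exact kconf_4 hy hz.ge ha (Or.inr hxa)
    · exact KConfAll_mix hz hy.le hb
  · have hxb : xb < 0 := hb.resolve_left (fun h0 => h0 hy)
    rcases lt_trichotomy ya 0 with hz | hz | hz
    · exact KConfAll_ex (kconf_4 hz hy.ge hb (Or.inr hxb))
    · exfalso
      have hxa : xa < 0 := ha.resolve_left (fun h0 => h0 hz)
      apply hcol (xb / xa) (div_pos_of_neg_of_neg hxb hxa)
      · rw [div_mul_cancel₀ _ hxa.ne]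
      · rw [hy, hz, mul_zero]
    · exact KConfAll_mix hz hy.le hb
  · rcases le_or_gt ya 0 with hz | hz
    · exact KConfAll_ex (KConfAll_mix hy hz ha)
    · rcases lt_trichotomy (xa * yb) (xb * ya) with h1 | h1 | h1
      · exact KConfAll_ex (kconf_1 hy hz h1)
      · exact absurd h1 (hpar hz.ne' (div_pos hy hz))
      · exact kconf_1 hz hy h1

end MP_a17342_co.RT
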