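import Pool.Agent.Lib.MP_a17342_co.RT.KConf

/-!
# Local drawing KL1 of the 4-cycle a c b d
Plan (indices 0 = a, 1 = b, 2 = c, 3 = d; edges a c, a d, b c, b d; rays: da from a, db from b, (1, 0) from c and d): ka = xa / ya > kb = xb / yb: a = (2 ka, 2), b = (2 kb, 2), c = (2 ka, 0), d = ((3 ka + kb) / 2, 1). Only the ray of d (height 1) crosses the vertical edge a c, perpendicularly (the edge b c is left of d at height 1).
The da ray is {(ka h, h) : h ≥ 2}, the db ray {(kb h, h) : h ≥ 2}.
-/

set_option autoImplicit false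

namespace MP_a17342_co.RT

private lemma KL1_seg {x y z : P} (h : z ∈ segment ℝ x y) :
    ∃ t : ℝ, 0 ≤ t ∧ t ≤ 1 ∧ z.1 = (1 - t) * x.1 + t * y.1 ∧ z.2 = (1 - t) * x.2 + t * y.2 := by
  obtain ⟨a, b, ha, hb, hab, rfl⟩ := h
  refine ⟨b, hb, by linarith, ?_, ?_⟩
  · simp only [Prod.fst_add, Prod.smul_fst, smul_eq_mul]
    rw [show a = 1 - b by linarith]
  · simp only [Prod.snd_add, Prod.smul_snd, smul_eq_mul]
    rw [show a = 1 - b by linarith]

private lemma KL1_loc {xa ya xb yb ka D : ℝ} (ha : 0 < ya) (hb : 0 < yb) (hka : ka * ya = xa)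
    (hkb : (ka - D) * yb = xb) (hD : 0 < D)
    {g : Fin 4 → P} (g0 : g 0 = (2 * ka, 2)) (g1 : g 1 = (2 * ka - 2 * D, 2))
    (g2 : g 2 = (2 * ka, 0)) (g3 : g 3 = (2 * ka - D / 2, 1)) :
    Loc adjK g (dirs (xa, ya) (xb, yb)) := by
  have r0 : ∀ d, d ∈ dirs (xa, ya) (xb, yb) 0 ↔ d = (xa, ya) := fun d => Iff.rfl
  have r1 : ∀ d, d ∈ dirs (xa, ya) (xb, yb) 1 ↔ d = (xb, yb) := fun d => Iff.rfl
  have r2 : ∀ d, d ∈ dirs (xa, ya) (xb, yb) 2 ↔ d = ((1 : ℝ), (0 : ℝ)) := fun d => Iff.rfl
  have r3 : ∀ d, d ∈ dirs (xa, ya) (xb, yb) 3 ↔ d = ((1 : ℝ), (0 : ℝ)) := fun d => Iff.rfl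
  -- a ray of height `2` at parameter `0`
  have z0 : ∀ s y : ℝ, 0 ≤ s → 0 < y → s * y ≤ 0 → s = 0 := by
    intro s y hs hy h
    by_contra hne
    have : 0 < s * y := mul_pos (lt_of_le_of_ne hs (Ne.symm hne)) hy
    linarith
  constructor
  · -- inj
    intro i j hij
    fin_cases i <;> fin_cases j <;> first
      | rfl
      | (exfalso
         simp only [Fin.zero_eta, Fin.mk_one, Fin.reduceFinMk, g0, g1, g2, g3, Prod.mk.injEq] at hij
         obtain ⟨h1, h2⟩ := hij
         linarith)
  · -- c3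
    intro i j k hij hk1 hk2 hm
    obtain ⟨t, ht0, ht1, e1, e2⟩ := KL1_seg hm
    have m1 : 0 ≤ t * D := mul_nonneg ht0 hD.le
    have m2 : 0 ≤ (1 - t) * D := mul_nonneg (by linarith) hD.le
    rcases hij with ⟨rfl, rfl⟩ | ⟨rfl, rfl⟩ | ⟨rfl, rfl⟩ | ⟨rfl, rfl⟩ | ⟨rfl, rfl⟩ | ⟨rfl, rfl⟩ |
      ⟨rfl, rfl⟩ | ⟨rfl, rfl⟩ <;> fin_cases k <;> first
      | exact hk1 rfl
      | exact hk2 rfl
      | (simp only [Fin.zero_eta, Fin.mk_one, Fin.reduceFinMk, g0, g1, g2, g3] at e1 e2
         first
           | linarith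
           | (have ht : t = 1 := by linarith
              subst ht
              linarith)
           | (have ht : t = 0 := by linarith
              subst ht
              linarith)
           | (have ht : t = 1 / 2 := by linarith
              subst ht
              linarith)
           | nlinarith)
  · -- c4
    intro i k d hd hk s hs e
    have e1 := congrArg Prod.fst e
    have e2 := congrArg Prod.snd e
    have p1 : 0 ≤ s * ya := mul_nonneg hs ha.le
    have p2 : 0 ≤ s * yb := mul_nonneg hs hb.le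
    fin_cases i <;> simp only [Fin.zero_eta, Fin.mk_one, Fin.reduceFinMk, r0, r1, r2, r3] at hd <;>
      subst hd <;> fin_cases k <;> first
      | exact hk rfl
      | (simp only [Fin.zero_eta, Fin.mk_one, Fin.reduceFinMk, g0, g1, g2, g3, Prod.fst_add,
           Prod.snd_add, Prod.smul_fst, Prod.smul_snd, smul_eq_mul] at e1 e2
         first
           | linarith
           | (have hs0 := z0 s ya hs ha (by linarith)
              subst hs0
              linarith)
           | (have hs0 := z0 s yb hs hb (by linarith)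
              subst hs0
              linarith)
           | nlinarith)
  · -- c5
    rintro i j k l hij hkl h1 h2 h3 h4 ⟨z, hz1, hz2⟩
    exfalso
    obtain ⟨t, ht0, ht1, e1, e2⟩ := KL1_seg hz1
    obtain ⟨u, hu0, hu1, f1, f2⟩ := KL1_seg hz2
    have m1 : 0 ≤ t * D := mul_nonneg ht0 hD.le
    have m2 : 0 ≤ (1 - t) * D := mul_nonneg (by linarith) hD.le
    have m3 : 0 ≤ u * D := mul_nonneg hu0 hD.le
    have m4 : 0 ≤ (1 - u) * D := mul_nonneg (by linarith) hD.le
    rcases hij with ⟨rfl, rfl⟩ | ⟨rfl, rfl⟩ | ⟨rfl, rfl⟩ | ⟨rfl, rfl⟩ | ⟨rfl, rfl⟩ | ⟨rfl, rfl⟩ |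
      ⟨rfl, rfl⟩ | ⟨rfl, rfl⟩ <;> rcases hkl with ⟨rfl, rfl⟩ | ⟨rfl, rfl⟩ | ⟨rfl, rfl⟩ | ⟨rfl, rfl⟩ |
      ⟨rfl, rfl⟩ | ⟨rfl, rfl⟩ | ⟨rfl, rfl⟩ | ⟨rfl, rfl⟩ <;> first
      | exact h1 rfl
      | exact h2 rfl
      | exact h3 rfl
      | exact h4 rfl
      | (simp only [g0, g1, g2, g3] at e1 e2 f1 f2
         have q1 : z.1 = z.1 := rfl
         first
           | linarith
           | (have hh : z.2 * D = z.2 * D := rfl
              nlinarith))
  · -- c6
    intro i j k hij d hd hk1 hk2 s hs hm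
    obtain ⟨t, ht0, ht1, e1, e2⟩ := KL1_seg hm
    have m1 : 0 ≤ t * D := mul_nonneg ht0 hD.le
    have m2 : 0 ≤ (1 - t) * D := mul_nonneg (by linarith) hD.le
    have p1 : 0 ≤ s * ya := mul_nonneg hs ha.le
    have p2 : 0 ≤ s * yb := mul_nonneg hs hb.le
    fin_cases k <;> simp only [Fin.zero_eta, Fin.mk_one, Fin.reduceFinMk, r0, r1, r2, r3] at hd <;>
      subst hd <;> rcases hij with ⟨rfl, rfl⟩ | ⟨rfl, rfl⟩ | ⟨rfl, rfl⟩ | ⟨rfl, rfl⟩ | ⟨rfl, rfl⟩ |
      ⟨rfl, rfl⟩ | ⟨rfl, rfl⟩ | ⟨rfl, rfl⟩ <;> first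
      | exact absurd rfl hk1
      | exact absurd rfl hk2
      | (simp only [ip, g0, g2, Prod.fst_sub, Prod.snd_sub]
         ring1)
      | (exfalso
         simp only [Fin.zero_eta, Fin.mk_one, Fin.reduceFinMk, g0, g1, g2, g3, Prod.fst_add,
           Prod.snd_add, Prod.smul_fst, Prod.smul_snd, smul_eq_mul] at e1 e2
         first
           | linarith
           | (have hs0 := z0 s ya hs ha (by linarith)
              subst hs0
              have ht : t = 0 := by linarith
              subst ht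
              linarith)
           | (have hs0 := z0 s ya hs ha (by linarith)
              subst hs0
              have ht : t = 1 := by linarith
              subst ht
              linarith)
           | (have hs0 := z0 s yb hs hb (by linarith)
              subst hs0
              have ht : t = 0 := by linarith
              subst ht
              linarith)
           | (have hs0 := z0 s yb hs hb (by linarith)
              subst hs0
              have ht : t = 1 := by linarith
              subst ht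
              linarith)
           | (have ht : t = 1 / 2 := by linarith
              subst ht
              linarith)
           | nlinarith)
  · -- c7
    intro i j hij d hd d' hd' s s' hs hs' e
    have e1 := congrArg Prod.fst e
    have e2 := congrArg Prod.snd e
    have p1 : 0 ≤ s * ya := mul_nonneg hs ha.le
    have p2 : 0 ≤ s' * ya := mul_nonneg hs' ha.le
    have p3 : 0 ≤ s * yb := mul_nonneg hs hb.le
    have p4 : 0 ≤ s' * yb := mul_nonneg hs' hb.le
    have q1 : s * xa = ka * (s * ya) := by rw [← hka]; ring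
    have q2 : s' * xa = ka * (s' * ya) := by rw [← hka]; ring
    have q3 : s * xb = (ka - D) * (s * yb) := by rw [← hkb]; ring
    have q4 : s' * xb = (ka - D) * (s' * yb) := by rw [← hkb]; ring
    have n1 : 0 ≤ D * (s * yb) := mul_nonneg hD.le p3
    have n2 : 0 ≤ D * (s' * yb) := mul_nonneg hD.le p4
    fin_cases i <;> simp only [Fin.zero_eta, Fin.mk_one, Fin.reduceFinMk, r0, r1, r2, r3] at hd <;>
      subst hd <;> fin_cases j <;>
      simp only [Fin.zero_eta, Fin.mk_one, Fin.reduceFinMk, r0, r1, r2, r3] at hd' <;>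
      subst hd' <;> first
      | exact hij rfl
      | (simp only [Fin.zero_eta, Fin.mk_one, Fin.reduceFinMk, g0, g1, g2, g3, Prod.fst_add,
           Prod.snd_add, Prod.smul_fst, Prod.smul_snd, smul_eq_mul] at e1 e2
         first
           | linarith
           | (have w : s * ya = s' * yb := by linarith
              rw [q1, q4, w] at e1
              linarith)
           | (have w : s' * ya = s * yb := by linarith
              rw [q2, q3, w] at e1
              linarith)
           | nlinarith)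

theorem kconf_1 {xa ya xb yb : ℝ} (ha : 0 < ya) (hb : 0 < yb) (h : xb * ya < xa * yb) :
    ∃ g, KConf (xa, ya) (xb, yb) g := by
  have hka : xa / ya * ya = xa := div_mul_cancel₀ xa ha.ne'
  have hkb : (xa / ya - (xa / ya - xb / yb)) * yb = xb := by
    rw [sub_sub_cancel]
    exact div_mul_cancel₀ xb hb.ne'
  have hD : 0 < xa / ya - xb / yb := by
    rw [sub_pos, div_lt_div_iff₀ hb ha]
    exact h
  refine ⟨![(2 * (xa / ya), (2 : ℝ)), (2 * (xa / ya) - 2 * (xa / ya - xb / yb), 2),
    (2 * (xa / ya), 0), (2 * (xa / ya) - (xa / ya - xb / yb) / 2, 1)],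
    KL1_loc ha hb hka hkb hD rfl rfl rfl rfl, ⟨2 / ya, ?_⟩, ⟨2 / yb, ?_⟩, rfl, rfl⟩
  · apply Prod.ext
    · simp only [Matrix.cons_val_zero, Prod.smul_fst, smul_eq_mul]
      ring
    · simp only [Matrix.cons_val_zero, Prod.smul_snd, smul_eq_mul]
      exact (div_mul_cancel₀ 2 ha.ne').symm
  · apply Prod.ext
    · simp only [Matrix.cons_val_one, Matrix.cons_val_zero, Prod.smul_fst, smul_eq_mul]
      ring
    · simp only [Matrix.cons_val_one, Matrix.cons_val_zero, Prod.smul_snd, smul_eq_mul]
      exact (div_mul_cancel₀ 2 hb.ne').symm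

end MP_a17342_co.RT
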