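import Pool.Agent.Lib.MP_a17342_co.RT.Dir

/-!
# Local drawing in the unit disc: two vertices joined to three points of the circle
-/

set_option autoImplicit false

namespace MP_a17342_co.RT

private theorem KPts_aff (f w p q : P) (a b : ℝ) (h : a + b = 1) :
    ip (a • p + b • q - f) w = a * ip (p - f) w + b * ip (q - f) w := by
  obtain rfl : b = 1 - a := by linarith
  simp only [ip, Prod.fst_add, Prod.snd_add, Prod.smul_fst, Prod.smul_snd, Prod.fst_sub,
    Prod.snd_sub, smul_eq_mul]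
  ring

private theorem KPts_small {c d e : ℝ} (hc : c < 1) : ∃ s : ℝ, 0 < s ∧ c + 2 * s * d + s ^ 2 * e < 1 := by
  have h1 : Filter.Tendsto (fun s : ℝ => c + 2 * s * d + s ^ 2 * e) (nhdsWithin 0 (Set.Ioi 0))
      (nhds (c + 2 * 0 * d + 0 ^ 2 * e)) := by
    apply tendsto_nhdsWithin_of_tendsto_nhds
    apply Continuous.tendsto
    fun_prop
  have h2 : c + 2 * 0 * d + 0 ^ 2 * e < 1 := by linarith
  have h3 := (h1.eventually (gt_mem_nhds h2)).and self_mem_nhdsWithin
  obtain ⟨s, hs1, hs2⟩ := h3.exists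
  exact ⟨s, hs2, hs1⟩

theorem k23_aux {x y z : P} (hx : ip x x = 1) (hy : ip y y = 1) (hz : ip z z = 1)
    (h1 : 0 < ip (y - x) (z - x)) (h2 : 0 < ip (x - y) (z - y)) (hxy : x ≠ y) (hxz : x ≠ z)
    (hyz : y ≠ z) :
    ∃ u v : P, ip u u < 1 ∧ ip v v < 1 ∧ u ≠ v ∧
      v ∉ segment ℝ u x ∧ v ∉ segment ℝ u y ∧ v ∉ segment ℝ u z ∧
      u ∉ segment ℝ v x ∧ u ∉ segment ℝ v y ∧ u ∉ segment ℝ v z ∧
      ip (x - u) (z - v) = 0 ∧ Disjoint (segment ℝ u x) (segment ℝ v y) ∧
      Disjoint (segment ℝ u y) (segment ℝ v x) ∧ Disjoint (segment ℝ u y) (segment ℝ v z) ∧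
      Disjoint (segment ℝ u z) (segment ℝ v x) ∧ Disjoint (segment ℝ u z) (segment ℝ v y) := by
  obtain ⟨x1, x2⟩ := x
  obtain ⟨y1, y2⟩ := y
  obtain ⟨z1, z2⟩ := z
  have hD : 0 < ip ((y1, y2) - (x1, x2) : P) ((y1, y2) - (x1, x2)) := by
    simp only [ip, Prod.mk_sub_mk] at *
    nlinarith [h1, h2]
  set D := ip ((y1, y2) - (x1, x2) : P) ((y1, y2) - (x1, x2)) with hDdef
  obtain ⟨α, hα⟩ : ∃ α : ℝ, α * D = ip ((y1, y2) - (x1, x2) : P) ((z1, z2) - (x1, x2)) :=
    ⟨ip ((y1, y2) - (x1, x2) : P) ((z1, z2) - (x1, x2)) / D, div_mul_cancel₀ _ hD.ne'⟩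
  have hα0 : 0 < α := by
    by_contra h
    push Not at h
    nlinarith
  have hα1 : α < 1 := by
    by_contra h
    push Not at h
    have h3 : D ≤ α * D := by nlinarith
    rw [hα] at h3
    simp only [ip, Prod.mk_sub_mk] at *
    nlinarith
  set f : P := ((x1 + α * (y1 - x1), x2 + α * (y2 - x2)) : P) with hf
  have hff : ip f f < 1 := by
    have h3 : ip f f = 1 - α * (1 - α) * D := by
      simp only [ip, Prod.mk_sub_mk] at *
      rw [hf, hDdef]
      simp only
      linear_combination (1 - α) * hx + α * hy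
    rw [h3]
    have : 0 < α * (1 - α) * D := mul_pos (mul_pos hα0 (by linarith)) hD
    linarith
  have hKz : ip ((z1, z2) - f : P) ((y1, y2) - (x1, x2)) = 0 := by
    simp only [ip, Prod.mk_sub_mk, hf, hDdef] at *
    linarith
  have hh : 0 < ip ((z1, z2) - f : P) ((z1, z2) - f) := by
    have h3 : ip ((z1, z2) - f : P) ((z1, z2) - f) = (z1 - f.1) ^ 2 + (z2 - f.2) ^ 2 := by
      simp only [ip, Prod.fst_sub, Prod.snd_sub]
      ring
    rw [h3]
    by_contra h
    push Not at h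
    have e1 : z1 - f.1 = 0 := by nlinarith [sq_nonneg (z1 - f.1), sq_nonneg (z2 - f.2)]
    have e2 : z2 - f.2 = 0 := by nlinarith [sq_nonneg (z1 - f.1), sq_nonneg (z2 - f.2)]
    have e3 : ((z1, z2) : P) = f := Prod.ext (by simpa using sub_eq_zero.1 e1)
      (by simpa using sub_eq_zero.1 e2)
    rw [e3] at hz
    linarith
  obtain ⟨σ, hσ, hσ1⟩ := KPts_small (d := ip f (f - (z1, z2))) (e := ip (f - (z1, z2)) (f - (z1, z2))) hff
  set X : P := (x1, x2) with hX
  set Y : P := (y1, y2) with hY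
  set Z : P := (z1, z2) with hZ
  set u : P := (1 / 2 : ℝ) • f + (1 / 2 : ℝ) • Y with hu
  set v : P := (1 + σ) • f + (-σ) • Z with hv
  have fX : ip (X - f) (Y - X) = -(α * D) := by
    rw [hDdef]
    simp only [ip, Prod.fst_sub, Prod.snd_sub, hf, hX, hY]
    ring
  have fY : ip (Y - f) (Y - X) = (1 - α) * D := by
    rw [hDdef]
    simp only [ip, Prod.fst_sub, Prod.snd_sub, hf, hX, hY]
    ring
  have ff : ∀ w : P, ip (f - f) w = 0 := by
    intro w
    simp [ip]
  have gX : ip (X - f) (Z - f) = 0 := by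
    have h3 : ip (X - f) (Z - f) = -α * ip (Z - f) (Y - X) := by
      simp only [ip, Prod.fst_sub, Prod.snd_sub, hf, hX, hY]
      ring
    rw [h3, hKz, mul_zero]
  have gY : ip (Y - f) (Z - f) = 0 := by
    have h3 : ip (Y - f) (Z - f) = (1 - α) * ip (Z - f) (Y - X) := by
      simp only [ip, Prod.fst_sub, Prod.snd_sub, hf, hX, hY]
      ring
    rw [h3, hKz, mul_zero]
  have fu : ip (u - f) (Y - X) = (1 - α) * D / 2 := by
    rw [hu, KPts_aff _ _ _ _ _ _ (by norm_num), ff, fY]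
    ring
  have gu : ip (u - f) (Z - f) = 0 := by
    rw [hu, KPts_aff _ _ _ _ _ _ (by norm_num), ff, gY]
    ring
  have fv : ip (v - f) (Y - X) = 0 := by
    rw [hv, KPts_aff _ _ _ _ _ _ (by ring), ff, hKz]
    ring
  have gv : ip (v - f) (Z - f) = -(σ * ip (Z - f) (Z - f)) := by
    rw [hv, KPts_aff _ _ _ _ _ _ (by ring), ff]
    ring
  set h := ip (Z - f) (Z - f) with hhdef
  have hαD : 0 < α * D := mul_pos hα0 hD
  have hβD : 0 < (1 - α) * D := mul_pos (by linarith) hD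
  have hσh : 0 < σ * h := mul_pos hσ hh
  have seg : ∀ p a b : P, p ∈ segment ℝ a b → ∃ s t : ℝ, 0 ≤ s ∧ 0 ≤ t ∧ s + t = 1 ∧
      ip (p - f) (Y - X) = s * ip (a - f) (Y - X) + t * ip (b - f) (Y - X) ∧
      ip (p - f) (Z - f) = s * ip (a - f) (Z - f) + t * ip (b - f) (Z - f) := by
    rintro p a b ⟨s, t, hs, ht, hst, rfl⟩
    exact ⟨s, t, hs, ht, hst, KPts_aff _ _ _ _ _ _ hst, KPts_aff _ _ _ _ _ _ hst⟩
  refine ⟨u, v, ?_, ?_, ?_, ?_, ?_, ?_, ?_, ?_, ?_, ?_, ?_, ?_, ?_, ?_, ?_⟩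
  · have h3 : ip u u = 1 - ((1 + α) / 2) * (1 - (1 + α) / 2) * D := by
      rw [hDdef]
      simp only [ip, Prod.fst_sub, Prod.snd_sub, Prod.fst_add, Prod.snd_add, Prod.smul_fst,
        Prod.smul_snd, smul_eq_mul, hu, hf, hX, hY, hZ] at *
      linear_combination (1 - (1 + α) / 2) * hx + ((1 + α) / 2) * hy
    rw [h3]
    have : 0 < ((1 + α) / 2) * (1 - (1 + α) / 2) * D :=
      mul_pos (mul_pos (by linarith) (by linarith)) hD
    linarith
  · have h3 : ip v v = ip f f + 2 * σ * ip f (f - Z) + σ ^ 2 * ip (f - Z) (f - Z) := by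
      rw [hv]
      simp only [ip, Prod.fst_sub, Prod.snd_sub, Prod.fst_add, Prod.snd_add, Prod.smul_fst,
        Prod.smul_snd, smul_eq_mul]
      ring
    rw [h3]
    exact hσ1
  · intro e
    rw [e] at gu
    linarith
  · intro hm
    obtain ⟨s, t, hs, ht, hst, e1, e2⟩ := seg _ _ _ hm
    rw [gv, gu, gX] at e2
    linarith
  · intro hm
    obtain ⟨s, t, hs, ht, hst, e1, e2⟩ := seg _ _ _ hm
    rw [gv, gu, gY] at e2
    linarith
  · intro hm
    obtain ⟨s, t, hs, ht, hst, e1, e2⟩ := seg _ _ _ hm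
    rw [gv, gu] at e2
    nlinarith [mul_nonneg ht hh.le]
  · intro hm
    obtain ⟨s, t, hs, ht, hst, e1, e2⟩ := seg _ _ _ hm
    rw [fu, fv, fX] at e1
    nlinarith [mul_nonneg ht hαD.le]
  · intro hm
    obtain ⟨s, t, hs, ht, hst, e1, e2⟩ := seg _ _ _ hm
    rw [fu, fv, fY] at e1
    rw [gu, gv, gY] at e2
    have hs0 : s = 0 := by
      have : s * (σ * h) = 0 := by linarith
      rcases mul_eq_zero.1 this with h5 | h5
      · exact h5
      · exact absurd h5 hσh.ne'
    subst hs0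
    obtain rfl : t = 1 := by linarith
    linarith
  · intro hm
    obtain ⟨s, t, hs, ht, hst, e1, e2⟩ := seg _ _ _ hm
    rw [fu, fv, hKz] at e1
    linarith
  · have h3 : ip (X - u) (Z - v) = -(1 + α) / 2 * (1 + σ) * ip (Z - f) (Y - X) := by
      rw [hu, hv]
      simp only [ip, Prod.fst_sub, Prod.snd_sub, Prod.fst_add, Prod.snd_add, Prod.smul_fst,
        Prod.smul_snd, smul_eq_mul, hf, hX, hY, hZ]
      ring
    rw [h3, hKz, mul_zero]
  · rw [Set.disjoint_left]
    intro p hp1 hp2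
    obtain ⟨s, t, hs, ht, hst, e1, e2⟩ := seg _ _ _ hp1
    obtain ⟨s', t', hs', ht', hst', e1', e2'⟩ := seg _ _ _ hp2
    rw [fu, fX] at e1
    rw [gu, gX] at e2
    rw [fv, fY] at e1'
    rw [gv, gY] at e2'
    have hs0 : s' = 0 := by
      have : s' * (σ * h) = 0 := by linarith
      rcases mul_eq_zero.1 this with h5 | h5
      · exact h5
      · exact absurd h5 hσh.ne'
    subst hs0
    obtain rfl : t' = 1 := by linarith
    nlinarith [mul_nonneg ht hαD.le, mul_nonneg ht hβD.le]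
  · rw [Set.disjoint_left]
    intro p hp1 hp2
    obtain ⟨s, t, hs, ht, hst, e1, e2⟩ := seg _ _ _ hp1
    obtain ⟨s', t', hs', ht', hst', e1', e2'⟩ := seg _ _ _ hp2
    rw [fu, fY] at e1
    rw [fv, fX] at e1'
    nlinarith [mul_nonneg ht hβD.le, mul_nonneg hs hβD.le, mul_nonneg ht' hαD.le]
  · rw [Set.disjoint_left]
    intro p hp1 hp2
    obtain ⟨s, t, hs, ht, hst, e1, e2⟩ := seg _ _ _ hp1
    obtain ⟨s', t', hs', ht', hst', e1', e2'⟩ := seg _ _ _ hp2
    rw [fu, fY] at e1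
    rw [fv, hKz] at e1'
    nlinarith [mul_nonneg ht hβD.le, mul_nonneg hs hβD.le]
  · rw [Set.disjoint_left]
    intro p hp1 hp2
    obtain ⟨s, t, hs, ht, hst, e1, e2⟩ := seg _ _ _ hp1
    obtain ⟨s', t', hs', ht', hst', e1', e2'⟩ := seg _ _ _ hp2
    rw [fu, hKz] at e1
    rw [gu] at e2
    rw [fv, fX] at e1'
    rw [gv, gX] at e2'
    have hs0 : s' = 0 := by
      have h6 := mul_nonneg ht hh.le
      have h7 := mul_nonneg hs' hσh.le
      have : s' * (σ * h) = 0 := by linarith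
      rcases mul_eq_zero.1 this with h5 | h5
      · exact h5
      · exact absurd h5 hσh.ne'
    subst hs0
    obtain rfl : t' = 1 := by linarith
    nlinarith [mul_nonneg hs hβD.le]
  · rw [Set.disjoint_left]
    intro p hp1 hp2
    obtain ⟨s, t, hs, ht, hst, e1, e2⟩ := seg _ _ _ hp1
    obtain ⟨s', t', hs', ht', hst', e1', e2'⟩ := seg _ _ _ hp2
    rw [fu, hKz] at e1
    rw [gu] at e2
    rw [fv, fY] at e1'
    rw [gv, gY] at e2'
    have hs0 : s' = 0 := by
      have h6 := mul_nonneg ht hh.le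
      have h7 := mul_nonneg hs' hσh.le
      have : s' * (σ * h) = 0 := by linarith
      rcases mul_eq_zero.1 this with h5 | h5
      · exact h5
      · exact absurd h5 hσh.ne'
    subst hs0
    obtain rfl : t' = 1 := by linarith
    nlinarith [mul_nonneg ht hβD.le]

theorem k23_points (q : Fin 3 → P) (hq : ∀ i, ip (q i) (q i) = 1)
    (hinj : Function.Injective q) :
    ∃ u v : P, ip u u < 1 ∧ ip v v < 1 ∧ u ≠ v ∧ (∀ i, v ∉ segment ℝ u (q i)) ∧
      (∀ i, u ∉ segment ℝ v (q i)) ∧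
      ∀ i j, i ≠ j → (segment ℝ u (q i) ∩ segment ℝ v (q j)).Nonempty →
        ip (q i - u) (q j - v) = 0 := by
  have h01 : q 0 ≠ q 1 := fun h => by simpa using hinj h
  have h02 : q 0 ≠ q 2 := fun h => by simpa using hinj h
  have h12 : q 1 ≠ q 2 := fun h => by simpa using hinj h
  have hne : ∀ a b c : P, a ≠ b → 0 < ip (b - a) (c - a) + ip (a - b) (c - b) := by
    intro a b c hab
    have h1 : ip (b - a) (c - a) + ip (a - b) (c - b) = (b.1 - a.1) ^ 2 + (b.2 - a.2) ^ 2 := by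
      simp only [ip, Prod.fst_sub, Prod.snd_sub]
      ring
    rw [h1]
    by_contra h
    push Not at h
    have e1 : b.1 - a.1 = 0 := by nlinarith [sq_nonneg (b.1 - a.1), sq_nonneg (b.2 - a.2)]
    have e2 : b.2 - a.2 = 0 := by nlinarith [sq_nonneg (b.1 - a.1), sq_nonneg (b.2 - a.2)]
    exact hab (Prod.ext (by linarith) (by linarith))
  have hc : ∀ a b : P, ip a b = ip b a := by
    intro a b
    simp only [ip]
    ring
  have s01 := hne (q 0) (q 1) (q 2) h01
  have s02 := hne (q 0) (q 2) (q 1) h02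
  have s12 := hne (q 1) (q 2) (q 0) h12
  rw [hc (q 1 - q 0) (q 2 - q 0)] at s01
  by_cases a0 : 0 < ip (q 2 - q 0) (q 1 - q 0)
  · by_cases a1 : 0 < ip (q 0 - q 1) (q 2 - q 1)
    · obtain ⟨u, v, hu, hv, huv, n1, n2, n3, n4, n5, n6, e, d1, d2, d3, d4, d5⟩ :=
        k23_aux (hq 0) (hq 1) (hq 2) (by rw [hc]; exact a0) a1 h01 h02 h12
      refine ⟨u, v, hu, hv, huv, fun i => by fin_cases i <;> assumption,
        fun i => by fin_cases i <;> assumption, fun i j hij hn => ?_⟩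
      rw [← Set.not_disjoint_iff_nonempty_inter] at hn
      fin_cases i <;> fin_cases j <;> first | exact absurd rfl hij | exact e | exact absurd (by assumption) hn
    · obtain ⟨u, v, hu, hv, huv, n1, n2, n3, n4, n5, n6, e, d1, d2, d3, d4, d5⟩ :=
        k23_aux (hq 0) (hq 2) (hq 1) a0 (by
          linarith [s12, hc (q 2 - q 1) (q 0 - q 1), hc (q 1 - q 2) (q 0 - q 2)]) h02 h01 h12.symm
      refine ⟨u, v, hu, hv, huv, fun i => by fin_cases i <;> assumption,
        fun i => by fin_cases i <;> assumption, fun i j hij hn => ?_⟩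
      rw [← Set.not_disjoint_iff_nonempty_inter] at hn
      fin_cases i <;> fin_cases j <;> first | exact absurd rfl hij | exact e | exact absurd (by assumption) hn
  · obtain ⟨u, v, hu, hv, huv, n1, n2, n3, n4, n5, n6, e, d1, d2, d3, d4, d5⟩ :=
        k23_aux (hq 1) (hq 2) (hq 0) (by
          rw [hc]
          linarith) (by
          rw [hc]
          linarith) h12 h01.symm h02.symm
    refine ⟨u, v, hu, hv, huv, fun i => by fin_cases i <;> assumption,
        fun i => by fin_cases i <;> assumption, fun i j hij hn => ?_⟩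
    rw [← Set.not_disjoint_iff_nonempty_inter] at hn
    fin_cases i <;> fin_cases j <;> first | exact absurd rfl hij | exact e | exact absurd (by assumption) hn

end MP_a17342_co.RT
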