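import Pool.Agent.Lib.MP_a17342_co.RT.Disk
import Pool.Agent.Lib.MP_a17342_co.RT.KPts
import Pool.Agent.Lib.MP_a17342_co.RT.Cho

/-!
# Two vertices with three common neighbours whose outside neighbours are distinct
Plan: W = {u, v, x, y, z}, w = x. u and v have no other neighbours, x, y, z at most one outside neighbour each (degree ≤ 3), distinct by h. ctr_card, ctr_sub, hV,
choose_units gives points on the circle for x, y, z (keep them), k23_points (q = ![γ x, γ y, γ z]) the points for u and v. blow_disc; h3: for the vertices on the circle use disc_seg.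
-/

set_option autoImplicit false

namespace MP_a17342_co.RT

variable {V : Type}

private lemma KTwo_three [Finite V] {G : SimpleGraph V} (hG : Sub G) {v a b c : V}
    (ha : G.Adj v a) (hb : G.Adj v b) (hc : G.Adj v c) (hab : a ≠ b) (hac : a ≠ c) (hbc : b ≠ c)
    {t : V} (ht : G.Adj v t) : t = a ∨ t = b ∨ t = c := by
  by_contra hne
  push Not at hne
  obtain ⟨h1, h2, h3⟩ := hne
  have hsub : ({t, a, b, c} : Set V) ⊆ G.neighborSet v := by
    intro s hs
    simp only [Set.mem_insert_iff, Set.mem_singleton_iff] at hs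
    rcases hs with rfl | rfl | rfl | rfl
    · exact ht
    · exact ha
    · exact hb
    · exact hc
  have hcard : ({t, a, b, c} : Set V).ncard = 4 := by
    rw [Set.ncard_insert_of_notMem (by simp [h1, h2, h3]), Set.ncard_insert_of_notMem
      (by simp [hab, hac]), Set.ncard_pair hbc]
  have := Set.ncard_le_ncard hsub (Set.toFinite _)
  have h4 := hG v
  omega

private lemma KTwo_two [Finite V] {G : SimpleGraph V} (hG : Sub G) {v a b : V}
    (ha : G.Adj v a) (hb : G.Adj v b) (hab : a ≠ b)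
    {t t' : V} (ht : G.Adj v t) (ht' : G.Adj v t') (h1 : t ≠ a) (h2 : t ≠ b) (h1' : t' ≠ a)
    (h2' : t' ≠ b) : t = t' := by
  by_contra hne
  rcases KTwo_three hG ha hb ht' hab h1'.symm h2'.symm ht with h | h | h
  · exact h1 h
  · exact h2 h
  · exact hne h

private lemma KTwo_ext [Finite V] {G : SimpleGraph V} {W : Set V} {w : V}
    (h : RAC (ctr G W w)) : ∃ p : V → P, Draws (ctr G W w) (fun x => p x.1) := by
  classical
  obtain ⟨p', hp'⟩ := h
  refine ⟨fun a => if ha : a ∉ W ∨ a = w then p' ⟨a, ha⟩ else 0, ?_⟩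
  have : (fun x : {x : V // x ∉ W ∨ x = w} =>
      (fun a => if ha : a ∉ W ∨ a = w then p' ⟨a, ha⟩ else (0 : P)) x.1) = p' := by
    funext x
    simp only
    rw [dif_pos x.2]
  rw [this]
  exact hp'

private lemma KTwo_ip1 {A B C D : P} (h : ip (B - A) (D - C) = 0) : ip (A - B) (D - C) = 0 := by
  simp only [ip, Prod.fst_sub, Prod.snd_sub] at h ⊢
  linarith

private lemma KTwo_ip2 {A B C D : P} (h : ip (B - A) (D - C) = 0) : ip (B - A) (C - D) = 0 := by
  simp only [ip, Prod.fst_sub, Prod.snd_sub] at h ⊢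
  linarith

private lemma KTwo_ip3 {A B C D : P} (h : ip (B - A) (D - C) = 0) : ip (D - C) (B - A) = 0 := by
  simp only [ip, Prod.fst_sub, Prod.snd_sub] at h ⊢
  linarith

theorem k23 [Finite V] (hV : IH V) {G : SimpleGraph V} (hG : Sub G) {u v x y z : V}
    (hux : G.Adj u x) (huy : G.Adj u y) (huz : G.Adj u z) (hvx : G.Adj v x) (hvy : G.Adj v y)
    (hvz : G.Adj v z) (huv : u ≠ v) (hxy : x ≠ y) (hxz : x ≠ z) (hyz : y ≠ z)
    (nxy : ¬ G.Adj x y) (nxz : ¬ G.Adj x z) (nyz : ¬ G.Adj y z)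
    (h : ∀ t, t ≠ u → t ≠ v →
      ¬ (G.Adj x t ∧ G.Adj y t) ∧ ¬ (G.Adj x t ∧ G.Adj z t) ∧ ¬ (G.Adj y t ∧ G.Adj z t)) :
    RAC G := by
  classical
  set n : Fin 3 → V := ![x, y, z] with hn
  have hninj : Function.Injective n := by
    intro i j hij
    fin_cases i <;> fin_cases j <;> simp_all
  have hun : ∀ i, G.Adj u (n i) := by
    intro i; fin_cases i
    · exact hux
    · exact huy
    · exact huz
  have hvn : ∀ i, G.Adj v (n i) := by
    intro i; fin_cases i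
    · exact hvx
    · exact hvy
    · exact hvz
  have hnn : ∀ i j, ¬ G.Adj (n i) (n j) := by
    intro i j
    fin_cases i <;> fin_cases j
    · exact G.irrefl
    · exact nxy
    · exact nxz
    · exact fun h => nxy h.symm
    · exact G.irrefl
    · exact nyz
    · exact fun h => nxz h.symm
    · exact fun h => nyz h.symm
    · exact G.irrefl
  have hu3 : ∀ t, G.Adj u t → ∃ i, t = n i := by
    intro t ht
    rcases KTwo_three hG hux huy huz hxy hxz hyz ht with h | h | h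
    · exact ⟨0, h⟩
    · exact ⟨1, h⟩
    · exact ⟨2, h⟩
  have hv3 : ∀ t, G.Adj v t → ∃ i, t = n i := by
    intro t ht
    rcases KTwo_three hG hvx hvy hvz hxy hxz hyz ht with h | h | h
    · exact ⟨0, h⟩
    · exact ⟨1, h⟩
    · exact ⟨2, h⟩
  have hone' : ∀ i t t', G.Adj (n i) t → G.Adj (n i) t' → t ≠ u → t ≠ v → t' ≠ u → t' ≠ v →
      t = t' := by
    intro i t t' h1 h2 h3 h4 h5 h6
    exact KTwo_two hG (hun i).symm (hvn i).symm huv h1 h2 h3 h4 h5 h6
  have hd' : ∀ i j t, G.Adj (n i) t → G.Adj (n j) t → t ≠ u → t ≠ v → i = j := by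
    intro i j t h1 h2 h3 h4
    obtain ⟨k1, k2, k3⟩ := h t h3 h4
    match i, j, h1, h2 with
    | 0, 0, _, _ => rfl
    | 0, 1, h1, h2 => exact absurd ⟨h1, h2⟩ k1
    | 0, 2, h1, h2 => exact absurd ⟨h1, h2⟩ k2
    | 1, 0, h1, h2 => exact absurd ⟨h2, h1⟩ k1
    | 1, 1, _, _ => rfl
    | 1, 2, h1, h2 => exact absurd ⟨h1, h2⟩ k3
    | 2, 0, h1, h2 => exact absurd ⟨h2, h1⟩ k2
    | 2, 1, h1, h2 => exact absurd ⟨h2, h1⟩ k3
    | 2, 2, _, _ => rfl
  set W : Set V := {a | a = u ∨ a = v ∨ ∃ i, a = n i} with hW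
  have mu : u ∈ W := Or.inl rfl
  have mv : v ∈ W := Or.inr (Or.inl rfl)
  have mn : ∀ i, n i ∈ W := fun i => Or.inr (Or.inr ⟨i, rfl⟩)
  have hout : ∀ a ∈ W, ∀ t, t ∉ W → G.Adj a t → ∃ i, a = n i := by
    intro a ha t ht hat
    rcases ha with rfl | rfl | ⟨i, rfl⟩
    · obtain ⟨i, rfl⟩ := hu3 t hat
      exact absurd (mn i) ht
    · obtain ⟨i, rfl⟩ := hv3 t hat
      exact absurd (mn i) ht
    · exact ⟨i, rfl⟩
  have hnu : ∀ t, t ∉ W → t ≠ u ∧ t ≠ v := by
    intro t ht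
    exact ⟨fun h => ht (h ▸ mu), fun h => ht (h ▸ mv)⟩
  have huniq : ∀ a ∈ W, ∀ a' ∈ W, ∀ t, t ∉ W → G.Adj a t → G.Adj a' t → a = a' := by
    intro a ha a' ha' t ht h1 h2
    obtain ⟨i, rfl⟩ := hout a ha t ht h1
    obtain ⟨j, rfl⟩ := hout a' ha' t ht h2
    rw [hd' i j t h1 h2 (hnu t ht).1 (hnu t ht).2]
  have hone : ∀ a ∈ W, ∀ t, t ∉ W → ∀ t', t' ∉ W → G.Adj a t → G.Adj a t' → t = t' := by
    intro a ha t ht t' ht' h1 h2
    obtain ⟨i, rfl⟩ := hout a ha t ht h1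
    exact hone' i t t' h1 h2 (hnu t ht).1 (hnu t ht).2 (hnu t' ht').1 (hnu t' ht').2
  have hcard : {t : V | t ∉ W ∧ ∃ a ∈ W, G.Adj a t}.ncard ≤ 3 := by
    have h0 : ∀ t ∈ {t : V | t ∉ W ∧ ∃ a ∈ W, G.Adj a t}, ∃ i, G.Adj (n i) t := by
      rintro t ⟨ht, a, ha, hat⟩
      obtain ⟨i, rfl⟩ := hout a ha t ht hat
      exact ⟨i, hat⟩
    choose! f hf using h0
    have h1 : {t : V | t ∉ W ∧ ∃ a ∈ W, G.Adj a t}.ncard ≤ (Set.univ : Set (Fin 3)).ncard := by
      refine Set.ncard_le_ncard_of_injOn f (fun _ _ => Set.mem_univ _) ?_ (Set.toFinite _)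
      intro t ht t' ht' he
      have a1 := hf t ht
      have a2 := hf t' ht'
      rw [← he] at a2
      exact hone (n (f t)) (mn _) t ht.1 t' ht'.1 a1 a2
    rw [Set.ncard_univ, Nat.card_eq_fintype_card, Fintype.card_fin] at h1
    exact h1
  have mx : x ∈ W := mn 0
  have hcc := ctr_card (W := W) (w := x) (v := u) mx mu hux.ne
  have hRAC : RAC (ctr G W x) := hV _ _ hcc (ctr_sub hG mx hcard)
  obtain ⟨p, hp⟩ := KTwo_ext hRAC
  obtain ⟨γ₀, g1, g2, g3⟩ := choose_units mx huniq hone hp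
  obtain ⟨pu, pv, hpu, hpv, hpuv, hvs, hus, hcr⟩ := k23_points (fun i => γ₀ (n i))
    (fun i => g1 _ (mn i)) (fun i j hij => hninj (g2 _ (mn i) _ (mn j) hij))
  have hnu' : ∀ i, n i ≠ u := fun i => (hun i).ne'
  have hnv' : ∀ i, n i ≠ v := fun i => (hvn i).ne'
  set γ : V → P := Function.update (Function.update γ₀ u pu) v pv with hγ
  have eu : γ u = pu := by
    rw [hγ, Function.update_of_ne huv, Function.update_self]
  have ev : γ v = pv := by
    rw [hγ, Function.update_self]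
  have en : ∀ i, γ (n i) = γ₀ (n i) := by
    intro i
    rw [hγ, Function.update_of_ne (hnv' i), Function.update_of_ne (hnu' i)]
  have c1 : ∀ i, ip (γ (n i)) (γ (n i)) = 1 := fun i => by rw [en]; exact g1 _ (mn i)
  have hu1 : ∀ a ∈ W, ip (γ a) (γ a) ≤ 1 := by
    rintro a (rfl | rfl | ⟨i, rfl⟩)
    · rw [eu]; exact hpu.le
    · rw [ev]; exact hpv.le
    · exact (c1 i).le
  have neu : ∀ i, γ (n i) ≠ γ u := by
    intro i hh
    have := c1 i
    rw [hh, eu] at this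
    exact absurd this hpu.ne
  have nev : ∀ i, γ (n i) ≠ γ v := by
    intro i hh
    have := c1 i
    rw [hh, ev] at this
    exact absurd this hpv.ne
  have nuv : γ u ≠ γ v := by rw [eu, ev]; exact hpuv
  have hinj : ∀ a ∈ W, ∀ a' ∈ W, γ a = γ a' → a = a' := by
    rintro a (rfl | rfl | ⟨i, rfl⟩) a' (rfl | rfl | ⟨j, rfl⟩) hh
    · rfl
    · exact absurd hh nuv
    · exact absurd hh.symm (neu j)
    · exact absurd hh.symm nuv
    · rfl
    · exact absurd hh.symm (nev j)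
    · exact absurd hh (neu i)
    · exact absurd hh (nev i)
    · rw [en, en] at hh
      exact g2 _ (mn i) _ (mn j) hh
  have hedge : ∀ a ∈ W, ∀ b ∈ W, G.Adj a b → ∃ i, (a = u ∧ b = n i) ∨ (a = n i ∧ b = u) ∨
      (a = v ∧ b = n i) ∨ (a = n i ∧ b = v) := by
    rintro a (rfl | rfl | ⟨i, rfl⟩) b (hb | hb | ⟨j, hb⟩) hab
    · subst hb; exact absurd hab G.irrefl
    · obtain ⟨i, hi⟩ := hu3 b hab
      exact ⟨i, Or.inl ⟨rfl, hi⟩⟩
    · exact ⟨j, Or.inl ⟨rfl, hb⟩⟩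
    · obtain ⟨i, hi⟩ := hv3 b hab
      exact ⟨i, Or.inr (Or.inr (Or.inl ⟨rfl, hi⟩))⟩
    · subst hb; exact absurd hab G.irrefl
    · exact ⟨j, Or.inr (Or.inr (Or.inl ⟨rfl, hb⟩))⟩
    · exact ⟨i, Or.inr (Or.inl ⟨rfl, hb⟩)⟩
    · exact ⟨i, Or.inr (Or.inr (Or.inr ⟨rfl, hb⟩))⟩
    · subst hb; exact absurd hab (hnn i j)
  have hvs' : ∀ i, γ v ∉ segment ℝ (γ u) (γ (n i)) := by
    intro i; rw [eu, ev, en]; exact hvs i
  have hus' : ∀ i, γ u ∉ segment ℝ (γ v) (γ (n i)) := by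
    intro i; rw [eu, ev, en]; exact hus i
  have hcr' : ∀ i j, i ≠ j → (segment ℝ (γ u) (γ (n i)) ∩ segment ℝ (γ v) (γ (n j))).Nonempty →
      ip (γ (n i) - γ u) (γ (n j) - γ v) = 0 := by
    intro i j hij hh
    rw [eu, ev, en, en] at hh ⊢
    exact hcr i j hij hh
  refine blow_disc mx huniq hp γ hu1 hinj ?_ ?_ ?_
  · intro a ha t ht hat
    obtain ⟨i, rfl⟩ := hout a ha t ht hat
    rw [en]
    exact g3 _ (mn i) t ht hat
  · intro a ha b hb c hc hab hca hcb hmem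
    by_cases hcn : ∃ i, c = n i
    · obtain ⟨i, rfl⟩ := hcn
      rcases disc_seg (hu1 a ha) (hu1 b hb) (c1 i).ge hmem with hh | hh
      · exact hca (hinj _ (mn i) _ ha hh)
      · exact hcb (hinj _ (mn i) _ hb hh)
    · obtain ⟨i, he⟩ := hedge a ha b hb hab
      rcases hc with rfl | rfl | hc
      · rcases he with ⟨rfl, rfl⟩ | ⟨rfl, rfl⟩ | ⟨rfl, rfl⟩ | ⟨rfl, rfl⟩
        · exact hca rfl
        · exact hcb rfl
        · exact hus' i hmem
        · rw [segment_symm] at hmem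
          exact hus' i hmem
      · rcases he with ⟨rfl, rfl⟩ | ⟨rfl, rfl⟩ | ⟨rfl, rfl⟩ | ⟨rfl, rfl⟩
        · exact hvs' i hmem
        · rw [segment_symm] at hmem
          exact hvs' i hmem
        · exact hca rfl
        · exact hcb rfl
      · exact hcn hc
  · intro a ha b hb c hc d hd hab hcd hac had hbc hbd hne
    have hty : ∀ a ∈ W, ∀ b ∈ W, G.Adj a b →
        ((a = u ∧ ∃ i, b = n i) ∨ (b = u ∧ ∃ i, a = n i)) ∨
        ((a = v ∧ ∃ i, b = n i) ∨ (b = v ∧ ∃ i, a = n i)) := by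
      intro a ha b hb hab
      obtain ⟨i, ⟨h1, h2⟩ | ⟨h1, h2⟩ | ⟨h1, h2⟩ | ⟨h1, h2⟩⟩ := hedge a ha b hb hab
      · exact Or.inl (Or.inl ⟨h1, i, h2⟩)
      · exact Or.inl (Or.inr ⟨h2, i, h1⟩)
      · exact Or.inr (Or.inl ⟨h1, i, h2⟩)
      · exact Or.inr (Or.inr ⟨h2, i, h1⟩)
    have key : ∀ i j, n i ≠ n j →
        (segment ℝ (γ u) (γ (n i)) ∩ segment ℝ (γ v) (γ (n j))).Nonempty →
        ip (γ (n i) - γ u) (γ (n j) - γ v) = 0 := fun i j hij hh =>
      hcr' i j (fun e => hij (by rw [e])) hh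
    have key2 : ∀ a b c d : V, ((a = u ∧ ∃ i, b = n i) ∨ (b = u ∧ ∃ i, a = n i)) →
        ((c = v ∧ ∃ j, d = n j) ∨ (d = v ∧ ∃ j, c = n j)) → a ≠ c → a ≠ d → b ≠ c → b ≠ d →
        (segment ℝ (γ a) (γ b) ∩ segment ℝ (γ c) (γ d)).Nonempty →
        ip (γ b - γ a) (γ d - γ c) = 0 := by
      intro a b c d h1 h2 hac had hbc hbd hne
      rcases h1 with ⟨e1, i, e2⟩ | ⟨e1, i, e2⟩ <;> rcases h2 with ⟨e3, j, e4⟩ | ⟨e3, j, e4⟩
      · rw [e2, e4] at hbd
        rw [e1, e2, e3, e4] at hne ⊢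
        exact key i j hbd hne
      · rw [e2, e4] at hbc
        rw [e1, e2, e3, e4] at hne ⊢
        rw [segment_symm ℝ (γ (n j)) (γ v)] at hne
        exact KTwo_ip2 (key i j hbc hne)
      · rw [e2, e4] at had
        rw [e1, e2, e3, e4] at hne ⊢
        rw [segment_symm ℝ (γ (n i)) (γ u)] at hne
        exact KTwo_ip1 (key i j had hne)
      · rw [e2, e4] at hac
        rw [e1, e2, e3, e4] at hne ⊢
        rw [segment_symm ℝ (γ (n i)) (γ u), segment_symm ℝ (γ (n j)) (γ v)] at hne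
        exact KTwo_ip1 (KTwo_ip2 (key i j hac hne))
    rcases hty a ha b hb hab with h1 | h1 <;> rcases hty c hc d hd hcd with h2 | h2
    · exfalso
      rcases h1 with ⟨e1, _⟩ | ⟨e1, _⟩ <;> rcases h2 with ⟨e2, _⟩ | ⟨e2, _⟩
      · exact hac (e1.trans e2.symm)
      · exact had (e1.trans e2.symm)
      · exact hbc (e1.trans e2.symm)
      · exact hbd (e1.trans e2.symm)
    · exact key2 a b c d h1 h2 hac had hbc hbd hne
    · rw [Set.inter_comm] at hne
      exact KTwo_ip3 (key2 c d a b h2 h1 hac.symm hbc.symm had.symm hbd.symm hne)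
    · exfalso
      rcases h1 with ⟨e1, _⟩ | ⟨e1, _⟩ <;> rcases h2 with ⟨e2, _⟩ | ⟨e2, _⟩
      · exact hac (e1.trans e2.symm)
      · exact had (e1.trans e2.symm)
      · exact hbc (e1.trans e2.symm)
      · exact hbd (e1.trans e2.symm)

end MP_a17342_co.RT
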