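import Pool.Agent.Lib.MP_a17342_co.RT.Blow
import Pool.Agent.Lib.MP_a17342_co.RT.Dir

/-!
# A vertex of degree one
Plan: W = {v, u}, w = u. ctr_card, ctr_sub (outside neighbours of W: the neighbours of u other than v), hV gives a drawing of ctr G W u, extended
to p : V → P. e = exists_un outside the finite set of the un (p y - p u), y ∉ W adjacent to u. γ u = 0, γ v = e (γ = Function.update or if). blow:
v has no outside neighbour; h4: e ≠ 0 + s • D (s = 0: e ≠ 0; s > 0: un e = e = un D).
-/

set_option autoImplicit false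

namespace MP_a17342_co.RT

variable {V : Type}

theorem leaf [Finite V] (hV : IH V) {G : SimpleGraph V} (hG : Sub G) {v u : V}
    (h : G.neighborSet v = {u}) : RAC G := by
  classical
  have hvu : G.Adj v u := by
    have h1 : u ∈ G.neighborSet v := by rw [h]; exact Set.mem_singleton u
    exact h1
  have hne : v ≠ u := hvu.ne
  obtain ⟨W, hW⟩ : ∃ W : Set V, W = {v, u} := ⟨_, rfl⟩
  have hmem : ∀ x, x ∈ W ↔ x = v ∨ x = u := by
    intro x
    rw [hW, Set.mem_insert_iff, Set.mem_singleton_iff]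
  have hu : u ∈ W := (hmem u).mpr (Or.inr rfl)
  have hv : v ∈ W := (hmem v).mpr (Or.inl rfl)
  -- an element of `W` with an outside neighbour is `u`
  have hout : ∀ x ∈ W, ∀ y, y ∉ W → G.Adj x y → x = u := by
    intro x hx y hy hxy
    rcases (hmem x).mp hx with h1 | h1
    · exfalso
      rw [h1] at hxy
      have h2 : y ∈ G.neighborSet v := hxy
      rw [h, Set.mem_singleton_iff] at h2
      exact hy (h2 ▸ hu)
    · exact h1
  have hcard := ctr_card hu hv hne
  have hsub : Sub (ctr G W u) := by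
    refine ctr_sub hG hu ?_
    refine (Set.ncard_le_ncard (t := G.neighborSet u) ?_ (Set.toFinite _)).trans (hG u)
    rintro y ⟨hy, x, hx, hxy⟩
    have h1 := hout x hx y hy hxy
    rw [h1] at hxy
    exact hxy
  obtain ⟨q, hq⟩ := hV {x : V // x ∉ W ∨ x = u} (ctr G W u) hcard hsub
  obtain ⟨p, hp⟩ : ∃ p : V → P, p = fun x => if hx : x ∉ W ∨ x = u then q ⟨x, hx⟩ else 0 := ⟨_, rfl⟩
  have hpq : (fun x : {x : V // x ∉ W ∨ x = u} => p x.1) = q := by
    funext x
    rw [hp]
    show (if hx : x.1 ∉ W ∨ x.1 = u then q ⟨x.1, hx⟩ else 0) = q x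
    rw [dif_pos x.2]
  have hpd : Draws (ctr G W u) (fun x => p x.1) := by rw [hpq]; exact hq
  obtain ⟨e, he1, heS⟩ := exists_un (Set.range fun y : V => un (p y - p u)) (Set.finite_range _)
  have he0 : e ≠ 0 := by
    intro h0
    rw [h0] at he1
    have h1 : ip 0 0 = 0 := by simp [ip]
    rw [h1] at he1
    exact zero_ne_one he1
  obtain ⟨γ, hγ⟩ : ∃ γ : V → P, γ = fun x => if x = v then e else 0 := ⟨_, rfl⟩
  have hγv : γ v = e := by rw [hγ]; exact if_pos rfl
  have hγu : γ u = 0 := by rw [hγ]; exact if_neg hne.symm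
  -- three elements of `W`
  have h3' : ∀ a ∈ W, ∀ b ∈ W, ∀ c ∈ W, a ≠ b → c ≠ a → c ≠ b → False := by
    intro a ha b hb c hc hab hca hcb
    rcases (hmem a).mp ha with h1 | h1 <;> rcases (hmem b).mp hb with h2 | h2 <;>
      rcases (hmem c).mp hc with h3 | h3 <;> simp_all
  refine blow hu ?_ hpd γ ?_ ?_ ?_ ?_ ?_ ?_ ?_
  · intro x hx x' hx' y hy hxy hxy'
    rw [hout x hx y hy hxy, hout x' hx' y hy hxy']
  · intro x hx x' hx' hxx
    rcases (hmem x).mp hx with h1 | h1 <;> rcases (hmem x').mp hx' with h2 | h2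
    · rw [h1, h2]
    · rw [h1, h2, hγv, hγu] at hxx
      exact absurd hxx he0
    · rw [h1, h2, hγv, hγu] at hxx
      exact absurd hxx.symm he0
    · rw [h1, h2]
  · intro x hx y hy hxy
    refine ⟨0, le_rfl, ?_⟩
    rw [hout x hx y hy hxy, hγu, zero_smul]
  · intro a ha b hb c hc hab hca hcb
    exact (h3' a ha b hb c hc hab.ne hca hcb).elim
  · intro x hx y hy c hc hxy hcx s hs
    have h1 := hout x hx y hy hxy
    rw [h1] at hcx ⊢
    have h2 : c = v := by
      rcases (hmem c).mp hc with h3 | h3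
      · exact h3
      · exact absurd h3 hcx
    rw [h2, hγv, hγu, zero_add]
    intro h4
    rcases hs.eq_or_lt with h5 | h5
    · rw [← h5, zero_smul] at h4
      exact he0 h4
    · refine heS ⟨y, ?_⟩
      show un (p y - p u) = e
      rw [← un_smul (x := p y - p u) h5, ← h4]
      exact un_self he1
  · intro a ha b hb c hc d hd hab hcd hac had hbc hbd _
    exact (h3' c hc d hd a ha hcd.ne hac had).elim
  · intro a ha b hb x hx y hy hab hxy hxa hxb s hs
    exact (h3' a ha b hb x hx hab.ne hxa hxb).elim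
  · intro x hx x' hx' y hy y' hy' hxy hxy' hxx _ s s' hs hs'
    exact absurd ((hout x hx y hy hxy).trans (hout x' hx' y' hy' hxy').symm) hxx

end MP_a17342_co.RT
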