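import Pool.Agent.Lib.MP_a17342_co.RT.Defs

/-!
# Parts with at most three outgoing edges drawn without crossings in a triangle
-/

set_option autoImplicit false

namespace MP_a17342_co.RT

variable {V : Type}

/-- `W` is a set of vertices of `G`; only its elements `x₁`, `x₂`, `x₃` may have neighbours outside `W`,
at most one each, and these are different; `q` draws the part of `G` on `W` without crossings, with
straight edges, in the triangle with the corners `q x₁`, `q x₂`, `q x₃`. -/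
structure PlanePart (G : SimpleGraph V) (W : Set V) (x₁ x₂ x₃ : V) (q : V → ℝ × ℝ) : Prop where
  mem : x₁ ∈ W ∧ x₂ ∈ W ∧ x₃ ∈ W
  out : ∀ v ∈ W, ∀ y, y ∉ W → G.Adj v y → v = x₁ ∨ v = x₂ ∨ v = x₃
  one : ∀ v ∈ W, ∀ y, y ∉ W → ∀ y', y' ∉ W → G.Adj v y → G.Adj v y' → y = y'
  uniq : ∀ v ∈ W, ∀ v' ∈ W, ∀ y, y ∉ W → G.Adj v y → G.Adj v' y → v = v'
  corners : AffineIndependent ℝ ![q x₁, q x₂, q x₃]
  inside : ∀ v ∈ W, q v ∈ convexHull ℝ {q x₁, q x₂, q x₃}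
  inj : Set.InjOn q W
  free : ∀ a ∈ W, ∀ b ∈ W, ∀ c ∈ W, G.Adj a b → c ≠ a → c ≠ b → q c ∉ segment ℝ (q a) (q b)
  plane : ∀ a ∈ W, ∀ b ∈ W, ∀ c ∈ W, ∀ d ∈ W, G.Adj a b → G.Adj c d → a ≠ c → a ≠ d → b ≠ c →
    b ≠ d → Disjoint (segment ℝ (q a) (q b)) (segment ℝ (q c) (q d))

end MP_a17342_co.RT
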