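import Pool.Agent.Lib.MP_a17342_co.RT.Hull
import Pool.Agent.Lib.MP_a17342_co.RT.Cho
import Pool.Agent.Lib.MP_a17342_co.RT.Pole

/-!
# Plane parts
-/

set_option autoImplicit false

namespace MP_a17342_co.RT

variable {V : Type}

private theorem Plane_ncard [Finite V] {G : SimpleGraph V} {W : Set V}
    {x₁ x₂ x₃ : V} {q : V → ℝ × ℝ} (h : PlanePart G W x₁ x₂ x₃ q) :
    {y : V | y ∉ W ∧ ∃ x ∈ W, G.Adj x y}.ncard ≤ 3 := by
  classical
  let f : V → V := fun y => if h : ∃ x ∈ W, G.Adj x y then Classical.choose h else x₁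
  have hf : ∀ y ∈ {y : V | y ∉ W ∧ ∃ x ∈ W, G.Adj x y}, f y ∈ W ∧ G.Adj (f y) y := by
    rintro y ⟨_, hy2⟩
    have e : f y = Classical.choose hy2 := dif_pos hy2
    rw [e]
    exact Classical.choose_spec hy2
  have h1 : {y : V | y ∉ W ∧ ∃ x ∈ W, G.Adj x y}.ncard ≤ ({x₁, x₂, x₃} : Set V).ncard := by
    apply Set.ncard_le_ncard_of_injOn f
    · intro y hy
      obtain ⟨a1, a2⟩ := hf y hy
      have := h.out _ a1 y hy.1 a2
      simpa using this
    · intro y hy y' hy' hyy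
      obtain ⟨a1, a2⟩ := hf y hy
      obtain ⟨b1, b2⟩ := hf y' hy'
      rw [← hyy] at b2
      exact h.one _ a1 y hy.1 y' hy'.1 a2 b2
  refine h1.trans ?_
  calc ({x₁, x₂, x₃} : Set V).ncard ≤ ({x₂, x₃} : Set V).ncard + 1 := Set.ncard_insert_le _ _
    _ ≤ (({x₃} : Set V).ncard + 1) + 1 := Nat.add_le_add_right (Set.ncard_insert_le _ _) 1
    _ = 3 := by rw [Set.ncard_singleton]

theorem plane_part [Finite V] (hV : IH V) {G : SimpleGraph V} (hG : Sub G) {W : Set V}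
    {x₁ x₂ x₃ : V} {q : V → ℝ × ℝ} (h : PlanePart G W x₁ x₂ x₃ q) : RAC G := by
  classical
  obtain ⟨m1, m2, m3⟩ := h.mem
  have hinj := h.corners.injective
  have n12 : x₁ ≠ x₂ := by
    rintro rfl
    have := hinj (a₁ := 0) (a₂ := 1) rfl
    simp at this
  have n13 : x₁ ≠ x₃ := by
    rintro rfl
    have := hinj (a₁ := 0) (a₂ := 2) rfl
    simp at this
  have n23 : x₂ ≠ x₃ := by
    rintro rfl
    have := hinj (a₁ := 1) (a₂ := 2) rfl
    simp at this
  obtain ⟨p0, hp0⟩ := hV _ (ctr G W x₁) (ctr_card m1 m2 n12.symm) (ctr_sub hG m1 (Plane_ncard h))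
  let p : V → P := fun v => if hv : v ∉ W ∨ v = x₁ then p0 ⟨v, hv⟩ else 0
  have hpp : (fun x : {x : V // x ∉ W ∨ x = x₁} => p x.1) = p0 := by
    funext x
    exact dif_pos x.2
  have hp : Draws (ctr G W x₁) (fun x => p x.1) := by
    rw [hpp]
    exact hp0
  have hD : ∀ y, y ∉ W → p y - p x₁ ≠ 0 := by
    intro y hy h0
    have h1 : p y = p x₁ := sub_eq_zero.1 h0
    have h2 := @hp.1 ⟨y, Or.inl hy⟩ ⟨x₁, Or.inr rfl⟩ h1
    have h3 : y = x₁ := congrArg Subtype.val h2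
    exact hy (h3 ▸ m1)
  obtain ⟨δ, hδ1, hδ2, hδ3⟩ := choose_units m1 h.uniq h.one hp
  have hind : AffineIndependent ℝ ![δ x₁, δ x₂, δ x₃] :=
    circ_indep (hδ1 _ m1) (hδ1 _ m2) (hδ1 _ m3) (fun e => n12 (hδ2 _ m1 _ m2 e))
      (fun e => n13 (hδ2 _ m1 _ m3 e)) (fun e => n23 (hδ2 _ m2 _ m3 e))
  obtain ⟨f, hf, f1, f2, f3⟩ := aff_map h.corners hind
  have hseg : ∀ a b : P, ∀ z, z ∈ segment ℝ (f a) (f b) → ∃ u ∈ segment ℝ a b, f u = z := by
    intro a b z hz
    rw [← image_segment] at hz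
    exact hz
  have hhull : ∀ v ∈ W, f (q v) ∈ convexHull ℝ {δ x₁, δ x₂, δ x₃} := by
    intro v hv
    have h1 : f (q v) ∈ f '' convexHull ℝ {q x₁, q x₂, q x₃} := ⟨q v, h.inside v hv, rfl⟩
    rw [AffineMap.image_convexHull, Set.image_insert_eq, Set.image_insert_eq,
      Set.image_singleton, f1, f2, f3] at h1
    exact h1
  have hip : ∀ z : P, z ∈ convexHull ℝ {δ x₁, δ x₂, δ x₃} → 1 ≤ ip z z → ip z z = 1 := by
    intro z hz h1
    rcases hull_ip (hδ1 _ m1) (hδ1 _ m2) (hδ1 _ m3) h1 hz with e | e | e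
    · rw [e]; exact hδ1 _ m1
    · rw [e]; exact hδ1 _ m2
    · rw [e]; exact hδ1 _ m3
  have hout : ∀ x ∈ W, ∀ y, y ∉ W → G.Adj x y → f (q x) = un (p y - p x₁) := by
    intro x hx y hy hxy
    rw [← hδ3 x hx y hy hxy]
    rcases h.out x hx y hy hxy with e | e | e
    · rw [e]; exact f1
    · rw [e]; exact f2
    · rw [e]; exact f3
  have g3 : ∀ a ∈ W, ∀ b ∈ W, ∀ c ∈ W, G.Adj a b → c ≠ a → c ≠ b →
      f (q c) ∉ segment ℝ (f (q a)) (f (q b)) := by
    intro a ha b hb c hc hab hca hcb hz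
    obtain ⟨u, hu, e⟩ := hseg _ _ _ hz
    rw [hf e] at hu
    exact h.free a ha b hb c hc hab hca hcb hu
  refine blow m1 h.uniq hp (fun v => f (q v)) ?_ ?_ g3 ?_ ?_ ?_ ?_
  · intro x hx x' hx' e
    exact h.inj hx hx' (hf e)
  · intro x hx y hy hxy
    exact ⟨(Real.sqrt (ip (p y - p x₁) (p y - p x₁)))⁻¹, by positivity, hout x hx y hy hxy⟩
  · intro x hx y hy c hc hxy hcx s hs e
    have e' : f (q c) = un (p y - p x₁) + s • (p y - p x₁) := by
      rw [← hout x hx y hy hxy]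
      exact e
    have h1 := hip _ (hhull c hc) (by rw [e']; exact ray_ge (hD y hy) hs)
    rw [e'] at h1
    have h2 := ray_eq (hD y hy) hs h1
    have h3 : f (q c) = f (q x) := by
      rw [e', h2, zero_smul, add_zero, hout x hx y hy hxy]
    exact hcx (h.inj hc hx (hf h3))
  · intro a ha b hb c hc d hd hab hcd hac had hbc hbd hne
    exfalso
    obtain ⟨z, hz1, hz2⟩ := hne
    obtain ⟨u, hu, e⟩ := hseg _ _ _ hz1
    obtain ⟨v, hv, e'⟩ := hseg _ _ _ hz2
    have huv : u = v := hf (e.trans e'.symm)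
    rw [← huv] at hv
    exact Set.disjoint_left.1 (h.plane a ha b hb c hc d hd hab hcd hac had hbc hbd) hu hv
  · intro a ha b hb x hx y hy hab hxy hxa hxb s hs hz
    have e' : f (q x) + s • (p y - p x₁) = un (p y - p x₁) + s • (p y - p x₁) := by
      rw [hout x hx y hy hxy]
    have hzh : f (q x) + s • (p y - p x₁) ∈ convexHull ℝ {δ x₁, δ x₂, δ x₃} :=
      (convex_convexHull ℝ _).segment_subset (hhull a ha) (hhull b hb) hz
    have h1 := hip _ hzh (by rw [e']; exact ray_ge (hD y hy) hs)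
    rw [e'] at h1
    have h2 := ray_eq (hD y hy) hs h1
    have hz' : f (q x) ∈ segment ℝ (f (q a)) (f (q b)) := by
      have h3 : f (q x) + s • (p y - p x₁) = f (q x) := by rw [h2, zero_smul, add_zero]
      rw [← h3]
      exact hz
    exact g3 a ha b hb x hx hab hxa hxb hz'
  · intro x hx x' hx' y hy y' hy' hxy hxy' hxx _ s s' hs hs' e
    have e' : un (p y - p x₁) + s • (p y - p x₁) = un (p y' - p x₁) + s' • (p y' - p x₁) := by
      rw [← hout x hx y hy hxy, ← hout x' hx' y' hy' hxy']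
      exact e
    have h1 := ray_ray (hD y hy) (hD y' hy') hs hs' e'
    rw [← hout x hx y hy hxy, ← hout x' hx' y' hy' hxy'] at h1
    exact hxx (h.inj hx hx' (hf h1))

end MP_a17342_co.RT
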