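import Pool.Agent.Lib.MP_a17342_co.RT.Tht
import Pool.Agent.Lib.MP_a17342_co.RT.Dir

/-!
# A square and a pentagon with two common edges: the contraction
Plan: as DomC (dom_coll): ρ v = a for v ∈ {a, b, c, d}, q for v ∈ {q, r}, v otherwise.
-/

set_option autoImplicit false

namespace MP_a17342_co.RT

variable {V : Type}

private theorem ThtC_three {α : Type} (a b c : α) : ({a, b, c} : Set α).ncard ≤ 3 := by
  calc ({a, b, c} : Set α).ncard ≤ ({b, c} : Set α).ncard + 1 := Set.ncard_insert_le _ _
    _ ≤ (({c} : Set α).ncard + 1) + 1 := by gcongr; exact Set.ncard_insert_le _ _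
    _ = 3 := by rw [Set.ncard_singleton]

private theorem ThtC_rho (a b c d q r : V) (nd : [a, b, c, d, q, r].Nodup) :
    ∃ ρ : V → V, (∀ v, ρ v = a ↔ v = a ∨ v = b ∨ v = c ∨ v = d) ∧
      (∀ v, ρ v = q ↔ v = q ∨ v = r) ∧
      (∀ v, v ∉ [a, b, c, d, q, r] → ρ v = v) ∧
      (∀ v w, v ∉ [a, b, c, d, q, r] → ρ w = v → w = v) ∧
      (∀ v, ρ v = a ∨ ρ v = q ∨ (v ∉ [a, b, c, d, q, r] ∧ ρ v = v)) := by
  classical
  simp only [List.nodup_cons, List.mem_cons, List.not_mem_nil, or_false, not_or,
    not_false_eq_true, List.nodup_nil, and_true] at nd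
  refine ⟨fun v => if v = a ∨ v = b ∨ v = c ∨ v = d then a else
    if v = q ∨ v = r then q else v, ?_, ?_, ?_, ?_, ?_⟩
  · intro v
    dsimp only
    split_ifs with h1 h2
    · simp [h1]
    · constructor
      · intro h; grind
      · intro h; exact absurd h h1
    · constructor
      · intro h; exact absurd (Or.inl h) h1
      · intro h; exact absurd h h1
  · intro v
    dsimp only
    split_ifs with h1 h2
    · constructor
      · intro h; grind
      · intro h; grind
    · simp [h2]
    · constructor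
      · intro h; exact absurd (Or.inl h) h2
      · intro h; exact absurd h h2
  · intro v hv
    simp only [List.mem_cons, List.not_mem_nil, or_false, not_or] at hv
    dsimp only
    rw [if_neg (by grind), if_neg (by grind)]
  · intro v w hv hw
    simp only [List.mem_cons, List.not_mem_nil, or_false, not_or] at hv
    dsimp only at hw
    split_ifs at hw with h1 h2
    · exact absurd hw.symm hv.1
    · exact absurd hw.symm hv.2.2.2.2.1
    · exact hw
  · intro v
    dsimp only
    split_ifs with h1 h2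
    · exact Or.inl rfl
    · exact Or.inr (Or.inl rfl)
    · refine Or.inr (Or.inr ⟨?_, rfl⟩)
      simp only [List.mem_cons, List.not_mem_nil, or_false, not_or]
      grind

theorem tht_coll [Finite V] (hV : IH V) {G : SimpleGraph V} (hG : Sub G)
    {a b c d q r x y z w : V} (h : Tht G a b c d q r x y z w) :
    ∃ p : V → P, Coll G p ∧ ThtP p a b c d q r x y z w := by
  obtain ⟨ρ, hA, hB, hO, hC, hT⟩ := ThtC_rho a b c d q r h.nd
  have r1 : ρ a = a := (hA _).2 (Or.inl rfl)
  have r2 : ρ b = a := (hA _).2 (Or.inr (Or.inl rfl))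
  have r3 : ρ c = a := (hA _).2 (Or.inr (Or.inr (Or.inl rfl)))
  have r4 : ρ d = a := (hA _).2 (Or.inr (Or.inr (Or.inr rfl)))
  have r5 : ρ q = q := (hB _).2 (Or.inl rfl)
  have r6 : ρ r = q := (hB _).2 (Or.inr rfl)
  have rx := hO _ h.ox
  have ry := hO _ h.oy
  have rz := hO _ h.oz
  have rw' := hO _ h.ow
  have hnd := h.nd
  have o1 := h.ox
  have o2 := h.oy
  have o3 := h.oz
  have o4 := h.ow
  simp only [List.nodup_cons, List.mem_cons, List.not_mem_nil, or_false, not_or, not_false_eq_true,
    List.nodup_nil, and_true] at hnd o1 o2 o3 o4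
  have haq : a ≠ q := hnd.1.2.2.2.1
  have hidem : ∀ v, ρ (ρ v) = ρ v := by
    intro v
    rcases hT v with e | e | ⟨_, e⟩
    · rw [e, r1]
    · rw [e, r5]
    · rw [e, e]
  let π : V → {v : V // ρ v = v} := fun v => ⟨ρ v, hidem v⟩
  have hπ : ∀ v w, π v = π w ↔ ρ v = ρ w := fun v w =>
    ⟨fun e => congrArg Subtype.val e, fun e => Subtype.ext e⟩
  let G' : SimpleGraph {v : V // ρ v = v} :=
    { Adj := fun v w => v ≠ w ∧ ∃ x y, G.Adj x y ∧ π x = v ∧ π y = w
      symm := ⟨by
        rintro v w ⟨hne, x, y, hxy, hx, hy⟩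
        exact ⟨hne.symm, y, x, hxy.symm, hy, hx⟩⟩
      loopless := ⟨fun v hv => hv.1 rfl⟩ }
  have hadj : ∀ x y, G.Adj x y → ρ x ≠ ρ y → G'.Adj (π x) (π y) := fun x y hxy hne =>
    ⟨fun e => hne ((hπ x y).1 e), x, y, hxy, rfl, rfl⟩
  have hcard : Nat.card {v : V // ρ v = v} < Nat.card V := by
    refine Finite.card_subtype_lt (x := b) ?_
    rw [r2]
    exact hnd.1.1
  have hsub : Sub G' := by
    intro v
    rcases hT v.1 with e | e | ⟨hout, e⟩
    · refine le_trans (Set.ncard_le_ncard (t := {π x, π y, π q}) ?_) (ThtC_three _ _ _)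
      rintro w' ⟨hne, s, t, hst, hs, ht⟩
      have hs' : ρ s = a := by
        have : (π s).1 = v.1 := congrArg Subtype.val hs
        rw [← v.2, e] at this
        exact this
      have hw : ρ t ≠ a := by
        intro e2
        exact hne (by rw [← hs, ← ht, hπ, hs', e2])
      simp only [Set.mem_insert_iff, Set.mem_singleton_iff, ← ht, hπ]
      rcases (hA s).1 hs' with rfl | rfl | rfl | rfl
      · rcases (h.na t).1 hst with rfl | rfl | rfl
        · exact absurd r3 hw
        · exact absurd r4 hw
        · exact Or.inl rfl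
      · rcases (h.nb t).1 hst with rfl | rfl | rfl
        · exact absurd r3 hw
        · exact absurd r4 hw
        · exact Or.inr (Or.inl rfl)
      · rcases (h.nc t).1 hst with rfl | rfl | rfl
        · exact absurd r1 hw
        · exact absurd r2 hw
        · exact Or.inr (Or.inr rfl)
      · rcases (h.ne t).1 hst with rfl | rfl | rfl
        · exact absurd r1 hw
        · exact absurd r2 hw
        · exact Or.inr (Or.inr (by rw [r6, r5]))
    · refine le_trans (Set.ncard_le_ncard (t := {π z, π w, π a}) ?_) (ThtC_three _ _ _)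
      rintro w' ⟨hne, s, t, hst, hs, ht⟩
      have hs' : ρ s = q := by
        have : (π s).1 = v.1 := congrArg Subtype.val hs
        rw [← v.2, e] at this
        exact this
      have hw : ρ t ≠ q := by
        intro e2
        exact hne (by rw [← hs, ← ht, hπ, hs', e2])
      simp only [Set.mem_insert_iff, Set.mem_singleton_iff, ← ht, hπ]
      rcases (hB s).1 hs' with rfl | rfl
      · rcases (h.nq t).1 hst with rfl | rfl | rfl
        · exact Or.inr (Or.inr (by rw [r3, r1]))
        · exact absurd r6 hw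
        · exact Or.inl rfl
      · rcases (h.nr t).1 hst with rfl | rfl | rfl
        · exact Or.inr (Or.inr (by rw [r4, r1]))
        · exact absurd r5 hw
        · exact Or.inr (Or.inl rfl)
    · refine le_trans (Set.ncard_le_ncard (t := π '' G.neighborSet v.1) ?_)
        (le_trans (Set.ncard_image_le) (hG v.1))
      rintro w' ⟨hne, s, t, hst, hs, ht⟩
      have hs' : ρ s = v.1 := congrArg Subtype.val hs
      have hsv : s = v.1 := hC v.1 s hout hs'
      exact ⟨t, hsv ▸ hst, ht⟩
  obtain ⟨p', hp'⟩ := hV _ G' hcard hsub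
  have hpi : ∀ v w, p' (π v) = p' (π w) ↔ ρ v = ρ w := fun v w =>
    ⟨fun e => (hπ v w).1 (hp'.1 e), fun e => by rw [(hπ v w).2 e]⟩
  refine ⟨fun v => p' (π v), ⟨?_, ?_⟩, ?_⟩
  · intro a b c hab hne hca hcb
    refine hp'.2.1 (π a) (π b) (π c) (hadj a b hab fun e => hne ((hpi a b).2 e)) ?_ ?_
    · intro e
      exact hca (by rw [e])
    · intro e
      exact hcb (by rw [e])
  · intro a b c d hab hcd h1 h2 h3 h4 h5 h6 hne
    have key := hp'.2.2 (π a) (π b) (π c) (π d) (hadj a b hab fun e => h1 ((hpi a b).2 e))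
      (hadj c d hcd fun e => h2 ((hpi c d).2 e)) (fun e => h3 (by rw [e])) (fun e => h4 (by rw [e]))
      (fun e => h5 (by rw [e])) (fun e => h6 (by rw [e])) hne
    exact key
  · have ax : G'.Adj (π a) (π x) :=
      hadj _ _ ((h.na _).2 (Or.inr (Or.inr rfl))) (by rw [r1, rx]; exact fun e => o1.1 e.symm)
    have ay : G'.Adj (π a) (π y) := by
      have := hadj _ _ ((h.nb _).2 (Or.inr (Or.inr rfl)))
        (by rw [r2, ry]; exact fun e => o2.1 e.symm)
      have e : π b = π a := (hπ _ _).2 (by rw [r2, r1])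
      rwa [e] at this
    have aq : G'.Adj (π a) (π q) := by
      have := hadj _ _ ((h.nc _).2 (Or.inr (Or.inr rfl)))
        (by rw [r3, r5]; exact haq)
      have e : π c = π a := (hπ _ _).2 (by rw [r3, r1])
      rwa [e] at this
    have az : G'.Adj (π q) (π z) :=
      hadj _ _ ((h.nq _).2 (Or.inr (Or.inr rfl)))
        (by rw [r5, rz]; exact fun e => o3.2.2.2.2.1 e.symm)
    have aw : G'.Adj (π q) (π w) := by
      have := hadj _ _ ((h.nr _).2 (Or.inr (Or.inr rfl)))
        (by rw [r6, rw']; exact fun e => o4.2.2.2.2.1 e.symm)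
      have e : π r = π q := (hπ _ _).2 (by rw [r6, r5])
      rwa [e] at this
    refine ⟨?_, ?_, ?_, ?_, ?_, ?_, ?_, ?_, ?_⟩
    · intro v
      rw [hpi, r1]
      exact hA v
    · intro v
      rw [hpi, r5]
      exact hB v
    · intro v u hv e
      have e2 := (hpi v u).1 e
      rw [hO v hv] at e2
      exact hC v u hv e2.symm
    · exact dir_ne hp' ax ay (fun e => h.xy (by have := (hπ _ _).1 e; rwa [rx, ry] at this))
    · exact dir_ne hp' ax aq
        (fun e => o1.2.2.2.2.1 (by have := (hπ _ _).1 e; rwa [rx, r5] at this))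
    · exact dir_ne hp' ay aq
        (fun e => o2.2.2.2.2.1 (by have := (hπ _ _).1 e; rwa [ry, r5] at this))
    · exact dir_ne hp' az aw (fun e => h.zw (by have := (hπ _ _).1 e; rwa [rz, rw'] at this))
    · exact dir_ne hp' az aq.symm (fun e => o3.1 (by have := (hπ _ _).1 e; rwa [rz, r1] at this))
    · exact dir_ne hp' aw aq.symm (fun e => o4.1 (by have := (hπ _ _).1 e; rwa [rw', r1] at this))

end MP_a17342_co.RT
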