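import Pool.Agent.Lib.MP_a17342_co.RT.ThtG
import Pool.Agent.Lib.MP_a17342_co.RT.ThtC

/-!
# Opposite vertices of a 4-cycle with adjacent third neighbours
-/

set_option autoImplicit false

namespace MP_a17342_co.RT

variable {V : Type}

private theorem ThtE_third [Finite V] {G : SimpleGraph V} {v u w : V}
    (h3 : (G.neighborSet v).ncard = 3) (hu : G.Adj v u) (hw : G.Adj v w) (hne : u ≠ w) :
    ∃ x, x ≠ u ∧ x ≠ w ∧ ∀ y, G.Adj v y ↔ y = u ∨ y = w ∨ y = x := by
  have h1 : (G.neighborSet v \ {u, w}).ncard = 1 := by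
    have hsub : ({u, w} : Set V) ⊆ G.neighborSet v := by
      intro z hz
      rcases hz with rfl | hz
      · exact hu
      · rw [Set.mem_singleton_iff] at hz
        rw [hz]
        exact hw
    rw [Set.ncard_sdiff hsub (Set.toFinite _), h3, Set.ncard_pair hne]
  obtain ⟨x, hx⟩ := Set.ncard_eq_one.1 h1
  have hx' : ∀ y, (G.Adj v y ∧ ¬ (y = u ∨ y = w)) ↔ y = x := by
    intro y
    have : y ∈ G.neighborSet v \ {u, w} ↔ y ∈ ({x} : Set V) := by rw [hx]
    simpa using this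
  have hxx := (hx' x).2 rfl
  refine ⟨x, fun h => hxx.2 (Or.inl h), fun h => hxx.2 (Or.inr h), fun y => ⟨fun hy => ?_, ?_⟩⟩
  · by_cases h4 : y = u ∨ y = w
    · rcases h4 with h4 | h4
      · exact Or.inl h4
      · exact Or.inr (Or.inl h4)
    · exact Or.inr (Or.inr ((hx' y).1 ⟨hy, h4⟩))
  · rintro (rfl | rfl | rfl)
    · exact hu
    · exact hw
    · exact hxx.1

private theorem ThtE_full [Finite V] {G : SimpleGraph V} {v u w z : V}
    (h3 : (G.neighborSet v).ncard = 3) (hu : G.Adj v u) (hw : G.Adj v w) (hz : G.Adj v z)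
    (hne : u ≠ w) (huz : z ≠ u) (hwz : z ≠ w) (y : V) : G.Adj v y ↔ y = u ∨ y = w ∨ y = z := by
  obtain ⟨x, _, _, h⟩ := ThtE_third h3 hu hw hne
  rcases (h z).1 hz with h1 | h1 | h1
  · exact absurd h1 huz
  · exact absurd h1 hwz
  · rw [h1]
    exact h y

private theorem ThtE_tri {G : SimpleGraph V} (hf : G.CliqueFree 3) {u v w : V} (h1 : G.Adj u v)
    (h2 : G.Adj u w) (h3 : G.Adj v w) : False := by
  classical
  exact hf {u, v, w} (SimpleGraph.is3Clique_triple_iff.2 ⟨h1, h2, h3⟩)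

private theorem ThtE_com [Finite V] {G : SimpleGraph V}
    (hn : ∀ u v, u ≠ v → (G.commonNeighbors u v).ncard ≤ 2) {u v p q r : V} (huv : u ≠ v)
    (hpq : p ≠ q) (hpr : p ≠ r) (hqr : q ≠ r) (h1 : G.Adj u p) (h2 : G.Adj u q) (h3 : G.Adj u r)
    (h4 : G.Adj v p) (h5 : G.Adj v q) (h6 : G.Adj v r) : False := by
  have hsub : ({p, q, r} : Set V) ⊆ G.commonNeighbors u v := by
    intro z hz
    simp only [Set.mem_insert_iff, Set.mem_singleton_iff] at hz
    rcases hz with rfl | rfl | rfl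
    · exact ⟨h1, h4⟩
    · exact ⟨h2, h5⟩
    · exact ⟨h3, h6⟩
  have hc : ({p, q, r} : Set V).ncard = 3 := Set.ncard_eq_three.2 ⟨p, q, r, hpq, hpr, hqr, rfl⟩
  have := Set.ncard_le_ncard hsub (Set.toFinite _)
  have := hn u v huv
  omega

theorem pent_case [Finite V] (hV : IH V) {G : SimpleGraph V}
    (h3 : ∀ v, (G.neighborSet v).ncard = 3) (hf : G.CliqueFree 3)
    (hn : ∀ u v, u ≠ v → (G.commonNeighbors u v).ncard ≤ 2) {a b c d q r : V}
    (hac : G.Adj a c) (had : G.Adj a d) (hbc : G.Adj b c) (hbd : G.Adj b d) (hab : a ≠ b)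
    (hcd : c ≠ d) (hcq : G.Adj c q) (hdr : G.Adj d r) (hqr : G.Adj q r) (hqa : q ≠ a)
    (hqb : q ≠ b) (hra : r ≠ a) (hrb : r ≠ b) : RAC G := by
  have hdq : d ≠ q := by
    rintro rfl
    exact ThtE_tri hf hac had hcq
  have hcr : c ≠ r := by
    rintro rfl
    exact ThtE_tri hf hac had hdr.symm
  have nac := hac.ne
  have nad := had.ne
  have nbc := hbc.ne
  have nbd := hbd.ne
  have ncq := hcq.ne
  have ndr := hdr.ne
  have nqr := hqr.ne
  -- no further edges between the six vertices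
  have e1 : ¬ G.Adj a b := fun he => ThtE_tri hf he hac hbc
  have e2 : ¬ G.Adj a q := fun he => ThtE_tri hf hac he hcq
  have e3 : ¬ G.Adj a r := fun he => ThtE_tri hf had he hdr
  have e4 : ¬ G.Adj b q := fun he => ThtE_tri hf hbc he hcq
  have e5 : ¬ G.Adj b r := fun he => ThtE_tri hf hbd he hdr
  have e6 : ¬ G.Adj q d := fun he => ThtE_tri hf he hqr hdr
  have e7 : ¬ G.Adj r c := fun he => ThtE_tri hf he hqr.symm hcq
  obtain ⟨x, hx1, hx2, nx⟩ := ThtE_third (h3 a) hac had hcd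
  obtain ⟨y, hy1, hy2, ny⟩ := ThtE_third (h3 b) hbc hbd hcd
  obtain ⟨z, hz1, hz2, nz⟩ := ThtE_third (h3 q) hcq.symm hqr hcr
  obtain ⟨w, hw1, hw2, nw⟩ := ThtE_third (h3 r) hdr.symm hqr.symm hdq
  have ax : G.Adj a x := (nx x).2 (Or.inr (Or.inr rfl))
  have ay : G.Adj b y := (ny y).2 (Or.inr (Or.inr rfl))
  have az : G.Adj q z := (nz z).2 (Or.inr (Or.inr rfl))
  have aw : G.Adj r w := (nw w).2 (Or.inr (Or.inr rfl))
  have hD : Tht G a b c d q r x y z w := by
    refine ⟨?_, nx, ny, ?_, ?_, nz, nw, ?_, ?_, ?_, ?_, ?_, ?_⟩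
    · simp only [List.nodup_cons, List.mem_cons, List.not_mem_nil, or_false, not_or,
        not_false_eq_true, List.nodup_nil, and_true]
      exact ⟨⟨hab, nac, nad, hqa.symm, hra.symm⟩, ⟨nbc, nbd, hqb.symm, hrb.symm⟩,
        ⟨hcd, ncq, hcr⟩, ⟨hdq, ndr⟩, nqr⟩
    · exact ThtE_full (h3 c) hac.symm hbc.symm hcq hab hqa hqb
    · exact ThtE_full (h3 d) had.symm hbd.symm hdr hab hra hrb
    · simp only [List.mem_cons, List.not_mem_nil, or_false, not_or]
      refine ⟨ax.ne', ?_, hx1, hx2, ?_, ?_⟩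
      · rintro rfl; exact e1 ax
      · rintro rfl; exact e2 ax
      · rintro rfl; exact e3 ax
    · simp only [List.mem_cons, List.not_mem_nil, or_false, not_or]
      refine ⟨?_, ay.ne', hy1, hy2, ?_, ?_⟩
      · rintro rfl; exact e1 ay.symm
      · rintro rfl; exact e4 ay
      · rintro rfl; exact e5 ay
    · simp only [List.mem_cons, List.not_mem_nil, or_false, not_or]
      refine ⟨?_, ?_, hz1, ?_, az.ne', hz2⟩
      · rintro rfl; exact e2 az.symm
      · rintro rfl; exact e4 az.symm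
      · rintro rfl; exact e6 az
    · simp only [List.mem_cons, List.not_mem_nil, or_false, not_or]
      refine ⟨?_, ?_, ?_, hw1, hw2, aw.ne'⟩
      · rintro rfl; exact e3 aw.symm
      · rintro rfl; exact e5 aw.symm
      · rintro rfl; exact e7 aw
    · rintro rfl
      exact ThtE_com hn hab hcd hx1.symm hx2.symm hac had ax hbc hbd ay
    · rintro rfl
      exact ThtE_tri hf hqr az aw
  have hG : Sub G := fun v => (h3 v).le
  obtain ⟨p, hp, hc⟩ := tht_coll hV hG hD
  exact tht_geo hp hD hc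

end MP_a17342_co.RT
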