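import Pool.Agent.Lib.MP_a17342_co.RT.Blow
import Pool.Agent.Lib.MP_a17342_co.RT.Dir

/-!
# A vertex of degree two with non-adjacent neighbours
Plan: W = {v, b}, w = b. Outside neighbours of W: a (of v only, since a, b are not adjacent) and the at most two neighbours of b other than v. hV gives a
drawing of ctr G W b, extended to p : V → P. γ b = 0, γ v = p a - p b. blow: h2 with t = 1 for (v, a), t = 0 for b; h4, h7: dir_ne for the drawing
of ctr (the directions from b to a and to another neighbour y of b differ), ctr_adj.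
-/

set_option autoImplicit false

namespace MP_a17342_co.RT

variable {V : Type}

theorem two [Finite V] (hV : IH V) {G : SimpleGraph V} (hG : Sub G) {v a b : V}
    (h : G.neighborSet v = {a, b}) (hab : a ≠ b) (hn : ¬ G.Adj a b) : RAC G := by
  classical
  have hva : G.Adj v a := by
    have h1 : a ∈ G.neighborSet v := by rw [h]; exact Set.mem_insert a _
    exact h1
  have hvb : G.Adj v b := by
    have h1 : b ∈ G.neighborSet v := by rw [h]; exact Set.mem_insert_of_mem a (Set.mem_singleton b)
    exact h1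
  have hne : v ≠ b := hvb.ne
  obtain ⟨W, hW⟩ : ∃ W : Set V, W = {v, b} := ⟨_, rfl⟩
  have hmem : ∀ x, x ∈ W ↔ x = v ∨ x = b := by
    intro x
    rw [hW, Set.mem_insert_iff, Set.mem_singleton_iff]
  have hb : b ∈ W := (hmem b).mpr (Or.inr rfl)
  have hv : v ∈ W := (hmem v).mpr (Or.inl rfl)
  have haW : a ∉ W := by
    intro h1
    rcases (hmem a).mp h1 with h2 | h2
    · exact hva.ne h2.symm
    · exact hab h2
  -- the outside neighbours
  have houtv : ∀ y, y ∉ W → G.Adj v y → y = a := by
    intro y hy hvy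
    have h2 : y ∈ G.neighborSet v := hvy
    rw [h, Set.mem_insert_iff, Set.mem_singleton_iff] at h2
    rcases h2 with h2 | h2
    · exact h2
    · exact absurd (h2 ▸ hb) hy
  have hya : ∀ y, G.Adj b y → y ≠ a := by
    intro y hby h1
    rw [h1] at hby
    exact hn hby.symm
  have hcard := ctr_card hb hv hne
  have hsub : Sub (ctr G W b) := by
    refine ctr_sub hG hb ?_
    have h1 : {y : V | y ∉ W ∧ ∃ x ∈ W, G.Adj x y} ⊆ insert a (G.neighborSet b \ {v}) := by
      rintro y ⟨hy, x, hx, hxy⟩
      rcases (hmem x).mp hx with h2 | h2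
      · rw [h2] at hxy
        rw [houtv y hy hxy]
        exact Set.mem_insert a _
      · rw [h2] at hxy
        refine Set.mem_insert_of_mem a ⟨hxy, ?_⟩
        rw [Set.mem_singleton_iff]
        intro h3
        exact hy (h3 ▸ hv)
    have h2 := Set.ncard_le_ncard h1 (Set.toFinite _)
    have h3 := Set.ncard_insert_le a (G.neighborSet b \ {v})
    have h4 : (G.neighborSet b \ {v}).ncard + 1 = (G.neighborSet b).ncard := by
      have h5 : v ∈ G.neighborSet b := hvb.symm
      exact Set.ncard_sdiff_singleton_add_one h5 (Set.toFinite _)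
    have h5 := hG b
    omega
  obtain ⟨q, hq⟩ := hV {x : V // x ∉ W ∨ x = b} (ctr G W b) hcard hsub
  obtain ⟨p, hp⟩ : ∃ p : V → P, p = fun x => if hx : x ∉ W ∨ x = b then q ⟨x, hx⟩ else 0 := ⟨_, rfl⟩
  have hpq : (fun x : {x : V // x ∉ W ∨ x = b} => p x.1) = q := by
    funext x
    rw [hp]
    show (if hx : x.1 ∉ W ∨ x.1 = b then q ⟨x.1, hx⟩ else 0) = q x
    rw [dif_pos x.2]
  have hpd : Draws (ctr G W b) (fun x => p x.1) := by rw [hpq]; exact hq
  have hpab : p a ≠ p b := by
    intro h1
    have h2 := @hpd.1 ⟨a, Or.inl haW⟩ ⟨b, Or.inr rfl⟩ h1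
    exact hab (congrArg Subtype.val h2)
  have hD0 : p a - p b ≠ 0 := sub_ne_zero.mpr hpab
  -- the direction of `a` is not the one of another neighbour of `b`
  have key : ∀ y, y ∉ W → G.Adj b y → ∀ t s : ℝ, 0 < t → 0 ≤ s →
      t • (p a - p b) ≠ s • (p y - p b) := by
    intro y hy hby t s ht hs h1
    rcases hs.eq_or_lt with h2 | h2
    · rw [← h2, zero_smul] at h1
      exact (smul_ne_zero ht.ne' hD0) h1
    · have h3 : un (p a - p b) = un (p y - p b) := by
        rw [← un_smul (x := p a - p b) ht, h1, un_smul h2]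
      have h4 : (⟨a, Or.inl haW⟩ : {x : V // x ∉ W ∨ x = b}) ≠ ⟨y, Or.inl hy⟩ := by
        intro h5
        exact hya y hby (congrArg Subtype.val h5).symm
      exact dir_ne hpd (ctr_adj hb hv haW hva) (ctr_adj hb hb hy hby) h4 h3
  obtain ⟨γ, hγ⟩ : ∃ γ : V → P, γ = fun x => if x = v then p a - p b else 0 := ⟨_, rfl⟩
  have hγv : γ v = p a - p b := by rw [hγ]; exact if_pos rfl
  have hγb : γ b = 0 := by rw [hγ]; exact if_neg hne.symm
  have e1 : ∀ s : ℝ, p a - p b + s • (p a - p b) = (1 + s) • (p a - p b) := by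
    intro s
    rw [add_smul, one_smul]
  -- three elements of `W`
  have h3' : ∀ a ∈ W, ∀ b ∈ W, ∀ c ∈ W, a ≠ b → c ≠ a → c ≠ b → False := by
    intro a ha b hb c hc hab hca hcb
    rcases (hmem a).mp ha with h1 | h1 <;> rcases (hmem b).mp hb with h2 | h2 <;>
      rcases (hmem c).mp hc with h3 | h3 <;> simp_all
  refine blow hb ?_ hpd γ ?_ ?_ ?_ ?_ ?_ ?_ ?_
  · intro x hx x' hx' y hy hxy hxy'
    rcases (hmem x).mp hx with h1 | h1 <;> rcases (hmem x').mp hx' with h2 | h2
    · rw [h1, h2]
    · rw [h1] at hxy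
      rw [h2] at hxy'
      exact absurd (houtv y hy hxy) (hya y hxy')
    · rw [h1] at hxy
      rw [h2] at hxy'
      exact absurd (houtv y hy hxy') (hya y hxy)
    · rw [h1, h2]
  · intro x hx x' hx' hxx
    rcases (hmem x).mp hx with h1 | h1 <;> rcases (hmem x').mp hx' with h2 | h2
    · rw [h1, h2]
    · rw [h1, h2, hγv, hγb] at hxx
      exact absurd hxx hD0
    · rw [h1, h2, hγv, hγb] at hxx
      exact absurd hxx.symm hD0
    · rw [h1, h2]
  · intro x hx y hy hxy
    rcases (hmem x).mp hx with h1 | h1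
    · rw [h1] at hxy ⊢
      refine ⟨1, zero_le_one, ?_⟩
      rw [hγv, one_smul, houtv y hy hxy]
    · refine ⟨0, le_rfl, ?_⟩
      rw [h1, hγb, zero_smul]
  · intro a ha b hb c hc hab hca hcb
    exact (h3' a ha b hb c hc hab.ne hca hcb).elim
  · intro x hx y hy c hc hxy hcx s hs
    rcases (hmem x).mp hx with h1 | h1
    · rw [h1] at hxy hcx ⊢
      have h2 : c = b := by
        rcases (hmem c).mp hc with h3 | h3
        · exact absurd h3 hcx
        · exact h3
      rw [h2, hγv, hγb, houtv y hy hxy, e1]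
      exact (smul_ne_zero (by linarith) hD0).symm
    · rw [h1] at hxy hcx ⊢
      have h2 : c = v := by
        rcases (hmem c).mp hc with h3 | h3
        · exact h3
        · exact absurd h3 hcx
      rw [h2, hγv, hγb, zero_add]
      have h3 := key y hy hxy 1 s one_pos hs
      rwa [one_smul] at h3
  · intro a ha b hb c hc d hd hab hcd hac had hbc hbd _
    exact (h3' c hc d hd a ha hcd.ne hac had).elim
  · intro a ha b hb x hx y hy hab hxy hxa hxb s hs
    exact (h3' a ha b hb x hx hab.ne hxa hxb).elim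
  · intro x hx x' hx' y hy y' hy' hxy hxy' hxx _ s s' hs hs'
    rcases (hmem x).mp hx with h1 | h1 <;> rcases (hmem x').mp hx' with h2 | h2
    · exact absurd (h1.trans h2.symm) hxx
    · rw [h1] at hxy ⊢
      rw [h2] at hxy' ⊢
      rw [hγv, hγb, houtv y hy hxy, e1, zero_add]
      exact key y' hy' hxy' _ _ (by linarith) hs'
    · rw [h1] at hxy ⊢
      rw [h2] at hxy' ⊢
      rw [hγv, hγb, houtv y' hy' hxy', e1, zero_add]
      exact (key y hy hxy _ _ (by linarith) hs).symm
    · exact absurd (h1.trans h2.symm) hxx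

end MP_a17342_co.RT
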