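import Mathlib

/-!
# Cycles of length four
-/

set_option autoImplicit false

namespace MP_a17342_co.RT

variable {V : Type}

/-- `a, b, c, d` are, in this order, the vertices of a cycle of length four. -/
def IsSquare4 (G : SimpleGraph V) (a b c d : V) : Prop :=
  G.Adj a b ∧ G.Adj b c ∧ G.Adj c d ∧ G.Adj d a ∧ a ≠ c ∧ b ≠ d

end MP_a17342_co.RT
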