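import Pool.Agent.Lib.MP_a17342_co.RT.SqqE
import Pool.Agent.Lib.MP_a17342_co.RT.Square

/-!
# The neighbours of a cycle of length four
-/

set_option autoImplicit false

namespace MP_a17342_co.RT

variable {V : Type}

theorem IsSquare4.rot {G : SimpleGraph V} {a b c d : V} (h : IsSquare4 G a b c d) :
    IsSquare4 G b c d a := by
  obtain ⟨h1, h2, h3, h4, h5, h6⟩ := h
  exact ⟨h2, h3, h4, h1, h6, h5.symm⟩

theorem IsSquare4.rev {G : SimpleGraph V} {a b c d : V} (h : IsSquare4 G a b c d) :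
    IsSquare4 G a d c b := by
  obtain ⟨h1, h2, h3, h4, h5, h6⟩ := h
  exact ⟨h4.symm, h3.symm, h2.symm, h1.symm, h5, h6.symm⟩

/-- two non-adjacent vertices of a square have two common neighbours -/
theorem IsSquare4.opp {G : SimpleGraph V} {a b c d q r : V} (h : IsSquare4 G a b c d)
    (hq : q = a ∨ q = b ∨ q = c ∨ q = d) (hr : r = a ∨ r = b ∨ r = c ∨ r = d) (hqr : q ≠ r)
    (hn : ¬ G.Adj q r) : ∃ s t, G.Adj q s ∧ G.Adj r s ∧ G.Adj q t ∧ G.Adj r t ∧ s ≠ t := by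
  obtain ⟨h1, h2, h3, h4, h5, h6⟩ := h
  rcases hq with rfl | rfl | rfl | rfl <;> rcases hr with rfl | rfl | rfl | rfl
  all_goals first
    | exact absurd rfl hqr
    | exact absurd h1 hn
    | exact absurd h2 hn
    | exact absurd h3 hn
    | exact absurd h4 hn
    | exact absurd h1.symm hn
    | exact absurd h2.symm hn
    | exact absurd h3.symm hn
    | exact absurd h4.symm hn
    | exact ⟨_, _, h1, h2.symm, h4.symm, h3, h6⟩
    | exact ⟨_, _, h2.symm, h1, h3, h4.symm, h6⟩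
    | exact ⟨_, _, h2, h3.symm, h1.symm, h4, h5.symm⟩
    | exact ⟨_, _, h3.symm, h2, h4, h1.symm, h5.symm⟩

/-- the conditions on the outer neighbours `q` of `u` and `r` of `v` -/
def Out (G : SimpleGraph V) (q r : V) : Prop :=
  q ≠ r ∧ ¬ G.Adj q r ∧ ∀ a b c d, IsSquare4 G a b c d →
    ¬ ((q = a ∨ q = b ∨ q = c ∨ q = d) ∧ (r = a ∨ r = b ∨ r = c ∨ r = d))

theorem Out.symm {G : SimpleGraph V} {q r : V} (h : Out G q r) : Out G r q :=
  ⟨h.1.symm, fun h' => h.2.1 h'.symm, fun a b c d hs h' => h.2.2 a b c d hs ⟨h'.2, h'.1⟩⟩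

section

variable {G : SimpleGraph V}

private theorem tri (hf : G.CliqueFree 3) {x y z : V} (hxy : G.Adj x y) (hyz : G.Adj y z)
    (hxz : G.Adj x z) : False := by
  classical
  exact hf {x, y, z} (SimpleGraph.is3Clique_triple_iff.2 ⟨hxy, hxz, hyz⟩)

private theorem three (hn : ∀ u v, u ≠ v → (G.commonNeighbors u v).ncard ≤ 2) [Finite V]
    {u v x y z : V} (huv : u ≠ v) (h1 : G.Adj u x) (h2 : G.Adj u y) (h3 : G.Adj u z)
    (h4 : G.Adj v x) (h5 : G.Adj v y) (h6 : G.Adj v z) (hxy : x ≠ y) (hxz : x ≠ z)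
    (hyz : y ≠ z) : False := by
  have hle := hn u v huv
  have hlt : 2 < (G.commonNeighbors u v).ncard := by
    rw [Set.two_lt_ncard_iff (Set.toFinite _)]
    exact ⟨x, y, z, ⟨h1, h4⟩, ⟨h2, h5⟩, ⟨h3, h6⟩, hxy, hxz, hyz⟩
  omega

private theorem uni_adj (hf : G.CliqueFree 3)
    (hs : ∀ a b c d c' d', G.Adj a b → G.Adj b c → G.Adj c d → G.Adj d a → G.Adj b c' →
      G.Adj c' d' → G.Adj d' a → a ≠ c → b ≠ d → a ≠ c' → b ≠ d' → c = c' ∧ d = d')
    (hpt : ∀ a b c d q r, G.Adj a c → G.Adj a d → G.Adj b c → G.Adj b d → G.Adj c q →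
      G.Adj q r → G.Adj r d → c ≠ d → a = b)
    {a b c d q r : V} (h : IsSquare4 G a b c d) (hq : G.Adj a q) (hr : G.Adj b r)
    (hqb : q ≠ b) (hra : r ≠ a) (hrc : r ≠ c) : Out G q r := by
  obtain ⟨h1, h2, h3, h4, h5, h6⟩ := h
  have hne : q ≠ r := by
    rintro rfl
    exact tri hf h1 hr hq
  have hna : ¬ G.Adj q r := by
    intro hqr
    have := hs a b c d r q h1 h2 h3 h4 hr hqr.symm hq.symm h5 h6 hra.symm hqb.symm
    exact hrc this.1.symm
  refine ⟨hne, hna, ?_⟩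
  rintro a' b' c' d' hsq ⟨hq', hr'⟩
  obtain ⟨s, t, hs1, hs2, ht1, ht2, hst⟩ := hsq.opp hq' hr' hne hna
  exact hst (hpt s t q r a b hs1.symm hs2.symm ht1.symm ht2.symm hq.symm h1 hr hne)

private theorem uni_opp [Finite V] (hV : IH V) (h3 : ∀ v, (G.neighborSet v).ncard = 3)
    (hf : G.CliqueFree 3) (hn : ∀ u v, u ≠ v → (G.commonNeighbors u v).ncard ≤ 2)
    (hs : ∀ a b c d c' d', G.Adj a b → G.Adj b c → G.Adj c d → G.Adj d a → G.Adj b c' →
      G.Adj c' d' → G.Adj d' a → a ≠ c → b ≠ d → a ≠ c' → b ≠ d' → c = c' ∧ d = d')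
    (hpt : ∀ a b c d q r, G.Adj a c → G.Adj a d → G.Adj b c → G.Adj b d → G.Adj c q →
      G.Adj q r → G.Adj r d → c ≠ d → a = b) (hno : ¬ RAC G)
    {a b c d q r : V} (h : IsSquare4 G a b c d) (hq : G.Adj a q) (hr : G.Adj c r)
    (hqb : q ≠ b) (hqd : q ≠ d) (hrb : r ≠ b) (hrd : r ≠ d) : Out G q r := by
  obtain ⟨h1, h2, h3', h4, h5, h6⟩ := h
  have hne : q ≠ r := by
    rintro rfl
    exact three hn h5 h1 h4.symm hq h2.symm h3' hr h6 hqb.symm hqd.symm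
  have hna : ¬ G.Adj q r := by
    intro hqr
    exact h6 (hpt b d a c q r h1.symm h2 h4 h3'.symm hq hqr hr.symm h5)
  refine ⟨hne, hna, ?_⟩
  rintro a' b' c' d' hsq ⟨hq', hr'⟩
  obtain ⟨s, t, hs1, hs2, ht1, ht2, hst⟩ := hsq.opp hq' hr' hne hna
  have hcq : ¬ G.Adj c q := by
    intro h
    exact three hn h5 h1 h4.symm hq h2.symm h3' h h6 hqb.symm hqd.symm
  have har : ¬ G.Adj a r := by
    intro h
    exact three hn h5 h1 h4.symm h h2.symm h3' hr h6 hrb.symm hrd.symm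
  have hqc : q ≠ c := by
    rintro rfl
    exact tri hf h1 h2 hq
  have hra : r ≠ a := by
    rintro rfl
    exact tri hf h3' h4 hr
  have key : ∀ s, G.Adj q s → G.Adj r s → s ≠ a ∧ s ≠ b ∧ s ≠ c ∧ s ≠ d := by
    intro s h7 h8
    refine ⟨?_, ?_, ?_, ?_⟩
    · rintro rfl
      exact har h8.symm
    · rintro rfl
      exact tri hf h1 h7.symm hq
    · rintro rfl
      exact hcq h7.symm
    · rintro rfl
      exact tri hf h4.symm h7.symm hq
  obtain ⟨k1, k2, k3, k4⟩ := key s hs1 hs2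
  obtain ⟨k5, k6, k7, k8⟩ := key t ht1 ht2
  refine hno (sqq_case hV h3 hf hn hs (a := b) (b := d) (c := a) (d := c) (a' := s) (b' := t)
    (c' := q) (d' := r) h1.symm h2 h4 h3'.symm h6 h5 hs1.symm hs2.symm ht1.symm ht2.symm hst hne
    hq hr ?_)
  intro u hu v hv
  simp only [List.mem_cons, List.not_mem_nil, or_false] at hu hv
  rcases hu with rfl | rfl | rfl | rfl <;> rcases hv with rfl | rfl | rfl | rfl
  all_goals first
    | assumption
    | (apply Ne.symm; assumption)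
    | exact hq.ne
    | exact hr.ne

end

theorem uni [Finite V] (hV : IH V) {G : SimpleGraph V} (h3 : ∀ v, (G.neighborSet v).ncard = 3)
    (hf : G.CliqueFree 3) (hn : ∀ u v, u ≠ v → (G.commonNeighbors u v).ncard ≤ 2)
    (hs : ∀ a b c d c' d', G.Adj a b → G.Adj b c → G.Adj c d → G.Adj d a → G.Adj b c' →
      G.Adj c' d' → G.Adj d' a → a ≠ c → b ≠ d → a ≠ c' → b ≠ d' → c = c' ∧ d = d')
    (hpt : ∀ a b c d q r, G.Adj a c → G.Adj a d → G.Adj b c → G.Adj b d → G.Adj c q →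
      G.Adj q r → G.Adj r d → c ≠ d → a = b) (hno : ¬ RAC G)
    {a b c d u v q r : V} (h : IsSquare4 G a b c d) (hu : u = a ∨ u = b ∨ u = c ∨ u = d)
    (hv : v = a ∨ v = b ∨ v = c ∨ v = d) (huv : u ≠ v) (hq : G.Adj u q) (hr : G.Adj v r)
    (hq' : ¬ (q = a ∨ q = b ∨ q = c ∨ q = d)) (hr' : ¬ (r = a ∨ r = b ∨ r = c ∨ r = d)) :
    Out G q r := by
  push Not at hq' hr'
  obtain ⟨q1, q2, q3, q4⟩ := hq'
  obtain ⟨r1, r2, r3, r4⟩ := hr'
  rcases hu with rfl | rfl | rfl | rfl <;> rcases hv with rfl | rfl | rfl | rfl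
  · exact absurd rfl huv
  · exact uni_adj hf hs hpt h hq hr q2 r1 r3
  · exact uni_opp hV h3 hf hn hs hpt hno h hq hr q2 q4 r2 r4
  · exact uni_adj hf hs hpt h.rev hq hr q4 r1 r3
  · exact (uni_adj hf hs hpt h hr hq r2 q1 q3).symm
  · exact absurd rfl huv
  · exact uni_adj hf hs hpt h.rot hq hr q3 r2 r4
  · exact uni_opp hV h3 hf hn hs hpt hno h.rot hq hr q3 q1 r3 r1
  · exact uni_opp hV h3 hf hn hs hpt hno h.rot.rot hq hr q4 q2 r4 r2
  · exact (uni_adj hf hs hpt h.rot hr hq r3 q2 q4).symm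
  · exact absurd rfl huv
  · exact uni_adj hf hs hpt h.rot.rot hq hr q4 r3 r1
  · exact (uni_adj hf hs hpt h.rev hr hq r4 q1 q3).symm
  · exact (uni_opp hV h3 hf hn hs hpt hno h.rot hr hq r3 r1 q3 q1).symm
  · exact (uni_adj hf hs hpt h.rot.rot hr hq r4 q3 q1).symm
  · exact absurd rfl huv

end MP_a17342_co.RT
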