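import Pool.Agent.Lib.MP_a17342_co.RT.Leaf
import Pool.Agent.Lib.MP_a17342_co.RT.Two
import Pool.Agent.Lib.MP_a17342_co.RT.Disc
import Pool.Agent.Lib.MP_a17342_co.RT.Case
import Pool.Agent.Lib.MP_a17342_co.RT.CaseTwo
import Pool.Agent.Lib.MP_a17342_co.RT.Plane
import Pool.Agent.Lib.MP_a17342_co.RT.DomE
import Pool.Agent.Lib.MP_a17342_co.RT.ThtE
import Pool.Agent.Lib.MP_a17342_co.RT.Uni

/-!
# The reduction
-/

set_option autoImplicit false

namespace MP_a17342_co.RT

/-- A graph on at most one vertex has a drawing. -/
private theorem rac_subsingleton {V : Type} [Subsingleton V] (G : SimpleGraph V) : RAC G := by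
  refine ⟨fun _ => 0, Function.injective_of_subsingleton _, ?_, ?_⟩
  · intro a b c _ hca _
    exact absurd (Subsingleton.elim c a) hca
  · intro a b c d _ _ hac
    exact absurd (Subsingleton.elim a c) hac

private theorem main_aux (N : ℕ)
    (H : ∀ (V : Type) [Finite V] (G : SimpleGraph V), Nat.card V ≤ N → G.Connected →
      (∀ v, (G.neighborSet v).ncard = 3) → G.CliqueFree 3 →
      (∀ a b c d u v q r, IsSquare4 G a b c d → u ∈ ({a, b, c, d} : Set V) →
        v ∈ ({a, b, c, d} : Set V) → u ≠ v → G.Adj u q → G.Adj v r → q ∉ ({a, b, c, d} : Set V) →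
        r ∉ ({a, b, c, d} : Set V) → q ≠ r ∧ ¬ G.Adj q r ∧ ∀ a' b' c' d', IsSquare4 G a' b' c' d' →
          q ∈ ({a', b', c', d'} : Set V) → r ∉ ({a', b', c', d'} : Set V)) →
      (∀ W x₁ x₂ x₃ q, ¬ PlanePart G W x₁ x₂ x₃ q) → RAC G) (n : ℕ) :
    ∀ (V : Type) [Finite V] (G : SimpleGraph V), Nat.card V = n → n ≤ N → Sub G → RAC G := by
  induction n using Nat.strong_induction_on with
  | _ n ih =>
    intro V _ G hn hnN hG
    have hV : IH V := by
      intro V' _ G' hlt hG'
      exact ih (Nat.card V') (by omega) V' G' rfl (by omega) hG'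
    by_cases hss : Subsingleton V
    · exact rac_subsingleton G
    rw [not_subsingleton_iff_nontrivial] at hss
    by_cases hc : G.Connected
    · by_cases h3 : ∀ v, (G.neighborSet v).ncard = 3
      · by_cases hcf : G.CliqueFree 3
        · by_cases hcn : ∀ u v, u ≠ v → (G.commonNeighbors u v).ncard ≤ 2
          · by_cases hp : ∀ W x₁ x₂ x₃ q, ¬ PlanePart G W x₁ x₂ x₃ q
            · by_contra hno
              have htri : ∀ x y z, G.Adj x y → G.Adj y z → G.Adj x z → False := by
                intro x y z hxy hyz hxz
                classical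
                exact hcf {x, y, z} (SimpleGraph.is3Clique_triple_iff.2 ⟨hxy, hxz, hyz⟩)
              have hs : ∀ a b c d c' d', G.Adj a b → G.Adj b c → G.Adj c d → G.Adj d a →
                  G.Adj b c' → G.Adj c' d' → G.Adj d' a → a ≠ c → b ≠ d → a ≠ c' → b ≠ d' →
                  c = c' ∧ d = d' := by
                intro a b c d c' d' hab hbc hcd hda hbc' hcd' hda' hac hbd hac' hbd'
                by_contra h
                exact hno
                  (square_case hV h3 hcf hcn hab hbc hcd hda hbc' hcd' hda' hac hbd hac' hbd' h)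
              have hpt : ∀ a b c d q r, G.Adj a c → G.Adj a d → G.Adj b c → G.Adj b d →
                  G.Adj c q → G.Adj q r → G.Adj r d → c ≠ d → a = b := by
                intro a b c d q r hac had hbc hbd hcq hqr hrd hcd
                by_contra hab
                refine hno (pent_case hV h3 hcf hcn hac had hbc hbd hab hcd hcq hrd.symm hqr
                  ?_ ?_ ?_ ?_)
                · rintro rfl
                  exact htri _ _ _ hqr hrd had
                · rintro rfl
                  exact htri _ _ _ hqr hrd hbd
                · rintro rfl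
                  exact htri _ _ _ hac hcq hqr.symm
                · rintro rfl
                  exact htri _ _ _ hbc hcq hqr.symm
              refine hno (H V G (by omega) hc h3 hcf ?_ hp)
              intro a b c d u v q r hsq hu hv huv huq hvr hq hr
              simp only [Set.mem_insert_iff, Set.mem_singleton_iff] at hu hv hq hr ⊢
              obtain ⟨o1, o2, o3⟩ := uni hV h3 hcf hcn hs hpt hno hsq hu hv huv huq hvr hq hr
              exact ⟨o1, o2, fun a' b' c' d' hs' h1 h2 => o3 a' b' c' d' hs' ⟨h1, h2⟩⟩
            · push Not at hp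
              obtain ⟨W, x₁, x₂, x₃, q, hq⟩ := hp
              exact plane_part hV hG hq
          · push Not at hcn
            obtain ⟨u, v, huv, hlt⟩ := hcn
            obtain ⟨x, y, z, hx, hy, hz, hxy, hxz, hyz⟩ := (Set.two_lt_ncard_iff (Set.toFinite _)).1 hlt
            exact common_case hV hG hc hcf hx.1 hy.1 hz.1 hx.2 hy.2 hz.2 huv hxy hxz hyz
        · unfold SimpleGraph.CliqueFree at hcf
          push Not at hcf
          obtain ⟨s, hs⟩ := hcf
          classical
          rw [SimpleGraph.is3Clique_iff] at hs
          obtain ⟨a, b, c, hab, hac, hbc, -⟩ := hs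
          exact triangle_case hV hG hc hab hac hbc
      · push Not at h3
        obtain ⟨v, hv⟩ := h3
        have hle := hG v
        have hcases : (G.neighborSet v).ncard = 0 ∨ (G.neighborSet v).ncard = 1 ∨
            (G.neighborSet v).ncard = 2 := by omega
        rcases hcases with h0 | h1 | h2
        · have he : G.neighborSet v = ∅ := (Set.ncard_eq_zero (Set.toFinite _)).1 h0
          obtain ⟨u, hu⟩ := exists_ne v
          refine disc hV hG {v} ⟨v, rfl⟩ ⟨u, hu⟩ ?_
          intro x hx y _ hxy
          rw [Set.mem_singleton_iff] at hx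
          subst hx
          have : y ∈ G.neighborSet x := hxy
          rw [he] at this
          exact this
        · obtain ⟨u, hu⟩ := Set.ncard_eq_one.1 h1
          exact leaf hV hG hu
        · obtain ⟨a, b, hab, hu⟩ := Set.ncard_eq_two.1 h2
          by_cases hadj : G.Adj a b
          · have hva : G.Adj v a := by
              have : a ∈ G.neighborSet v := by rw [hu]; simp
              exact this
            have hvb : G.Adj v b := by
              have : b ∈ G.neighborSet v := by rw [hu]; simp
              exact this
            exact triangle_case hV hG hc hva hvb hadj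
          · exact two hV hG hu hab hadj
    · have hnp : ¬ G.Preconnected := fun hp => hc ⟨hp⟩
      unfold SimpleGraph.Preconnected at hnp
      push Not at hnp
      obtain ⟨u, v, huv⟩ := hnp
      refine disc hV hG {x | G.Reachable u x} ⟨u, SimpleGraph.Reachable.refl _⟩ ⟨v, huv⟩ ?_
      intro x hx y hy hxy
      exact hy (SimpleGraph.Reachable.trans hx hxy.reachable)

theorem main_six (N : ℕ)
    (H : ∀ (V : Type) [Finite V] (G : SimpleGraph V), Nat.card V ≤ N → G.Connected →
      (∀ v, (G.neighborSet v).ncard = 3) → G.CliqueFree 3 →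
      (∀ a b c d u v q r, IsSquare4 G a b c d → u ∈ ({a, b, c, d} : Set V) →
        v ∈ ({a, b, c, d} : Set V) → u ≠ v → G.Adj u q → G.Adj v r → q ∉ ({a, b, c, d} : Set V) →
        r ∉ ({a, b, c, d} : Set V) → q ≠ r ∧ ¬ G.Adj q r ∧ ∀ a' b' c' d', IsSquare4 G a' b' c' d' →
          q ∈ ({a', b', c', d'} : Set V) → r ∉ ({a', b', c', d'} : Set V)) →
      (∀ W x₁ x₂ x₃ q, ¬ PlanePart G W x₁ x₂ x₃ q) → RAC G) :
    ∀ (V : Type) [Finite V] (G : SimpleGraph V), Nat.card V ≤ N → Sub G → RAC G := by
  intro V _ G hle hG
  exact main_aux N H (Nat.card V) V G rfl hle hG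

end MP_a17342_co.RT
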