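import Pool.Agent.Lib.MP_a17342_co.RT.Good

/-!
# Two squares joined by two edges
-/

set_option autoImplicit false

namespace MP_a17342_co.RT

variable {V : Type}

/-- `a c b d` and `a' c' b' d'` are 4-cycles, `c c'` and `d d'` are edges; the third neighbours of
`a, b, a', b'` are `x, y, x', y'`. -/
structure Sqq (G : SimpleGraph V) (a b c d a' b' c' d' x y x' y' : V) : Prop where
  nd : [a, b, c, d, a', b', c', d'].Nodup
  na : ∀ t, G.Adj a t ↔ t = c ∨ t = d ∨ t = x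
  nb : ∀ t, G.Adj b t ↔ t = c ∨ t = d ∨ t = y
  nc : ∀ t, G.Adj c t ↔ t = a ∨ t = b ∨ t = c'
  ne : ∀ t, G.Adj d t ↔ t = a ∨ t = b ∨ t = d'
  na' : ∀ t, G.Adj a' t ↔ t = c' ∨ t = d' ∨ t = x'
  nb' : ∀ t, G.Adj b' t ↔ t = c' ∨ t = d' ∨ t = y'
  nc' : ∀ t, G.Adj c' t ↔ t = a' ∨ t = b' ∨ t = c
  ne' : ∀ t, G.Adj d' t ↔ t = a' ∨ t = b' ∨ t = d
  ox : x ∉ [a, b, c, d, a', b', c', d']
  oy : y ∉ [a, b, c, d, a', b', c', d']
  ox' : x' ∉ [a, b, c, d, a', b', c', d']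
  oy' : y' ∉ [a, b, c, d, a', b', c', d']
  xy : x ≠ y
  xy' : x' ≠ y'

/-- A collapsed drawing: `a, b, c, d` are on one point, `a', b', c', d'` on another one. -/
structure SqqP (p : V → P) (a b c d a' b' c' d' x y x' y' : V) : Prop where
  cP : ∀ v, p v = p a ↔ v = a ∨ v = b ∨ v = c ∨ v = d
  cQ : ∀ v, p v = p a' ↔ v = a' ∨ v = b' ∨ v = c' ∨ v = d'
  cS : ∀ v u, v ∉ [a, b, c, d, a', b', c', d'] → p v = p u → u = v
  d1 : un (p x - p a) ≠ un (p y - p a)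
  d2 : un (p x - p a) ≠ un (p a' - p a)
  d3 : un (p y - p a) ≠ un (p a' - p a)
  d4 : un (p x' - p a') ≠ un (p y' - p a')
  d5 : un (p x' - p a') ≠ un (p a - p a')
  d6 : un (p y' - p a') ≠ un (p a - p a')

end MP_a17342_co.RT
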