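import Pool.Agent.Lib.MP_a17342_co.RT.SqqG
import Pool.Agent.Lib.MP_a17342_co.RT.SqqC

/-!
# Two 4-cycles joined by two edges between opposite vertices
-/

set_option autoImplicit false

namespace MP_a17342_co.RT

variable {V : Type}

private theorem SqqE_third [Finite V] {G : SimpleGraph V} {v u w : V}
    (h3 : (G.neighborSet v).ncard = 3) (hu : G.Adj v u) (hw : G.Adj v w) (hne : u ≠ w) :
    ∃ x, x ≠ u ∧ x ≠ w ∧ ∀ y, G.Adj v y ↔ y = u ∨ y = w ∨ y = x := by
  have h1 : (G.neighborSet v \ {u, w}).ncard = 1 := by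
    have hsub : ({u, w} : Set V) ⊆ G.neighborSet v := by
      intro z hz
      rcases hz with rfl | hz
      · exact hu
      · rw [Set.mem_singleton_iff] at hz
        rw [hz]
        exact hw
    rw [Set.ncard_sdiff hsub (Set.toFinite _), h3, Set.ncard_pair hne]
  obtain ⟨x, hx⟩ := Set.ncard_eq_one.1 h1
  have hx' : ∀ y, (G.Adj v y ∧ ¬ (y = u ∨ y = w)) ↔ y = x := by
    intro y
    have : y ∈ G.neighborSet v \ {u, w} ↔ y ∈ ({x} : Set V) := by rw [hx]
    simpa using this
  have hxx := (hx' x).2 rfl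
  refine ⟨x, fun h => hxx.2 (Or.inl h), fun h => hxx.2 (Or.inr h), fun y => ⟨fun hy => ?_, ?_⟩⟩
  · by_cases h4 : y = u ∨ y = w
    · rcases h4 with h4 | h4
      · exact Or.inl h4
      · exact Or.inr (Or.inl h4)
    · exact Or.inr (Or.inr ((hx' y).1 ⟨hy, h4⟩))
  · rintro (rfl | rfl | rfl)
    · exact hu
    · exact hw
    · exact hxx.1

private theorem SqqE_full [Finite V] {G : SimpleGraph V} {v u w z : V}
    (h3 : (G.neighborSet v).ncard = 3) (hu : G.Adj v u) (hw : G.Adj v w) (hz : G.Adj v z)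
    (hne : u ≠ w) (huz : z ≠ u) (hwz : z ≠ w) (y : V) : G.Adj v y ↔ y = u ∨ y = w ∨ y = z := by
  obtain ⟨x, _, _, h⟩ := SqqE_third h3 hu hw hne
  rcases (h z).1 hz with h1 | h1 | h1
  · exact absurd h1 huz
  · exact absurd h1 hwz
  · rw [h1]
    exact h y

private theorem SqqE_tri {G : SimpleGraph V} (hf : G.CliqueFree 3) {u v w : V} (h1 : G.Adj u v)
    (h2 : G.Adj u w) (h3 : G.Adj v w) : False := by
  classical
  exact hf {u, v, w} (SimpleGraph.is3Clique_triple_iff.2 ⟨h1, h2, h3⟩)

private theorem SqqE_com [Finite V] {G : SimpleGraph V}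
    (hn : ∀ u v, u ≠ v → (G.commonNeighbors u v).ncard ≤ 2) {u v p q r : V} (huv : u ≠ v)
    (hpq : p ≠ q) (hpr : p ≠ r) (hqr : q ≠ r) (h1 : G.Adj u p) (h2 : G.Adj u q) (h3 : G.Adj u r)
    (h4 : G.Adj v p) (h5 : G.Adj v q) (h6 : G.Adj v r) : False := by
  have hsub : ({p, q, r} : Set V) ⊆ G.commonNeighbors u v := by
    intro z hz
    simp only [Set.mem_insert_iff, Set.mem_singleton_iff] at hz
    rcases hz with rfl | rfl | rfl
    · exact ⟨h1, h4⟩
    · exact ⟨h2, h5⟩
    · exact ⟨h3, h6⟩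
  have hc : ({p, q, r} : Set V).ncard = 3 := Set.ncard_eq_three.2 ⟨p, q, r, hpq, hpr, hqr, rfl⟩
  have := Set.ncard_le_ncard hsub (Set.toFinite _)
  have := hn u v huv
  omega

theorem sqq_case [Finite V] (hV : IH V) {G : SimpleGraph V}
    (h3 : ∀ v, (G.neighborSet v).ncard = 3) (hf : G.CliqueFree 3)
    (hn : ∀ u v, u ≠ v → (G.commonNeighbors u v).ncard ≤ 2)
    (hs : ∀ a b c d c' d', G.Adj a b → G.Adj b c → G.Adj c d → G.Adj d a → G.Adj b c' →
      G.Adj c' d' → G.Adj d' a → a ≠ c → b ≠ d → a ≠ c' → b ≠ d' → c = c' ∧ d = d')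
    {a b c d a' b' c' d' : V}
    (hac : G.Adj a c) (had : G.Adj a d) (hbc : G.Adj b c) (hbd : G.Adj b d) (hab : a ≠ b)
    (hcd : c ≠ d) (hac' : G.Adj a' c') (had' : G.Adj a' d') (hbc' : G.Adj b' c')
    (hbd' : G.Adj b' d') (hab' : a' ≠ b') (hcd' : c' ≠ d') (hcc : G.Adj c c') (hdd : G.Adj d d')
    (hdis : ∀ u ∈ [a, b, c, d], ∀ v ∈ [a', b', c', d'], u ≠ v) : RAC G := by
  have aa : a ≠ a' := hdis a (by simp) a' (by simp)
  have ab : a ≠ b' := hdis a (by simp) b' (by simp)
  have ac : a ≠ c' := hdis a (by simp) c' (by simp)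
  have ad : a ≠ d' := hdis a (by simp) d' (by simp)
  have ba : b ≠ a' := hdis b (by simp) a' (by simp)
  have bb : b ≠ b' := hdis b (by simp) b' (by simp)
  have bc : b ≠ c' := hdis b (by simp) c' (by simp)
  have bd : b ≠ d' := hdis b (by simp) d' (by simp)
  have ca : c ≠ a' := hdis c (by simp) a' (by simp)
  have cb : c ≠ b' := hdis c (by simp) b' (by simp)
  have cc : c ≠ c' := hdis c (by simp) c' (by simp)
  have cd : c ≠ d' := hdis c (by simp) d' (by simp)
  have da : d ≠ a' := hdis d (by simp) a' (by simp)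
  have db : d ≠ b' := hdis d (by simp) b' (by simp)
  have dc : d ≠ c' := hdis d (by simp) c' (by simp)
  have dd : d ≠ d' := hdis d (by simp) d' (by simp)
  have nac := hac.ne
  have nad := had.ne
  have nbc := hbc.ne
  have nbd := hbd.ne
  have nac' := hac'.ne
  have nad' := had'.ne
  have nbc' := hbc'.ne
  have nbd' := hbd'.ne
  have fc := SqqE_full (h3 c) hac.symm hbc.symm hcc hab ac.symm bc.symm
  have fd := SqqE_full (h3 d) had.symm hbd.symm hdd hab ad.symm bd.symm
  have fc' := SqqE_full (h3 c') hac'.symm hbc'.symm hcc.symm hab' ca cb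
  have fd' := SqqE_full (h3 d') had'.symm hbd'.symm hdd.symm hab' da db
  -- no further edges between the eight vertices
  have e1 : ¬ G.Adj a b := fun he => SqqE_tri hf he hac hbc
  have e2 : ¬ G.Adj a' b' := fun he => SqqE_tri hf he hac' hbc'
  have e3 : ¬ G.Adj a a' := fun he =>
    bc (hs a c b d c' a' hac hbc.symm hbd had.symm hcc hac'.symm he.symm hab hcd ac ca).1
  have e4 : ¬ G.Adj a b' := fun he =>
    bc (hs a c b d c' b' hac hbc.symm hbd had.symm hcc hbc'.symm he.symm hab hcd ac cb).1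
  have e5 : ¬ G.Adj b a' := fun he =>
    ac (hs b c a d c' a' hbc hac.symm had hbd.symm hcc hac'.symm he.symm hab.symm hcd bc ca).1
  have e6 : ¬ G.Adj b b' := fun he =>
    ac (hs b c a d c' b' hbc hac.symm had hbd.symm hcc hbc'.symm he.symm hab.symm hcd bc cb).1
  have e7 : ¬ G.Adj a c' := fun he => by
    rcases (fc' a).1 he.symm with h | h | h
    · exact aa h
    · exact ab h
    · exact nac h
  have e8 : ¬ G.Adj a d' := fun he => by
    rcases (fd' a).1 he.symm with h | h | h
    · exact aa h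
    · exact ab h
    · exact nad h
  have e9 : ¬ G.Adj b c' := fun he => by
    rcases (fc' b).1 he.symm with h | h | h
    · exact ba h
    · exact bb h
    · exact nbc h
  have e10 : ¬ G.Adj b d' := fun he => by
    rcases (fd' b).1 he.symm with h | h | h
    · exact ba h
    · exact bb h
    · exact nbd h
  have e11 : ¬ G.Adj a' c := fun he => by
    rcases (fc a').1 he.symm with h | h | h
    · exact aa h.symm
    · exact ba h.symm
    · exact nac' h
  have e12 : ¬ G.Adj a' d := fun he => by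
    rcases (fd a').1 he.symm with h | h | h
    · exact aa h.symm
    · exact ba h.symm
    · exact nad' h
  have e13 : ¬ G.Adj b' c := fun he => by
    rcases (fc b').1 he.symm with h | h | h
    · exact ab h.symm
    · exact bb h.symm
    · exact nbc' h
  have e14 : ¬ G.Adj b' d := fun he => by
    rcases (fd b').1 he.symm with h | h | h
    · exact ab h.symm
    · exact bb h.symm
    · exact nbd' h
  obtain ⟨x, hx1, hx2, nx⟩ := SqqE_third (h3 a) hac had hcd
  obtain ⟨y, hy1, hy2, ny⟩ := SqqE_third (h3 b) hbc hbd hcd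
  obtain ⟨z, hz1, hz2, nz⟩ := SqqE_third (h3 a') hac' had' hcd'
  obtain ⟨w, hw1, hw2, nw⟩ := SqqE_third (h3 b') hbc' hbd' hcd'
  have ax : G.Adj a x := (nx x).2 (Or.inr (Or.inr rfl))
  have ay : G.Adj b y := (ny y).2 (Or.inr (Or.inr rfl))
  have az : G.Adj a' z := (nz z).2 (Or.inr (Or.inr rfl))
  have aw : G.Adj b' w := (nw w).2 (Or.inr (Or.inr rfl))
  have hD : Sqq G a b c d a' b' c' d' x y z w := by
    refine ⟨?_, nx, ny, fc, fd, nz, nw, fc', fd', ?_, ?_, ?_, ?_, ?_, ?_⟩
    · simp only [List.nodup_cons, List.mem_cons, List.not_mem_nil, or_false, not_or,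
        not_false_eq_true, List.nodup_nil, and_true]
      exact ⟨⟨hab, nac, nad, aa, ab, ac, ad⟩, ⟨nbc, nbd, ba, bb, bc, bd⟩,
        ⟨hcd, ca, cb, cc, cd⟩, ⟨da, db, dc, dd⟩, ⟨hab', nac', nad'⟩, ⟨nbc', nbd'⟩, hcd'⟩
    · simp only [List.mem_cons, List.not_mem_nil, or_false, not_or]
      refine ⟨ax.ne', ?_, hx1, hx2, ?_, ?_, ?_, ?_⟩
      · rintro rfl; exact e1 ax
      · rintro rfl; exact e3 ax
      · rintro rfl; exact e4 ax
      · rintro rfl; exact e7 ax
      · rintro rfl; exact e8 ax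
    · simp only [List.mem_cons, List.not_mem_nil, or_false, not_or]
      refine ⟨?_, ay.ne', hy1, hy2, ?_, ?_, ?_, ?_⟩
      · rintro rfl; exact e1 ay.symm
      · rintro rfl; exact e5 ay
      · rintro rfl; exact e6 ay
      · rintro rfl; exact e9 ay
      · rintro rfl; exact e10 ay
    · simp only [List.mem_cons, List.not_mem_nil, or_false, not_or]
      refine ⟨?_, ?_, ?_, ?_, az.ne', ?_, hz1, hz2⟩
      · rintro rfl; exact e3 az.symm
      · rintro rfl; exact e5 az.symm
      · rintro rfl; exact e11 az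
      · rintro rfl; exact e12 az
      · rintro rfl; exact e2 az
    · simp only [List.mem_cons, List.not_mem_nil, or_false, not_or]
      refine ⟨?_, ?_, ?_, ?_, ?_, aw.ne', hw1, hw2⟩
      · rintro rfl; exact e4 aw.symm
      · rintro rfl; exact e6 aw.symm
      · rintro rfl; exact e13 aw
      · rintro rfl; exact e14 aw
      · rintro rfl; exact e2 aw.symm
    · rintro rfl
      exact SqqE_com hn hab hcd hx1.symm hx2.symm hac had ax hbc hbd ay
    · rintro rfl
      exact SqqE_com hn hab' hcd' hz1.symm hz2.symm hac' had' az hbc' hbd' aw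
  have hG : Sub G := fun v => (h3 v).le
  obtain ⟨p, hp, hc⟩ := sqq_coll hV hG hD
  exact sqq_geo hp hD hc

end MP_a17342_co.RT
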