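import Pool.Agent.Lib.MP_a17342_co.RT.Sqq
import Pool.Agent.Lib.MP_a17342_co.RT.BlowG
import Pool.Agent.Lib.MP_a17342_co.RT.LocG
import Pool.Agent.Lib.MP_a17342_co.RT.KConfAll
import Pool.Agent.Lib.MP_a17342_co.RT.Dir

/-!
# Two squares joined by two edges: the drawing
-/

set_option autoImplicit false

namespace MP_a17342_co.RT

variable {V : Type}

private theorem SqqG_smul (D n : P) (t : ℝ) (q : P) : lin D n (t • q) = t • lin D n q := by
  unfold lin
  simp only [Prod.smul_fst, Prod.smul_snd, smul_eq_mul, smul_add, mul_smul]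

private theorem SqqG_east (D n : P) (t : ℝ) : lin D n (t, 0) = t • D := by
  unfold lin
  simp

private theorem SqqG_ne1 {D n x : P} {da : P} (hx : x = lin D n da) (hx0 : x ≠ 0)
    (hd : un x ≠ un D) : da.2 ≠ 0 ∨ da.1 < 0 := by
  by_contra hcon
  push Not at hcon
  obtain ⟨h2, h1⟩ := hcon
  have hda : da = (da.1, 0) := by
    ext
    · rfl
    · exact h2
  rw [hda, SqqG_east] at hx
  rcases eq_or_lt_of_le h1 with h | h
  · apply hx0
    rw [hx, ← h, zero_smul]
  · apply hd
    rw [hx, un_smul h]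

private theorem SqqG_par {D n x y : P} {da db : P} (hx : x = lin D n da) (hy : y = lin D n db)
    (hd : un x ≠ un y) : ∀ t : ℝ, 0 < t → db ≠ t • da := by
  intro t ht e
  apply hd
  rw [hy, e, SqqG_smul, ← hx, un_smul ht]

private theorem SqqG_edge {D n u v : P} (h : u.2 = v.2) :
    lin (-D) n v - lin D n u = (-(v.1 + u.1)) • D := by
  unfold lin
  rw [h, smul_neg, neg_smul, add_smul]
  abel

private theorem SqqG_adj {G : SimpleGraph V} {a b c d x c' : V}
    (na : ∀ t, G.Adj a t ↔ t = c ∨ t = d ∨ t = x)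
    (nc : ∀ t, G.Adj c t ↔ t = a ∨ t = b ∨ t = c')
    (kbc : b ≠ c) (kbd : b ≠ d) (kad : a ≠ d) (kxb : x ≠ b) (kdc' : d ≠ c') :
    ∀ i j : Fin 4, G.Adj (![a, b, c, d] i) (![a, b, c, d] j) → adjK i j := by
  have n01 : ¬ G.Adj a b := by
    intro e
    rcases (na b).mp e with e | e | e
    · exact kbc e
    · exact kbd e
    · exact kxb e.symm
  have n23 : ¬ G.Adj c d := by
    intro e
    rcases (nc d).mp e with e | e | e
    · exact kad e.symm
    · exact kbd e.symm
    · exact kdc' e
  intro i j hij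
  unfold adjK
  fin_cases i <;> fin_cases j
  · exact absurd hij (G.irrefl)
  · exact absurd hij n01
  · exact Or.inl ⟨rfl, rfl⟩
  · exact Or.inr (Or.inr (Or.inl ⟨rfl, rfl⟩))
  · exact absurd hij.symm n01
  · exact absurd hij (G.irrefl)
  · exact Or.inr (Or.inr (Or.inr (Or.inr (Or.inl ⟨rfl, rfl⟩))))
  · exact Or.inr (Or.inr (Or.inr (Or.inr (Or.inr (Or.inr (Or.inl ⟨rfl, rfl⟩))))))
  · exact Or.inr (Or.inl ⟨rfl, rfl⟩)
  · exact Or.inr (Or.inr (Or.inr (Or.inr (Or.inr (Or.inl ⟨rfl, rfl⟩)))))
  · exact absurd hij (G.irrefl)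
  · exact absurd hij n23
  · exact Or.inr (Or.inr (Or.inr (Or.inl ⟨rfl, rfl⟩)))
  · exact Or.inr (Or.inr (Or.inr (Or.inr (Or.inr (Or.inr (Or.inr ⟨rfl, rfl⟩))))))
  · exact absurd hij.symm n23
  · exact absurd hij (G.irrefl)

theorem sqq_geo [Finite V] {G : SimpleGraph V} {p : V → P} (hp : Coll G p)
    {a b c d a' b' c' d' x y x' y' : V} (h : Sqq G a b c d a' b' c' d' x y x' y')
    (hc : SqqP p a b c d a' b' c' d' x y x' y') : RAC G := by
  classical
  have hnd := h.nd
  have ox := h.ox
  have oy := h.oy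
  have ox' := h.ox'
  have oy' := h.oy'
  simp only [List.nodup_cons, List.mem_cons, List.not_mem_nil, or_false, not_or, not_false_eq_true,
    List.nodup_nil, and_true] at hnd ox oy ox' oy'
  obtain ⟨⟨k12, k13, k14, k15, k16, k17, k18⟩, ⟨k23, k24, k25, k26, k27, k28⟩,
    ⟨k34, k35, k36, k37, k38⟩, ⟨k45, k46, k47, k48⟩, ⟨k56, k57, k58⟩, ⟨k67, k68⟩, k78⟩ := hnd
  obtain ⟨u1, u2, u3, u4, u5, u6, u7, u8⟩ := ox
  obtain ⟨v1, v2, v3, v4, v5, v6, v7, v8⟩ := oy
  obtain ⟨w1, w2, w3, w4, w5, w6, w7, w8⟩ := ox'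
  obtain ⟨z1, z2, z3, z4, z5, z6, z7, z8⟩ := oy'
  have pb : p b = p a := (hc.cP b).mpr (Or.inr (Or.inl rfl))
  have pc : p c = p a := (hc.cP c).mpr (Or.inr (Or.inr (Or.inl rfl)))
  have pd : p d = p a := (hc.cP d).mpr (Or.inr (Or.inr (Or.inr rfl)))
  have pb' : p b' = p a' := (hc.cQ b').mpr (Or.inr (Or.inl rfl))
  have pc' : p c' = p a' := (hc.cQ c').mpr (Or.inr (Or.inr (Or.inl rfl)))
  have pd' : p d' = p a' := (hc.cQ d').mpr (Or.inr (Or.inr (Or.inr rfl)))
  have pq : p a' ≠ p a := by
    intro e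
    rcases (hc.cP a').mp e with e | e | e | e
    · exact k15 e.symm
    · exact k25 e.symm
    · exact k35 e.symm
    · exact k45 e.symm
  have px : p x ≠ p a := by
    intro e
    rcases (hc.cP x).mp e with e | e | e | e
    · exact u1 e
    · exact u2 e
    · exact u3 e
    · exact u4 e
  have py : p y ≠ p a := by
    intro e
    rcases (hc.cP y).mp e with e | e | e | e
    · exact v1 e
    · exact v2 e
    · exact v3 e
    · exact v4 e
  have px' : p x' ≠ p a' := by
    intro e
    rcases (hc.cQ x').mp e with e | e | e | e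
    · exact w5 e
    · exact w6 e
    · exact w7 e
    · exact w8 e
  have py' : p y' ≠ p a' := by
    intro e
    rcases (hc.cQ y').mp e with e | e | e | e
    · exact z5 e
    · exact z6 e
    · exact z7 e
    · exact z8 e
  obtain ⟨D, hD⟩ : ∃ D : P, D = p a' - p a := ⟨_, rfl⟩
  have hD0 : D ≠ 0 := by
    rw [hD]
    exact sub_ne_zero.mpr pq
  have hDn : -D = p a - p a' := by rw [hD, neg_sub]
  have hD0' : -D ≠ 0 := neg_ne_zero.mpr hD0
  obtain ⟨n, hn⟩ : ∃ n : P, n = (-D.2, D.1) := ⟨_, rfl⟩
  have h0 : ip D n = 0 := by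
    rw [hn]
    unfold ip
    ring
  have h1 : ip n n = ip D D := by
    rw [hn]
    unfold ip
    ring
  have h0' : ip (-D) n = 0 := by
    rw [hn]
    unfold ip
    simp only [Prod.fst_neg, Prod.snd_neg]
    ring
  have h1' : ip n n = ip (-D) (-D) := by
    rw [hn]
    unfold ip
    simp only [Prod.fst_neg, Prod.snd_neg]
    ring
  obtain ⟨da, hda⟩ := lin_surj hD0 h0 h1 (p x - p a)
  obtain ⟨db, hdb⟩ := lin_surj hD0 h0 h1 (p y - p a)
  obtain ⟨da', hda'⟩ := lin_surj hD0' h0' h1' (p x' - p a')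
  obtain ⟨db', hdb'⟩ := lin_surj hD0' h0' h1' (p y' - p a')
  have ha : da.2 ≠ 0 ∨ da.1 < 0 := SqqG_ne1 hda.symm (sub_ne_zero.mpr px) (by
    rw [hD]
    exact hc.d2)
  have hb : db.2 ≠ 0 ∨ db.1 < 0 := SqqG_ne1 hdb.symm (sub_ne_zero.mpr py) (by
    rw [hD]
    exact hc.d3)
  have ha' : da'.2 ≠ 0 ∨ da'.1 < 0 := SqqG_ne1 hda'.symm (sub_ne_zero.mpr px') (by
    rw [hDn]
    exact hc.d5)
  have hb' : db'.2 ≠ 0 ∨ db'.1 < 0 := SqqG_ne1 hdb'.symm (sub_ne_zero.mpr py') (by
    rw [hDn]
    exact hc.d6)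
  have hab := SqqG_par hda.symm hdb.symm hc.d1
  have hab' := SqqG_par hda'.symm hdb'.symm hc.d4
  obtain ⟨g, hL, ⟨t0, ht0⟩, ⟨t1, ht1⟩, hg2, hg3⟩ := kconf_all ha hb hab
  obtain ⟨g', hM, ⟨t0', ht0'⟩, ⟨t1', ht1'⟩, hg2', hg3'⟩ := kconf_all ha' hb' hab'
  have hL' := loc_lin hL hD0 h0 h1
  have hM' := loc_lin hM hD0' h0' h1'
  let γ : V → P := fun v => if v = a then lin D n (g 0) else if v = b then lin D n (g 1)
    else if v = c then lin D n (g 2) else if v = d then lin D n (g 3)
    else if v = a' then lin (-D) n (g' 0) else if v = b' then lin (-D) n (g' 1)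
    else if v = c' then lin (-D) n (g' 2) else if v = d' then lin (-D) n (g' 3) else 0
  have ga : γ a = lin D n (g 0) := by
    simp only [γ, if_true]
  have gb : γ b = lin D n (g 1) := by
    simp only [γ, if_neg (Ne.symm k12), if_true]
  have gc : γ c = lin D n (g 2) := by
    simp only [γ, if_neg (Ne.symm k13), if_neg (Ne.symm k23), if_true]
  have gd : γ d = lin D n (g 3) := by
    simp only [γ, if_neg (Ne.symm k14), if_neg (Ne.symm k24), if_neg (Ne.symm k34), if_true]
  have ga' : γ a' = lin (-D) n (g' 0) := by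
    simp only [γ, if_neg (Ne.symm k15), if_neg (Ne.symm k25), if_neg (Ne.symm k35),
      if_neg (Ne.symm k45), if_true]
  have gb' : γ b' = lin (-D) n (g' 1) := by
    simp only [γ, if_neg (Ne.symm k16), if_neg (Ne.symm k26), if_neg (Ne.symm k36),
      if_neg (Ne.symm k46), if_neg (Ne.symm k56), if_true]
  have gc' : γ c' = lin (-D) n (g' 2) := by
    simp only [γ, if_neg (Ne.symm k17), if_neg (Ne.symm k27), if_neg (Ne.symm k37),
      if_neg (Ne.symm k47), if_neg (Ne.symm k57), if_neg (Ne.symm k67), if_true]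
  have gd' : γ d' = lin (-D) n (g' 3) := by
    simp only [γ, if_neg (Ne.symm k18), if_neg (Ne.symm k28), if_neg (Ne.symm k38),
      if_neg (Ne.symm k48), if_neg (Ne.symm k58), if_neg (Ne.symm k68), if_neg (Ne.symm k78),
      if_true]
  have gout : ∀ v, v ≠ a → v ≠ b → v ≠ c → v ≠ d → v ≠ a' → v ≠ b' → v ≠ c' → v ≠ d' →
      γ v = 0 := by
    intro v j1 j2 j3 j4 j5 j6 j7 j8
    simp only [γ, if_neg j1, if_neg j2, if_neg j3, if_neg j4, if_neg j5, if_neg j6, if_neg j7,
      if_neg j8]
  have gx : γ x = 0 := gout x u1 u2 u3 u4 u5 u6 u7 u8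
  have gy : γ y = 0 := gout y v1 v2 v3 v4 v5 v6 v7 v8
  have gx' : γ x' = 0 := gout x' w1 w2 w3 w4 w5 w6 w7 w8
  have gy' : γ y' = 0 := gout y' z1 z2 z3 z4 z5 z6 z7 z8
  have ecc : γ c' - γ c = (-((g' 2).1 + (g 2).1)) • (p c' - p c) := by
    rw [gc', gc, pc', pc, SqqG_edge (hg2.trans hg2'.symm), hD]
  have edd : γ d' - γ d = (-((g' 3).1 + (g 3).1)) • (p d' - p d) := by
    rw [gd', gd, pd', pd, SqqG_edge (hg3.trans hg3'.symm), hD]
  have hsym : ∀ u v, (∃ t : ℝ, γ v - γ u = t • (p v - p u)) →
      ∃ t : ℝ, γ u - γ v = t • (p u - p v) := by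
    rintro u v ⟨t, ht⟩
    refine ⟨t, ?_⟩
    rw [← neg_sub (γ v), ht, ← neg_sub (p v) (p u), smul_neg]
  have hdir1 : ∀ u v, (u = a ∨ u = b ∨ u = c ∨ u = d ∨ u = a' ∨ u = b' ∨ u = c' ∨ u = d') →
      G.Adj u v → p u ≠ p v → ∃ t : ℝ, γ v - γ u = t • (p v - p u) := by
    intro u v hu hadj hne
    rcases hu with rfl | rfl | rfl | rfl | rfl | rfl | rfl | rfl
    · rcases (h.na v).mp hadj with rfl | rfl | rfl
      · exact absurd pc.symm hne
      · exact absurd pd.symm hne
      · refine ⟨-t0, ?_⟩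
        rw [gx, ga, ht0, SqqG_smul, hda, zero_sub, neg_smul]
    · rcases (h.nb v).mp hadj with rfl | rfl | rfl
      · exact absurd (pb.trans pc.symm) hne
      · exact absurd (pb.trans pd.symm) hne
      · refine ⟨-t1, ?_⟩
        rw [gy, gb, ht1, SqqG_smul, hdb, zero_sub, neg_smul, pb]
    · rcases (h.nc v).mp hadj with rfl | rfl | rfl
      · exact absurd pc hne
      · exact absurd (pc.trans pb.symm) hne
      · exact ⟨_, ecc⟩
    · rcases (h.ne v).mp hadj with rfl | rfl | rfl
      · exact absurd pd hne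
      · exact absurd (pd.trans pb.symm) hne
      · exact ⟨_, edd⟩
    · rcases (h.na' v).mp hadj with rfl | rfl | rfl
      · exact absurd pc'.symm hne
      · exact absurd pd'.symm hne
      · refine ⟨-t0', ?_⟩
        rw [gx', ga', ht0', SqqG_smul, hda', zero_sub, neg_smul]
    · rcases (h.nb' v).mp hadj with rfl | rfl | rfl
      · exact absurd (pb'.trans pc'.symm) hne
      · exact absurd (pb'.trans pd'.symm) hne
      · refine ⟨-t1', ?_⟩
        rw [gy', gb', ht1', SqqG_smul, hdb', zero_sub, neg_smul, pb']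
    · rcases (h.nc' v).mp hadj with rfl | rfl | rfl
      · exact absurd pc' hne
      · exact absurd (pc'.trans pb'.symm) hne
      · exact hsym _ _ ⟨_, ecc⟩
    · rcases (h.ne' v).mp hadj with rfl | rfl | rfl
      · exact absurd pd' hne
      · exact absurd (pd'.trans pb'.symm) hne
      · exact hsym _ _ ⟨_, edd⟩
  refine blow_g hp γ ?_ ?_
  · intro u v hadj hne
    by_cases hu : u = a ∨ u = b ∨ u = c ∨ u = d ∨ u = a' ∨ u = b' ∨ u = c' ∨ u = d'
    · exact hdir1 u v hu hadj hne
    · by_cases hv : v = a ∨ v = b ∨ v = c ∨ v = d ∨ v = a' ∨ v = b' ∨ v = c' ∨ v = d'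
      · exact hsym _ _ (hdir1 v u hv hadj.symm (Ne.symm hne))
      · push Not at hu hv
        obtain ⟨i1, i2, i3, i4, i5, i6, i7, i8⟩ := hu
        obtain ⟨j1, j2, j3, j4, j5, j6, j7, j8⟩ := hv
        refine ⟨0, ?_⟩
        rw [gout u i1 i2 i3 i4 i5 i6 i7 i8, gout v j1 j2 j3 j4 j5 j6 j7 j8, zero_smul, sub_zero]
  · intro u
    by_cases hP : p u = p a
    · rw [hP]
      refine loc_good hL' ![a, b, c, d] ?_ ?_ ?_ ?_ ?_ ?_
      · intro i j hij
        fin_cases i <;> fin_cases j <;> first | rfl | exact absurd hij k12 | exact absurd hij k13 | exact absurd hij k14 | exact absurd hij k23 | exact absurd hij k24 | exact absurd hij k34 | exact absurd hij.symm k12 | exact absurd hij.symm k13 | exact absurd hij.symm k14 | exact absurd hij.symm k23 | exact absurd hij.symm k24 | exact absurd hij.symm k34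
      · intro i
        fin_cases i
        · exact ga
        · exact gb
        · exact gc
        · exact gd
      · intro i
        fin_cases i
        · rfl
        · exact pb
        · exact pc
        · exact pd
      · exact SqqG_adj h.na h.nc k23 k24 k14 u2 k47
      · intro v hv
        rcases (hc.cP v).mp hv with e | e | e | e
        · exact ⟨0, e⟩
        · exact ⟨1, e⟩
        · exact ⟨2, e⟩
        · exact ⟨3, e⟩
      · intro i v hv hvq
        fin_cases i
        · rcases (h.na v).mp hv with rfl | rfl | rfl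
          · exact absurd pc hvq
          · exact absurd pd hvq
          · exact ⟨da, rfl, hda⟩
        · rcases (h.nb v).mp hv with rfl | rfl | rfl
          · exact absurd pc hvq
          · exact absurd pd hvq
          · exact ⟨db, rfl, hdb⟩
        · rcases (h.nc v).mp hv with rfl | rfl | rfl
          · exact absurd rfl hvq
          · exact absurd pb hvq
          · exact ⟨(1, 0), rfl, by rw [SqqG_east, one_smul, pc', hD]⟩
        · rcases (h.ne v).mp hv with rfl | rfl | rfl
          · exact absurd rfl hvq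
          · exact absurd pb hvq
          · exact ⟨(1, 0), rfl, by rw [SqqG_east, one_smul, pd', hD]⟩
    by_cases hQ : p u = p a'
    · rw [hQ]
      refine loc_good hM' ![a', b', c', d'] ?_ ?_ ?_ ?_ ?_ ?_
      · intro i j hij
        fin_cases i <;> fin_cases j <;> first | rfl | exact absurd hij k56 | exact absurd hij k57 | exact absurd hij k58 | exact absurd hij k67 | exact absurd hij k68 | exact absurd hij k78 | exact absurd hij.symm k56 | exact absurd hij.symm k57 | exact absurd hij.symm k58 | exact absurd hij.symm k67 | exact absurd hij.symm k68 | exact absurd hij.symm k78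
      · intro i
        fin_cases i
        · exact ga'
        · exact gb'
        · exact gc'
        · exact gd'
      · intro i
        fin_cases i
        · rfl
        · exact pb'
        · exact pc'
        · exact pd'
      · exact SqqG_adj h.na' h.nc' k67 k68 k58 w6 (Ne.symm k38)
      · intro v hv
        rcases (hc.cQ v).mp hv with e | e | e | e
        · exact ⟨0, e⟩
        · exact ⟨1, e⟩
        · exact ⟨2, e⟩
        · exact ⟨3, e⟩
      · intro i v hv hvq
        fin_cases i
        · rcases (h.na' v).mp hv with rfl | rfl | rfl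
          · exact absurd pc' hvq
          · exact absurd pd' hvq
          · exact ⟨da', rfl, hda'⟩
        · rcases (h.nb' v).mp hv with rfl | rfl | rfl
          · exact absurd pc' hvq
          · exact absurd pd' hvq
          · exact ⟨db', rfl, hdb'⟩
        · rcases (h.nc' v).mp hv with rfl | rfl | rfl
          · exact absurd rfl hvq
          · exact absurd pb' hvq
          · exact ⟨(1, 0), rfl, by rw [SqqG_east, one_smul, pc, hDn]⟩
        · rcases (h.ne' v).mp hv with rfl | rfl | rfl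
          · exact absurd rfl hvq
          · exact absurd pb' hvq
          · exact ⟨(1, 0), rfl, by rw [SqqG_east, one_smul, pd, hDn]⟩
    · apply sing_good (x := u)
      intro v hv
      refine hc.cS u v ?_ hv.symm
      simp only [List.mem_cons, List.not_mem_nil, or_false, not_or]
      refine ⟨?_, ?_, ?_, ?_, ?_, ?_, ?_, ?_⟩
      · rintro rfl
        exact hP rfl
      · rintro rfl
        exact hP pb
      · rintro rfl
        exact hP pc
      · rintro rfl
        exact hP pd
      · rintro rfl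
        exact hQ rfl
      · rintro rfl
        exact hQ pb'
      · rintro rfl
        exact hQ pc'
      · rintro rfl
        exact hQ pd'

end MP_a17342_co.RT
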