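import Pool.Agent.Lib.MP_a17342_co.RT.Good

/-!
# A square and a pentagon with two common edges
-/

set_option autoImplicit false

namespace MP_a17342_co.RT

variable {V : Type}

/-- `a c b d` is a 4-cycle, the third neighbours `q` of `c` and `r` of `d` are adjacent; the third
neighbours of `a, b, q, r` are `x, y, z, w`. -/
structure Tht (G : SimpleGraph V) (a b c d q r x y z w : V) : Prop where
  nd : [a, b, c, d, q, r].Nodup
  na : ∀ t, G.Adj a t ↔ t = c ∨ t = d ∨ t = x
  nb : ∀ t, G.Adj b t ↔ t = c ∨ t = d ∨ t = y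
  nc : ∀ t, G.Adj c t ↔ t = a ∨ t = b ∨ t = q
  ne : ∀ t, G.Adj d t ↔ t = a ∨ t = b ∨ t = r
  nq : ∀ t, G.Adj q t ↔ t = c ∨ t = r ∨ t = z
  nr : ∀ t, G.Adj r t ↔ t = d ∨ t = q ∨ t = w
  ox : x ∉ [a, b, c, d, q, r]
  oy : y ∉ [a, b, c, d, q, r]
  oz : z ∉ [a, b, c, d, q, r]
  ow : w ∉ [a, b, c, d, q, r]
  xy : x ≠ y
  zw : z ≠ w

/-- A collapsed drawing: `a, b, c, d` are on one point, `q, r` on another one. -/
structure ThtP (p : V → P) (a b c d q r x y z w : V) : Prop where
  cP : ∀ v, p v = p a ↔ v = a ∨ v = b ∨ v = c ∨ v = d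
  cQ : ∀ v, p v = p q ↔ v = q ∨ v = r
  cS : ∀ v u, v ∉ [a, b, c, d, q, r] → p v = p u → u = v
  d1 : un (p x - p a) ≠ un (p y - p a)
  d2 : un (p x - p a) ≠ un (p q - p a)
  d3 : un (p y - p a) ≠ un (p q - p a)
  d4 : un (p z - p q) ≠ un (p w - p q)
  d5 : un (p z - p q) ≠ un (p a - p q)
  d6 : un (p w - p q) ≠ un (p a - p q)

theorem Tht.swap {G : SimpleGraph V} {a b c d q r x y z w : V}
    (h : Tht G a b c d q r x y z w) : Tht G a b d c r q x y w z := by
  have hnd := h.nd
  have o1 := h.ox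
  have o2 := h.oy
  have o3 := h.oz
  have o4 := h.ow
  have e1 := h.na
  have e2 := h.nb
  have e3 := h.nq
  have e4 := h.nr
  simp only [List.nodup_cons, List.mem_cons, List.not_mem_nil, or_false, not_or, not_false_eq_true,
    List.nodup_nil, and_true] at hnd o1 o2 o3 o4
  refine ⟨?_, ?_, ?_, h.ne, h.nc, ?_, ?_, ?_, ?_, ?_, ?_, h.xy, h.zw.symm⟩
  · simp only [List.nodup_cons, List.mem_cons, List.not_mem_nil, or_false, not_or,
      not_false_eq_true, List.nodup_nil, and_true]
    grind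
  · intro t
    rw [e1]
    tauto
  · intro t
    rw [e2]
    tauto
  · intro t
    rw [e4]
  · intro t
    rw [e3]
  all_goals
    simp only [List.nodup_cons, List.mem_cons, List.not_mem_nil, or_false, not_or,
      not_false_eq_true, List.nodup_nil, and_true]
    grind

end MP_a17342_co.RT
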