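import Pool.Agent.Lib.MP_a17342_co.RT.Tht
import Pool.Agent.Lib.MP_a17342_co.RT.BlowG
import Pool.Agent.Lib.MP_a17342_co.RT.LocG
import Pool.Agent.Lib.MP_a17342_co.RT.ConfAll
import Pool.Agent.Lib.MP_a17342_co.RT.KConfAll
import Pool.Agent.Lib.MP_a17342_co.RT.Dir
import Pool.Agent.Lib.MP_a17342_co.RT.DomT

/-!
# A square and a pentagon with two common edges: the drawing
-/

set_option autoImplicit false

namespace MP_a17342_co.RT

variable {V : Type}

private theorem ThtG_smul (D n : P) (t : ℝ) (q : P) : lin D n (t • q) = t • lin D n q := by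
  unfold lin
  simp only [Prod.smul_fst, Prod.smul_snd, smul_eq_mul, smul_add, mul_smul]

private theorem ThtG_sub (D n : P) (q q' : P) : lin D n q - lin D n q' = lin D n (q - q') := by
  unfold lin
  simp only [Prod.fst_sub, Prod.snd_sub, sub_smul]
  abel

private theorem ThtG_zero (D n : P) : lin D n 0 = 0 := by
  unfold lin
  simp

private theorem ThtG_east (D n : P) (t : ℝ) : lin D n (t, 0) = t • D := by
  unfold lin
  simp

private theorem ThtG_ne1 {D n x : P} {da : P} (hx : x = lin D n da) (hx0 : x ≠ 0)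
    (hd : un x ≠ un D) : da.2 ≠ 0 ∨ da.1 < 0 := by
  by_contra hcon
  push Not at hcon
  obtain ⟨h2, h1⟩ := hcon
  have hda : da = (da.1, 0) := by
    ext
    · rfl
    · exact h2
  rw [hda, ThtG_east] at hx
  rcases eq_or_lt_of_le h1 with h | h
  · apply hx0
    rw [hx, ← h, zero_smul]
  · apply hd
    rw [hx, un_smul h]

private theorem ThtG_ne2 {D n x : P} {dc : P} (hx : x = lin D n dc) (hx0 : x ≠ 0)
    (hd : un x ≠ un (-D)) : dc.2 ≠ 0 ∨ 0 < dc.1 := by
  by_contra hcon
  push Not at hcon
  obtain ⟨h2, h1⟩ := hcon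
  have hda : dc = (dc.1, 0) := by
    ext
    · rfl
    · exact h2
  rw [hda, ThtG_east] at hx
  rcases eq_or_lt_of_le h1 with h | h
  · apply hx0
    rw [hx, h, zero_smul]
  · apply hd
    have : x = (-dc.1) • (-D) := by
      rw [hx, neg_smul, smul_neg, neg_neg]
    rw [this, un_smul (by linarith)]

private theorem ThtG_par {D n x y : P} {da db : P} (hx : x = lin D n da) (hy : y = lin D n db)
    (hd : un x ≠ un y) : ∀ t : ℝ, 0 < t → db ≠ t • da := by
  intro t ht e
  apply hd
  rw [hy, e, ThtG_smul, ← hx, un_smul ht]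

private theorem ThtG_swap {p : V → P} {a b c d q r x y z w : V}
    (h : ThtP p a b c d q r x y z w) : ThtP p a b d c r q x y w z := by
  have e3 : p r = p q := (h.cQ r).mpr (Or.inr rfl)
  refine ⟨fun v => ?_, fun v => ?_, fun v u hv => ?_, ?_, ?_, ?_, ?_, ?_, ?_⟩
  · rw [h.cP]
    tauto
  · rw [e3, h.cQ]
    tauto
  · apply h.cS
    simp only [List.mem_cons, List.not_mem_nil, or_false, not_or] at hv ⊢
    tauto
  · exact h.d1
  · rw [e3]
    exact h.d2
  · rw [e3]
    exact h.d3
  · rw [e3]
    exact h.d4.symm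
  · rw [e3]
    exact h.d6
  · rw [e3]
    exact h.d5

theorem tht_one [Finite V] {G : SimpleGraph V} {p : V → P} (hp : Coll G p)
    {a b c d q r x y z w : V} (h : Tht G a b c d q r x y z w)
    (hc : ThtP p a b c d q r x y z w) {n dc dd : P}
    (h0 : ip (p q - p a) n = 0) (h1 : ip n n = ip (p q - p a) (p q - p a))
    (hdc : p z - p q = lin (p q - p a) n dc) (hdd : p w - p q = lin (p q - p a) n dd)
    (h2 : 0 < dd.2) (h3 : ¬ (0 < dc.2 ∧ dc.1 * dd.2 ≤ dd.1 * dc.2)) : RAC G := by
  classical
  have hnd := h.nd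
  have ox := h.ox
  have oy := h.oy
  have oz := h.oz
  have ow := h.ow
  simp only [List.nodup_cons, List.mem_cons, List.not_mem_nil, or_false, not_or, not_false_eq_true,
    List.nodup_nil, and_true] at hnd ox oy oz ow
  obtain ⟨⟨k12, k13, k14, k15, k16⟩, ⟨k23, k24, k25, k26⟩, ⟨k34, k35, k36⟩, ⟨k45, k46⟩, k56⟩ := hnd
  obtain ⟨u1, u2, u3, u4, u5, u6⟩ := ox
  obtain ⟨v1, v2, v3, v4, v5, v6⟩ := oy
  obtain ⟨w1, w2, w3, w4, w5, w6⟩ := oz
  obtain ⟨z1, z2, z3, z4, z5, z6⟩ := ow
  have pb : p b = p a := (hc.cP b).mpr (Or.inr (Or.inl rfl))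
  have pc : p c = p a := (hc.cP c).mpr (Or.inr (Or.inr (Or.inl rfl)))
  have pd : p d = p a := (hc.cP d).mpr (Or.inr (Or.inr (Or.inr rfl)))
  have pr : p r = p q := (hc.cQ r).mpr (Or.inr rfl)
  have pq : p q ≠ p a := by
    intro e
    rcases (hc.cP q).mp e with e | e | e | e
    · exact k15 e.symm
    · exact k25 e.symm
    · exact k35 e.symm
    · exact k45 e.symm
  have px : p x ≠ p a := by
    intro e
    rcases (hc.cP x).mp e with e | e | e | e
    · exact u1 e
    · exact u2 e
    · exact u3 e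
    · exact u4 e
  have py : p y ≠ p a := by
    intro e
    rcases (hc.cP y).mp e with e | e | e | e
    · exact v1 e
    · exact v2 e
    · exact v3 e
    · exact v4 e
  have pz : p z ≠ p q := by
    intro e
    rcases (hc.cQ z).mp e with e | e
    · exact w5 e
    · exact w6 e
  have pw : p w ≠ p q := by
    intro e
    rcases (hc.cQ w).mp e with e | e
    · exact z5 e
    · exact z6 e
  set D : P := p q - p a with hD
  have hD0 : D ≠ 0 := sub_ne_zero.mpr pq
  have hDn : -D = p a - p q := by rw [hD, neg_sub]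
  obtain ⟨da, hda⟩ := lin_surj hD0 h0 h1 (p x - p a)
  obtain ⟨db, hdb⟩ := lin_surj hD0 h0 h1 (p y - p a)
  have ha : da.2 ≠ 0 ∨ da.1 < 0 := ThtG_ne1 hda.symm (sub_ne_zero.mpr px) hc.d2
  have hb : db.2 ≠ 0 ∨ db.1 < 0 := ThtG_ne1 hdb.symm (sub_ne_zero.mpr py) hc.d3
  have hab := ThtG_par hda.symm hdb.symm hc.d1
  have hcc : dc.2 ≠ 0 ∨ 0 < dc.1 := ThtG_ne2 hdc (sub_ne_zero.mpr pz) (by
    rw [hDn]
    exact hc.d5)
  obtain ⟨g, hL, ⟨t0, ht0⟩, ⟨t1, ht1⟩, hg2, hg3⟩ := kconf_all ha hb hab
  have hL' := loc_lin hL hD0 h0 h1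
  have hT := loc_lin (dom_two hcc h2 h3) hD0 h0 h1
  set ρ : P := (dd.1 / dd.2, 1) with hr
  have hrd : ρ = dd.2⁻¹ • dd := by
    rw [hr]
    ext
    · simp only [Prod.smul_fst, smul_eq_mul]
      field_simp
    · simp only [Prod.smul_snd, smul_eq_mul]
      field_simp
  let γ : V → P := fun v => if v = a then lin D n (g 0) else if v = b then lin D n (g 1)
    else if v = c then lin D n (g 2) else if v = d then lin D n (g 3)
    else if v = r then lin D n ρ else 0
  have ga : γ a = lin D n (g 0) := by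
    simp only [γ, if_true]
  have gb : γ b = lin D n (g 1) := by
    simp only [γ, if_neg (Ne.symm k12), if_true]
  have gc : γ c = lin D n (g 2) := by
    simp only [γ, if_neg (Ne.symm k13), if_neg (Ne.symm k23), if_true]
  have gd : γ d = lin D n (g 3) := by
    simp only [γ, if_neg (Ne.symm k14), if_neg (Ne.symm k24), if_neg (Ne.symm k34), if_true]
  have gr : γ r = lin D n ρ := by
    simp only [γ, if_neg (Ne.symm k16), if_neg (Ne.symm k26), if_neg (Ne.symm k36),
      if_neg (Ne.symm k46), if_true]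
  have gq : γ q = 0 := by
    simp only [γ, if_neg (Ne.symm k15), if_neg (Ne.symm k25), if_neg (Ne.symm k35),
      if_neg (Ne.symm k45), if_neg k56]
  have gout : ∀ v, v ≠ a → v ≠ b → v ≠ c → v ≠ d → v ≠ r → γ v = 0 := by
    intro v j1 j2 j3 j4 j5
    simp only [γ, if_neg j1, if_neg j2, if_neg j3, if_neg j4, if_neg j5]
  have gx : γ x = 0 := gout x u1 u2 u3 u4 u6
  have gy : γ y = 0 := gout y v1 v2 v3 v4 v6
  have gz : γ z = 0 := gout z w1 w2 w3 w4 w6
  have gw : γ w = 0 := gout w z1 z2 z3 z4 z6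
  have l2 : lin D n (g 2) = (g 2).1 • D := by
    have : g 2 = ((g 2).1, 0) := by
      ext
      · rfl
      · exact hg2
    rw [this, ThtG_east]
  have l3 : lin D n ρ - lin D n (g 3) = (ρ.1 - (g 3).1) • D := by
    rw [ThtG_sub]
    have : ρ - g 3 = (ρ.1 - (g 3).1, 0) := by
      ext
      · rfl
      · show (1 : ℝ) - (g 3).2 = 0
        rw [hg3, sub_self]
    rw [this, ThtG_east]
  have hdir1 : ∀ u v, (u = a ∨ u = b ∨ u = c ∨ u = d ∨ u = q ∨ u = r) → G.Adj u v →
      p u ≠ p v → ∃ t : ℝ, γ v - γ u = t • (p v - p u) := by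
    intro u v hu hadj hne
    rcases hu with rfl | rfl | rfl | rfl | rfl | rfl
    · rcases (h.na v).mp hadj with rfl | rfl | rfl
      · exact absurd pc.symm hne
      · exact absurd pd.symm hne
      · refine ⟨-t0, ?_⟩
        rw [gx, ga, ht0, ThtG_smul, hda, zero_sub, neg_smul]
    · rcases (h.nb v).mp hadj with rfl | rfl | rfl
      · exact absurd (pb.trans pc.symm) hne
      · exact absurd (pb.trans pd.symm) hne
      · refine ⟨-t1, ?_⟩
        rw [gy, gb, ht1, ThtG_smul, hdb, zero_sub, neg_smul, pb]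
    · rcases (h.nc v).mp hadj with rfl | rfl | rfl
      · exact absurd pc hne
      · exact absurd (pc.trans pb.symm) hne
      · refine ⟨-(g 2).1, ?_⟩
        rw [gq, gc, l2, pc, zero_sub, neg_smul]
    · rcases (h.ne v).mp hadj with rfl | rfl | rfl
      · exact absurd pd hne
      · exact absurd (pd.trans pb.symm) hne
      · refine ⟨ρ.1 - (g 3).1, ?_⟩
        rw [gr, gd, l3, pr, pd]
    · rcases (h.nq v).mp hadj with rfl | rfl | rfl
      · refine ⟨-(g 2).1, ?_⟩
        rw [gq, gc, l2, pc, sub_zero, ← hDn, smul_neg, neg_smul, neg_neg]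
      · exact absurd pr.symm hne
      · refine ⟨0, ?_⟩
        rw [gz, gq, zero_smul, sub_zero]
    · rcases (h.nr v).mp hadj with rfl | rfl | rfl
      · refine ⟨ρ.1 - (g 3).1, ?_⟩
        rw [gr, gd, pr, pd, ← neg_sub (lin D n ρ), l3, ← hDn, smul_neg]
      · exact absurd pr hne
      · refine ⟨-dd.2⁻¹, ?_⟩
        rw [gw, gr, pr, hdd, hrd, ThtG_smul, zero_sub, neg_smul]
  refine blow_g hp γ ?_ ?_
  · intro u v hadj hne
    by_cases hu : u = a ∨ u = b ∨ u = c ∨ u = d ∨ u = q ∨ u = r
    · exact hdir1 u v hu hadj hne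
    · by_cases hv : v = a ∨ v = b ∨ v = c ∨ v = d ∨ v = q ∨ v = r
      · obtain ⟨t, ht⟩ := hdir1 v u hv hadj.symm (Ne.symm hne)
        refine ⟨t, ?_⟩
        rw [← neg_sub (γ u), ht, ← neg_sub (p v) (p u), smul_neg, neg_neg]
      · push Not at hu hv
        refine ⟨0, ?_⟩
        rw [gout u hu.1 hu.2.1 hu.2.2.1 hu.2.2.2.1 hu.2.2.2.2.2,
          gout v hv.1 hv.2.1 hv.2.2.1 hv.2.2.2.1 hv.2.2.2.2.2, zero_smul, sub_zero]
  · intro u
    by_cases hP : p u = p a
    · rw [hP]
      refine loc_good hL' ![a, b, c, d] ?_ ?_ ?_ ?_ ?_ ?_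
      · intro i j hij
        fin_cases i <;> fin_cases j <;> simp_all
      · intro i
        fin_cases i
        · exact ga
        · exact gb
        · exact gc
        · exact gd
      · intro i
        fin_cases i
        · rfl
        · exact pb
        · exact pc
        · exact pd
      · intro i j hij
        have n01 : ¬ G.Adj a b := by
          intro e
          rcases (h.na b).mp e with e | e | e
          · exact k23 e
          · exact k24 e
          · exact u2 e.symm
        have n23 : ¬ G.Adj c d := by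
          intro e
          rcases (h.nc d).mp e with e | e | e
          · exact k14 e.symm
          · exact k24 e.symm
          · exact k45 e
        unfold adjK
        fin_cases i <;> fin_cases j
        · exact absurd hij (G.irrefl)
        · exact absurd hij n01
        · exact Or.inl ⟨rfl, rfl⟩
        · exact Or.inr (Or.inr (Or.inl ⟨rfl, rfl⟩))
        · exact absurd hij.symm n01
        · exact absurd hij (G.irrefl)
        · exact Or.inr (Or.inr (Or.inr (Or.inr (Or.inl ⟨rfl, rfl⟩))))
        · exact Or.inr (Or.inr (Or.inr (Or.inr (Or.inr (Or.inr (Or.inl ⟨rfl, rfl⟩))))))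
        · exact Or.inr (Or.inl ⟨rfl, rfl⟩)
        · exact Or.inr (Or.inr (Or.inr (Or.inr (Or.inr (Or.inl ⟨rfl, rfl⟩)))))
        · exact absurd hij (G.irrefl)
        · exact absurd hij n23
        · exact Or.inr (Or.inr (Or.inr (Or.inl ⟨rfl, rfl⟩)))
        · exact Or.inr (Or.inr (Or.inr (Or.inr (Or.inr (Or.inr (Or.inr ⟨rfl, rfl⟩))))))
        · exact absurd hij.symm n23
        · exact absurd hij (G.irrefl)
      · intro v hv
        rcases (hc.cP v).mp hv with e | e | e | e
        · exact ⟨0, e⟩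
        · exact ⟨1, e⟩
        · exact ⟨2, e⟩
        · exact ⟨3, e⟩
      · intro i v hv hvq
        fin_cases i
        · rcases (h.na v).mp hv with rfl | rfl | rfl
          · exact absurd pc hvq
          · exact absurd pd hvq
          · exact ⟨da, rfl, hda⟩
        · rcases (h.nb v).mp hv with rfl | rfl | rfl
          · exact absurd pc hvq
          · exact absurd pd hvq
          · exact ⟨db, rfl, hdb⟩
        · rcases (h.nc v).mp hv with rfl | rfl | rfl
          · exact absurd rfl hvq
          · exact absurd pb hvq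
          · exact ⟨(1, 0), rfl, by rw [ThtG_east, one_smul]⟩
        · rcases (h.ne v).mp hv with rfl | rfl | rfl
          · exact absurd rfl hvq
          · exact absurd pb hvq
          · exact ⟨(1, 0), rfl, by rw [ThtG_east, one_smul, pr]⟩
    by_cases hQ : p u = p q
    · rw [hQ]
      refine loc_good hT ![q, r] ?_ ?_ ?_ ?_ ?_ ?_
      · intro i j hij
        fin_cases i <;> fin_cases j <;> simp_all
      · intro i
        fin_cases i
        · show γ q = lin D n 0
          rw [gq, ThtG_zero]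
        · exact gr
      · intro i
        fin_cases i
        · rfl
        · exact pr
      · intro i j hij e
        rw [e] at hij
        exact G.irrefl hij
      · intro v hv
        rcases (hc.cQ v).mp hv with e | e
        · exact ⟨0, e⟩
        · exact ⟨1, e⟩
      · intro i v hv hvq
        fin_cases i
        · rcases (h.nq v).mp hv with rfl | rfl | rfl
          · refine ⟨(-1, 0), Or.inr rfl, ?_⟩
            rw [ThtG_east, pc, neg_smul, one_smul, hDn]
          · exact absurd pr hvq
          · exact ⟨dc, Or.inl rfl, hdc.symm⟩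
        · rcases (h.nr v).mp hv with rfl | rfl | rfl
          · refine ⟨(-1, 0), Or.inr rfl, ?_⟩
            rw [ThtG_east, pd, neg_smul, one_smul, hDn]
          · exact absurd rfl hvq
          · exact ⟨dd, Or.inl rfl, hdd.symm⟩
    · apply sing_good (x := u)
      intro v hv
      refine hc.cS u v ?_ hv.symm
      simp only [List.mem_cons, List.not_mem_nil, or_false, not_or]
      refine ⟨?_, ?_, ?_, ?_, ?_, ?_⟩
      · rintro rfl
        exact hP rfl
      · rintro rfl
        exact hP pb
      · rintro rfl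
        exact hP pc
      · rintro rfl
        exact hP pd
      · rintro rfl
        exact hQ rfl
      · rintro rfl
        exact hQ pr

private theorem ThtG_flip {D n : P} {e : ℝ} (he : e * e = 1) (q : P) :
    lin D n q = lin D (e • n) (q.1, e * q.2) := by
  unfold lin
  simp only [smul_smul]
  have : e * q.2 * e = q.2 := by
    rw [mul_comm e q.2, mul_assoc, he, mul_one]
  rw [this]

theorem tht_geo [Finite V] {G : SimpleGraph V} {p : V → P} (hp : Coll G p)
    {a b c d q r x y z w : V} (h : Tht G a b c d q r x y z w)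
    (hc : ThtP p a b c d q r x y z w) : RAC G := by
  have hnd := h.nd
  have oz := h.oz
  have ow := h.ow
  simp only [List.nodup_cons, List.mem_cons, List.not_mem_nil, or_false, not_or, not_false_eq_true,
    List.nodup_nil, and_true] at hnd oz ow
  obtain ⟨⟨k12, k13, k14, k15, k16⟩, ⟨k23, k24, k25, k26⟩, ⟨k34, k35, k36⟩, ⟨k45, k46⟩, k56⟩ := hnd
  obtain ⟨w1, w2, w3, w4, w5, w6⟩ := oz
  obtain ⟨z1, z2, z3, z4, z5, z6⟩ := ow
  have pr : p r = p q := (hc.cQ r).mpr (Or.inr rfl)
  have pq : p q ≠ p a := by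
    intro e
    rcases (hc.cP q).mp e with e | e | e | e
    · exact k15 e.symm
    · exact k25 e.symm
    · exact k35 e.symm
    · exact k45 e.symm
  have pz : p z ≠ p q := by
    intro e
    rcases (hc.cQ z).mp e with e | e
    · exact w5 e
    · exact w6 e
  have pw : p w ≠ p q := by
    intro e
    rcases (hc.cQ w).mp e with e | e
    · exact z5 e
    · exact z6 e
  have hD0 : p q - p a ≠ 0 := sub_ne_zero.mpr pq
  have hDn : -(p q - p a) = p a - p q := by rw [neg_sub]
  set m : P := (-(p q - p a).2, (p q - p a).1) with hm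
  have h0 : ip (p q - p a) m = 0 := by
    rw [hm]
    unfold ip
    ring
  have h1 : ip m m = ip (p q - p a) (p q - p a) := by
    rw [hm]
    unfold ip
    ring
  obtain ⟨dc, hdc⟩ := lin_surj hD0 h0 h1 (p z - p q)
  obtain ⟨dd, hdd⟩ := lin_surj hD0 h0 h1 (p w - p q)
  have hcc : dc.2 ≠ 0 ∨ 0 < dc.1 := ThtG_ne2 hdc.symm (sub_ne_zero.mpr pz) (by
    rw [hDn]
    exact hc.d5)
  have hcd : dd.2 ≠ 0 ∨ 0 < dd.1 := ThtG_ne2 hdd.symm (sub_ne_zero.mpr pw) (by
    rw [hDn]
    exact hc.d6)
  obtain ⟨e, he, hcase⟩ := q_cases hcc hcd (ThtG_par hdc.symm hdd.symm hc.d4)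
  have hee : e * e = 1 := by
    rcases he with rfl | rfl <;> norm_num
  have h0' : ip (p q - p a) (e • m) = 0 := by
    have : ip (p q - p a) (e • m) = e * ip (p q - p a) m := by
      unfold ip
      simp only [Prod.smul_fst, Prod.smul_snd, smul_eq_mul]
      ring
    rw [this, h0, mul_zero]
  have h1' : ip (e • m) (e • m) = ip (p q - p a) (p q - p a) := by
    have : ip (e • m) (e • m) = e * e * ip m m := by
      unfold ip
      simp only [Prod.smul_fst, Prod.smul_snd, smul_eq_mul]
      ring
    rw [this, h1, hee, one_mul]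
  have hdc' : p z - p q = lin (p q - p a) (e • m) (dc.1, e * dc.2) := by
    rw [← ThtG_flip hee, hdc]
  have hdd' : p w - p q = lin (p q - p a) (e • m) (dd.1, e * dd.2) := by
    rw [← ThtG_flip hee, hdd]
  rcases hcase with ⟨c1, c2⟩ | ⟨c1, c2⟩
  · exact tht_one hp h hc h0' h1' hdc' hdd' c1 c2
  · refine tht_one hp h.swap (ThtG_swap hc) (n := e • m) (dc := (dd.1, e * dd.2))
      (dd := (dc.1, e * dc.2)) ?_ ?_ ?_ ?_ c1 c2
    · rw [pr]
      exact h0'
    · rw [pr]
      exact h1'
    · rw [pr]
      exact hdd'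
    · rw [pr]
      exact hdc'

end MP_a17342_co.RT
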