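import Pool.Agent.Lib.MP_a17342_co.RT.BlowC
import Pool.Agent.Lib.MP_a17342_co.RT.Cho

/-!
# A triangle whose outside neighbours are distinct
Plan: W = {a, b, c}, w = a. Each vertex of W has at most one outside neighbour (degree ≤ 3), so the set of outside neighbours has at most three elements:
ctr_card, ctr_sub, hV, choose_units, blow_circ; the last hypothesis is vacuous (two edges of W have a common end).
-/

set_option autoImplicit false

namespace MP_a17342_co.RT

variable {V : Type}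

private theorem Tri_ext {W : Set V} {w : V} {G' : SimpleGraph {x : V // x ∉ W ∨ x = w}}
    (h : RAC G') : ∃ p : V → P, Draws G' (fun x => p x.1) := by
  classical
  obtain ⟨q, hq⟩ := h
  refine ⟨fun v => if hv : v ∉ W ∨ v = w then q ⟨v, hv⟩ else 0, ?_⟩
  have e : (fun x : {x : V // x ∉ W ∨ x = w} =>
      (fun v => if hv : v ∉ W ∨ v = w then q ⟨v, hv⟩ else 0) x.1) = q := by
    funext x
    simp only [dif_pos x.2]
  rw [e]
  exact hq

private theorem Tri_four {x y z t : V} (h1 : x ≠ y) (h2 : x ≠ z) (h3 : x ≠ t) (h4 : y ≠ z)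
    (h5 : y ≠ t) (h6 : z ≠ t) : ({x, y, z, t} : Set V).ncard = 4 := by
  rw [Set.ncard_insert_of_notMem, Set.ncard_insert_of_notMem, Set.ncard_pair h6]
  · simp only [Set.mem_insert_iff, Set.mem_singleton_iff, not_or]
    exact ⟨h4, h5⟩
  · simp only [Set.mem_insert_iff, Set.mem_singleton_iff, not_or]
    exact ⟨h1, h2, h3⟩

private theorem Tri_three (a b c : V) : ({a, b, c} : Set V).ncard ≤ 3 := by
  have h1 := Set.ncard_insert_le a ({b, c} : Set V)
  have h2 := Set.ncard_insert_le b ({c} : Set V)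
  have h3 := Set.ncard_singleton c
  omega

private theorem Tri_one [Finite V] {G : SimpleGraph V} (hG : Sub G) {x u v y y' : V}
    (hxu : G.Adj x u) (hxv : G.Adj x v) (huv : u ≠ v) (hy : G.Adj x y) (hy' : G.Adj x y')
    (h1 : y ≠ u) (h2 : y ≠ v) (h3 : y' ≠ u) (h4 : y' ≠ v) : y = y' := by
  by_contra hne
  have hsub : ({u, v, y, y'} : Set V) ⊆ G.neighborSet x := by
    intro z hz
    simp only [Set.mem_insert_iff, Set.mem_singleton_iff] at hz
    rw [SimpleGraph.mem_neighborSet]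
    rcases hz with rfl | rfl | rfl | rfl <;> assumption
  have hc : ({u, v, y, y'} : Set V).ncard = 4 :=
    Tri_four huv h1.symm h3.symm h2.symm h4.symm hne
  have := Set.ncard_le_ncard hsub (Set.toFinite _)
  have := hG x
  omega

theorem tri [Finite V] (hV : IH V) {G : SimpleGraph V} (hG : Sub G) {a b c : V}
    (hab : G.Adj a b) (hac : G.Adj a c) (hbc : G.Adj b c)
    (h : ∀ y, y ≠ a → y ≠ b → y ≠ c →
      ¬ (G.Adj a y ∧ G.Adj b y) ∧ ¬ (G.Adj a y ∧ G.Adj c y) ∧ ¬ (G.Adj b y ∧ G.Adj c y)) :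
    RAC G := by
  have hba := hab.symm
  have hca := hac.symm
  have hcb := hbc.symm
  have nab := hab.ne
  have nac := hac.ne
  have nbc := hbc.ne
  have hmem : ∀ x : V, x ∈ ({a, b, c} : Set V) ↔ x = a ∨ x = b ∨ x = c := by
    intro x
    simp
  have hnot : ∀ x : V, x ∉ ({a, b, c} : Set V) ↔ x ≠ a ∧ x ≠ b ∧ x ≠ c := by
    intro x
    simp
  have hw : a ∈ ({a, b, c} : Set V) := by simp
  have hone : ∀ x ∈ ({a, b, c} : Set V), ∀ y, y ∉ ({a, b, c} : Set V) →
      ∀ y', y' ∉ ({a, b, c} : Set V) → G.Adj x y → G.Adj x y' → y = y' := by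
    intro x hx y hy y' hy' hxy hxy'
    rw [hnot] at hy hy'
    obtain ⟨ha, hb, hc⟩ := hy
    obtain ⟨ha', hb', hc'⟩ := hy'
    rw [hmem] at hx
    rcases hx with rfl | rfl | rfl
    · exact Tri_one hG hab hac nbc hxy hxy' hb hc hb' hc'
    · exact Tri_one hG hba hbc nac hxy hxy' ha hc ha' hc'
    · exact Tri_one hG hca hcb nab hxy hxy' ha hb ha' hb'
  have huniq : ∀ x ∈ ({a, b, c} : Set V), ∀ x' ∈ ({a, b, c} : Set V), ∀ y,
      y ∉ ({a, b, c} : Set V) → G.Adj x y → G.Adj x' y → x = x' := by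
    intro x hx x' hx' y hy hxy hxy'
    rw [hnot] at hy
    obtain ⟨ha, hb, hc⟩ := hy
    obtain ⟨h1, h2, h3⟩ := h y ha hb hc
    rw [hmem] at hx hx'
    rcases hx with rfl | rfl | rfl <;> rcases hx' with rfl | rfl | rfl
    · rfl
    · exact absurd ⟨hxy, hxy'⟩ h1
    · exact absurd ⟨hxy, hxy'⟩ h2
    · exact absurd ⟨hxy', hxy⟩ h1
    · rfl
    · exact absurd ⟨hxy, hxy'⟩ h3
    · exact absurd ⟨hxy', hxy⟩ h2
    · exact absurd ⟨hxy', hxy⟩ h3
    · rfl
  have hsing : ∀ x ∈ ({a, b, c} : Set V),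
      {y : V | y ∉ ({a, b, c} : Set V) ∧ G.Adj x y}.ncard ≤ 1 := by
    intro x hx
    rw [Set.ncard_le_one (Set.toFinite _)]
    rintro y ⟨hy, hxy⟩ y' ⟨hy', hxy'⟩
    exact hone x hx y hy y' hy' hxy hxy'
  have hW : {y : V | y ∉ ({a, b, c} : Set V) ∧ ∃ x ∈ ({a, b, c} : Set V), G.Adj x y}.ncard ≤ 3 := by
    have hsub : {y : V | y ∉ ({a, b, c} : Set V) ∧ ∃ x ∈ ({a, b, c} : Set V), G.Adj x y} ⊆
        ({y : V | y ∉ ({a, b, c} : Set V) ∧ G.Adj a y} ∪
          {y : V | y ∉ ({a, b, c} : Set V) ∧ G.Adj b y}) ∪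
          {y : V | y ∉ ({a, b, c} : Set V) ∧ G.Adj c y} := by
      rintro y ⟨hy, x, hx, hxy⟩
      rw [hmem] at hx
      rcases hx with rfl | rfl | rfl
      · exact Or.inl (Or.inl ⟨hy, hxy⟩)
      · exact Or.inl (Or.inr ⟨hy, hxy⟩)
      · exact Or.inr ⟨hy, hxy⟩
    have h1 := Set.ncard_le_ncard hsub (Set.toFinite _)
    have h2 := Set.ncard_union_le ({y : V | y ∉ ({a, b, c} : Set V) ∧ G.Adj a y} ∪
          {y : V | y ∉ ({a, b, c} : Set V) ∧ G.Adj b y})
          {y : V | y ∉ ({a, b, c} : Set V) ∧ G.Adj c y}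
    have h3 := Set.ncard_union_le {y : V | y ∉ ({a, b, c} : Set V) ∧ G.Adj a y}
          {y : V | y ∉ ({a, b, c} : Set V) ∧ G.Adj b y}
    have h4 := hsing a (by simp)
    have h5 := hsing b (by simp)
    have h6 := hsing c (by simp)
    omega
  obtain ⟨p, hp⟩ := Tri_ext (hV _ (ctr G {a, b, c} a)
    (ctr_card hw (v := b) (by simp) nab.symm) (ctr_sub hG hw hW))
  obtain ⟨γ, hu, hinj, hout⟩ := choose_units hw huniq hone hp
  refine blow_circ hw huniq hp γ hu hinj hout ?_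
  intro x hx y hy z hz t ht hxy hzt h1 h2 h3 h4 _
  exfalso
  have hsub : ({x, y, z, t} : Set V) ⊆ {a, b, c} := by
    intro v hv
    simp only [Set.mem_insert_iff, Set.mem_singleton_iff] at hv
    rcases hv with rfl | rfl | rfl | rfl
    · exact hx
    · exact hy
    · exact hz
    · exact ht
  have e4 := Tri_four hxy.ne h1 h2 h3 h4 hzt.ne
  have e3 : ({a, b, c} : Set V).ncard ≤ 3 := Tri_three a b c
  have := Set.ncard_le_ncard hsub (Set.toFinite _)
  omega

end MP_a17342_co.RT
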